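import Mathlib
import Pool.Agent.Lib.MP_44a246_ntL.LFF

/-!
Maximal minors of families of vectors with respect to a valuation: definition, change of basis.
-/

namespace Pool.Agent.Lib.MP_44a246_ntS

open Pool.Agent.Lib.MP_44a246_nt
open Pool.Agent.Lib.MP_44a246_ntL
open WithZero

/-- the maximum of the absolute values of the minors of maximal size of the family `a` of vectors
(repeated columns are allowed, they give the minor zero) -/
noncomputable def pl {L : Type*} [Field L] (v : Valuation L ℤᵐ⁰) {ρ ι : Type*} [Fintype ρ]
    [DecidableEq ρ] [Fintype ι] (a : ρ → ι → L) : ℤᵐ⁰ :=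
  vmax v (fun e : ρ → ι => (Matrix.of fun i j => a i (e j)).det)

variable {L : Type*} [Field L] (v : Valuation L ℤᵐ⁰) {ρ ρ' ι : Type*} [Fintype ρ] [DecidableEq ρ]
  [Fintype ρ'] [DecidableEq ρ'] [Fintype ι]

/-- change of basis -/
theorem pl_mul (g : Matrix ρ ρ L) (a : ρ → ι → L) :
    pl v (fun i k => ∑ j, g i j * a j k) = v g.det * pl v a := by
  have hdet : ∀ e : ρ → ι, (Matrix.of fun i j => ∑ l, g i l * a l (e j)).det
      = g.det * (Matrix.of fun i j => a i (e j)).det := by
    intro e
    rw [← Matrix.det_mul]
    congr 1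
  unfold pl
  apply le_antisymm
  · refine vmax_le v fun e => ?_
    rw [hdet e, map_mul]
    exact mul_le_mul_right (le_vmax v (fun e : ρ → ι => (Matrix.of fun i j => a i (e j)).det) e) _
  · by_cases hg : g.det = 0
    · rw [hg, map_zero, zero_mul]
      exact zero_le
    · have hv : v g.det ≠ 0 := (v.ne_zero_iff).mpr hg
      have h1 : vmax v (fun e : ρ → ι => (Matrix.of fun i j => a i (e j)).det)
          ≤ (v g.det)⁻¹ * vmax v (fun e : ρ → ι =>
            (Matrix.of fun i j => ∑ l, g i l * a l (e j)).det) := by
        refine vmax_le v fun e => ?_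
        have h2 := le_vmax v (fun e : ρ → ι =>
            (Matrix.of fun i j => ∑ l, g i l * a l (e j)).det) e
        rw [hdet e, map_mul] at h2
        calc v (Matrix.of fun i j => a i (e j)).det
            = (v g.det)⁻¹ * (v g.det * v (Matrix.of fun i j => a i (e j)).det) := by
              rw [← mul_assoc, inv_mul_cancel₀ hv, one_mul]
          _ ≤ _ := mul_le_mul_right h2 _
      calc v g.det * vmax v (fun e : ρ → ι => (Matrix.of fun i j => a i (e j)).det)
          ≤ v g.det * ((v g.det)⁻¹ * vmax v (fun e : ρ → ι =>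
            (Matrix.of fun i j => ∑ l, g i l * a l (e j)).det)) := mul_le_mul_right h1 _
        _ = _ := by rw [← mul_assoc, mul_inv_cancel₀ hv, one_mul]

/-- families with integral entries -/
theorem pl_le_one {a : ρ → ι → L} (h : ∀ i k, v (a i k) ≤ 1) : pl v a ≤ 1 := by
  unfold pl
  refine vmax_le v fun e => ?_
  rw [Matrix.det_apply]
  refine Valuation.map_sum_le v fun σ _ => ?_
  have h1 : v (∏ i, (Matrix.of fun i j => a i (e j)) (σ i) i) ≤ 1 := by
    rw [map_prod]
    exact Finset.prod_le_one' fun i _ => h _ _
  rcases Int.units_eq_one_or (Equiv.Perm.sign σ) with h2 | h2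
  · rw [h2, one_smul]
    exact h1
  · rw [h2, Units.neg_smul, one_smul, Valuation.map_neg]
    exact h1

theorem pl_reindex (e : ρ ≃ ρ') (a : ρ' → ι → L) : pl v (fun i => a (e i)) = pl v a := by
  unfold pl
  apply le_antisymm
  · refine vmax_le v fun f => ?_
    have h1 := le_vmax v (fun f : ρ' → ι => (Matrix.of fun i j => a i (f j)).det)
      (fun j => f (e.symm j))
    have h2 : (Matrix.of fun i j => a (e i) (f j)).det
        = (Matrix.of fun i j => a i (f (e.symm j))).det := by
      rw [← Matrix.det_submatrix_equiv_self e (Matrix.of fun i j => a i (f (e.symm j)))]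
      congr 1
      ext i j
      simp
    rw [h2]
    exact h1
  · refine vmax_le v fun f => ?_
    have h1 := le_vmax v (fun f : ρ → ι => (Matrix.of fun i j => a (e i) (f j)).det)
      (fun j => f (e j))
    have h2 : (Matrix.of fun i j => a i (f j)).det
        = (Matrix.of fun i j => a (e i) (f (e j))).det := by
      rw [← Matrix.det_submatrix_equiv_self e (Matrix.of fun i j => a i (f j))]
      congr 1
    rw [h2]
    exact h1

end Pool.Agent.Lib.MP_44a246_ntS
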