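import Mathlib
import Pool.Agent.Lib.MP_44a246_ntS.SA1

/-!
Images of families under linear maps, sums of families.
-/

namespace Pool.Agent.Lib.MP_44a246_ntS

open Pool.Agent.Lib.MP_44a246_nt
open Pool.Agent.Lib.MP_44a246_ntL
open WithZero

variable {L : Type*} [Field L] (v : Valuation L ℤᵐ⁰) {ρ ρ' ι ι' : Type*} [Fintype ρ]
  [DecidableEq ρ] [Fintype ρ'] [DecidableEq ρ'] [Fintype ι] [Fintype ι']

private theorem sa3_expand (S : Matrix ι' ι L) (a : ρ → ι → L) (e : ρ → ι') :
    (Matrix.of fun i j => (S.mulVec (a i)) (e j)).det =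
      ∑ f : ρ → ι, (∏ j, S (e j) (f j)) * (Matrix.of fun i j => a i (f j)).det := by
  classical
  have h1 : (Matrix.of fun i j => (S.mulVec (a i)) (e j)).transpose =
      (fun j => ∑ m, S (e j) m • fun i => a i m : ρ → ρ → L) := by
    funext j i
    simp [Matrix.mulVec, dotProduct, Matrix.transpose_apply, Finset.sum_apply]
  rw [← Matrix.det_transpose, h1]
  have h2 := (Matrix.detRowAlternating (n := ρ) (R := L)).toMultilinearMap.map_sum
    (fun (j : ρ) (m : ι) => S (e j) m • fun i => a i m)
  refine Eq.trans h2 ?_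
  refine Finset.sum_congr rfl fun f _ => ?_
  have h3 := (Matrix.detRowAlternating (n := ρ) (R := L)).toMultilinearMap.map_smul_univ
    (fun j => S (e j) (f j)) (fun j i => a i (f j))
  refine Eq.trans h3 ?_
  rw [smul_eq_mul]
  congr 1
  exact Matrix.det_transpose (Matrix.of fun i j => a i (f j))

/-- the images under a linear map with coefficients of absolute value at most `τ` -/
theorem pl_map_le (S : Matrix ι' ι L) {τ : ℤᵐ⁰} (hS : ∀ k m, v (S k m) ≤ τ) (a : ρ → ι → L) :
    pl v (fun i => S.mulVec (a i)) ≤ τ ^ Fintype.card ρ * pl v a := by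
  -- For `e : ρ → ι'` the minor is `det (fun i j => ∑ m, S (e j) m * a i m)`. Expand by
  -- multilinearity in the columns `j` (transpose, `Matrix.detRowAlternating.toMultilinearMap`,
  -- `MultilinearMap.map_sum`, `MultilinearMap.map_smul_univ`):
  -- it is `∑ f : ρ → ι, (∏ j, S (e j) (f j)) * det (fun i j => a i (f j))`.
  -- Each term has value `≤ τ ^ card ρ * pl v a`. (`Valuation.map_sum_le`)
  refine vmax_le v fun e => ?_
  show v ((Matrix.of fun i j => (S.mulVec (a i)) (e j)).det) ≤ _
  rw [sa3_expand]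
  refine Valuation.map_sum_le v fun f _ => ?_
  rw [map_mul, map_prod]
  refine mul_le_mul' ?_ (le_vmax v (x := fun e : ρ → ι =>
    (Matrix.of fun i j => a i (e j)).det) f)
  calc ∏ j, v (S (e j) (f j)) ≤ ∏ _j : ρ, τ := Finset.prod_le_prod' fun j _ => hS _ _
    _ = τ ^ Fintype.card ρ := by rw [Finset.prod_const, Finset.card_univ]

end Pool.Agent.Lib.MP_44a246_ntS
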