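import Mathlib
import Pool.Agent.Lib.MP_44a246_ntS.SA1

/-!
Maximal minors of families of vectors with respect to a valuation: definition, change of basis.
-/

namespace Pool.Agent.Lib.MP_44a246_ntS

open Pool.Agent.Lib.MP_44a246_nt
open Pool.Agent.Lib.MP_44a246_ntL
open WithZero

variable {L : Type*} [Field L] (v : Valuation L ℤᵐ⁰) {ρ ρ' ι : Type*} [Fintype ρ] [DecidableEq ρ]
  [Fintype ρ'] [DecidableEq ρ'] [Fintype ι]

/-- the maximum is positive for linearly independent families -/
theorem pl_ne_zero {a : ρ → ι → L} (ha : LinearIndependent L a) : pl v a ≠ 0 := by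
  have hspan : Submodule.span L (Set.range (fun (k : ι) (i : ρ) => a i k)) = ⊤ := by
    apply Submodule.eq_top_of_finrank_eq
    have h1 := (Matrix.of a).rank_eq_finrank_span_cols
    have h2 : (Matrix.of a).rank = Fintype.card ρ := LinearIndependent.rank_matrix ha
    rw [h2] at h1
    rw [Module.finrank_fintype_fun_eq_card, h1]
    rfl
  obtain ⟨b, hb, hb2, hb3⟩ := exists_linearIndependent L (Set.range (fun (k : ι) (i : ρ) => a i k))
  rw [hspan] at hb2
  have hfin : Finite b := hb3.finite
  let B : Module.Basis b L (ρ → L) := Module.Basis.mk hb3 (by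
    rw [Subtype.range_coe_subtype, Set.ofPred_mem_eq, hb2])
  let B' : Module.Basis ρ L (ρ → L) := Pi.basisFun L ρ
  let E : ρ ≃ b := B'.indexEquiv B
  choose e he using fun j : ρ => hb (E j).2
  rw [pl, Ne, vmax_eq_zero_iff]
  intro h0
  have h1 := congrFun h0 e
  have hli : LinearIndependent L (fun j : ρ => ((E j : b) : ρ → L)) :=
    hb3.comp E E.injective
  have h2 : IsUnit (Matrix.of fun i j => a i (e j) : Matrix ρ ρ L) := by
    rw [← Matrix.linearIndependent_cols_iff_isUnit]
    convert hli using 1
    funext j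
    exact he j
  rw [Matrix.isUnit_iff_isUnit_det] at h2
  exact h2.ne_zero h1

/-- conversely -/
theorem pl_eq_zero {a : ρ → ι → L} (ha : ¬ LinearIndependent L a) : pl v a = 0 := by
  rw [pl, vmax_eq_zero_iff]
  funext e
  by_contra h
  have h1 : IsUnit (Matrix.of fun i j => a i (e j) : Matrix ρ ρ L) := by
    rw [Matrix.isUnit_iff_isUnit_det]
    exact isUnit_iff_ne_zero.mpr h
  rw [← Matrix.linearIndependent_rows_iff_isUnit] at h1
  exact ha (LinearIndependent.of_comp (LinearMap.funLeft L L e) h1)

end Pool.Agent.Lib.MP_44a246_ntS
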