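import Mathlib
import Pool.Agent.Lib.MP_44a246_ntS.SA1b

/-!
Reduced families: every linearly independent family has a reduced basis of its span.
-/

namespace Pool.Agent.Lib.MP_44a246_ntS

open Pool.Agent.Lib.MP_44a246_nt
open Pool.Agent.Lib.MP_44a246_ntL
open WithZero

variable {L : Type*} [Field L] (v : Valuation L ℤᵐ⁰) {ρ ι : Type*} [Fintype ρ] [DecidableEq ρ]
  [Fintype ι]

/-- `b` is reduced with pivots `e` -/
structure Red (b : ρ → ι → L) (e : ρ → ι) : Prop where
  piv : ∀ i j, b i (e j) = if i = j then 1 else 0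
  int : ∀ i k, v (b i k) ≤ 1

/-- every linearly independent family becomes reduced after a change of basis -/
theorem exists_red {a : ρ → ι → L} (ha : LinearIndependent L a) :
    ∃ (g : Matrix ρ ρ L) (e : ρ → ι), g.det ≠ 0 ∧ Red v (fun i k => ∑ j, g i j * a j k) e := by
  classical
  have h0 := pl_ne_zero v ha
  have h1 : (fun e : ρ → ι => (Matrix.of fun i j => a i (e j)).det) ≠ 0 := by
    intro h
    apply h0
    rw [pl, vmax_eq_zero_iff]
    exact h
  obtain ⟨e0, he0⟩ := Function.ne_iff.1 h1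
  obtain ⟨e, -, he⟩ := Finset.exists_max_image (Finset.univ : Finset (ρ → ι))
    (fun e => v (Matrix.of fun i j => a i (e j)).det) ⟨e0, Finset.mem_univ _⟩
  obtain ⟨M, hM⟩ : ∃ M : Matrix ρ ρ L, M = Matrix.of fun i j => a i (e j) := ⟨_, rfl⟩
  have hmax : ∀ e' : ρ → ι, v (Matrix.of fun i j => a i (e' j)).det ≤ v M.det := by
    intro e'
    rw [hM]
    exact he e' (Finset.mem_univ _)
  have hdet : M.det ≠ 0 := by
    intro h
    have h2 := hmax e0
    rw [h, map_zero] at h2
    exact he0 ((Valuation.zero_iff v).1 (le_zero_iff.1 h2))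
  have hu : IsUnit M.det := isUnit_iff_ne_zero.2 hdet
  have hMa : ∀ i j, M i j = a i (e j) := by
    intro i j
    rw [hM, Matrix.of_apply]
  refine ⟨M⁻¹, e, (Matrix.isUnit_nonsing_inv_det M hu).ne_zero, ?_, ?_⟩
  · intro i l
    have h2 : (M⁻¹ * M) i l = (1 : Matrix ρ ρ L) i l := by rw [Matrix.nonsing_inv_mul M hu]
    rw [Matrix.mul_apply, Matrix.one_apply] at h2
    rw [← h2]
    exact Finset.sum_congr rfl fun j _ => by rw [hMa]
  · intro i k
    have h2 : ∑ j, M⁻¹ i j * a j k = M.det⁻¹ * (M.updateCol i (fun j => a j k)).det := by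
      have h3 : ∑ j, M⁻¹ i j * a j k = (M⁻¹.mulVec (fun j => a j k)) i := rfl
      rw [h3, Matrix.inv_def, Matrix.smul_mulVec, ← Matrix.cramer_eq_adjugate_mulVec,
        Pi.smul_apply, Matrix.cramer_apply, Ring.inverse_eq_inv', smul_eq_mul]
    have h4 : M.updateCol i (fun j => a j k)
        = Matrix.of fun i' j' => a i' (Function.update e i k j') := by
      ext i' j'
      rw [Matrix.updateCol_apply, Matrix.of_apply]
      by_cases hj : j' = i
      · rw [if_pos hj, hj, Function.update_self]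
      · rw [if_neg hj, Function.update_of_ne hj, hMa]
    change v (∑ j, M⁻¹ i j * a j k) ≤ 1
    rw [h2, h4, map_mul, map_inv₀]
    have h5 : v M.det ≠ 0 := (Valuation.ne_zero_iff v).2 hdet
    calc (v M.det)⁻¹ * v (Matrix.of fun i' j' => a i' (Function.update e i k j')).det
        ≤ (v M.det)⁻¹ * v M.det := by gcongr; exact hmax _
      _ = 1 := inv_mul_cancel₀ h5

end Pool.Agent.Lib.MP_44a246_ntS
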