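import Mathlib
import Pool.Agent.Lib.MP_44a246_ntS.SA2

/-!
Reduced families: every linearly independent family has a reduced basis of its span.
-/

namespace Pool.Agent.Lib.MP_44a246_ntS

open Pool.Agent.Lib.MP_44a246_nt
open Pool.Agent.Lib.MP_44a246_ntL
open WithZero

variable {L : Type*} [Field L] (v : Valuation L ℤᵐ⁰) {ρ ι : Type*} [Fintype ρ] [DecidableEq ρ]
  [Fintype ι]

theorem Red.pl_eq {b : ρ → ι → L} {e : ρ → ι} (h : Red v b e) : pl v b = 1 := by
  -- `≤`: `pl_le_one`; `≥`: the minor at `e` is the determinant of the identity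
  refine le_antisymm (pl_le_one v h.int) ?_
  have h1 : (Matrix.of fun i j => b i (e j)) = (1 : Matrix ρ ρ L) := by
    ext i j
    rw [Matrix.of_apply, h.piv, Matrix.one_apply]
  have h2 := le_vmax v (fun e : ρ → ι => (Matrix.of fun i j => b i (e j)).det) e
  simp only [h1, Matrix.det_one, map_one] at h2
  exact h2

theorem Red.linearIndependent {b : ρ → ι → L} {e : ρ → ι} (h : Red v b e) :
    LinearIndependent L b := by
  rw [Fintype.linearIndependent_iff]
  intro c hc i
  have := congrFun hc (e i)
  simpa [h.piv] using this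

end Pool.Agent.Lib.MP_44a246_ntS
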