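import Mathlib
import Pool.Agent.Lib.MP_44a246_ntS.SA1b

/-!
Images of families under linear maps, sums of families.
-/

namespace Pool.Agent.Lib.MP_44a246_ntS

open Pool.Agent.Lib.MP_44a246_nt
open Pool.Agent.Lib.MP_44a246_ntL
open WithZero

variable {L : Type*} [Field L] (v : Valuation L ℤᵐ⁰) {ρ ρ' ι ι' : Type*} [Fintype ρ]
  [DecidableEq ρ] [Fintype ρ'] [DecidableEq ρ'] [Fintype ι] [Fintype ι']

theorem pl_sum_zero {a : ρ → ι → L} {b : ρ' → ι → L} (ha : ¬ LinearIndependent L a) :
    pl v (Sum.elim a b) = 0 := by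
  -- `pl_eq_zero`: a subfamily of a linearly independent family is linearly independent
  refine pl_eq_zero v fun h => ha ?_
  have h1 := h.comp Sum.inl Sum.inl_injective
  rwa [Sum.elim_comp_inl] at h1

/-- block diagonal change of basis -/
theorem pl_sum_mul (g : Matrix ρ ρ L) (h : Matrix ρ' ρ' L) (a : ρ → ι → L) (b : ρ' → ι → L) :
    pl v (Sum.elim (fun i k => ∑ j, g i j * a j k) (fun i k => ∑ j, h i j * b j k)) =
      v g.det * v h.det * pl v (Sum.elim a b) := by
  -- `pl_mul` with `Matrix.fromBlocks g 0 0 h`, `Matrix.det_fromBlocks_zero₂₁`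
  have h1 := pl_mul v (Matrix.fromBlocks g 0 0 h) (Sum.elim a b)
  rw [Matrix.det_fromBlocks_zero₂₁, map_mul] at h1
  rw [← h1]
  congr 1
  funext i k
  cases i with
  | inl i => simp [Fintype.sum_sum_type]
  | inr i => simp [Fintype.sum_sum_type]

/-- unipotent change of basis -/
theorem pl_sum_unip (m : Matrix ρ' ρ L) (a : ρ → ι → L) (b : ρ' → ι → L) :
    pl v (Sum.elim a (fun i k => b i k + ∑ j, m i j * a j k)) = pl v (Sum.elim a b) := by
  -- `pl_mul` with `Matrix.fromBlocks 1 0 m 1`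
  have h1 := pl_mul v (Matrix.fromBlocks 1 0 m 1) (Sum.elim a b)
  rw [Matrix.det_fromBlocks_zero₁₂, Matrix.det_one, Matrix.det_one, one_mul, map_one,
    one_mul] at h1
  rw [← h1]
  congr 1
  funext i k
  cases i with
  | inl i => simp [Fintype.sum_sum_type, Matrix.one_apply]
  | inr i => simp [Fintype.sum_sum_type, Matrix.one_apply, add_comm]

end Pool.Agent.Lib.MP_44a246_ntS
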