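import Mathlib
import Pool.Agent.Lib.MP_44a246_ntS.SA2b
import Pool.Agent.Lib.MP_44a246_ntS.SA3b

/-!
Images of families under linear maps, sums of families.
-/

namespace Pool.Agent.Lib.MP_44a246_ntS

open Pool.Agent.Lib.MP_44a246_nt
open Pool.Agent.Lib.MP_44a246_ntL
open WithZero

variable {L : Type*} [Field L] (v : Valuation L ℤᵐ⁰) {ρ ρ' ι ι' : Type*} [Fintype ρ]
  [DecidableEq ρ] [Fintype ρ'] [DecidableEq ρ'] [Fintype ι] [Fintype ι']

/-- submultiplicativity -/
theorem pl_sum_le (a : ρ → ι → L) (b : ρ' → ι → L) :
    pl v (Sum.elim a b) ≤ pl v a * pl v b := by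
  by_cases ha : LinearIndependent L a
  · by_cases hb : LinearIndependent L b
    · obtain ⟨g, e, -, hR⟩ := exists_red v ha
      obtain ⟨h, e', -, hR'⟩ := exists_red v hb
      have h2 : v g.det * v h.det * pl v (Sum.elim a b) ≤ 1 := by
        rw [← pl_sum_mul v g h a b]
        refine pl_le_one v ?_
        rintro (i | i) k
        · exact hR.int i k
        · exact hR'.int i k
      have h3 : v g.det * pl v a = 1 := by
        rw [← pl_mul]
        exact hR.pl_eq
      have h4 : v h.det * pl v b = 1 := by
        rw [← pl_mul]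
        exact hR'.pl_eq
      calc pl v (Sum.elim a b)
          = (v g.det * pl v a) * (v h.det * pl v b) * pl v (Sum.elim a b) := by
            rw [h3, h4, one_mul, one_mul]
        _ = (v g.det * v h.det * pl v (Sum.elim a b)) * (pl v a * pl v b) := by
            ac_rfl
        _ ≤ 1 * (pl v a * pl v b) := mul_le_mul_left h2 _
        _ = pl v a * pl v b := one_mul _
    · have h1 : pl v (Sum.elim a b) = pl v (Sum.elim b a) := by
        rw [← pl_reindex v (Equiv.sumComm ρ' ρ) (Sum.elim a b)]
        congr 1
        funext i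
        rcases i with i | i <;> rfl
      rw [h1, pl_sum_zero v hb]
      exact zero_le
  · rw [pl_sum_zero v ha]
    exact zero_le

/-- equality if the first family is reduced and the second one vanishes at the pivots -/
theorem Red.pl_sum {c : ρ → ι → L} {e : ρ → ι} (hc : Red v c e) {a : ρ' → ι → L}
    (ha : ∀ i j, a i (e j) = 0) : pl v (Sum.elim c a) = pl v a := by
  apply le_antisymm
  · have h := pl_sum_le v c a
    rwa [hc.pl_eq, one_mul] at h
  · refine vmax_le _ fun f => ?_
    have h := le_vmax v (fun e' : ρ ⊕ ρ' → ι =>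
      (Matrix.of fun i j => Sum.elim c a i (e' j)).det) (Sum.elim e f)
    have h1 : (Matrix.of fun i j => Sum.elim c a i (Sum.elim e f j)) =
        Matrix.fromBlocks 1 (Matrix.of fun i j => c i (f j)) 0 (Matrix.of fun i j => a i (f j)) := by
      ext i j
      rcases i with i | i <;> rcases j with j | j
      · simp [hc.piv, Matrix.one_apply]
      · simp
      · simp [ha]
      · simp
    simp only [h1, Matrix.det_fromBlocks_zero₂₁, Matrix.det_one, one_mul] at h
    exact h

end Pool.Agent.Lib.MP_44a246_ntS
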