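import Mathlib
import Pool.Agent.Lib.MP_44a246_ntS.SA3
import Pool.Agent.Lib.MP_44a246_ntS.SA3c

/-!
The local inequality for linear maps between quotients.
-/

namespace Pool.Agent.Lib.MP_44a246_ntS

open Pool.Agent.Lib.MP_44a246_nt
open Pool.Agent.Lib.MP_44a246_ntL
open WithZero

variable {L : Type*} [Field L] (v : Valuation L ℤᵐ⁰) {ρ ρ' σ ι ι' : Type*} [Fintype ρ]
  [DecidableEq ρ] [Fintype ρ'] [DecidableEq ρ'] [Fintype σ] [DecidableEq σ] [Fintype ι]
  [Fintype ι']

/-- the reduced case -/
theorem pl_local_red (T : Matrix ι' ι L) {τ : ℤᵐ⁰} (hT : ∀ k m, v (T k m) ≤ τ) {α : ρ → ι → L}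
    {β : ρ' → ι' → L} {e : ρ → ι} {e' : ρ' → ι'} (hα : Red v α e) (hβ : Red v β e')
    (c : ρ → ρ' → L) (hc : ∀ j k, T.mulVec (α j) k = ∑ l, c j l * β l k) (b : σ → ι → L) :
    pl v (Sum.elim β (fun i => T.mulVec (b i))) ≤
      τ ^ Fintype.card σ * pl v (Sum.elim α b) := by
  set b' : σ → ι → L := fun i k => b i k + ∑ j, (-(b i (e j))) * α j k with hb'
  have h1 : pl v (Sum.elim α b') = pl v (Sum.elim α b) :=
    pl_sum_unip v (fun i j => -(b i (e j))) α b
  have h2 : ∀ i l, b' i (e l) = 0 := by
    intro i l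
    simp only [hb']
    rw [Finset.sum_eq_single l]
    · rw [hα.piv l l, if_pos rfl]; ring
    · intro j _ hj
      rw [hα.piv j l, if_neg hj, mul_zero]
    · intro h; exact absurd (Finset.mem_univ l) h
  have h3 : pl v (Sum.elim α b) = pl v b' := by
    rw [← h1]
    exact Red.pl_sum v hα h2
  have h4 : ∀ i k, T.mulVec (b' i) k =
      T.mulVec (b i) k + ∑ l, (∑ j, (-(b i (e j))) * c j l) * β l k := by
    intro i k
    have h5 : b' i = b i + ∑ j, (-(b i (e j))) • α j := by
      ext k
      simp [hb', Finset.sum_apply]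
    rw [h5, Matrix.mulVec_add, Pi.add_apply, Matrix.mulVec_sum, Finset.sum_apply]
    congr 1
    simp only [Matrix.mulVec_smul, Pi.smul_apply, smul_eq_mul, hc, Finset.mul_sum, Finset.sum_mul]
    rw [Finset.sum_comm]
    apply Finset.sum_congr rfl
    intro l _
    apply Finset.sum_congr rfl
    intro j _
    ring
  have h6 : pl v (Sum.elim β (fun i => T.mulVec (b' i))) =
      pl v (Sum.elim β (fun i => T.mulVec (b i))) := by
    have h7 : (fun i => T.mulVec (b' i)) =
        fun i k => T.mulVec (b i) k + ∑ l, (∑ j, (-(b i (e j))) * c j l) * β l k := by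
      ext i k
      exact h4 i k
    rw [h7]
    exact pl_sum_unip v (fun i l => ∑ j, (-(b i (e j))) * c j l) β (fun i => T.mulVec (b i))
  set S : Matrix ι' ι L := fun k m => T k m - ∑ j, β j k * T (e' j) m with hS
  have h8 : ∀ k m, v (S k m) ≤ τ := by
    intro k m
    simp only [hS]
    refine (Valuation.map_sub v _ _).trans (max_le (hT k m) ?_)
    apply Valuation.map_sum_le
    intro j _
    rw [map_mul]
    calc v (β j k) * v (T (e' j) m) ≤ 1 * τ := mul_le_mul' (hβ.int j k) (hT _ _)
      _ = τ := one_mul _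
  have h9 : ∀ i k, S.mulVec (b' i) k =
      T.mulVec (b' i) k + ∑ j, (-(T.mulVec (b' i) (e' j))) * β j k := by
    intro i k
    have h12 : S.mulVec (b' i) k =
        ∑ m, (T k m * b' i m - ∑ j, β j k * T (e' j) m * b' i m) := by
      show ∑ m, (T k m - ∑ j, β j k * T (e' j) m) * b' i m = _
      apply Finset.sum_congr rfl
      intro m _
      rw [sub_mul, Finset.sum_mul]
    rw [h12, Finset.sum_sub_distrib, sub_eq_add_neg]
    congr 1
    rw [← Finset.sum_neg_distrib, Finset.sum_congr rfl (fun m _ => Finset.sum_neg_distrib _ |>.symm),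
      Finset.sum_comm]
    apply Finset.sum_congr rfl
    intro j _
    show _ = (-(∑ m, T (e' j) m * b' i m)) * β j k
    rw [← Finset.sum_neg_distrib, Finset.sum_mul]
    apply Finset.sum_congr rfl
    intro m _
    ring
  have h10 : pl v (Sum.elim β (fun i => S.mulVec (b' i))) =
      pl v (Sum.elim β (fun i => T.mulVec (b' i))) := by
    have h7 : (fun i => S.mulVec (b' i)) =
        fun i k => T.mulVec (b' i) k + ∑ j, (-(T.mulVec (b' i) (e' j))) * β j k := by
      ext i k
      exact h9 i k
    rw [h7]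
    exact pl_sum_unip v (fun i j => -(T.mulVec (b' i) (e' j))) β (fun i => T.mulVec (b' i))
  have h11 : ∀ i l, (fun i => S.mulVec (b' i)) i (e' l) = 0 := by
    intro i l
    show S.mulVec (b' i) (e' l) = 0
    rw [h9, Finset.sum_eq_single l]
    · rw [hβ.piv l l, if_pos rfl]; ring
    · intro j _ hj
      rw [hβ.piv j l, if_neg hj, mul_zero]
    · intro h; exact absurd (Finset.mem_univ l) h
  rw [← h6, ← h10, Red.pl_sum v hβ h11, h3]
  exact pl_map_le v S h8 b'

/-- the main local inequality: `α` is a basis of a space which is mapped by `T` into the space with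
the basis `β` -/
theorem pl_local (T : Matrix ι' ι L) {τ : ℤᵐ⁰} (hT : ∀ k m, v (T k m) ≤ τ) {α : ρ → ι → L}
    {β : ρ' → ι' → L} (hα : LinearIndependent L α) (hβ : LinearIndependent L β)
    (hTα : ∀ i, T.mulVec (α i) ∈ Submodule.span L (Set.range β)) (b : σ → ι → L) :
    pl v (Sum.elim β (fun i => T.mulVec (b i))) * pl v α ≤
      τ ^ Fintype.card σ * (pl v (Sum.elim α b) * pl v β) := by
  obtain ⟨g, e, hg, hgr⟩ := exists_red v hα
  obtain ⟨h, e', hh, hhr⟩ := exists_red v hβ
  have h1 : ∀ i, ∃ c : ρ' → L, ∑ l, c l • β l = T.mulVec (α i) := fun i =>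
    (Submodule.mem_span_range_iff_exists_fun L).1 (hTα i)
  choose c hc using h1
  -- the coefficients with respect to the reduced bases
  have hhu : IsUnit h.det := isUnit_iff_ne_zero.2 hh
  have h2 : ∀ l k, β l k = ∑ m, h⁻¹ l m * (∑ j, h m j * β j k) := by
    intro l k
    have h3 : (h⁻¹ * h).mulVec (fun j => β j k) l = β l k := by
      rw [Matrix.nonsing_inv_mul h hhu, Matrix.one_mulVec]
    rw [← h3, ← Matrix.mulVec_mulVec]
    rfl
  have h4 : ∀ j k, T.mulVec ((fun i k => ∑ j, g i j * α j k) j) k =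
      ∑ l, (∑ i, ∑ m, g j i * c i m * h⁻¹ m l) * (fun i k => ∑ j, h i j * β j k) l k := by
    intro j k
    have h5 : (fun k => ∑ i, g j i * α i k) = ∑ i, g j i • α i := by
      ext k
      simp [Finset.sum_apply]
    show T.mulVec (fun k => ∑ i, g j i * α i k) k = _
    rw [h5, Matrix.mulVec_sum, Finset.sum_apply]
    have h6 : ∀ i, T.mulVec (g j i • α i) k = ∑ m, g j i * c i m * β m k := by
      intro i
      rw [Matrix.mulVec_smul, Pi.smul_apply, ← hc i, Finset.sum_apply, smul_eq_mul, Finset.mul_sum]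
      apply Finset.sum_congr rfl
      intro m _
      rw [Pi.smul_apply, smul_eq_mul, mul_assoc]
    simp only [h6]
    simp only [Finset.sum_mul]
    rw [Finset.sum_comm' (t' := Finset.univ) (s' := fun _ => Finset.univ) (by simp)]
    rw [Finset.sum_comm]
    rw [Finset.sum_comm (s := Finset.univ) (t := Finset.univ)
      (f := fun l i => ∑ m, g j i * c i m * h⁻¹ m l * ∑ j, h l j * β j k)]
    apply Finset.sum_congr rfl
    intro i _
    rw [Finset.sum_comm]
    apply Finset.sum_congr rfl
    intro m _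
    conv_lhs => rw [h2 m k, Finset.mul_sum]
    apply Finset.sum_congr rfl
    intro l _
    ring
  have h7 := pl_local_red v T hT hgr hhr _ h4 b
  have h8 : pl v (Sum.elim (fun i k => ∑ j, h i j * β j k) (fun i => T.mulVec (b i))) =
      v h.det * pl v (Sum.elim β (fun i => T.mulVec (b i))) := by
    have := pl_sum_mul v h (1 : Matrix σ σ L) β (fun i => T.mulVec (b i))
    rw [Matrix.det_one, map_one, mul_one] at this
    rw [← this]
    congr 3
    ext i k
    simp [Matrix.one_apply]
  have h9 : pl v (Sum.elim (fun i k => ∑ j, g i j * α j k) b) =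
      v g.det * pl v (Sum.elim α b) := by
    have := pl_sum_mul v g (1 : Matrix σ σ L) α b
    rw [Matrix.det_one, map_one, mul_one] at this
    rw [← this]
    congr 3
    ext i k
    simp [Matrix.one_apply]
  have h10 : v g.det * pl v α = 1 := by
    rw [← pl_mul v g α]
    exact Red.pl_eq v hgr
  have h11 : v h.det * pl v β = 1 := by
    rw [← pl_mul v h β]
    exact Red.pl_eq v hhr
  rw [h8, h9] at h7
  have hg0 : v g.det ≠ 0 := (Valuation.ne_zero_iff v).2 hg
  have hh0 : v h.det ≠ 0 := (Valuation.ne_zero_iff v).2 hh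
  calc pl v (Sum.elim β (fun i => T.mulVec (b i))) * pl v α
      = (v h.det * pl v (Sum.elim β (fun i => T.mulVec (b i)))) * pl v α * pl v β := by
        rw [mul_comm (v h.det), mul_assoc, mul_assoc]
        rw [show v h.det * (pl v α * pl v β) = (v h.det * pl v β) * pl v α by
          rw [mul_comm (pl v α), mul_assoc], h11, one_mul]
    _ ≤ (τ ^ Fintype.card σ * (v g.det * pl v (Sum.elim α b))) * pl v α * pl v β :=
        mul_le_mul_left (mul_le_mul_left h7 _) _
    _ = τ ^ Fintype.card σ * (pl v (Sum.elim α b) * pl v β) * (v g.det * pl v α) := by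
        ac_rfl
    _ = τ ^ Fintype.card σ * (pl v (Sum.elim α b) * pl v β) := by rw [h10, mul_one]

end Pool.Agent.Lib.MP_44a246_ntS
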