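import Mathlib
import Pool.Agent.Lib.MP_44a246_ntS.SA1

/-!
Maximal minors of families of vectors with respect to a valuation: definition, change of basis.
-/

namespace Pool.Agent.Lib.MP_44a246_ntS

open Pool.Agent.Lib.MP_44a246_nt
open Pool.Agent.Lib.MP_44a246_ntL
open WithZero

variable {L : Type*} [Field L] (v : Valuation L ℤᵐ⁰) {ρ ρ' ι : Type*} [Fintype ρ] [DecidableEq ρ]
  [Fintype ρ'] [DecidableEq ρ'] [Fintype ι]

/-- a single vector -/
theorem pl_unique [Unique ρ] (a : ρ → ι → L) : pl v a = vmax v (a default) := by
  unfold pl vmax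
  have h : ∀ e : ρ → ι, (Matrix.of fun i j => a i (e j) : Matrix ρ ρ L).det =
      a default (e default) := by
    intro e
    rw [Matrix.det_unique]
    rfl
  apply le_antisymm
  · refine Finset.sup_le fun e _ => ?_
    beta_reduce
    rw [h e]
    exact Finset.le_sup (f := fun j => v (a default j)) (Finset.mem_univ (e default))
  · refine Finset.sup_le fun j _ => ?_
    have h1 := Finset.le_sup (f := fun e : ρ → ι =>
      v ((Matrix.of fun i j => a i (e j) : Matrix ρ ρ L).det)) (Finset.mem_univ (fun _ => j))
    refine le_trans ?_ h1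
    rw [h]

end Pool.Agent.Lib.MP_44a246_ntS
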