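import Mathlib
import Pool.Agent.Lib.MP_44a246_ntS.SA1b

/-!
Heights of subspaces.
-/

namespace Pool.Agent.Lib.MP_44a246_ntS

open Pool.Agent.Lib.MP_44a246_nt
open Pool.Agent.Lib.MP_44a246_ntL
open WithZero

/-- the height of a subspace: the height of the vector of its Pluecker coordinates -/
noncomputable def ht (κ : Type*) {L : Type*} [Field κ] [Field L] [Algebra κ L] {ι : Type*}
    [Fintype ι] (A : Submodule L (ι → L)) : ℤ :=
  ∑ᶠ w : Place κ L, log (pl w.1 (fun i k => (Module.finBasis L A i : ι → L) k))

variable {κ L : Type*} [Field κ] [IsAlgClosed κ] [CharZero κ] [Field L] [Algebra κ L]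
  {ρ ρ' ι : Type*} [Fintype ρ] [DecidableEq ρ] [Fintype ρ'] [DecidableEq ρ'] [Fintype ι]

/-- the local terms vanish for almost all places -/
theorem pl_support (h : IsFF κ L) {a : ρ → ι → L} (ha : LinearIndependent L a) :
    (Function.support fun w : Place κ L => log (pl w.1 a)).Finite := by
  by_cases hx : (fun e : ρ → ι => (Matrix.of fun i j => a i (e j)).det) = 0
  · have h1 : (Function.support fun w : Place κ L => log (pl w.1 a)) = ∅ := by
      rw [Function.support_eq_empty_iff]
      funext w
      exact absurd ((vmax_eq_zero_iff w.1).mpr hx) (pl_ne_zero w.1 ha)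
    rw [h1]
    exact Set.finite_empty
  · exact h.vmax_support hx

/-- two bases of the same space -/
theorem finsum_pl_eq (h : IsFF κ L) {a : ρ → ι → L} {a' : ρ' → ι → L}
    (ha : LinearIndependent L a) (ha' : LinearIndependent L a')
    (hs : Submodule.span L (Set.range a) = Submodule.span L (Set.range a')) :
    ∑ᶠ w : Place κ L, log (pl w.1 a) = ∑ᶠ w : Place κ L, log (pl w.1 a') := by
  let b := Module.Basis.span ha
  let b₁ := (Module.Basis.span ha').map (LinearEquiv.ofEq _ _ hs.symm)
  let e : ρ ≃ ρ' := b.indexEquiv b₁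
  let b' := b₁.reindex e.symm
  have hb : ∀ i, (b i : ι → L) = a i := fun i => by
    simp [b, Module.Basis.span_apply]
  have hb' : ∀ i, (b' i : ι → L) = a' (e i) := fun i => by
    simp [b', b₁, Module.Basis.span_apply]
  let g : Matrix ρ ρ L := (b.toMatrix b').transpose
  have hg : ∀ i k, a' (e i) k = ∑ j, g i j * a j k := by
    intro i k
    have h1 : ∑ j, g i j • b j = b' i := by
      have := b.sum_toMatrix_smul_self b' i
      simpa [g] using this
    have h2 := congrArg (fun x : Submodule.span L (Set.range a) => (x : ι → L) k) h1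
    simp only [Submodule.coe_sum, Submodule.coe_smul, Finset.sum_apply, Pi.smul_apply,
      smul_eq_mul, hb, hb'] at h2
    exact h2.symm
  have hdet : g.det ≠ 0 := by
    have h1 : b.toMatrix b' * b'.toMatrix b = 1 := b.toMatrix_mul_toMatrix_flip b'
    have h2 : (b.toMatrix b').det * (b'.toMatrix b).det = 1 := by
      rw [← Matrix.det_mul, h1, Matrix.det_one]
    intro h0
    rw [Matrix.det_transpose] at h0
    rw [h0, zero_mul] at h2
    exact zero_ne_one h2
  have key : ∀ w : Place κ L, log (pl w.1 a') = log (w.1 g.det) + log (pl w.1 a) := by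
    intro w
    have h1 : pl w.1 a' = w.1 g.det * pl w.1 a := by
      rw [← pl_mul w.1 g a, ← pl_reindex w.1 e a']
      congr 1
      funext i k
      exact hg i k
    rw [h1, log_mul ((w.1.ne_zero_iff).mpr hdet) (pl_ne_zero w.1 ha)]
  rw [finsum_congr key, finsum_add_distrib (h.place_support hdet) (pl_support h ha),
    h.product_formula hdet, zero_add]

end Pool.Agent.Lib.MP_44a246_ntS
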