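import Mathlib
import Pool.Agent.Lib.MP_44a246_ntS.SA1c
import Pool.Agent.Lib.MP_44a246_ntS.SA2b
import Pool.Agent.Lib.MP_44a246_ntS.SB1

/-!
Heights of subspaces.
-/

namespace Pool.Agent.Lib.MP_44a246_ntS

open Pool.Agent.Lib.MP_44a246_nt
open Pool.Agent.Lib.MP_44a246_ntL
open WithZero

variable {κ L : Type*} [Field κ] [IsAlgClosed κ] [CharZero κ] [Field L] [Algebra κ L]
  {ρ ρ' ι : Type*} [Fintype ρ] [DecidableEq ρ] [Fintype ρ'] [DecidableEq ρ'] [Fintype ι]

omit [CharZero κ] [IsAlgClosed κ] [Field κ] [Algebra κ L] in
theorem finBasis_val (A : Submodule L (ι → L)) :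
    LinearIndependent L (fun i k => (Module.finBasis L A i : ι → L) k) ∧
      Submodule.span L (Set.range fun i k => (Module.finBasis L A i : ι → L) k) = A := by
  constructor
  · exact (Module.finBasis L A).linearIndependent.map' A.subtype A.ker_subtype
  · have h1 : (Set.range fun i k => (Module.finBasis L A i : ι → L) k) =
        A.subtype '' Set.range (Module.finBasis L A) := by
      rw [← Set.range_comp]; rfl
    rw [h1, Submodule.span_image, (Module.finBasis L A).span_eq, Submodule.map_top,
      Submodule.range_subtype]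

theorem ht_span (h : IsFF κ L) {a : ρ → ι → L} (ha : LinearIndependent L a) :
    ht κ (Submodule.span L (Set.range a)) = ∑ᶠ w : Place κ L, log (pl w.1 a) := by
  -- `finsum_pl_eq` for `a` and the basis `Module.finBasis`
  obtain ⟨h1, h2⟩ := finBasis_val (Submodule.span L (Set.range a))
  exact finsum_pl_eq h h1 ha h2

theorem ht_nonneg (h : IsFF κ L) (A : Submodule L (ι → L)) : 0 ≤ ht κ A := by
  -- the height of the nonzero vector of the minors, `IsFF.height_nonneg`
  obtain ⟨h1, -⟩ := finBasis_val A
  rcases isEmpty_or_nonempty (Place κ L) with hp | ⟨⟨w⟩⟩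
  · unfold ht
    rw [finsum_of_isEmpty]
  have hne : (fun e : Fin (Module.finrank L A) → ι =>
      (Matrix.of fun i j => (Module.finBasis L A i : ι → L) (e j)).det) ≠ 0 := by
    intro h0
    refine pl_ne_zero w.1 h1 ?_
    unfold pl
    rw [h0, vmax_eq_zero_iff]
  exact h.height_nonneg hne

theorem ht_bot (h : IsFF κ L) : ht κ (⊥ : Submodule L (ι → L)) = 0 := by
  -- the empty family is reduced: `ht_span` with `ρ = Empty` or `Fin 0`, `Matrix.det_isEmpty`
  have h1 := ht_span h (ρ := Empty) (a := (fun i => i.elim : Empty → ι → L))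
    (linearIndependent_empty_type)
  rw [Set.range_eq_empty, Submodule.span_empty] at h1
  rw [h1]
  have h2 : ∀ w : Place κ L, log (pl w.1 (fun i => i.elim : Empty → ι → L)) = 0 := by
    intro w
    have : pl w.1 (fun i => i.elim : Empty → ι → L) = 1 := by
      unfold pl vmax
      simp [Matrix.det_isEmpty]
    rw [this, log_one]
  simp [h2]

theorem ht_top (h : IsFF κ L) : ht κ (⊤ : Submodule L (ι → L)) = 0 := by
  -- `ht_span` for the standard basis `fun i => Pi.single i 1`, which is reduced
  -- (with pivots `id`), `Red.pl_eq`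
  classical
  have h0 := (Pi.basisFun L ι).linearIndependent
  have h1 := ht_span h h0
  rw [(Pi.basisFun L ι).span_eq] at h1
  rw [h1]
  have h2 : ∀ w : Place κ L, log (pl w.1 (Pi.basisFun L ι)) = 0 := by
    intro w
    have hr : Red w.1 (fun i => Pi.basisFun L ι i) id := by
      constructor
      · intro i j
        simp only [Pi.basisFun_apply, id]
        rw [Pi.single_apply]
        simp only [eq_comm]
      · intro i k
        simp only [Pi.basisFun_apply]
        rw [Pi.single_apply]
        split_ifs
        · rw [map_one]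
        · rw [map_zero]; exact zero_le
    rw [hr.pl_eq, log_one]
  simp [h2]

theorem ht_single (h : IsFF κ L) {y : ι → L} (hy : y ≠ 0) :
    ht κ (Submodule.span L {y}) = height κ y := by
  -- `ht_span` for the family `fun _ : Unit => y`, `pl_unique`
  have h1 := ht_span h (ρ := Unit) (a := fun _ => y)
    (linearIndependent_unique_iff.mpr hy)
  rw [Set.range_const] at h1
  rw [h1]
  unfold height
  refine finsum_congr fun w => ?_
  rw [pl_unique]

/-- the height of a sum of one dimensional spaces with bounded heights: it is enough to know the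
local bounds of the vectors -/
theorem ht_single_le (h : IsFF κ L) {y : ι → L} {τ : Place κ L → ℤ}
    (hτ : (Function.support τ).Finite) (hy : ∀ w k, w.1 (y k) ≤ exp (τ w)) :
    y = 0 ∨ ht κ (Submodule.span L {y}) ≤ ∑ᶠ w, τ w := by
  -- `ht_single`, `vmax_le`, `finsum_mono`
  by_cases h0 : y = 0
  · exact Or.inl h0
  right
  rw [ht_single h h0]
  unfold height
  refine finsum_mono (h.vmax_support h0) hτ fun w => ?_
  have h1 : vmax w.1 y ≤ exp (τ w) := vmax_le w.1 fun k => hy w k
  have h2 : vmax w.1 y ≠ 0 := by
    rw [Ne, vmax_eq_zero_iff]; exact h0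
  have := (log_le_log h2 exp_ne_zero).mpr h1
  rwa [log_exp] at this

end Pool.Agent.Lib.MP_44a246_ntS
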