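import Mathlib
import Pool.Agent.Lib.MP_44a246_ntS.SA2b

/-!
Heights of subspaces and linear maps.
-/

namespace Pool.Agent.Lib.MP_44a246_ntS

open Pool.Agent.Lib.MP_44a246_nt
open Pool.Agent.Lib.MP_44a246_ntL
open WithZero Module

variable {κ L : Type*} [Field κ] [IsAlgClosed κ] [CharZero κ] [Field L] [Algebra κ L]
  {ι ι' : Type*} [Fintype ι] [Fintype ι']

omit [IsAlgClosed κ] [CharZero κ] in
/-- dimensions -/
theorem finrank_sup_map {A B : Submodule L (ι → L)} {A' : Submodule L (ι' → L)} (hAB : A ≤ B)
    (f : (ι → L) →ₗ[L] (ι' → L)) (hA : A.map f ≤ A') (hinj : ∀ b ∈ B, f b ∈ A' → b ∈ A) :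
    finrank L (A' ⊔ B.map f : Submodule L (ι' → L)) + finrank L A =
      finrank L A' + finrank L B := by
  have h1 := Submodule.finrank_sup_add_finrank_inf_eq A' (B.map f)
  have h2 : A' ⊓ B.map f = A.map f := by
    apply le_antisymm
    · rintro y ⟨hy1, hy2⟩
      obtain ⟨b, hb, rfl⟩ := hy2
      exact ⟨b, hinj b hb hy1, rfl⟩
    · exact le_inf hA (Submodule.map_mono hAB)
  rw [h2] at h1
  have h3 : ∀ V : Submodule L (ι → L),
      finrank L (V.map f) + finrank L (LinearMap.ker f ⊓ V : Submodule L (ι → L)) =
        finrank L V := by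
    intro V
    have h := LinearMap.finrank_range_add_finrank_ker (f.domRestrict V)
    rw [LinearMap.range_domRestrict] at h
    have e : LinearMap.ker (f.domRestrict V) =
        (LinearMap.ker f ⊓ V).comap V.subtype := by
      ext x
      simp [LinearMap.domRestrict_apply]
    rw [e, (Submodule.comapSubtypeEquivOfLe (inf_le_right : LinearMap.ker f ⊓ V ≤ V)).finrank_eq]
      at h
    exact h
  have h4 : LinearMap.ker f ⊓ A = LinearMap.ker f ⊓ B := by
    apply le_antisymm
    · exact inf_le_inf_left _ hAB
    · rintro x ⟨hx1, hx2⟩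
      refine ⟨hx1, hinj x hx2 ?_⟩
      rw [LinearMap.mem_ker.mp hx1]
      exact A'.zero_mem
  have hA3 := h3 A
  have hB3 := h3 B
  rw [h4] at hA3
  omega

/-- a family which completes a basis of `A` to a basis of `B` -/
theorem exists_compl {A B : Submodule L (ι → L)} (hAB : A ≤ B) :
    ∃ (α : Fin (finrank L A) → ι → L) (b : Fin (finrank L B - finrank L A) → ι → L),
      LinearIndependent L α ∧ Submodule.span L (Set.range α) = A ∧
      LinearIndependent L (Sum.elim α b) ∧ Submodule.span L (Set.range (Sum.elim α b)) = B := by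
  obtain ⟨D, hD⟩ := Submodule.exists_isCompl A
  set C : Submodule L (ι → L) := D ⊓ B with hC
  have hdis : Disjoint A C := hD.disjoint.mono_right inf_le_left
  have hsup : A ⊔ C = B := by
    rw [hC, ← sup_inf_assoc_of_le D hAB, hD.sup_eq_top, top_inf_eq]
  have hfin : finrank L C = finrank L B - finrank L A := by
    have h := Submodule.finrank_sup_add_finrank_inf_eq A C
    rw [hsup, disjoint_iff.mp hdis, finrank_bot] at h
    omega
  let α := Module.finBasis L A
  let b := Module.finBasisOfFinrankEq L C hfin
  have hα : Submodule.span L (Set.range fun i => (α i : ι → L)) = A := by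
    have h := α.span_eq
    have h' := congrArg (Submodule.map A.subtype) h
    rw [Submodule.map_span, Submodule.map_top, Submodule.range_subtype, ← Set.range_comp] at h'
    exact h'
  have hb : Submodule.span L (Set.range fun i => (b i : ι → L)) = C := by
    have h := b.span_eq
    have h' := congrArg (Submodule.map C.subtype) h
    rw [Submodule.map_span, Submodule.map_top, Submodule.range_subtype, ← Set.range_comp] at h'
    exact h'
  have hiα : LinearIndependent L fun i => (α i : ι → L) :=
    α.linearIndependent.map' A.subtype (Submodule.ker_subtype A)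
  have hib : LinearIndependent L fun i => (b i : ι → L) :=
    b.linearIndependent.map' C.subtype (Submodule.ker_subtype C)
  refine ⟨fun i => (α i : ι → L), fun i => (b i : ι → L), hiα, hα, ?_, ?_⟩
  · apply LinearIndependent.sum_type hiα hib
    rw [hα, hb]
    exact hdis
  · rw [Set.Sum.elim_range, Submodule.span_union, hα, hb, hsup]

end Pool.Agent.Lib.MP_44a246_ntS
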