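import Mathlib
import Pool.Agent.Lib.MP_44a246_ntS.SA4
import Pool.Agent.Lib.MP_44a246_ntS.SB1b
import Pool.Agent.Lib.MP_44a246_ntS.SB2

/-!
Heights of subspaces and linear maps.
-/

namespace Pool.Agent.Lib.MP_44a246_ntS

open Pool.Agent.Lib.MP_44a246_nt
open Pool.Agent.Lib.MP_44a246_ntL
open WithZero Module

variable {κ L : Type*} [Field κ] [IsAlgClosed κ] [CharZero κ] [Field L] [Algebra κ L]
  {ι ι' : Type*} [Fintype ι] [Fintype ι']

/-- a basis of a subspace as a family of vectors -/
theorem SB2b_basis {ι' : Type*} [Fintype ι'] (A' : Submodule L (ι' → L)) :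
    ∃ β : Fin (finrank L A') → ι' → L, LinearIndependent L β ∧
      Submodule.span L (Set.range β) = A' := by
  let B := Module.finBasis L A'
  refine ⟨fun i => (B i : ι' → L), ?_, ?_⟩
  · exact B.linearIndependent.map' A'.subtype (Submodule.ker_subtype A')
  · have h := B.span_eq
    have h2 := congrArg (Submodule.map A'.subtype) h
    rw [Submodule.map_span, Submodule.map_top, Submodule.range_subtype, ← Set.range_comp] at h2
    exact h2

/-- **The main global inequality.** Let `A ≤ B`, let `T` map `A` into `A'` and induce an injective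
map `B / A → (ι' → L) / A'`. -/
theorem ht_map (h : IsFF κ L) (T : Matrix ι' ι L) {τ : Place κ L → ℤ}
    (hτ : (Function.support τ).Finite) (hT : ∀ w k m, w.1 (T k m) ≤ exp (τ w))
    {A B : Submodule L (ι → L)} {A' : Submodule L (ι' → L)} (hAB : A ≤ B)
    (hA : A.map T.mulVecLin ≤ A') (hinj : ∀ b ∈ B, T.mulVec b ∈ A' → b ∈ A) :
    ht κ (A' ⊔ B.map T.mulVecLin) + ht κ A ≤
      ht κ B + ht κ A' + (∑ᶠ w, τ w) * ((finrank L B : ℤ) - finrank L A) := by
  obtain ⟨α, b, hα, hαs, hαb, hαbs⟩ := exists_compl hAB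
  obtain ⟨β, hβ, hβs⟩ := SB2b_basis A'
  let γ : Fin (finrank L A') ⊕ Fin (finrank L B - finrank L A) → ι' → L :=
    Sum.elim β (fun i => T.mulVec (b i))
  have hfr := finrank_sup_map hAB T.mulVecLin hA (fun x hx hx' => hinj x hx hx')
  have hle : finrank L A ≤ finrank L B := Submodule.finrank_mono hAB
  have hγs : Submodule.span L (Set.range γ) = A' ⊔ B.map T.mulVecLin := by
    have e1 : Set.range γ = Set.range β ∪ T.mulVecLin '' Set.range b := by
      rw [Set.Sum.elim_range, ← Set.range_comp]
      rfl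
    rw [e1, Submodule.span_union, hβs, ← Submodule.map_span]
    have e2 : B.map T.mulVecLin = A.map T.mulVecLin ⊔
        (Submodule.span L (Set.range b)).map T.mulVecLin := by
      have e3 : B = A ⊔ Submodule.span L (Set.range b) := by
        refine hαbs.symm.trans ?_
        rw [Set.Sum.elim_range, Submodule.span_union, hαs]
      refine (congrArg (Submodule.map T.mulVecLin) e3).trans ?_
      rw [Submodule.map_sup]
    rw [e2, ← sup_assoc, sup_eq_left.mpr hA]
  have hγ : LinearIndependent L γ := by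
    rw [linearIndependent_iff_card_eq_finrank_span, Set.finrank, hγs, Fintype.card_sum,
      Fintype.card_fin, Fintype.card_fin]
    omega
  have hTα : ∀ i, T.mulVec (α i) ∈ Submodule.span L (Set.range β) := by
    intro i
    rw [hβs]
    apply hA
    refine ⟨α i, ?_, rfl⟩
    rw [← hαs]
    exact Submodule.subset_span ⟨i, rfl⟩
  have t1 : ht κ (A' ⊔ B.map T.mulVecLin) = ∑ᶠ w : Place κ L, log (pl w.1 γ) := by
    rw [← hγs, ht_span h hγ]
  have t2 : ht κ A = ∑ᶠ w : Place κ L, log (pl w.1 α) := by
    rw [← ht_span h hα, hαs]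
  have t3 : ht κ A' = ∑ᶠ w : Place κ L, log (pl w.1 β) := by
    rw [← ht_span h hβ, hβs]
  have t4 : ht κ B = ∑ᶠ w : Place κ L, log (pl w.1 (Sum.elim α b)) := by
    rw [← ht_span h hαb, hαbs]
  rw [t1, t2, t3, t4]
  have key : ∀ w : Place κ L, log (pl w.1 γ) + log (pl w.1 α) ≤
      (log (pl w.1 (Sum.elim α b)) + log (pl w.1 β)) +
        τ w * ((finrank L B : ℤ) - finrank L A) := by
    intro w
    have h1 := pl_local w.1 T (hT w) hα hβ hTα b
    have n1 := pl_ne_zero w.1 hγ
    have n2 := pl_ne_zero w.1 hα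
    have n3 := pl_ne_zero w.1 hβ
    have n4 := pl_ne_zero w.1 hαb
    have n5 : (exp (τ w) : ℤᵐ⁰) ^ Fintype.card (Fin (finrank L B - finrank L A)) ≠ 0 :=
      pow_ne_zero _ exp_ne_zero
    have h2 := log_le_log (mul_ne_zero n1 n2) (mul_ne_zero n5 (mul_ne_zero n4 n3)) |>.mpr h1
    rw [log_mul n1 n2, log_mul n5 (mul_ne_zero n4 n3), log_mul n4 n3, log_pow, log_exp,
      Fintype.card_fin, nsmul_eq_mul, Nat.cast_sub hle] at h2
    linarith
  have s1 := pl_support h hγ
  have s2 := pl_support h hα
  have s3 := pl_support h hβ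
  have s4 := pl_support h hαb
  have s5 : (Function.support fun w => τ w * ((finrank L B : ℤ) - finrank L A)).Finite :=
    hτ.subset (Function.support_mul_subset_left _ _)
  have s34 := (s4.union s3).subset (Function.support_add
    (fun w : Place κ L => log (pl w.1 (Sum.elim α b))) (fun w : Place κ L => log (pl w.1 β)))
  have h3 := finsum_mono ((s1.union s2).subset (Function.support_add
    (fun w : Place κ L => log (pl w.1 γ)) (fun w : Place κ L => log (pl w.1 α))))
    ((s34.union s5).subset (Function.support_add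
    (fun w : Place κ L => log (pl w.1 (Sum.elim α b)) + log (pl w.1 β))
    (fun w => τ w * ((finrank L B : ℤ) - finrank L A)))) key
  rw [finsum_add_distrib s1 s2, finsum_add_distrib s34 s5, finsum_add_distrib s4 s3,
    ← finsum_mul] at h3
  exact h3

end Pool.Agent.Lib.MP_44a246_ntS
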