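import Mathlib
import Pool.Agent.Lib.MP_44a246_ntS.SB2b

/-!
Heights of subspaces and linear maps.
-/

namespace Pool.Agent.Lib.MP_44a246_ntS

open Pool.Agent.Lib.MP_44a246_nt
open Pool.Agent.Lib.MP_44a246_ntL
open WithZero Module

variable {κ L : Type*} [Field κ] [IsAlgClosed κ] [CharZero κ] [Field L] [Algebra κ L]
  {ι ι' : Type*} [Fintype ι] [Fintype ι']

/-- constant matrices -/
theorem const_le_exp (c : κ) (w : Place κ L) : w.1 (algebraMap κ L c) ≤ exp (0 : ℤ) := by
  rw [exp_zero]
  by_cases hc : c = 0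
  · subst hc
    rw [map_zero, map_zero]
    exact zero_le
  · exact (w.2.2 c hc).le

/-- the main inequality for constant matrices -/
theorem ht_map_const (h : IsFF κ L) (T : Matrix ι' ι κ) {A B : Submodule L (ι → L)}
    {A' : Submodule L (ι' → L)} (hAB : A ≤ B)
    (hA : A.map (T.map (algebraMap κ L)).mulVecLin ≤ A')
    (hinj : ∀ b ∈ B, (T.map (algebraMap κ L)).mulVec b ∈ A' → b ∈ A) :
    ht κ (A' ⊔ B.map (T.map (algebraMap κ L)).mulVecLin) + ht κ A ≤ ht κ B + ht κ A' := by
  have := ht_map h (T.map (algebraMap κ L)) (τ := fun _ => 0) (by simp)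
    (fun w k m => const_le_exp (T k m) w) hAB hA hinj
  simpa using this

/-- the image under a constant matrix has smaller height -/
theorem ht_map_const_le (h : IsFF κ L) (T : Matrix ι' ι κ) (B : Submodule L (ι → L)) :
    ht κ (B.map (T.map (algebraMap κ L)).mulVecLin) ≤ ht κ B := by
  have h1 := ht_map_const h T (A := B ⊓ LinearMap.ker (T.map (algebraMap κ L)).mulVecLin) (B := B)
    (A' := ⊥) inf_le_left (by
      rintro _ ⟨x, hx, rfl⟩
      exact (Submodule.mem_bot L).mpr (LinearMap.mem_ker.mp hx.2)) (by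
      intro b hb hb'
      exact ⟨hb, LinearMap.mem_ker.mpr ((Submodule.mem_bot L).mp hb')⟩)
  rw [bot_sup_eq, ht_bot h] at h1
  have h2 := ht_nonneg h (B ⊓ LinearMap.ker (T.map (algebraMap κ L)).mulVecLin)
  linarith

/-- submodularity -/
theorem ht_sup_inf (h : IsFF κ L) (A B : Submodule L (ι → L)) :
    ht κ (A ⊔ B) + ht κ (A ⊓ B) ≤ ht κ A + ht κ B := by
  classical
  have e : ((1 : Matrix ι ι κ).map (algebraMap κ L)) = 1 := by
    rw [Matrix.map_one _ (map_zero _) (map_one _)]
  have h1 := ht_map_const h (1 : Matrix ι ι κ) (A := A ⊓ B) (B := B) (A' := A) inf_le_right (by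
      rw [e, Matrix.mulVecLin_one, Submodule.map_id]
      exact inf_le_left) (by
      intro b hb hb'
      rw [e, Matrix.one_mulVec] at hb'
      exact ⟨hb', hb⟩)
  rw [e, Matrix.mulVecLin_one, Submodule.map_id] at h1
  linarith

theorem ht_sup_le (h : IsFF κ L) (A B : Submodule L (ι → L)) :
    ht κ (A ⊔ B) ≤ ht κ A + ht κ B := by
  have h1 := ht_sup_inf h A B
  have h2 := ht_nonneg h (A ⊓ B)
  linarith

theorem ht_finset_sup_le (h : IsFF κ L) {γ : Type*} (S : Finset γ)
    (A : γ → Submodule L (ι → L)) : ht κ (S.sup A) ≤ ∑ i ∈ S, ht κ (A i) := by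
  classical
  induction S using Finset.induction_on with
  | empty => rw [Finset.sup_empty, ht_bot h, Finset.sum_empty]
  | insert a S ha ih =>
    rw [Finset.sup_insert, Finset.sum_insert ha]
    exact (ht_sup_le h _ _).trans (by linarith)

end Pool.Agent.Lib.MP_44a246_ntS
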