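import Mathlib
import Pool.Agent.Lib.MP_44a246_ntL.LPol

/-!
The data of the height theorem: a point of a hypersurface, derivations dual to the coefficients of
the hypersurface, the projection to the plane, the combinations of the derivations given by the
monomials of the plane.
-/

namespace Pool.Agent.Lib.MP_44a246_ntS

open Pool.Agent.Lib.MP_44a246_nt
open Pool.Agent.Lib.MP_44a246_ntL
open Pool.Agent.Lib.MP_e52354_nt
open WithZero Module

/-- A zero `x` (normalised by `∑ ξ₀ j x j = 1`) of the form of degree `d` with coefficients `a`,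
derivations `D I` dual to the coefficients, constants `z` and derivations `E` dual to `z` which
kill `x`; the linear forms `ξ₀, ξ₁` with natural coefficients do not vanish simultaneously at `x`
at any place. -/
structure Dat (κ : Type*) {L : Type*} [Field κ] [Field L] [Algebra κ L] (n d : ℕ) where
  a : (Fin (n + 1) →₀ ℕ) → L
  D : (Fin (n + 1) →₀ ℕ) → Derivation ℤ L L
  δ : Place κ L → ℕ
  x : Fin (n + 1) → L
  z : Fin (n + 1) → κ
  E : Fin (n + 1) → Derivation ℤ L L
  ξ₀ : Fin (n + 1) → ℕ
  ξ₁ : Fin (n + 1) → ℕ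
  hDa : ∀ I ∈ expo (Fin (n + 1)) d, ∀ J ∈ expo (Fin (n + 1)) d,
    D I (a J) = if I = J then 1 else 0
  hδ : (Function.support δ).Finite
  hD : ∀ I ∈ expo (Fin (n + 1)) d, PoleBound κ (D I) δ
  hE : ∀ j, PoleBound κ (E j) δ
  hEz : ∀ i j, E i (algebraMap κ L (z j)) = if i = j then 1 else 0
  hEx : ∀ i j, E i (x j) = 0
  h0 : ∑ j, (ξ₀ j : L) * x j = 1
  hF : Fval d a x = 0
  hmax : ∀ w : Place κ L, vmax w.1 x ≤ max 1 (w.1 (∑ j, (ξ₁ j : L) * x j))

namespace Dat

variable {κ L : Type*} [Field κ] [Field L] [Algebra κ L] {n d : ℕ} (X : Dat κ (L := L) n d)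

/-- the first affine coordinate of the projection to the plane -/
noncomputable def y₁ : L := ∑ j, (X.ξ₁ j : L) * X.x j

/-- the second affine coordinate of the projection to the plane -/
noncomputable def y : L := ∑ j, algebraMap κ L (X.z j) * X.x j

/-- the point of the plane -/
noncomputable def p : Fin 3 → L := ![1, X.y₁, X.y]

/-- the total size of the poles -/
noncomputable def Δ : ℤ := ∑ᶠ w, (X.δ w : ℤ)

theorem Δ_nonneg : 0 ≤ X.Δ := by
  unfold Δ
  exact finsum_nonneg fun w => Int.natCast_nonneg _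

theorem x_ne_zero : X.x ≠ 0 := by
  intro h
  have h1 := X.h0
  rw [h] at h1
  simp at h1

theorem p_ne_zero : X.p ≠ 0 := by
  intro h
  have h1 := congrFun h 0
  simp [p] at h1

end Dat

end Pool.Agent.Lib.MP_44a246_ntS
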