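import Mathlib

/-!
Namespaces opened by the files of this directory.
-/

namespace Pool.Agent.Lib.MP_44a246_nt

end Pool.Agent.Lib.MP_44a246_nt

namespace Pool.Agent.Lib.MP_44a246_ntL

end Pool.Agent.Lib.MP_44a246_ntL

namespace Pool.Agent.Lib.MP_44a246_ntS

end Pool.Agent.Lib.MP_44a246_ntS

namespace Pool.Agent.Lib.MP_44a246_ntV

end Pool.Agent.Lib.MP_44a246_ntV

namespace Pool.Agent.Lib.MP_44a246_ntW

end Pool.Agent.Lib.MP_44a246_ntW

namespace Pool.Agent.Lib.MP_e52354_nt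

end Pool.Agent.Lib.MP_e52354_nt
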