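import Mathlib
import Pool.Agent.Lib.MP_44a246_nt.LocalDet
import Pool.Agent.Lib.MP_44a246_ntS.Names

/-!
Functionals on forms of a given degree in three variables: contraction by forms.
-/

namespace Pool.Agent.Lib.MP_44a246_ntS

open Pool.Agent.Lib.MP_44a246_nt
open Pool.Agent.Lib.MP_44a246_ntL
open Pool.Agent.Lib.MP_e52354_nt
open WithZero Module MvPolynomial

/-- monomials of degree `s` in three variables -/
abbrev M3 (s : ℕ) : Type := ↥(expo (Fin 3) s)

theorem card_M3 (s : ℕ) : Fintype.card (M3 s) = (s + 1) * (s + 2) / 2 := by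
  -- `Finset.card_finsuppAntidiag` ... or an explicit bijection with `{(i, j) : i + j ≤ s}`;
  -- `Fintype.card_coe`, `expo = Finset.finsuppAntidiag univ s`; number of weak compositions:
  -- `Nat.choose (s + 2) 2`
  rw [Fintype.card_coe, expo, Finset.card_finsuppAntidiag_nat_eq_choose]
  simp only [Finset.card_univ, Fintype.card_fin]
  have h1 : 3 + s - 1 = s + 2 := by omega
  rw [h1, ← Nat.choose_symm (by omega : s ≤ s + 2)]
  have h2 : s + 2 - s = 2 := by omega
  rw [h2, Nat.choose_two_right]
  congr 1
  have h3 : s + 2 - 1 = s + 1 := by omega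
  rw [h3, mul_comm]

end Pool.Agent.Lib.MP_44a246_ntS
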