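import Mathlib
import Pool.Agent.Lib.MP_44a246_ntS.SD1
import Pool.Agent.Lib.MP_44a246_ntS.Names

/-!
Functionals on forms of a given degree in three variables: contraction by forms.
-/

namespace Pool.Agent.Lib.MP_44a246_ntS

open Pool.Agent.Lib.MP_44a246_nt
open Pool.Agent.Lib.MP_44a246_ntL
open Pool.Agent.Lib.MP_e52354_nt
open WithZero Module MvPolynomial

section

variable {R : Type*} [CommRing R]

/-- evaluation at `p`: the vector of all monomials -/
noncomputable def xi (s : ℕ) (p : Fin 3 → R) : M3 s → R := fun I => ∏ j, p j ^ I.1 j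

/-- the pairing of a polynomial with a functional on forms of degree `s` -/
noncomputable def pr {s : ℕ} (G : MvPolynomial (Fin 3) R) (u : M3 s → R) : R :=
  ∑ I : M3 s, G.coeff I.1 * u I

/-- contraction by `P`, from functionals on forms of degree `s` to functionals on forms of degree
`s'`, as a matrix -/
noncomputable def ctr (P : MvPolynomial (Fin 3) R) (s' s : ℕ) : Matrix (M3 s') (M3 s) R :=
  Matrix.of fun K M => if K.1 ≤ M.1 then P.coeff (M.1 - K.1) else 0

theorem pr_add {s : ℕ} (G G' : MvPolynomial (Fin 3) R) (u : M3 s → R) :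
    pr (G + G') u = pr G u + pr G' u := by
  simp only [pr, coeff_add, add_mul, Finset.sum_add_distrib]

theorem pr_smul {s : ℕ} (c : R) (G : MvPolynomial (Fin 3) R) (u : M3 s → R) :
    pr (c • G) u = c * pr G u := by
  simp only [pr, coeff_smul, smul_eq_mul, Finset.mul_sum, mul_assoc]

theorem pr_add_right {s : ℕ} (G : MvPolynomial (Fin 3) R) (u u' : M3 s → R) :
    pr G (u + u') = pr G u + pr G u' := by
  simp only [pr, Pi.add_apply, mul_add, Finset.sum_add_distrib]

theorem pr_smul_right {s : ℕ} (c : R) (G : MvPolynomial (Fin 3) R) (u : M3 s → R) :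
    pr G (c • u) = c * pr G u := by
  simp only [pr, Pi.smul_apply, smul_eq_mul, Finset.mul_sum]
  exact Finset.sum_congr rfl fun I _ => by ring

theorem pr_monomial {s : ℕ} (I : M3 s) (u : M3 s → R) : pr (monomial I.1 (1 : R)) u = u I := by
  classical
  unfold pr
  rw [Finset.sum_eq_single I]
  · rw [coeff_monomial, if_pos rfl, one_mul]
  · intro J _ hJ
    rw [coeff_monomial, if_neg (fun h => hJ (Subtype.ext h.symm)), zero_mul]
  · intro h
    exact absurd (Finset.mem_univ I) h

/-- a functional is determined by its values on forms of degree `s` -/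
theorem eq_zero_of_pr {s : ℕ} {u : M3 s → R}
    (h : ∀ G : MvPolynomial (Fin 3) R, G.IsHomogeneous s → pr G u = 0) : u = 0 := by
  funext I
  have h1 := h (monomial I.1 (1 : R)) (isHomogeneous_monomial _ (mem_expo.1 I.2))
  rw [pr_monomial] at h1
  exact h1

/-- evaluation -/
theorem pr_xi {s : ℕ} {G : MvPolynomial (Fin 3) R} (hG : G.IsHomogeneous s) (p : Fin 3 → R) :
    pr G (xi s p) = eval p G := by
  classical
  rw [eval_eq' p G]
  unfold pr xi
  have h1 : ∀ I ∈ G.support, I ∈ expo (Fin 3) s := fun I hI =>
    mem_expo.2 (by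
      have := hG (mem_support_iff.1 hI)
      simpa [Finsupp.weight_apply, Finsupp.degree_apply, Finsupp.sum] using this)
  refine (Finset.sum_coe_sort (expo (Fin 3) s) (fun I => G.coeff I * ∏ j, p j ^ I j)).trans ?_
  symm
  apply Finset.sum_subset h1
  intro I _ hI
  rw [notMem_support_iff.1 hI, zero_mul]

end

end Pool.Agent.Lib.MP_44a246_ntS
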