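import Mathlib
import Pool.Agent.Lib.MP_44a246_ntS.SD2
import Pool.Agent.Lib.MP_44a246_ntS.SH1

/-!
The data of the height theorem: a point of a hypersurface, derivations dual to the coefficients of
the hypersurface, the projection to the plane, the combinations of the derivations given by the
monomials of the plane.
-/

namespace Pool.Agent.Lib.MP_44a246_ntS

open Pool.Agent.Lib.MP_44a246_nt
open Pool.Agent.Lib.MP_44a246_ntL
open Pool.Agent.Lib.MP_e52354_nt
open WithZero Module

namespace Dat

variable {κ L : Type*} [Field κ] [Field L] [Algebra κ L] {n d : ℕ} (X : Dat κ (L := L) n d)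

/-- the three linear forms defining the projection to the plane -/
noncomputable def lf (i : Fin 3) : MvPolynomial (Fin (n + 1)) κ :=
  ![∑ j, MvPolynomial.C (X.ξ₀ j : κ) * MvPolynomial.X j,
    ∑ j, MvPolynomial.C (X.ξ₁ j : κ) * MvPolynomial.X j,
    ∑ j, MvPolynomial.C (X.z j) * MvPolynomial.X j] i

/-- the monomial with exponent `K` in the three linear forms -/
noncomputable def Kf (K : M3 d) : MvPolynomial (Fin (n + 1)) κ := ∏ i, X.lf i ^ K.1 i

private theorem lf_hom (i : Fin 3) : (X.lf i).IsHomogeneous 1 := by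
  have h : ∀ c : Fin (n + 1) → κ,
      (∑ j, MvPolynomial.C (c j) * MvPolynomial.X j : MvPolynomial (Fin (n + 1)) κ).IsHomogeneous
        1 := by
    intro c
    refine MvPolynomial.IsHomogeneous.sum _ _ _ fun j _ => ?_
    have h1 := (MvPolynomial.isHomogeneous_C (Fin (n + 1)) (c j)).mul
      (MvPolynomial.isHomogeneous_X κ j)
    simpa using h1
  fin_cases i
  · exact h _
  · exact h _
  · exact h _

theorem Kf_hom (K : M3 d) : (X.Kf K).IsHomogeneous d := by
  have h1 : ∑ i : Fin 3, 1 * K.1 i = d := by
    have h2 := mem_expo.1 K.2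
    rw [Finsupp.degree_eq_sum] at h2
    simpa using h2
  have h3 := MvPolynomial.IsHomogeneous.prod Finset.univ (fun i => X.lf i ^ K.1 i)
    (fun i => 1 * K.1 i) (fun i _ => (X.lf_hom i).pow (K.1 i))
  rw [h1] at h3
  exact h3

private theorem lf_eval (i : Fin 3) : MvPolynomial.aeval X.x (X.lf i) = X.p i := by
  have h : ∀ c : Fin (n + 1) → κ, MvPolynomial.aeval X.x
      (∑ j, MvPolynomial.C (c j) * MvPolynomial.X j : MvPolynomial (Fin (n + 1)) κ) =
        ∑ j, algebraMap κ L (c j) * X.x j := by
    intro c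
    rw [map_sum]
    refine Finset.sum_congr rfl fun j _ => ?_
    rw [map_mul, MvPolynomial.aeval_C, MvPolynomial.aeval_X]
  fin_cases i
  · refine (h _).trans ?_
    change _ = (1 : L)
    rw [← X.h0]
    exact Finset.sum_congr rfl fun j _ => by rw [map_natCast]
  · refine (h _).trans ?_
    change _ = X.y₁
    unfold y₁
    exact Finset.sum_congr rfl fun j _ => by rw [map_natCast]
  · exact h _

theorem Kf_eval (K : M3 d) : MvPolynomial.aeval X.x (X.Kf K) = xi d X.p K := by
  -- the values of the three linear forms at `x` are `1`, `y₁`, `y`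
  unfold Kf xi
  rw [map_prod]
  refine Finset.prod_congr rfl fun i _ => ?_
  rw [map_pow, X.lf_eval]

theorem Kf_eval' (K : M3 d) :
    ∑ I ∈ expo (Fin (n + 1)) d, algebraMap κ L ((X.Kf K).coeff I) * mon X.x I = xi d X.p K := by
  -- `Kf_eval` and `Kf_hom`
  classical
  rw [← X.Kf_eval K, MvPolynomial.aeval_def, MvPolynomial.eval₂_eq']
  symm
  refine Finset.sum_subset ?_ ?_
  · intro I hI
    rw [mem_expo]
    have h1 := X.Kf_hom K (MvPolynomial.mem_support_iff.1 hI)
    rw [← h1, Finsupp.degree_eq_weight_one]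
    rfl
  · intro I _ hI
    rw [MvPolynomial.notMem_support_iff.1 hI, map_zero, zero_mul]

end Dat

end Pool.Agent.Lib.MP_44a246_ntS
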