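import Mathlib
import Pool.Agent.Lib.MP_44a246_ntS.SH1b

/-!
The data of the height theorem: a point of a hypersurface, derivations dual to the coefficients of
the hypersurface, the projection to the plane, the combinations of the derivations given by the
monomials of the plane.
-/

namespace Pool.Agent.Lib.MP_44a246_ntS

open Pool.Agent.Lib.MP_44a246_nt
open Pool.Agent.Lib.MP_44a246_ntL
open Pool.Agent.Lib.MP_e52354_nt
open WithZero Module

namespace Dat

variable {κ L : Type*} [Field κ] [Field L] [Algebra κ L] {n d : ℕ} (X : Dat κ (L := L) n d)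

/-- the combination of the derivations with the coefficients of `Kf K` -/
noncomputable def DK (K : M3 d) : Derivation ℤ L L :=
  ∑ I ∈ expo (Fin (n + 1)) d, algebraMap κ L ((X.Kf K).coeff I) • X.D I

theorem DK_apply (K : M3 d) (c : L) :
    X.DK K c = ∑ I ∈ expo (Fin (n + 1)) d, algebraMap κ L ((X.Kf K).coeff I) * X.D I c := by
  rw [DK, ← Derivation.coeFnAddMonoidHom_apply, map_sum, Finset.sum_apply]
  rfl

private theorem sh1c_const (w : Place κ L) (c : κ) : w.1 (algebraMap κ L c) ≤ 1 := by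
  by_cases h : c = 0
  · rw [h, map_zero, map_zero]; exact zero_le
  · exact (w.2.2 c h).le

theorem DK_pole (K : M3 d) : PoleBound κ (X.DK K) X.δ := by
  intro w y hy
  rw [DK_apply]
  refine Valuation.map_sum_le w.1 fun I hI => ?_
  rw [map_mul]
  have h1 := sh1c_const w ((X.Kf K).coeff I)
  have h2 := X.hD I hI w y hy
  calc w.1 (algebraMap κ L ((X.Kf K).coeff I)) * w.1 (X.D I y)
      ≤ 1 * exp (X.δ w : ℤ) := mul_le_mul' h1 h2
    _ = exp (X.δ w : ℤ) := one_mul _

/-- the values on elements with a pole -/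
theorem DK_le (K : M3 d) (w : Place κ L) (c : L) :
    w.1 (X.DK K c) ≤ (max 1 (w.1 c)) ^ 2 * exp (X.δ w : ℤ) := by
  by_cases h : w.1 c ≤ 1
  · rw [max_eq_left h, one_pow, one_mul]
    exact X.DK_pole K w c h
  · push Not at h
    have hc : c ≠ 0 := by
      rintro rfl
      rw [map_zero] at h
      exact absurd h (not_lt.mpr zero_le_one)
    rw [max_eq_right h.le]
    have h1 : w.1 c⁻¹ ≤ 1 := by
      rw [map_inv₀]
      exact inv_le_one_of_one_le₀ h.le
    have h2 := X.DK_pole K w c⁻¹ h1
    have h3 : X.DK K c = - (c ^ 2 * X.DK K c⁻¹) := by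
      have h4 : X.DK K (c * c⁻¹) = c • X.DK K c⁻¹ + c⁻¹ • X.DK K c := Derivation.leibniz _ _ _
      rw [mul_inv_cancel₀ hc, Derivation.map_one_eq_zero, smul_eq_mul, smul_eq_mul] at h4
      have h5 : c * (c * X.DK K c⁻¹ + c⁻¹ * X.DK K c) = 0 := by rw [← h4, mul_zero]
      have h6 : c * (c * X.DK K c⁻¹ + c⁻¹ * X.DK K c) = c ^ 2 * X.DK K c⁻¹ + X.DK K c := by
        field_simp
      rw [h6] at h5
      linear_combination h5
    rw [h3, Valuation.map_neg, map_mul, map_pow]
    exact mul_le_mul' le_rfl h2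

/-- the basic relation -/
theorem rel (K : M3 d) : ∑ j, grad d X.a X.x j * X.DK K (X.x j) = - xi d X.p K := by
  have h1 : ∑ j, grad d X.a X.x j * X.DK K (X.x j) =
      ∑ I ∈ expo (Fin (n + 1)) d, algebraMap κ L ((X.Kf K).coeff I) *
        ∑ j, grad d X.a X.x j * X.D I (X.x j) := by
    simp only [DK_apply, Finset.mul_sum]
    rw [Finset.sum_comm]
    refine Finset.sum_congr rfl fun I _ => Finset.sum_congr rfl fun j _ => ?_
    ring
  rw [h1, ← X.Kf_eval' K, ← Finset.sum_neg_distrib]
  refine Finset.sum_congr rfl fun I hI => ?_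
  rw [grad_D X.hDa X.hF hI, mul_neg]

end Dat

end Pool.Agent.Lib.MP_44a246_ntS
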