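import Mathlib
import Pool.Agent.Lib.MP_44a246_ntS.SA1
import Pool.Agent.Lib.MP_44a246_ntS.SH2
import Pool.Agent.Lib.MP_44a246_ntS.SH2b

/-!
Heights of the point, of its projections, and of the space spanned by the rows.
-/

namespace Pool.Agent.Lib.MP_44a246_ntS

open Pool.Agent.Lib.MP_44a246_nt
open Pool.Agent.Lib.MP_44a246_ntL
open Pool.Agent.Lib.MP_e52354_nt
open WithZero Module

/-- bound for a determinant with given bounds for the columns -/
theorem det_le_prod {L : Type*} [Field L] (v : Valuation L ℤᵐ⁰) {ρ : Type*} [Fintype ρ]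
    [DecidableEq ρ] (M : Matrix ρ ρ L) (τ : ρ → ℤᵐ⁰) (h : ∀ i j, v (M i j) ≤ τ j) :
    v M.det ≤ ∏ j, τ j := by
  rw [Matrix.det_apply]
  refine Valuation.map_sum_le v fun σ _ => ?_
  have h1 : v (∏ i, M (σ i) i) ≤ ∏ j, τ j := by
    rw [map_prod]
    exact Finset.prod_le_prod' fun i _ => h _ _
  rcases Int.units_eq_one_or (Equiv.Perm.sign σ) with h2 | h2
  · rw [h2, one_smul]
    exact h1
  · rw [h2, Units.neg_smul, one_smul, Valuation.map_neg]
    exact h1

namespace Dat

section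

variable {κ L : Type*} [Field κ] [Field L] [Algebra κ L] {n d : ℕ} (X : Dat κ (L := L) n d)

/-- the local bound for the minors of the rows -/
theorem pl_rows (w : Place κ L) {e : ℕ} (σ : Fin e → Fin (n + 1)) :
    pl w.1 (fun i => X.row (X.x (σ i))) ≤ vmax w.1 X.x ^ (e + 1) * exp (X.δ w : ℤ) ^ e := by
  -- Choose `l` with `w (x l) = vmax w x` (`exists_vmax`), `y i = x i / x l`, `w (y i) ≤ 1`,
  -- `r' i = row (y i)`, with entries at most `exp δ`. With `y' = (x l)⁻¹` and
  -- `r'₀ = row y'`: `x i = y i / y'`, so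
  -- `row (x i) = (y' • r' i - y i • r'₀) / y' ^ 2`.
  obtain ⟨l, hl0, hlmax, hle⟩ := exists_vmax w.1 X.x_ne_zero
  have hvl0 : w.1 (X.x l) ≠ 0 := (Valuation.ne_zero_iff _).2 hl0
  have hone : 1 ≤ w.1 (X.x l) := by
    rw [← hlmax]; exact X.one_le_vmax w
  have hy' : w.1 (X.x l)⁻¹ ≤ 1 := by
    rw [map_inv₀]
    exact inv_le_one_of_one_le₀ hone
  have hyi : ∀ i, w.1 (X.x i * (X.x l)⁻¹) ≤ 1 := by
    intro i
    rw [map_mul, map_inv₀]
    calc w.1 (X.x i) * (w.1 (X.x l))⁻¹ ≤ w.1 (X.x l) * (w.1 (X.x l))⁻¹ :=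
          mul_le_mul_left (hle i) _
      _ = 1 := mul_inv_cancel₀ hvl0
  have hrow : ∀ (c : L), w.1 c ≤ 1 → ∀ K, w.1 (X.row c K) ≤ exp (X.δ w : ℤ) := by
    intro c hc K
    exact X.DK_pole K w c hc
  -- the relation between the rows
  have hrel : ∀ i K, X.row (X.x i) K = X.x l * (X.row (X.x i * (X.x l)⁻¹) K -
      (X.x i * (X.x l)⁻¹) * X.x l * X.row (X.x l)⁻¹ K) := by
    intro i K
    have h1 : X.x i = (X.x i * (X.x l)⁻¹) * X.x l := by
      rw [mul_assoc, inv_mul_cancel₀ hl0, mul_one]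
    have h2 : X.row (X.x i) K = (X.x i * (X.x l)⁻¹) * X.row (X.x l) K +
        X.x l * X.row (X.x i * (X.x l)⁻¹) K := by
      conv_lhs => rw [h1]
      rw [X.row_mul]
      simp [Pi.add_apply, Pi.smul_apply, smul_eq_mul]
    have h3 : X.row (X.x l) K = - X.x l ^ 2 * X.row (X.x l)⁻¹ K := by
      have h4 : X.row (X.x l * (X.x l)⁻¹) K = 0 := by
        rw [mul_inv_cancel₀ hl0]
        have := congrFun (X.row_natCast 1) K
        simpa using this
      rw [X.row_mul] at h4
      simp only [Pi.add_apply, Pi.smul_apply, smul_eq_mul] at h4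
      have h5 : (X.x l)⁻¹ * X.row (X.x l) K = - (X.x l * X.row (X.x l)⁻¹ K) :=
        eq_neg_of_add_eq_zero_right h4
      calc X.row (X.x l) K = X.x l * ((X.x l)⁻¹ * X.row (X.x l) K) := by
            rw [← mul_assoc, mul_inv_cancel₀ hl0, one_mul]
        _ = - X.x l ^ 2 * X.row (X.x l)⁻¹ K := by rw [h5]; ring
    rw [h2, h3]
    ring
  unfold pl
  refine vmax_le w.1 fun K => ?_
  -- the block matrix
  let A : Matrix Unit Unit L := Matrix.of fun _ _ => (X.x l)⁻¹
  let B : Matrix Unit (Fin e) L := Matrix.of fun _ j => X.row (X.x l)⁻¹ (K j)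
  let C : Matrix (Fin e) Unit L := Matrix.of fun i _ => X.x (σ i) * (X.x l)⁻¹
  let E : Matrix (Fin e) (Fin e) L := Matrix.of fun i j => X.row (X.x (σ i) * (X.x l)⁻¹) (K j)
  let A' : Matrix Unit Unit L := Matrix.of fun _ _ => X.x l
  have hAA' : A * A' = 1 := by
    ext i j
    simp [A, A', Matrix.mul_apply, inv_mul_cancel₀ hl0]
  have hA'A : A' * A = 1 := by
    ext i j
    simp [A, A', Matrix.mul_apply, mul_inv_cancel₀ hl0]
  let _ : Invertible A := ⟨A', hA'A, hAA'⟩
  have hdet := Matrix.det_fromBlocks₁₁ A B C E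
  have hAdet : A.det = (X.x l)⁻¹ := by
    simp [A]
  have hinv : ⅟A = A' := rfl
  have hS : (Matrix.of fun i j => X.row (X.x (σ i)) (K j)) = X.x l • (E - C * ⅟A * B) := by
    rw [hinv]
    ext i j
    simp only [Matrix.of_apply, Matrix.smul_apply, Matrix.sub_apply, Matrix.mul_apply, A', B, C, E,
      Finset.univ_unique, Finset.sum_singleton, smul_eq_mul]
    rw [hrel]
  have hbound : w.1 (Matrix.fromBlocks A B C E).det ≤ exp (X.δ w : ℤ) ^ e := by
    refine (det_le_prod w.1 _ (Sum.elim (fun _ => 1) (fun _ => exp (X.δ w : ℤ))) ?_).trans ?_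
    · rintro (i | i) (j | j)
      · simpa [A] using hy'
      · simpa [B] using hrow _ hy' (K j)
      · simpa [C] using hyi (σ i)
      · simpa [E] using hrow _ (hyi (σ i)) (K j)
    · rw [Fintype.prod_sum_type]
      simp
  have hfinal : (Matrix.of fun i j => X.row (X.x (σ i)) (K j)).det =
      X.x l ^ (e + 1) * (Matrix.fromBlocks A B C E).det := by
    rw [hS, Matrix.det_smul, hdet, hAdet, Fintype.card_fin, pow_succ]
    rw [mul_assoc, ← mul_assoc (X.x l) _ _, mul_inv_cancel₀ hl0, one_mul]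
  rw [hfinal, map_mul, map_pow, hlmax]
  exact mul_le_mul_right hbound _

end

end Dat

end Pool.Agent.Lib.MP_44a246_ntS
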