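import Mathlib
import Pool.Agent.Lib.MP_e52354_nt.Span

/-!
Certificates: a point lies on a rational image, inside the hypersurface, of a plane curve of small
degree.
-/

namespace Pool.Agent.Lib.MP_44a246_ntS

open Pool.Agent.Lib.MP_e52354_nt
open Polynomial

/-- the form of degree `d` with coefficients `a`, evaluated at polynomials `B` in two variables -/
noncomputable def FB {L : Type*} [Field L] {n : ℕ} (d : ℕ) (a : (Fin (n + 1) →₀ ℕ) → L)
    (B : Fin (n + 1) → L[X][X]) : L[X][X] :=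
  ∑ I ∈ expo (Fin (n + 1)) d, C (C (a I)) * ∏ j, B j ^ I j

/-- the degrees in both variables are at most `b` -/
def Box {L : Type*} [Field L] (b : ℕ) (A : L[X][X]) : Prop :=
  A.natDegree ≤ b ∧ ∀ i, (A.coeff i).natDegree ≤ b

/-- The point `x` of projective space lies on the image of the plane curve `A = 0`
(of degree at most `b` in both variables) under the map `B`, this image is contained in the
hypersurface of degree `d` with the coefficients `a`, and the map is inverse to the linear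
projection given by `ξ₀, ξ₁, ξ₂`. -/
def Cert {L : Type*} [Field L] {n : ℕ} (d : ℕ) (a : (Fin (n + 1) →₀ ℕ) → L) (b : ℕ)
    (x : Fin (n + 1) → L) : Prop :=
  ∃ (A : L[X][X]) (B : Fin (n + 1) → L[X][X]) (ξ₀ ξ₁ ξ₂ : Fin (n + 1) → L) (c y₁ y : L),
    Box b A ∧ (∀ j, Box b (B j)) ∧ c ≠ 0 ∧
    ∑ j, ξ₀ j * (c * x j) = 1 ∧ ∑ j, ξ₁ j * (c * x j) = y₁ ∧ ∑ j, ξ₂ j * (c * x j) = y ∧
    A.evalEval y₁ y = 0 ∧ (derivative A).evalEval y₁ y ≠ 0 ∧
    (∀ j, (derivative A).evalEval y₁ y * (c * x j) = (B j).evalEval y₁ y) ∧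
    A ∣ FB d a B ∧ A ∣ ∑ j, C (C (ξ₀ j)) * B j - derivative A ∧
    A ∣ ∑ j, C (C (ξ₁ j)) * B j - C X * derivative A ∧
    A ∣ ∑ j, C (C (ξ₂ j)) * B j - X * derivative A

end Pool.Agent.Lib.MP_44a246_ntS
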