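import Mathlib
import Pool.Agent.Lib.MP_44a246_ntS.SB1b

/-!
Slopes: the piece of slope `μ` of the Harder-Narasimhan filtration over a given vector.
-/

namespace Pool.Agent.Lib.MP_44a246_ntS

open Pool.Agent.Lib.MP_44a246_nt
open Pool.Agent.Lib.MP_44a246_ntL
open WithZero Module

/-- `Q` contains `ξ` and maximises `- ht Q - μ dim Q`, with minimal dimension -/
structure IsSl (κ : Type*) {L : Type*} [Field κ] [Field L] [Algebra κ L] {ι : Type*} [Fintype ι]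
    (μ : ℝ) (ξ : ι → L) (Q : Submodule L (ι → L)) : Prop where
  mem : ξ ∈ Q
  lt : ∀ Q' ≤ Q, ξ ∈ Q' → Q' ≠ Q →
    μ * ((finrank L Q : ℝ) - finrank L Q') < (ht κ Q' : ℝ) - ht κ Q
  le : ∀ Q', Q ≤ Q' → (ht κ Q : ℝ) - ht κ Q' ≤ μ * ((finrank L Q' : ℝ) - finrank L Q)

/-- all quotients of `U` over `ξ` have slope at least `μ` -/
structure HasSl (κ : Type*) {L : Type*} [Field κ] [Field L] [Algebra κ L] {ι : Type*} [Fintype ι]
    (μ : ℝ) (ξ : ι → L) (U : Submodule L (ι → L)) : Prop where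
  mem : ξ ∈ U
  le : ∀ U' ≤ U, ξ ∈ U' →
    μ * ((finrank L U : ℝ) - finrank L U') ≤ (ht κ U' : ℝ) - ht κ U

variable {κ L : Type*} [Field κ] [IsAlgClosed κ] [CharZero κ] [Field L] [Algebra κ L]
  {ι ι' : Type*} [Fintype ι] [Fintype ι']

/-- maximisers exist inside every space which contains `ξ` -/
theorem exists_max_slope (h : IsFF κ L) (μ : ℝ) {ξ : ι → L} {U : Submodule L (ι → L)}
    (hξ : ξ ∈ U) :
    ∃ Q ≤ U, ξ ∈ Q ∧ (∀ Q' ≤ U, ξ ∈ Q' →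
      (ht κ Q : ℝ) + μ * finrank L Q ≤ (ht κ Q' : ℝ) + μ * finrank L Q') ∧
      ∀ Q' ≤ Q, ξ ∈ Q' → Q' ≠ Q →
        (ht κ Q : ℝ) + μ * finrank L Q < (ht κ Q' : ℝ) + μ * finrank L Q' := by
  -- the minimal height for every dimension
  have hmin : ∀ m : ℕ, (∃ Q ≤ U, ξ ∈ Q ∧ finrank L Q = m) →
      ∃ Q ≤ U, ξ ∈ Q ∧ finrank L Q = m ∧
        ∀ Q' ≤ U, ξ ∈ Q' → finrank L Q' = m → ht κ Q ≤ ht κ Q' := by
    rintro m ⟨Q0, hQ0⟩
    obtain ⟨n, ⟨Q, hQ1, hQ2, hQ3, hQ4⟩, hn⟩ :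
        ∃ n : ℕ, (∃ Q ≤ U, ξ ∈ Q ∧ finrank L Q = m ∧ (ht κ Q).toNat = n) ∧
          ∀ k : ℕ, (∃ Q ≤ U, ξ ∈ Q ∧ finrank L Q = m ∧ (ht κ Q).toNat = k) → n ≤ k := by
      classical
      have hex : ∃ n : ℕ, ∃ Q ≤ U, ξ ∈ Q ∧ finrank L Q = m ∧ (ht κ Q).toNat = n :=
        ⟨_, Q0, hQ0.1, hQ0.2.1, hQ0.2.2, rfl⟩
      exact ⟨Nat.find hex, Nat.find_spec hex, fun k hk => Nat.find_min' hex hk⟩
    refine ⟨Q, hQ1, hQ2, hQ3, fun Q' h1 h2 h3 => ?_⟩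
    have h4 := hn _ ⟨Q', h1, h2, h3, rfl⟩
    have h5 := ht_nonneg h Q
    have h6 := ht_nonneg h Q'
    omega
  choose! F hF1 hF2 hF3 hF4 using hmin
  classical
  let s : Finset ℕ := (Finset.range (Fintype.card ι + 1)).filter
    fun m => ∃ Q ≤ U, ξ ∈ Q ∧ finrank L Q = m
  have hmem : ∀ Q ≤ U, ξ ∈ Q → finrank L Q ∈ s := by
    intro Q h1 h2
    refine Finset.mem_filter.2 ⟨?_, Q, h1, h2, rfl⟩
    rw [Finset.mem_range]
    have := Submodule.finrank_le Q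
    rw [finrank_fintype_fun_eq_card] at this
    omega
  let g : ℕ → ℝ ×ₗ ℕ := fun m => toLex ((ht κ (F m) : ℝ) + μ * m, m)
  obtain ⟨m, hm, hm'⟩ := Finset.exists_min_image s g ⟨_, hmem U le_rfl hξ⟩
  have hms := (Finset.mem_filter.1 hm).2
  -- comparison with an arbitrary space
  have key : ∀ Q' ≤ U, ξ ∈ Q' →
      (ht κ (F m) : ℝ) + μ * m ≤ (ht κ Q' : ℝ) + μ * finrank L Q' ∧
      (finrank L Q' < m → (ht κ (F m) : ℝ) + μ * m < (ht κ Q' : ℝ) + μ * finrank L Q') := by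
    intro Q' h1 h2
    have h3 := hmem Q' h1 h2
    have h4 := hm' _ h3
    have h5 := hF4 _ (Finset.mem_filter.1 h3).2 Q' h1 h2 rfl
    have h6 : (ht κ (F (finrank L Q')) : ℝ) ≤ (ht κ Q' : ℝ) := by exact_mod_cast h5
    have h7 := Prod.Lex.toLex_le_toLex.1 h4
    simp only at h7
    rcases h7 with h8 | ⟨h8, h9⟩
    · exact ⟨by linarith, fun _ => by linarith⟩
    · exact ⟨by linarith, fun h10 => by omega⟩
  refine ⟨F m, hF1 m hms, hF2 m hms, fun Q' h1 h2 => ?_, fun Q' h1 h2 h3 => ?_⟩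
  · rw [hF3 m hms]
    exact (key Q' h1 h2).1
  · rw [hF3 m hms]
    refine (key Q' (h1.trans (hF1 m hms)) h2).2 ?_
    rw [← hF3 m hms]
    exact Submodule.finrank_lt_finrank_of_lt (lt_of_le_of_ne h1 h3)

theorem exists_isSl (h : IsFF κ L) (μ : ℝ) (ξ : ι → L) : ∃ Q, IsSl κ μ ξ Q := by
  obtain ⟨Q, -, h1, h2, h3⟩ := exists_max_slope h μ (U := ⊤) (ξ := ξ) trivial
  refine ⟨Q, h1, fun Q' h4 h5 h6 => ?_, fun Q' h4 => ?_⟩
  · have := h3 Q' h4 h5 h6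
    linarith
  · have := h2 Q' le_top (h4 h1)
    linarith

theorem exists_hasSl (h : IsFF κ L) (μ : ℝ) {ξ : ι → L} {U : Submodule L (ι → L)} (hξ : ξ ∈ U) :
    ∃ W ≤ U, HasSl κ μ ξ W ∧
      (ht κ W : ℝ) + μ * finrank L W ≤ (ht κ U : ℝ) + μ * finrank L U := by
  obtain ⟨Q, h0, h1, h2, h3⟩ := exists_max_slope h μ hξ
  refine ⟨Q, h0, ⟨h1, fun Q' h4 h5 => ?_⟩, h2 U le_rfl hξ⟩
  have := h2 Q' (h4.trans h0) h5
  linarith

end Pool.Agent.Lib.MP_44a246_ntS
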