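import Mathlib
import Pool.Agent.Lib.MP_44a246_ntS.SB2c
import Pool.Agent.Lib.MP_44a246_ntS.SC1

/-!
Slopes: the piece of slope `μ` of the Harder-Narasimhan filtration over a given vector.
-/

namespace Pool.Agent.Lib.MP_44a246_ntS

open Pool.Agent.Lib.MP_44a246_nt
open Pool.Agent.Lib.MP_44a246_ntL
open WithZero Module

variable {κ L : Type*} [Field κ] [IsAlgClosed κ] [CharZero κ] [Field L] [Algebra κ L]
  {ι ι' : Type*} [Fintype ι] [Fintype ι']

/-- constant maps -/
theorem IsSl.map_le (h : IsFF κ L) {μ : ℝ} {ξ : ι → L} {Q : Submodule L (ι → L)}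
    (hQ : IsSl κ μ ξ Q) {ξ' : ι' → L} {Q' : Submodule L (ι' → L)} (hQ' : IsSl κ μ ξ' Q')
    (T : Matrix ι' ι κ) (hT : (T.map (algebraMap κ L)).mulVec ξ ∈ Q') :
    Q.map (T.map (algebraMap κ L)).mulVecLin ≤ Q' := by
  have hm : ∀ x, (T.map (algebraMap κ L)).mulVecLin x = (T.map (algebraMap κ L)).mulVec x :=
    fun x => Matrix.mulVecLin_apply _ _
  set f := (T.map (algebraMap κ L)).mulVecLin with hf
  have hA : (Q ⊓ Q'.comap f).map f ≤ Q' := by
    rw [Submodule.map_le_iff_le_comap]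
    exact inf_le_right
  have hinj : ∀ b ∈ Q, f b ∈ Q' → b ∈ Q ⊓ Q'.comap f := fun b hb hb' => ⟨hb, hb'⟩
  by_cases he : Q ⊓ Q'.comap f = Q
  · rw [Submodule.map_le_iff_le_comap]
    rw [← he]
    exact inf_le_right
  · exfalso
    have hξ : ξ ∈ Q ⊓ Q'.comap f := ⟨hQ.mem, by
      have e : f ξ ∈ Q' := by
        rw [hm]
        exact hT
      exact e⟩
    have h1 := hQ.lt _ inf_le_left hξ he
    have h2 := ht_map_const h T (A := Q ⊓ Q'.comap f) (B := Q) (A' := Q') inf_le_left hA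
      (fun b hb hb' => hinj b hb (by rw [hm]; exact hb'))
    have h3 := hQ'.le (Q' ⊔ Q.map f) le_sup_left
    have h4 := finrank_sup_map (A := Q ⊓ Q'.comap f) (B := Q) (A' := Q') inf_le_left f hA hinj
    have h2' : (ht κ (Q' ⊔ Q.map f) : ℝ) + ht κ (Q ⊓ Q'.comap f) ≤ ht κ Q + ht κ Q' := by
      exact_mod_cast h2
    have h4' : (finrank L (Q' ⊔ Q.map f : Submodule L (ι' → L)) : ℝ) +
        finrank L (Q ⊓ Q'.comap f : Submodule L (ι → L)) = finrank L Q' + finrank L Q := by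
      exact_mod_cast h4
    have h5 : (finrank L (Q' ⊔ Q.map f : Submodule L (ι' → L)) : ℝ) - finrank L Q' =
        finrank L Q - finrank L (Q ⊓ Q'.comap f : Submodule L (ι → L)) := by linarith
    rw [h5] at h3
    linarith

end Pool.Agent.Lib.MP_44a246_ntS
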