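import Mathlib
import Pool.Agent.Lib.MP_44a246_ntS.SD2
import Pool.Agent.Lib.MP_44a246_ntS.Names

/-!
Functionals on forms of a given degree in three variables: contraction by forms.
-/

namespace Pool.Agent.Lib.MP_44a246_ntS

open Pool.Agent.Lib.MP_44a246_nt
open Pool.Agent.Lib.MP_44a246_ntL
open Pool.Agent.Lib.MP_e52354_nt
open WithZero Module MvPolynomial

section

variable {R : Type*} [CommRing R]

/-- contraction is adjoint to multiplication -/
theorem pr_ctr {s s' t : ℕ} (hs : s' + t = s) {G P : MvPolynomial (Fin 3) R}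
    (hG : G.IsHomogeneous s') (hP : P.IsHomogeneous t) (u : M3 s → R) :
    pr (G * P) u = pr G ((ctr P s' s).mulVec u) := by
  have key : ∀ M : M3 s, (G * P).coeff M.1 =
      ∑ K : M3 s', G.coeff K.1 * (ctr P s' s) K M := by
    intro M
    have h1 : ∑ K : M3 s', G.coeff K.1 * (ctr P s' s) K M =
        ∑ K ∈ expo (Fin 3) s', G.coeff K * (if K ≤ M.1 then P.coeff (M.1 - K) else 0) :=
      Finset.sum_coe_sort (expo (Fin 3) s')
        (fun K => G.coeff K * (if K ≤ M.1 then P.coeff (M.1 - K) else 0))
    rw [h1, coeff_mul]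
    have h2 : ∑ K ∈ expo (Fin 3) s', G.coeff K * (if K ≤ M.1 then P.coeff (M.1 - K) else 0) =
        ∑ K ∈ (expo (Fin 3) s').filter (· ≤ M.1), G.coeff K * P.coeff (M.1 - K) := by
      rw [Finset.sum_filter]
      refine Finset.sum_congr rfl fun K _ => ?_
      split_ifs <;> simp
    have h3 : ∑ x ∈ Finset.HasAntidiagonal.antidiagonal M.1, G.coeff x.1 * P.coeff x.2 =
        ∑ x ∈ (Finset.HasAntidiagonal.antidiagonal M.1).filter (fun x => x.1 ∈ expo (Fin 3) s'),
          G.coeff x.1 * P.coeff x.2 := by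
      symm
      refine Finset.sum_filter_of_ne fun x _ hx => ?_
      rw [mem_expo]
      by_contra hne
      exact hx (by rw [hG.coeff_eq_zero hne, zero_mul])
    rw [h2, h3]
    refine Finset.sum_nbij' (fun x => x.1) (fun K => (K, M.1 - K)) ?_ ?_ ?_ ?_ ?_
    · intro x hx
      rw [Finset.mem_filter, Finset.HasAntidiagonal.mem_antidiagonal] at hx
      rw [Finset.mem_filter]
      exact ⟨hx.2, hx.1 ▸ le_self_add⟩
    · intro K hK
      rw [Finset.mem_filter] at hK
      rw [Finset.mem_filter, Finset.HasAntidiagonal.mem_antidiagonal]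
      exact ⟨add_tsub_cancel_of_le hK.2, hK.1⟩
    · intro x hx
      rw [Finset.mem_filter, Finset.HasAntidiagonal.mem_antidiagonal] at hx
      refine Prod.ext rfl ?_
      simp only
      rw [← hx.1, add_tsub_cancel_left]
    · intro K _
      rfl
    · intro x hx
      rw [Finset.mem_filter, Finset.HasAntidiagonal.mem_antidiagonal] at hx
      rw [← hx.1, add_tsub_cancel_left]
  unfold pr
  simp only [key, Matrix.mulVec, dotProduct, Finset.sum_mul, Finset.mul_sum]
  rw [Finset.sum_comm]
  refine Finset.sum_congr rfl fun K _ => Finset.sum_congr rfl fun M _ => ?_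
  ring

end

end Pool.Agent.Lib.MP_44a246_ntS
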