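import Mathlib
import Pool.Agent.Lib.MP_44a246_ntS.SD3
import Pool.Agent.Lib.MP_44a246_ntS.Names

/-!
Functionals on forms of a given degree in three variables: contraction by forms.
-/

namespace Pool.Agent.Lib.MP_44a246_ntS

open Pool.Agent.Lib.MP_44a246_nt
open Pool.Agent.Lib.MP_44a246_ntL
open Pool.Agent.Lib.MP_e52354_nt
open WithZero Module MvPolynomial

section

variable {R : Type*} [CommRing R]

/-- functionals with the same values on forms are equal -/
theorem eq_of_pr {s : ℕ} {u v : M3 s → R}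
    (h : ∀ G : MvPolynomial (Fin 3) R, G.IsHomogeneous s → pr G u = pr G v) : u = v := by
  have h1 : u + (-1 : R) • v = 0 := by
    refine eq_zero_of_pr fun G hG => ?_
    rw [pr_add_right, pr_smul_right, h G hG]
    ring
  have h2 : u - v = 0 := by
    rw [← h1, neg_one_smul, sub_eq_add_neg]
  exact sub_eq_zero.1 h2

/-- contraction of evaluations -/
theorem ctr_xi {s s' t : ℕ} (hs : s' + t = s) {P : MvPolynomial (Fin 3) R}
    (hP : P.IsHomogeneous t) (p : Fin 3 → R) :
    (ctr P s' s).mulVec (xi s p) = eval p P • xi s' p := by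
  refine eq_of_pr fun G hG => ?_
  have hGP : (G * P).IsHomogeneous s := hs ▸ hG.mul hP
  rw [← pr_ctr hs hG hP, pr_xi hGP, pr_smul_right, pr_xi hG, map_mul, mul_comm]

/-- composition of contractions -/
theorem ctr_mul {s s' s'' t t' : ℕ} (hs : s' + t = s) (hs' : s'' + t' = s')
    {P P' : MvPolynomial (Fin 3) R} (hP : P.IsHomogeneous t) (hP' : P'.IsHomogeneous t')
    (u : M3 s → R) :
    (ctr P' s'' s').mulVec ((ctr P s' s).mulVec u) = (ctr (P' * P) s'' s).mulVec u := by
  refine eq_of_pr fun G hG => ?_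
  have hGP : (G * P').IsHomogeneous s' := hs' ▸ hG.mul hP'
  rw [← pr_ctr hs' hG hP', ← pr_ctr hs hGP hP,
    ← pr_ctr (by omega : s'' + (t' + t) = s) hG (hP'.mul hP), mul_assoc]

theorem ctr_add (P P' : MvPolynomial (Fin 3) R) (s' s : ℕ) :
    ctr (P + P') s' s = ctr P s' s + ctr P' s' s := by
  ext K M
  simp only [ctr, Matrix.of_apply, Matrix.add_apply]
  split_ifs
  · exact coeff_add _ _ _
  · simp

theorem ctr_map {S : Type*} [CommRing S] (f : R →+* S) (P : MvPolynomial (Fin 3) R) (s' s : ℕ) :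
    ctr (P.map f) s' s = (ctr P s' s).map f := by
  ext K M
  simp only [ctr, Matrix.of_apply, Matrix.map_apply]
  split_ifs
  · exact coeff_map _ _ _
  · simp

end

end Pool.Agent.Lib.MP_44a246_ntS
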