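import Mathlib
import Pool.Agent.Lib.MP_44a246_ntS.SC3
import Pool.Agent.Lib.MP_44a246_ntS.SD4

/-!
Functionals on forms of a given degree in three variables: contraction by forms.
-/

namespace Pool.Agent.Lib.MP_44a246_ntS

open Pool.Agent.Lib.MP_44a246_nt
open Pool.Agent.Lib.MP_44a246_ntL
open Pool.Agent.Lib.MP_e52354_nt
open WithZero Module MvPolynomial

section

variable {κ L : Type*} [Field κ] [IsAlgClosed κ] [CharZero κ] [Field L] [Algebra κ L]

/-- contractions by monomials map slope spaces into slope spaces -/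
theorem IsSl.ctr_monomial (h : IsFF κ L) {μ : ℝ} {p : Fin 3 → L} {s t d : ℕ} (hd : s + t = d)
    {Q : Submodule L (M3 d → L)} (hQ : IsSl κ μ (xi d p) Q) {Q' : Submodule L (M3 s → L)}
    (hQ' : IsSl κ μ (xi s p) Q') (I : M3 t) {u : M3 d → L} (hu : u ∈ Q) :
    (ctr (monomial I.1 (1 : L)) s d).mulVec u ∈ Q' := by
  have hmap : (ctr (monomial I.1 (1 : κ)) s d).map (algebraMap κ L) =
      ctr (monomial I.1 (1 : L)) s d := by
    rw [← ctr_map (algebraMap κ L), MvPolynomial.map_monomial, map_one]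
  have hhom : (monomial I.1 (1 : L)).IsHomogeneous t :=
    isHomogeneous_monomial (1 : L) (mem_expo.mp I.2)
  have hT : ((ctr (monomial I.1 (1 : κ)) s d).map (algebraMap κ L)).mulVec (xi d p) ∈ Q' := by
    rw [hmap, ctr_xi hd hhom p]
    exact Q'.smul_mem _ hQ'.mem
  have h1 := hQ.map_le h hQ' (ctr (monomial I.1 (1 : κ)) s d) hT
  rw [hmap] at h1
  exact h1 ⟨u, hu, rfl⟩

/-- a form which annihilates `Q'` contracts the elements of `Q` to zero -/
theorem IsSl.ctr_eq_zero (h : IsFF κ L) {μ : ℝ} {p : Fin 3 → L} {s t d : ℕ} (hd : s + t = d)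
    {Q : Submodule L (M3 d → L)} (hQ : IsSl κ μ (xi d p) Q) {Q' : Submodule L (M3 s → L)}
    (hQ' : IsSl κ μ (xi s p) Q') {G : MvPolynomial (Fin 3) L} (hG : G.IsHomogeneous s)
    (hGQ : ∀ u ∈ Q', pr G u = 0) {u : M3 d → L} (hu : u ∈ Q) :
    (ctr G t d).mulVec u = 0 := by
  funext I
  have hhom : (monomial I.1 (1 : L)).IsHomogeneous t :=
    isHomogeneous_monomial (1 : L) (mem_expo.mp I.2)
  have h1 := pr_ctr (show t + s = d by omega) hhom hG u
  have h2 := pr_ctr hd hG hhom u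
  have h3 := hGQ _ (IsSl.ctr_monomial h hd hQ hQ' I hu)
  rw [h3, mul_comm] at h2
  rw [h2, pr_monomial] at h1
  rw [← h1, Pi.zero_apply]

end

end Pool.Agent.Lib.MP_44a246_ntS
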