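import Mathlib
import Pool.Agent.Lib.MP_44a246_nt.LocalDet
import Pool.Agent.Lib.MP_44a246_ntS.SR0
import Pool.Agent.Lib.MP_e52354_ntG.Weights
import Pool.Agent.Lib.MP_44a246_ntS.Names

/-!
Irreducible factors; the partial derivative.
-/

namespace Pool.Agent.Lib.MP_44a246_ntS

open Pool.Agent.Lib.MP_44a246_nt
open Pool.Agent.Lib.MP_44a246_ntL
open WithZero Polynomial

private lemma sj5_coeff {L : Type*} [Field L] (P : L[X][X]) (i j : ℕ) :
    ((Bivariate.swap P).coeff j).coeff i = (P.coeff i).coeff j := by
  induction P using Polynomial.induction_on' with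
  | add p q hp hq => rw [map_add, coeff_add, coeff_add, hp, hq, coeff_add, coeff_add]
  | monomial n f =>
    induction f using Polynomial.induction_on' with
    | add p q hp hq =>
      rw [map_add, map_add, coeff_add, coeff_add, hp, hq, coeff_add, coeff_add]
    | monomial m r =>
      rw [Bivariate.swap_monomial_monomial, coeff_monomial, coeff_monomial]
      by_cases h1 : m = j <;> by_cases h2 : n = i <;> simp [h1, h2, coeff_monomial]

private lemma sj5_swap {L : Type*} [Field L] (P : L[X][X]) (b : ℕ) :
    (Bivariate.swap P).natDegree ≤ b ↔ ∀ i, (P.coeff i).natDegree ≤ b := by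
  constructor
  · intro h i
    rw [natDegree_le_iff_coeff_eq_zero] at h ⊢
    intro N hN
    rw [← sj5_coeff, h N hN, coeff_zero]
  · intro h
    rw [natDegree_le_iff_coeff_eq_zero]
    intro N hN
    ext i
    rw [sj5_coeff, coeff_zero]
    exact (natDegree_le_iff_coeff_eq_zero.mp (h i)) N hN

/-- degrees of divisors -/
theorem Box.of_dvd {L : Type*} [Field L] {b : ℕ} {A P : L[X][X]} (hP : Box b P) (hP0 : P ≠ 0)
    (h : A ∣ P) : Box b A := by
  obtain ⟨Q, rfl⟩ := h
  have hA : A ≠ 0 := left_ne_zero_of_mul hP0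
  have hQ : Q ≠ 0 := right_ne_zero_of_mul hP0
  constructor
  · have h1 := hP.1
    rw [natDegree_mul hA hQ] at h1
    omega
  · have h2 := (sj5_swap _ b).mpr hP.2
    rw [map_mul, natDegree_mul ((map_ne_zero_iff _ Bivariate.swap.injective).mpr hA)
      ((map_ne_zero_iff _ Bivariate.swap.injective).mpr hQ)] at h2
    exact (sj5_swap _ b).mp (by omega)

end Pool.Agent.Lib.MP_44a246_ntS
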