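import Mathlib
import Pool.Agent.Lib.MP_e52354_ntG.Weights
import Pool.Agent.Lib.MP_44a246_ntS.Names

/-!
Irreducible factors; the partial derivative.
-/

namespace Pool.Agent.Lib.MP_44a246_ntS

open Pool.Agent.Lib.MP_44a246_nt
open Pool.Agent.Lib.MP_44a246_ntL
open WithZero Polynomial

/-- an irreducible factor which vanishes at the given point -/
theorem exists_irr {L : Type*} [Field L] {P : L[X][X]} (hP : P ≠ 0) {y₁ y : L}
    (h : P.evalEval y₁ y = 0) : ∃ A, Irreducible A ∧ A ∣ P ∧ A.evalEval y₁ y = 0 := by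
  induction P using WfDvdMonoid.induction_on_irreducible with
  | zero => exact absurd rfl hP
  | unit u hu =>
    exfalso
    have h1 : IsUnit (evalEvalRingHom y₁ y u) := hu.map _
    rw [coe_evalEvalRingHom, h] at h1
    exact not_isUnit_zero h1
  | mul a i ha hi ih =>
    rw [← coe_evalEvalRingHom, map_mul, mul_eq_zero] at h
    rcases h with h | h
    · exact ⟨i, hi, dvd_mul_right i a, h⟩
    · obtain ⟨A, hA1, hA2, hA3⟩ := ih ha h
      exact ⟨A, hA1, hA2.trans (dvd_mul_left a i), hA3⟩

end Pool.Agent.Lib.MP_44a246_ntS
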