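import Mathlib
import Pool.Agent.Lib.MP_e52354_ntG.Weights
import Pool.Agent.Lib.MP_44a246_ntS.Names

/-!
Gauss valuations on polynomial rings.
-/

namespace Pool.Agent.Lib.MP_44a246_ntS

open Pool.Agent.Lib.MP_44a246_nt
open Pool.Agent.Lib.MP_44a246_ntL
open WithZero Polynomial

section

variable {R : Type*} [CommRing R] (v : Valuation R ℤᵐ⁰)

/-- the Gauss norm -/
noncomputable def gn (P : R[X]) : ℤᵐ⁰ := P.support.sup fun i => v (P.coeff i)

theorem le_gn (P : R[X]) (i : ℕ) : v (P.coeff i) ≤ gn v P := by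
  by_cases hi : i ∈ P.support
  · exact Finset.le_sup (f := fun i => v (P.coeff i)) hi
  · rw [notMem_support_iff.1 hi, map_zero]
    exact zero_le

theorem gn_le {P : R[X]} {r : ℤᵐ⁰} (h : ∀ i, v (P.coeff i) ≤ r) : gn v P ≤ r :=
  Finset.sup_le fun i _ => h i

theorem gn_add (P Q : R[X]) : gn v (P + Q) ≤ max (gn v P) (gn v Q) :=
  gn_le v fun i => by
    rw [coeff_add]
    exact (v.map_add _ _).trans (max_le_max (le_gn v P i) (le_gn v Q i))

theorem gn_one : gn v (1 : R[X]) = 1 := by
  refine le_antisymm (gn_le v fun i => ?_) ?_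
  · rw [coeff_one]
    split_ifs
    · rw [map_one]
    · rw [map_zero]
      exact zero_le
  · have h := le_gn v (1 : R[X]) 0
    rwa [coeff_one_zero, map_one] at h

theorem gn_zero : gn v (0 : R[X]) = 0 := by
  unfold gn
  rw [support_zero]
  rfl

theorem gn_C (c : R) : gn v (C c) = v c := by
  refine le_antisymm (gn_le v fun i => ?_) ?_
  · rw [coeff_C]
    split_ifs
    · exact le_rfl
    · rw [map_zero]
      exact zero_le
  · have h := le_gn v (C c) 0
    rwa [coeff_C_zero] at h

theorem gn_X : gn v (X : R[X]) = 1 := by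
  refine le_antisymm (gn_le v fun i => ?_) ?_
  · rw [coeff_X]
    split_ifs
    · rw [map_one]
    · rw [map_zero]
      exact zero_le
  · have h := le_gn v (X : R[X]) 1
    rwa [coeff_X_one, map_one] at h

end

end Pool.Agent.Lib.MP_44a246_ntS
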