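import Mathlib
import Pool.Agent.Lib.MP_44a246_ntS.SJ1

/-!
Gauss valuations on polynomial rings.
-/

namespace Pool.Agent.Lib.MP_44a246_ntS

open Pool.Agent.Lib.MP_44a246_nt
open Pool.Agent.Lib.MP_44a246_ntL
open WithZero Polynomial

section

variable {R : Type*} [CommRing R] (v : Valuation R ℤᵐ⁰)

/-- **Gauss's lemma** -/
theorem gn_mul (P Q : R[X]) : gn v (P * Q) = gn v P * gn v Q := by
  -- `≤` is clear. If `gn P` or `gn Q` is zero then use `≤`. Otherwise let `i₀` be the largest
  -- index with `v (P.coeff i₀) = gn P` and `j₀` the largest one with `v (Q.coeff j₀) = gn Q`: in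
  -- the coefficient of degree `i₀ + j₀` of `P * Q` all the terms other than
  -- `P.coeff i₀ * Q.coeff j₀` have a smaller value (`Valuation.map_add_eq_of_lt_left`,
  -- `Valuation.map_sum_lt`).
  classical
  have hle : gn v (P * Q) ≤ gn v P * gn v Q := by
    refine gn_le v fun n => ?_
    rw [coeff_mul]
    refine Valuation.map_sum_le v fun x _ => ?_
    rw [map_mul]
    exact mul_le_mul' (le_gn v P _) (le_gn v Q _)
  refine le_antisymm hle ?_
  by_cases hP : gn v P = 0
  · rw [hP, zero_mul]
    exact zero_le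
  by_cases hQ : gn v Q = 0
  · rw [hQ, mul_zero]
    exact zero_le
  have key : ∀ P : R[X], gn v P ≠ 0 →
      ∃ i, v (P.coeff i) = gn v P ∧ ∀ j, i < j → v (P.coeff j) < gn v P := by
    intro P hP
    have hne : P.support.Nonempty := by
      rw [Finset.nonempty_iff_ne_empty]
      intro h
      apply hP
      unfold gn
      rw [h]
      rfl
    obtain ⟨i, hi, hie⟩ := Finset.exists_mem_eq_sup P.support hne (fun i => v (P.coeff i))
    have hs : (P.support.filter (fun i => v (P.coeff i) = gn v P)).Nonempty :=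
      ⟨i, Finset.mem_filter.2 ⟨hi, hie.symm⟩⟩
    refine ⟨_, (Finset.mem_filter.1 (Finset.max'_mem _ hs)).2, fun j hj => ?_⟩
    refine lt_of_le_of_ne (le_gn v P j) fun he => ?_
    have hj' : j ∈ P.support.filter (fun i => v (P.coeff i) = gn v P) := by
      refine Finset.mem_filter.2 ⟨?_, he⟩
      rw [mem_support_iff]
      intro h0
      rw [h0, map_zero] at he
      exact hP he.symm
    exact absurd (Finset.le_max' _ j hj') (not_le.2 hj)
  obtain ⟨i0, hi0, hi1⟩ := key P hP
  obtain ⟨j0, hj0, hj1⟩ := key Q hQ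
  have hne : gn v P * gn v Q ≠ 0 := mul_ne_zero hP hQ
  have hmem : (i0, j0) ∈ Finset.HasAntidiagonal.antidiagonal (i0 + j0) := Finset.HasAntidiagonal.mem_antidiagonal.2 rfl
  have hlt : v (∑ x ∈ (Finset.HasAntidiagonal.antidiagonal (i0 + j0)).erase (i0, j0),
      P.coeff x.1 * Q.coeff x.2) < gn v P * gn v Q := by
    refine Valuation.map_sum_lt v hne fun x hx => ?_
    obtain ⟨hx1, hx2⟩ := Finset.mem_erase.1 hx
    rw [Finset.HasAntidiagonal.mem_antidiagonal] at hx2
    rw [map_mul]
    rcases lt_trichotomy x.1 i0 with h | h | h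
    · have h2 : j0 < x.2 := by omega
      exact mul_lt_mul_of_le_of_lt_of_nonneg_of_pos (le_gn v P _) (hj1 _ h2) zero_le
        (zero_lt_iff.2 hP)
    · exact absurd (Prod.ext h (by simp only; omega)) hx1
    · exact mul_lt_mul_of_lt_of_le_of_nonneg_of_pos (hi1 _ h) (le_gn v Q _) zero_le
        (zero_lt_iff.2 hQ)
  have h1 : v (P.coeff i0 * Q.coeff j0) = gn v P * gn v Q := by
    rw [map_mul, hi0, hj0]
  have h2 : v ((P * Q).coeff (i0 + j0)) = gn v P * gn v Q := by
    rw [coeff_mul, ← Finset.add_sum_erase _ _ hmem, Valuation.map_add_eq_of_lt_left v, h1]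
    rw [h1]
    exact hlt
  rw [← h2]
  exact le_gn v (P * Q) _

/-- the Gauss valuation -/
noncomputable def gv : Valuation R[X] ℤᵐ⁰ where
  toFun := gn v
  map_zero' := gn_zero v
  map_one' := gn_one v
  map_mul' := gn_mul v
  map_add_le_max' := gn_add v

theorem gv_apply (P : R[X]) : gv v P = gn v P := rfl

end

end Pool.Agent.Lib.MP_44a246_ntS
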