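import Mathlib
import Pool.Agent.Lib.MP_44a246_ntS.SJ1b

/-!
Gauss valuations on polynomial rings.
-/

namespace Pool.Agent.Lib.MP_44a246_ntS

open Pool.Agent.Lib.MP_44a246_nt
open Pool.Agent.Lib.MP_44a246_ntL
open WithZero Polynomial

section

variable {L : Type*} [Field L] (v : Valuation L ℤᵐ⁰)

/-- the Gauss valuation for polynomials in two variables -/
noncomputable def gg : Valuation L[X][X] ℤᵐ⁰ := gv (gv v)

theorem le_gg (A : L[X][X]) (i j : ℕ) : v ((A.coeff i).coeff j) ≤ gg v A :=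
  (le_gn v (A.coeff i) j).trans (le_gn (gv v) A i)

theorem gg_le {A : L[X][X]} {r : ℤᵐ⁰} (h : ∀ i j, v ((A.coeff i).coeff j) ≤ r) :
    gg v A ≤ r :=
  gn_le (gv v) fun i => gn_le v (h i)

theorem gv_eq_zero {P : L[X]} : gv v P = 0 ↔ P = 0 := by
  constructor
  · intro h
    ext i
    have h1 := le_gn v P i
    rw [← gv_apply, h, le_zero_iff, v.zero_iff] at h1
    rw [h1, coeff_zero]
  · rintro rfl
    exact map_zero _

theorem gg_eq_zero {A : L[X][X]} : gg v A = 0 ↔ A = 0 := by
  constructor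
  · intro h
    refine Polynomial.ext fun i => ?_
    have h1 := le_gn (gv v) A i
    rw [← gv_apply] at h1
    have h2 : gv v (A.coeff i) = 0 := by
      rw [← le_zero_iff]
      exact h1.trans (le_of_eq h)
    rw [(gv_eq_zero v).1 h2, coeff_zero]
  · rintro rfl
    exact map_zero _

theorem gg_CC (c : L) : gg v (C (C c)) = v c :=
  (gn_C (gv v) (C c)).trans (gn_C v c)

theorem gg_CX : gg v (C X) = 1 :=
  (gn_C (gv v) X).trans (gn_X v)

end

end Pool.Agent.Lib.MP_44a246_ntS
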