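import Mathlib
import Pool.Agent.Lib.MP_44a246_ntL.LFF
import Pool.Agent.Lib.MP_44a246_ntS.SJ1c

/-!
Heights of polynomials in two variables.
-/

namespace Pool.Agent.Lib.MP_44a246_ntS

open Pool.Agent.Lib.MP_44a246_nt
open Pool.Agent.Lib.MP_44a246_ntL
open WithZero Polynomial

/-- the height of a polynomial in two variables -/
noncomputable def gh (κ : Type*) {L : Type*} [Field κ] [Field L] [Algebra κ L] (A : L[X][X]) : ℤ :=
  ∑ᶠ w : Place κ L, log (gg w.1 A)

variable {κ L : Type*} [Field κ] [IsAlgClosed κ] [CharZero κ] [Field L] [Algebra κ L]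

omit [Field κ] [IsAlgClosed κ] [CharZero κ] [Algebra κ L] in
theorem gv_eq_vmax (v : Valuation L ℤᵐ⁰) (P : L[X]) :
    gv v P = vmax v (fun i : P.support => P.coeff i.1) := by
  rw [gv_apply]
  unfold gn vmax
  rw [Finset.univ_eq_attach, Finset.sup_attach P.support (fun i => v (P.coeff i))]

omit [Field κ] [IsAlgClosed κ] [CharZero κ] [Algebra κ L] in
theorem gg_eq_vmax (v : Valuation L ℤᵐ⁰) (A : L[X][X]) :
    gg v A = vmax v (fun p : A.support ×
      (A.support.biUnion fun i => (A.coeff i).support : Finset ℕ) =>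
        (A.coeff p.1.1).coeff p.2.1) := by
  refine le_antisymm (gg_le v fun i j => ?_) (Finset.sup_le fun p _ => le_gg v A _ _)
  by_cases hj : j ∈ (A.coeff i).support
  · have hi : i ∈ A.support := by
      rw [mem_support_iff]
      intro h0
      rw [h0, support_zero] at hj
      exact absurd hj (Finset.notMem_empty j)
    exact Finset.le_sup (f := fun p : A.support ×
      (A.support.biUnion fun i => (A.coeff i).support : Finset ℕ) =>
        v ((A.coeff p.1.1).coeff p.2.1))
      (Finset.mem_univ (⟨i, hi⟩, ⟨j, Finset.mem_biUnion.2 ⟨i, hi, hj⟩⟩))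
  · rw [notMem_support_iff.1 hj, map_zero]
    exact zero_le

theorem gg_coeffs_ne_zero {A : L[X][X]} (hA : A ≠ 0) :
    (fun p : A.support × (A.support.biUnion fun i => (A.coeff i).support : Finset ℕ) =>
        (A.coeff p.1.1).coeff p.2.1) ≠ 0 := by
  intro h0
  apply hA
  refine Polynomial.ext fun i => Polynomial.ext fun j => ?_
  rw [coeff_zero, coeff_zero]
  by_contra hij
  have hj : j ∈ (A.coeff i).support := mem_support_iff.2 hij
  have hi : i ∈ A.support := by
    rw [mem_support_iff]
    intro h1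
    rw [h1, coeff_zero] at hij
    exact hij rfl
  exact hij (congrFun h0 (⟨i, hi⟩, ⟨j, Finset.mem_biUnion.2 ⟨i, hi, hj⟩⟩))

/-- the sum has finite support, for univariate polynomials -/
theorem gv_support (h : IsFF κ L) {P : L[X]} (hP : P ≠ 0) :
    (Function.support fun w : Place κ L => log (gv w.1 P)).Finite := by
  simp only [gv_eq_vmax]
  refine h.vmax_support fun h0 => ?_
  apply hP
  ext i
  rw [coeff_zero]
  by_contra hi
  exact hi (congrFun h0 ⟨i, mem_support_iff.2 hi⟩)

/-- the sum has finite support -/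
theorem gg_support (h : IsFF κ L) {A : L[X][X]} (hA : A ≠ 0) :
    (Function.support fun w : Place κ L => log (gg w.1 A)).Finite := by
  simp only [gg_eq_vmax]
  exact h.vmax_support (gg_coeffs_ne_zero hA)

theorem gh_mul (h : IsFF κ L) {A B : L[X][X]} (hA : A ≠ 0) (hB : B ≠ 0) :
    gh κ (A * B) = gh κ A + gh κ B := by
  unfold gh
  rw [← finsum_add_distrib (gg_support h hA) (gg_support h hB)]
  refine finsum_congr fun w => ?_
  rw [map_mul, log_mul (fun h0 => hA ((gg_eq_zero w.1).1 h0))
    (fun h0 => hB ((gg_eq_zero w.1).1 h0))]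

end Pool.Agent.Lib.MP_44a246_ntS
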