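import Mathlib
import Pool.Agent.Lib.MP_44a246_ntL.LRoot
import Pool.Agent.Lib.MP_44a246_ntS.SJ2

/-!
Heights of polynomials in two variables.
-/

namespace Pool.Agent.Lib.MP_44a246_ntS

open Pool.Agent.Lib.MP_44a246_nt
open Pool.Agent.Lib.MP_44a246_ntL
open WithZero Polynomial

variable {κ L : Type*} [Field κ] [IsAlgClosed κ] [CharZero κ] [Field L] [Algebra κ L]

theorem gh_nonneg (h : IsFF κ L) {A : L[X][X]} (hA : A ≠ 0) : 0 ≤ gh κ A := by
  unfold gh
  simp only [gg_eq_vmax]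
  exact h.height_nonneg (gg_coeffs_ne_zero hA)

theorem gh_le_of_dvd (h : IsFF κ L) {A B : L[X][X]} (hAB : A ∣ B) (hB : B ≠ 0) :
    gh κ A ≤ gh κ B := by
  obtain ⟨Q, rfl⟩ := hAB
  rw [gh_mul h (left_ne_zero_of_mul hB) (right_ne_zero_of_mul hB)]
  linarith [gh_nonneg h (right_ne_zero_of_mul hB)]

/-- scaling -/
theorem gh_smul (h : IsFF κ L) {A : L[X][X]} (hA : A ≠ 0) {c : L} (hc : c ≠ 0) :
    gh κ (C (C c) * A) = gh κ A := by
  rw [gh_mul h (by rwa [Ne, C_eq_zero, C_eq_zero]) hA]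
  have h1 : gh κ (C (C c) : L[X][X]) = 0 := by
    unfold gh
    simp only [gg_CC]
    exact h.product_formula hc
  rw [h1, zero_add]

/-- the height of a root of a univariate polynomial -/
theorem root_gv (h : IsFF κ L) {r : L[X]} (hr : r ≠ 0) {y : L} (hy : r.eval y = 0) :
    height κ ![1, y] ≤ ∑ᶠ w : Place κ L, log (gv w.1 r) := by
  have hc : (fun i : Fin (r.natDegree + 1) => r.coeff i) ≠ 0 := by
    intro h0
    apply hr
    have h1 := congrFun h0 ⟨r.natDegree, Nat.lt_succ_self _⟩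
    exact leadingCoeff_eq_zero.1 h1
  have hz : ∑ i : Fin (r.natDegree + 1), r.coeff i * y ^ (i : ℕ) = 0 := by
    rw [Fin.sum_univ_eq_sum_range (fun i => r.coeff i * y ^ i), ← eval_eq_sum_range]
    exact hy
  refine (root_height h hc hz).trans (le_of_eq ?_)
  unfold height
  refine finsum_congr fun w => ?_
  congr 1
  refine le_antisymm (Finset.sup_le fun i _ => le_gn w.1 r i) (gn_le w.1 fun i => ?_)
  rcases Nat.lt_or_ge r.natDegree i with hi | hi
  · rw [coeff_eq_zero_of_natDegree_lt hi, map_zero]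
    exact zero_le
  · exact Finset.le_sup (f := fun i : Fin (r.natDegree + 1) => w.1 (r.coeff i))
      (Finset.mem_univ ⟨i, Nat.lt_succ_of_le hi⟩)

end Pool.Agent.Lib.MP_44a246_ntS
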