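import Mathlib
import Pool.Agent.Lib.MP_44a246_ntS.SJ1
import Pool.Agent.Lib.MP_44a246_ntS.Names

/-!
Bezout's theorem with heights: a polynomial of small height which vanishes at a point of large
height is divisible by the irreducible polynomial of small height which vanishes there.
-/

namespace Pool.Agent.Lib.MP_44a246_ntS

open Pool.Agent.Lib.MP_44a246_nt
open Pool.Agent.Lib.MP_44a246_ntL
open WithZero Polynomial

/-- the size of the resultant -/
theorem resultant_le {R : Type*} [CommRing R] (v : Valuation R ℤᵐ⁰) (f g : R[X]) (m n : ℕ) :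
    v (resultant f g m n) ≤ gn v f ^ n * gn v g ^ m := by
  classical
  have hL : ∀ (i : Fin (m + n)) (j : Fin m),
      v (sylvester f g m n i (Fin.castAdd n j)) ≤ gn v g := by
    intro i j
    simp only [sylvester, Matrix.of_apply, Fin.addCases_left]
    split_ifs with h
    · exact le_gn v g _
    · rw [map_zero]
      exact zero_le
  have hR : ∀ (i : Fin (m + n)) (j : Fin n),
      v (sylvester f g m n i (Fin.natAdd m j)) ≤ gn v f := by
    intro i j
    simp only [sylvester, Matrix.of_apply, Fin.addCases_right]
    split_ifs with h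
    · exact le_gn v f _
    · rw [map_zero]
      exact zero_le
  have hterm : ∀ σ : Equiv.Perm (Fin (m + n)),
      v (∏ i, sylvester f g m n (σ i) i) ≤ gn v f ^ n * gn v g ^ m := by
    intro σ
    rw [map_prod, Fin.prod_univ_add, mul_comm]
    refine mul_le_mul' ?_ ?_
    · calc ∏ i : Fin n, v (sylvester f g m n (σ (Fin.natAdd m i)) (Fin.natAdd m i))
          ≤ ∏ _i : Fin n, gn v f := Finset.prod_le_prod' fun i _ => hR _ i
        _ = gn v f ^ n := by simp
    · calc ∏ i : Fin m, v (sylvester f g m n (σ (Fin.castAdd n i)) (Fin.castAdd n i))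
          ≤ ∏ _i : Fin m, gn v g := Finset.prod_le_prod' fun i _ => hL _ i
        _ = gn v g ^ m := by simp
  rw [resultant, Matrix.det_apply]
  refine v.map_sum_le fun σ _ => ?_
  rcases Int.units_eq_one_or (Equiv.Perm.sign σ) with h | h
  · rw [h, one_smul]
    exact hterm σ
  · rw [h, Units.neg_smul, one_smul, Valuation.map_neg]
    exact hterm σ

end Pool.Agent.Lib.MP_44a246_ntS
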