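import Mathlib
import Pool.Agent.Lib.MP_44a246_ntS.Names

/-!
Bezout's theorem with heights: a polynomial of small height which vanishes at a point of large
height is divisible by the irreducible polynomial of small height which vanishes there.
-/

namespace Pool.Agent.Lib.MP_44a246_ntS

open Pool.Agent.Lib.MP_44a246_nt
open Pool.Agent.Lib.MP_44a246_ntL
open WithZero Polynomial

/-- over a factorial ring: an irreducible polynomial of positive degree divides `g` if the
resultant vanishes -/
theorem dvd_of_resultant {R : Type*} [CommRing R] [IsDomain R] [UniqueFactorizationMonoid R]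
    {f g : R[X]} (hf : Irreducible f) (hf0 : f.natDegree ≠ 0) (h : resultant f g = 0) : f ∣ g := by
  classical
  rcases eq_or_ne g 0 with rfl | hg
  · exact dvd_zero f
  have hprim : f.IsPrimitive := hf.isPrimitive hf0
  let K := FractionRing R
  have hinj : Function.Injective (algebraMap R K) := IsFractionRing.injective R K
  have hirr : Irreducible (f.map (algebraMap R K)) :=
    hprim.irreducible_iff_irreducible_map_fraction_map.1 hf
  have h1 : resultant (f.map (algebraMap R K)) (g.map (algebraMap R K)) = 0 := by
    rw [natDegree_map_eq_of_injective hinj, natDegree_map_eq_of_injective hinj, resultant_map_map, h,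
      map_zero]
  have h2 := (resultant_eq_zero_iff.1 h1).2
  have h3 : f.map (algebraMap R K) ∣ g.map (algebraMap R K) := by
    by_contra hnd
    exact h2 ((hirr.coprime_iff_not_dvd).2 hnd)
  exact hprim.dvd_of_fraction_map_dvd_fraction_map h3

end Pool.Agent.Lib.MP_44a246_ntS
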