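import Mathlib
import Pool.Agent.Lib.MP_44a246_ntS.SJ2b
import Pool.Agent.Lib.MP_44a246_ntS.SJ4
import Pool.Agent.Lib.MP_44a246_ntS.SJ4b

/-!
Bezout's theorem with heights: a polynomial of small height which vanishes at a point of large
height is divisible by the irreducible polynomial of small height which vanishes there.
-/

namespace Pool.Agent.Lib.MP_44a246_ntS

open Pool.Agent.Lib.MP_44a246_nt
open Pool.Agent.Lib.MP_44a246_ntL
open WithZero Polynomial

/-- **Bezout with heights** -/
theorem bez {κ L : Type*} [Field κ] [IsAlgClosed κ] [CharZero κ] [Field L] [Algebra κ L]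
    (h : IsFF κ L) {A B : L[X][X]} (hA : Irreducible A) (hA0 : A.natDegree ≠ 0) {y₁ y : L}
    (hAy : A.evalEval y₁ y = 0) (hBy : B.evalEval y₁ y = 0)
    (hh : (B.natDegree : ℤ) * gh κ A + A.natDegree * gh κ B < height κ ![1, y₁]) : A ∣ B := by
  classical
  by_cases hB : B = 0
  · rw [hB]
    exact dvd_zero A
  have hA' : A ≠ 0 := hA.ne_zero
  by_cases hr0 : resultant A B = 0
  · exact dvd_of_resultant hA hA0 hr0
  exfalso
  obtain ⟨p, q, -, -, e⟩ :=
    exists_mul_add_mul_eq_C_resultant A B le_rfl le_rfl (Or.inl hA0)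
  have h1 : (resultant A B).eval y₁ = 0 := by
    have h0 := congrArg (fun P : L[X][X] => P.evalEval y₁ y) e
    simp only [evalEval_add, evalEval_mul, hAy, hBy, zero_mul, zero_add, evalEval_C] at h0
    exact h0.symm
  have h2 := root_gv h hr0 h1
  have hsA := gg_support h hA'
  have hsB := gg_support h hB
  have hs1 : (Function.support fun w : Place κ L => (B.natDegree : ℤ) * log (gg w.1 A)).Finite :=
    hsA.subset fun w hw h0 => hw (by simp only at h0 ⊢; rw [h0, mul_zero])
  have hs2 : (Function.support fun w : Place κ L => (A.natDegree : ℤ) * log (gg w.1 B)).Finite :=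
    hsB.subset fun w hw h0 => hw (by simp only at h0 ⊢; rw [h0, mul_zero])
  have hs3 : (Function.support fun w : Place κ L => (B.natDegree : ℤ) * log (gg w.1 A) +
      (A.natDegree : ℤ) * log (gg w.1 B)).Finite :=
    (hs1.union hs2).subset fun w hw => by
      by_contra hcon
      rw [Set.mem_union, not_or, Function.mem_support, Function.mem_support, not_not, not_not]
        at hcon
      exact hw (by simp only; rw [hcon.1, hcon.2, add_zero])
  have h3 : ∑ᶠ w : Place κ L, log (gv w.1 (resultant A B)) ≤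
      ∑ᶠ w : Place κ L, ((B.natDegree : ℤ) * log (gg w.1 A) +
        (A.natDegree : ℤ) * log (gg w.1 B)) := by
    refine finsum_mono (gv_support h hr0) hs3 fun w => ?_
    have hres : gv w.1 (resultant A B) ≤ gg w.1 A ^ B.natDegree * gg w.1 B ^ A.natDegree :=
      resultant_le (gv w.1) A B A.natDegree B.natDegree
    have hr1 : gv w.1 (resultant A B) ≠ 0 := fun h0 => hr0 (gv_eq_zero w.1 |>.mp h0)
    have hA1 : gg w.1 A ≠ 0 := fun h0 => hA' (gg_eq_zero w.1 |>.mp h0)
    have hB1 : gg w.1 B ≠ 0 := fun h0 => hB (gg_eq_zero w.1 |>.mp h0)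
    have h5 := (log_le_log hr1 (mul_ne_zero (pow_ne_zero _ hA1) (pow_ne_zero _ hB1))).2 hres
    rw [log_mul (pow_ne_zero _ hA1) (pow_ne_zero _ hB1), log_pow, log_pow, nsmul_eq_mul,
      nsmul_eq_mul] at h5
    exact h5
  have h4 : ∑ᶠ w : Place κ L, ((B.natDegree : ℤ) * log (gg w.1 A) +
        (A.natDegree : ℤ) * log (gg w.1 B)) =
      (B.natDegree : ℤ) * gh κ A + A.natDegree * gh κ B := by
    rw [finsum_add_distrib hs1 hs2, gh, gh, mul_finsum, mul_finsum]
  linarith

end Pool.Agent.Lib.MP_44a246_ntS
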