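import Mathlib
import Pool.Agent.Lib.MP_44a246_ntL.LMason
import Pool.Agent.Lib.MP_44a246_ntS.SJ4c

/-!
Irreducible factors; the partial derivative.
-/

namespace Pool.Agent.Lib.MP_44a246_ntS

open Pool.Agent.Lib.MP_44a246_nt
open Pool.Agent.Lib.MP_44a246_ntL
open WithZero Polynomial

variable {κ L : Type*} [Field κ] [IsAlgClosed κ] [CharZero κ] [Field L] [Algebra κ L]

/-- a polynomial of small height vanishing at a point of large height is not constant in the outer
variable -/
theorem natDegree_ne (h : IsFF κ L) {A : L[X][X]} (hA : A ≠ 0) {y₁ y : L}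
    (hAy : A.evalEval y₁ y = 0) (hh : gh κ A < height κ ![1, y₁]) : A.natDegree ≠ 0 := by
  -- otherwise `A = C r`, `r.eval y₁ = 0`, and `height κ ![1, y₁] ≤ gh κ A` by `root_gv`
  intro h0
  obtain ⟨r, rfl⟩ := natDegree_eq_zero.1 h0
  have hr : r ≠ 0 := fun h1 => hA (by rw [h1, C_0])
  rw [evalEval_C] at hAy
  have h1 := root_gv h hr hAy
  have h2 : gh κ (C r) = ∑ᶠ w : Place κ L, log (gv w.1 r) := by
    unfold gh
    refine finsum_congr fun w => ?_
    congr 1
    exact gn_C _ _
  rw [h2] at hh
  exact absurd h1 (not_le.2 hh)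

theorem gg_derivative_le (v : Valuation L ℤᵐ⁰) (A : L[X][X]) : gg v (derivative A) ≤ gg v A := by
  -- the coefficients of the derivative are integral multiples of those of `A`;
  -- `Valuation` of natural numbers is at most `1` (`mason_natCast`)
  refine gg_le v fun i j => ?_
  have h1 : ((derivative A).coeff i).coeff j = (A.coeff (i + 1)).coeff j * ((i + 1 : ℕ) : L) := by
    rw [coeff_derivative]
    have : ((i : L[X]) + 1) = C ((i + 1 : ℕ) : L) := by simp
    rw [this, coeff_mul_C]
  rw [h1, map_mul]
  calc v ((A.coeff (i + 1)).coeff j) * v (((i + 1 : ℕ) : L))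
      ≤ v ((A.coeff (i + 1)).coeff j) * 1 := mul_le_mul_right (mason_natCast v _) _
    _ ≤ gg v A := by rw [mul_one]; exact le_gg v A _ _

/-- the partial derivative does not vanish at the point -/
theorem derivative_ne (h : IsFF κ L) {A : L[X][X]} (hA : Irreducible A) {y₁ y : L}
    (hAy : A.evalEval y₁ y = 0) (hA0 : A.natDegree ≠ 0)
    (hh : 2 * (A.natDegree : ℤ) * gh κ A < height κ ![1, y₁]) :
    (derivative A).evalEval y₁ y ≠ 0 := by
  -- otherwise `A ∣ derivative A` by `bez` (`natDegree_derivative_lt`, `gg_derivative_le`), which is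
  -- impossible: `derivative A ≠ 0` (characteristic zero) has a smaller degree
  intro h0
  have : CharZero L := charZero_of_injective_algebraMap (algebraMap κ L).injective
  have hne : derivative A ≠ 0 := by
    intro h1
    obtain ⟨m, hm⟩ : ∃ m, A.natDegree = m + 1 := Nat.exists_eq_succ_of_ne_zero hA0
    have h2 : (derivative A).coeff m = 0 := by rw [h1, coeff_zero]
    rw [coeff_derivative, ← hm] at h2
    rcases mul_eq_zero.1 h2 with h3 | h3
    · exact hA.ne_zero (leadingCoeff_eq_zero.1 h3)
    · have h4 : ((m : L[X]) + 1) = C ((m + 1 : ℕ) : L) := by simp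
      rw [h4, C_eq_zero] at h3
      exact absurd h3 (Nat.cast_ne_zero.2 (by omega))
  have hlt : (derivative A).natDegree < A.natDegree := natDegree_derivative_lt hA0
  have hg0 : 0 ≤ gh κ A := gh_nonneg h hA.ne_zero
  have hg : gh κ (derivative A) ≤ gh κ A := by
    unfold gh
    refine finsum_mono (gg_support h hne) (gg_support h hA.ne_zero) fun w => ?_
    refine (log_le_log ?_ ?_).2 (gg_derivative_le w.1 A)
    · exact (gg_eq_zero w.1).not.2 hne
    · exact (gg_eq_zero w.1).not.2 hA.ne_zero
  have hd : A ∣ derivative A := by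
    refine bez h hA hA0 hAy h0 ?_
    have h1 : ((derivative A).natDegree : ℤ) * gh κ A ≤ A.natDegree * gh κ A :=
      mul_le_mul_of_nonneg_right (by exact_mod_cast hlt.le) hg0
    have h2 : (A.natDegree : ℤ) * gh κ (derivative A) ≤ A.natDegree * gh κ A :=
      mul_le_mul_of_nonneg_left hg (by positivity)
    linarith
  exact absurd (natDegree_le_of_dvd hd hne) (not_le.2 hlt)

end Pool.Agent.Lib.MP_44a246_ntS
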