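import Mathlib
import Pool.Agent.Lib.MP_44a246_ntS.SJ5
import Pool.Agent.Lib.MP_44a246_ntS.SJ5b
import Pool.Agent.Lib.MP_44a246_ntS.SJ5c

/-!
Irreducible factors; the partial derivative.
-/

namespace Pool.Agent.Lib.MP_44a246_ntS

open Pool.Agent.Lib.MP_44a246_nt
open Pool.Agent.Lib.MP_44a246_ntL
open WithZero Polynomial

variable {κ L : Type*} [Field κ] [IsAlgClosed κ] [CharZero κ] [Field L] [Algebra κ L]

/-- the curve: an irreducible factor with a coefficient equal to `1` -/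
theorem exists_curve (h : IsFF κ L) {P : L[X][X]} (hP : P ≠ 0) {b : ℕ} (hb : Box b P)
    {y₁ y : L} (hPy : P.evalEval y₁ y = 0) (hb1 : 1 ≤ b)
    (hh : 2 * (b : ℤ) * gh κ P < height κ ![1, y₁]) :
    ∃ A : L[X][X], Irreducible A ∧ A ∣ P ∧ Box b A ∧ A.natDegree ≠ 0 ∧
      A.evalEval y₁ y = 0 ∧ (derivative A).evalEval y₁ y ≠ 0 ∧ gh κ A ≤ gh κ P ∧
      ∃ i j, (A.coeff i).coeff j = 1 := by
  -- `exists_irr`, scaled by the inverse of a nonzero coefficient (`C (C c⁻¹)` is a unit);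
  -- `Box.of_dvd`, `gh_le_of_dvd`, `natDegree_ne`, `derivative_ne`
  obtain ⟨A₀, hirr, hdvd, hev⟩ := exists_irr hP hPy
  have hA₀ : A₀ ≠ 0 := hirr.ne_zero
  obtain ⟨i, j, hij⟩ : ∃ i j, (A₀.coeff i).coeff j ≠ 0 := by
    by_contra hcon
    push Not at hcon
    apply hA₀
    ext i j
    rw [hcon i j]
    simp
  have hu : IsUnit (C (C ((A₀.coeff i).coeff j)⁻¹) : L[X][X]) := by
    rw [isUnit_C, isUnit_C, isUnit_iff_ne_zero]
    exact inv_ne_zero hij
  have hA : Irreducible (C (C ((A₀.coeff i).coeff j)⁻¹) * A₀) := by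
    obtain ⟨u, hu⟩ := hu
    rw [← hu]
    exact (irreducible_units_mul u).2 hirr
  have hAd : C (C ((A₀.coeff i).coeff j)⁻¹) * A₀ ∣ P := (hu.mul_left_dvd).2 hdvd
  have hbox := Box.of_dvd hb hP hAd
  have hle := gh_le_of_dvd h hAd hP
  have h0 := gh_nonneg h hA.ne_zero
  have hAy : (C (C ((A₀.coeff i).coeff j)⁻¹) * A₀).evalEval y₁ y = 0 := by
    rw [evalEval_mul, hev, mul_zero]
  have hb1' : (1 : ℤ) ≤ b := by exact_mod_cast hb1
  have hlt : gh κ (C (C ((A₀.coeff i).coeff j)⁻¹) * A₀) < height κ ![1, y₁] := by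
    nlinarith
  have hdeg := natDegree_ne h hA.ne_zero hAy hlt
  have hnb : (((C (C ((A₀.coeff i).coeff j)⁻¹) * A₀).natDegree : ℕ) : ℤ) ≤ b := by
    exact_mod_cast hbox.1
  have hlt2 : 2 * ((C (C ((A₀.coeff i).coeff j)⁻¹) * A₀).natDegree : ℤ) *
      gh κ (C (C ((A₀.coeff i).coeff j)⁻¹) * A₀) < height κ ![1, y₁] := by
    refine lt_of_le_of_lt ?_ hh
    refine (mul_le_mul_of_nonneg_right (mul_le_mul_of_nonneg_left hnb (by norm_num)) h0).trans ?_
    exact mul_le_mul_of_nonneg_left hle (by positivity)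
  refine ⟨C (C ((A₀.coeff i).coeff j)⁻¹) * A₀, hA, hAd, hbox, hdeg, hAy,
    derivative_ne h hA hAy hdeg hlt2, hle, i, j, ?_⟩
  rw [coeff_C_mul, coeff_C_mul, inv_mul_cancel₀ hij]

end Pool.Agent.Lib.MP_44a246_ntS
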