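import Mathlib
import Pool.Agent.Lib.MP_44a246_ntS.SH1
import Pool.Agent.Lib.MP_44a246_ntS.SR0
import Pool.Agent.Lib.MP_e52354_ntG.Weights

/-!
Derivations applied to the coefficients of polynomials in two variables.
-/

namespace Pool.Agent.Lib.MP_44a246_ntS

open Pool.Agent.Lib.MP_44a246_nt
open Pool.Agent.Lib.MP_44a246_ntL
open WithZero Polynomial

section

variable {L : Type*} [Field L]

/-- the derivation applied to all coefficients -/
noncomputable def cd (D : Derivation ℤ L L) (A : L[X][X]) : L[X][X] :=
  A.sum fun i P => monomial i (P.sum fun j c => monomial j (D c))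

theorem cd_coeff (D : Derivation ℤ L L) (A : L[X][X]) (i j : ℕ) :
    ((cd D A).coeff i).coeff j = D ((A.coeff i).coeff j) := by
  have h1 : ∀ P : L[X], (P.sum fun j c => monomial j (D c)).coeff j = D (P.coeff j) := by
    intro P
    rw [Polynomial.sum, finsetSum_coeff]
    simp only [coeff_monomial]
    rw [Finset.sum_ite_eq' P.support j (fun k => D (P.coeff k))]
    split_ifs with h
    · rfl
    · rw [notMem_support_iff.1 h, map_zero]
  unfold cd
  rw [Polynomial.sum, finsetSum_coeff]
  simp only [coeff_monomial]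
  rw [Finset.sum_ite_eq' A.support i
    (fun k => ((A.coeff k).sum fun j c => monomial j (D c) : L[X]))]
  split_ifs with h
  · exact h1 _
  · rw [notMem_support_iff.1 h, coeff_zero, map_zero]

/-- the derivative with respect to the inner variable -/
noncomputable def dX (A : L[X][X]) : L[X][X] := A.sum fun i P => monomial i (derivative P)

/-- the value as a double sum -/
theorem evalEval_eq (A : L[X][X]) (y₁ y : L) :
    A.evalEval y₁ y = ∑ i ∈ A.support, ∑ j ∈ (A.coeff i).support,
      (A.coeff i).coeff j * y₁ ^ j * y ^ i := by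
  have h1 : eval (C y) A = ∑ i ∈ A.support, A.coeff i * (C y) ^ i := by
    rw [eval_eq_sum, Polynomial.sum]
  rw [evalEval, h1, eval_finsetSum]
  apply Finset.sum_congr rfl
  intro i _
  rw [eval_mul, eval_pow, eval_C, eval_eq_sum, Polynomial.sum, Finset.sum_mul]

theorem cd_box {D : Derivation ℤ L L} {A : L[X][X]} {b : ℕ} (hA : Box b A) :
    Box b (cd D A) := by
  refine ⟨?_, fun i => ?_⟩
  · rw [natDegree_le_iff_coeff_eq_zero]
    intro i hi
    ext j
    rw [cd_coeff, coeff_eq_zero_of_natDegree_lt (lt_of_le_of_lt hA.1 hi), coeff_zero, map_zero]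
  · rw [natDegree_le_iff_coeff_eq_zero]
    intro j hj
    rw [cd_coeff, coeff_eq_zero_of_natDegree_lt (lt_of_le_of_lt (hA.2 i) hj), map_zero]

end

end Pool.Agent.Lib.MP_44a246_ntS
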