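import Mathlib
import Pool.Agent.Lib.MP_44a246_ntS.SJ1c
import Pool.Agent.Lib.MP_44a246_ntS.SL1

/-!
Derivations applied to the coefficients of polynomials in two variables.
-/

namespace Pool.Agent.Lib.MP_44a246_ntS

open Pool.Agent.Lib.MP_44a246_nt
open Pool.Agent.Lib.MP_44a246_ntL
open WithZero Polynomial

section

variable {L : Type*} [Field L]

private theorem cd_add (D : Derivation ℤ L L) (A B : L[X][X]) :
    cd D (A + B) = cd D A + cd D B := by
  ext i j
  rw [cd_coeff, coeff_add, coeff_add, coeff_add, coeff_add, cd_coeff, cd_coeff, map_add]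

private theorem dX_add (A B : L[X][X]) : dX (A + B) = dX A + dX B := by
  unfold dX
  rw [Polynomial.sum_add_index]
  · intro i
    rw [derivative_zero, monomial_zero_right]
  · intro i P Q
    rw [derivative_add, map_add]

/-- the chain rule -/
theorem chain (D : Derivation ℤ L L) (A : L[X][X]) (y₁ y : L) :
    D (A.evalEval y₁ y) = (cd D A).evalEval y₁ y + (dX A).evalEval y₁ y * D y₁ +
      (derivative A).evalEval y₁ y * D y := by
  -- both sides are additive in `A`, so it is enough to consider `A = C (C c) * C X ^ j * X ^ i`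
  -- (`Polynomial.induction_on'` twice)
  have hadd : ∀ A B : L[X][X],
      (D (A.evalEval y₁ y) = (cd D A).evalEval y₁ y + (dX A).evalEval y₁ y * D y₁ +
        (derivative A).evalEval y₁ y * D y) →
      (D (B.evalEval y₁ y) = (cd D B).evalEval y₁ y + (dX B).evalEval y₁ y * D y₁ +
        (derivative B).evalEval y₁ y * D y) →
      D ((A + B).evalEval y₁ y) = (cd D (A + B)).evalEval y₁ y + (dX (A + B)).evalEval y₁ y * D y₁ +
        (derivative (A + B)).evalEval y₁ y * D y := by
    intro A B hA hB
    rw [cd_add, dX_add, derivative_add, evalEval_add, evalEval_add, evalEval_add, evalEval_add,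
      map_add, hA, hB]
    ring
  induction A using Polynomial.induction_on' with
  | add A B hA hB => exact hadd A B hA hB
  | monomial i P =>
    induction P using Polynomial.induction_on' with
    | add P Q hP hQ =>
      rw [map_add]
      exact hadd _ _ hP hQ
    | monomial j c =>
      have h1 : cd D (monomial i (monomial j c)) = monomial i (monomial j (D c)) := by
        unfold cd
        rw [sum_monomial_index, sum_monomial_index]
        · rw [map_zero, monomial_zero_right]
        · rw [sum_zero_index, monomial_zero_right]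
      have h2 : dX (monomial i (monomial j c)) = monomial i (monomial (j - 1) (c * j)) := by
        unfold dX
        rw [sum_monomial_index, derivative_monomial]
        rw [derivative_zero, monomial_zero_right]
      rw [h1, h2, derivative_monomial]
      simp only [evalEval, eval_monomial, eval_mul, eval_pow, eval_C, eval_natCast]
      rw [Derivation.leibniz, Derivation.leibniz, Derivation.leibniz_pow, Derivation.leibniz_pow]
      simp only [smul_eq_mul, nsmul_eq_mul]
      ring

theorem cd_ne_zero_le {κ : Type*} [Field κ] [Algebra κ L] {D : Derivation ℤ L L}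
    {δ : Place κ L → ℕ} (hD : PoleBound κ D δ) {A : L[X][X]} (h1 : ∃ i j, (A.coeff i).coeff j = 1)
    (w : Place κ L) : gg w.1 (cd D A) ≤ gg w.1 A ^ 2 * exp (δ w : ℤ) := by
  -- `gg w A ≥ 1`; for a coefficient `c` of `A`: `w (D c) ≤ max 1 (w c) ^ 2 * exp (δ w)`
  -- (if `w c > 1` then `D c = - c ^ 2 * D (c⁻¹)`), and `w c ≤ gg w A`
  have hone : 1 ≤ gg w.1 A := by
    obtain ⟨i, j, hij⟩ := h1
    have := le_gg w.1 A i j
    rwa [hij, map_one] at this
  refine gg_le w.1 fun i j => ?_
  rw [cd_coeff]
  set c := (A.coeff i).coeff j with hc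
  have hcg : w.1 c ≤ gg w.1 A := le_gg w.1 A i j
  by_cases h : w.1 c ≤ 1
  · refine (hD w c h).trans ?_
    calc (exp (δ w : ℤ) : ℤᵐ⁰) = 1 * exp (δ w : ℤ) := (one_mul _).symm
      _ ≤ gg w.1 A ^ 2 * exp (δ w : ℤ) := mul_le_mul_left (one_le_pow₀ hone) _
  · have h' : 1 < w.1 c := not_le.1 h
    have hc0 : c ≠ 0 := by
      intro h0
      rw [h0, map_zero] at h
      exact h zero_le_one
    have h2 : w.1 (c⁻¹) ≤ 1 := by
      rw [map_inv₀]
      exact inv_le_one_of_one_le₀ h'.le
    have h3 : D c = -(c ^ 2 * D (c⁻¹)) := by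
      have h4 := Derivation.leibniz_inv D (c⁻¹)
      rw [inv_inv] at h4
      rw [h4, smul_eq_mul]
      ring
    rw [h3, Valuation.map_neg, map_mul, map_pow]
    exact mul_le_mul' (pow_le_pow_left' hcg 2) (hD w _ h2)

/-- multiplication with the number of coefficients -/
theorem one_le_gg {κ : Type*} [Field κ] [Algebra κ L] {A : L[X][X]}
    (h1 : ∃ i j, (A.coeff i).coeff j = 1) (w : Place κ L) : 1 ≤ gg w.1 A := by
  obtain ⟨i, j, hij⟩ := h1
  have := le_gg w.1 A i j
  rwa [hij, map_one] at this

end

end Pool.Agent.Lib.MP_44a246_ntS
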