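import Mathlib
import Pool.Agent.Lib.MP_44a246_ntS.SB2c
import Pool.Agent.Lib.MP_44a246_ntS.SC1

/-!
Slopes: the piece of slope `μ` of the Harder-Narasimhan filtration over a given vector.
-/

namespace Pool.Agent.Lib.MP_44a246_ntS

open Pool.Agent.Lib.MP_44a246_nt
open Pool.Agent.Lib.MP_44a246_ntL
open WithZero Module

variable {κ L : Type*} [Field κ] [IsAlgClosed κ] [CharZero κ] [Field L] [Algebra κ L]
  {ι ι' : Type*} [Fintype ι] [Fintype ι']

/-- bounds for the dimension and the height -/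
theorem IsSl.bound (h : IsFF κ L) {μ : ℝ} {ξ : ι → L} (hξ : ξ ≠ 0) {Q : Submodule L (ι → L)}
    (hQ : IsSl κ μ ξ Q) : (ht κ Q : ℝ) + μ * ((finrank L Q : ℝ) - 1) ≤ height κ ξ := by
  have h1 : (finrank L (Submodule.span L {ξ}) : ℝ) = 1 := by
    rw [finrank_span_singleton hξ]
    norm_num
  have h2 : (ht κ (Submodule.span L {ξ}) : ℝ) = height κ ξ := by
    rw [ht_single h hξ]
  by_cases h3 : Submodule.span L {ξ} = Q
  · rw [← h3, h1, h2]
    simp
  · have h4 := hQ.lt (Submodule.span L {ξ})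
      ((Submodule.span_singleton_le_iff_mem ξ Q).2 hQ.mem) (Submodule.mem_span_singleton_self ξ) h3
    rw [h1, h2] at h4
    linarith

/-- the sum of `Q` with another space -/
theorem IsSl.sup (h : IsFF κ L) {μ : ℝ} {ξ : ι → L} {Q U : Submodule L (ι → L)}
    (hQ : IsSl κ μ ξ Q) (hU : ξ ∈ U) :
    (ht κ (Q ⊔ U) : ℝ) + μ * ((finrank L (Q ⊔ U : Submodule L (ι → L)) : ℝ) - finrank L U) ≤
      ht κ U := by
  have h1 : μ * ((finrank L Q : ℝ) - finrank L (Q ⊓ U : Submodule L (ι → L))) ≤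
      (ht κ (Q ⊓ U) : ℝ) - ht κ Q := by
    by_cases h0 : Q ⊓ U = Q
    · rw [h0]
      simp
    · exact (hQ.lt (Q ⊓ U) inf_le_left ⟨hQ.mem, hU⟩ h0).le
  have h2 : (ht κ (Q ⊔ U) : ℝ) + ht κ (Q ⊓ U) ≤ ht κ Q + ht κ U := by
    exact_mod_cast ht_sup_inf h Q U
  have h3 : (finrank L (Q ⊔ U : Submodule L (ι → L)) : ℝ) +
      finrank L (Q ⊓ U : Submodule L (ι → L)) = finrank L Q + finrank L U := by
    exact_mod_cast Submodule.finrank_sup_add_finrank_inf_eq Q U
  have h4 : μ * ((finrank L (Q ⊔ U : Submodule L (ι → L)) : ℝ) - finrank L U) =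
      μ * ((finrank L Q : ℝ) - finrank L (Q ⊓ U : Submodule L (ι → L))) := by
    congr 1
    linarith
  rw [h4]
  linarith

end Pool.Agent.Lib.MP_44a246_ntS
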