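import Mathlib
import Pool.Agent.Lib.MP_44a246_ntS.SH2
import Pool.Agent.Lib.MP_44a246_ntS.SJ2b
import Pool.Agent.Lib.MP_44a246_ntS.SL2b

/-!
The parametrisation of the point by the plane curve (Kronecker), and the rows of the coefficients.
-/

namespace Pool.Agent.Lib.MP_44a246_ntS

open Pool.Agent.Lib.MP_44a246_nt
open Pool.Agent.Lib.MP_44a246_ntL
open Pool.Agent.Lib.MP_e52354_nt
open WithZero Module Polynomial

namespace Dat

section

variable {κ L : Type*} [Field κ] [IsAlgClosed κ] [CharZero κ] [Field L] [Algebra κ L] {n d : ℕ}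
  (X : Dat κ (L := L) n d) {b : ℕ} {A : L[X][X]} (hA : Crv X b A)

/-- the powers of a value -/
private theorem val_pow_c (m δ : ℤ) : ((exp m : ℤᵐ⁰) ^ 2 * exp δ) ^ 2 * exp δ = exp (4 * m + 3 * δ) := by
  rw [← exp_nsmul, ← exp_add, ← exp_nsmul, ← exp_add]
  congr 1
  simp only [nsmul_eq_mul]
  push_cast
  ring

omit [IsAlgClosed κ] [CharZero κ] in
private theorem δ_support_c : (Function.support fun w => (X.δ w : ℤ)).Finite := by
  refine X.hδ.subset fun w hw h0 => hw ?_
  simp only
  rw [h0]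
  rfl

omit [IsAlgClosed κ] [CharZero κ] in
include hA in
/-- the values of the coefficients -/
private theorem val_coeff_c (w : Place κ L) (t : Option (Fin (n + 1))) (i j : ℕ) :
    w.1 (((t.elim A (X.B A)).coeff i).coeff j) ≤ gg w.1 A ^ 2 * exp (X.δ w : ℤ) := by
  have h1 := one_le_gg (κ := κ) hA.one w
  have h2 : (1 : ℤᵐ⁰) ≤ exp (X.δ w : ℤ) := by
    rw [← exp_zero, exp_le_exp]
    exact Int.natCast_nonneg _
  cases t with
  | none =>
    refine (le_gg w.1 A i j).trans ?_
    calc gg w.1 A = gg w.1 A * 1 * 1 := by rw [mul_one, mul_one]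
      _ ≤ gg w.1 A * gg w.1 A * exp (X.δ w : ℤ) :=
        mul_le_mul' (mul_le_mul' le_rfl h1) h2
      _ = gg w.1 A ^ 2 * exp (X.δ w : ℤ) := by rw [pow_two]
  | some t => exact (le_gg w.1 (X.B A t) i j).trans (X.B_le hA t w)

include hA in
private theorem ht_coeff_c (h : IsFF κ L) (t : Option (Fin (n + 1))) (i j : ℕ) :
    ht κ (Submodule.span L {X.row (((t.elim A (X.B A)).coeff i).coeff j)}) ≤
      4 * gh κ A + 3 * X.Δ := by
  have hA0 := hA.irr.ne_zero
  have hs := gg_support h hA0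
  have hs4 : (Function.support fun w : Place κ L => 4 * log (gg w.1 A)).Finite :=
    hs.subset fun w hw h0 => hw (by simp only at h0 ⊢; rw [h0, mul_zero])
  have hδ3 : (Function.support fun w : Place κ L => 3 * (X.δ w : ℤ)).Finite :=
    X.δ_support_c.subset fun w hw h0 => hw (by simp only at h0 ⊢; rw [h0, mul_zero])
  have h2 := ht_single_le h (y := X.row (((t.elim A (X.B A)).coeff i).coeff j))
    (τ := fun w => 4 * log (gg w.1 A) + 3 * (X.δ w : ℤ))
    ((hs4.union hδ3).subset (Function.support_add _ _)) (fun w k => by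
      have h1 := one_le_gg (κ := κ) hA.one w
      have h2 : (1 : ℤᵐ⁰) ≤ exp (X.δ w : ℤ) := by
        rw [← exp_zero, exp_le_exp]
        exact Int.natCast_nonneg _
      have h3 : max 1 (w.1 (((t.elim A (X.B A)).coeff i).coeff j)) ≤
          gg w.1 A ^ 2 * exp (X.δ w : ℤ) := by
        refine max_le ?_ (X.val_coeff_c hA w t i j)
        calc (1 : ℤᵐ⁰) = 1 * 1 * 1 := by rw [mul_one, mul_one]
          _ ≤ gg w.1 A * gg w.1 A * exp (X.δ w : ℤ) := mul_le_mul' (mul_le_mul' h1 h1) h2
          _ = gg w.1 A ^ 2 * exp (X.δ w : ℤ) := by rw [pow_two]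
      have hne : gg w.1 A ≠ 0 := fun h0 => hA0 ((gg_eq_zero w.1).1 h0)
      calc w.1 (X.row (((t.elim A (X.B A)).coeff i).coeff j) k) ≤
          (max 1 (w.1 (((t.elim A (X.B A)).coeff i).coeff j))) ^ 2 * exp (X.δ w : ℤ) :=
            X.DK_le k w _
        _ ≤ (gg w.1 A ^ 2 * exp (X.δ w : ℤ)) ^ 2 * exp (X.δ w : ℤ) :=
          mul_le_mul' (pow_le_pow_left' h3 2) le_rfl
        _ = exp (4 * log (gg w.1 A) + 3 * (X.δ w : ℤ)) := by
          rw [← val_pow_c, exp_log hne])
  rcases h2 with h2 | h2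
  · rw [h2, Submodule.span_zero_singleton, ht_bot h]
    have := gh_nonneg h hA0
    have := X.Δ_nonneg
    linarith
  · refine h2.trans (le_of_eq ?_)
    rw [finsum_add_distrib hs4 hδ3]
    exact (congrArg₂ (· + ·) (mul_finsum (fun w : Place κ L => log (gg w.1 A)) 4)
      (mul_finsum (fun w : Place κ L => (X.δ w : ℤ)) 3)).symm

private theorem ht_y₁_c (h : IsFF κ L) :
    ht κ (Submodule.span L {X.row X.y₁}) ≤ 2 * height κ X.x + X.Δ := by
  have hs := h.vmax_support X.x_ne_zero
  have hs2 : (Function.support fun w : Place κ L => 2 * log (vmax w.1 X.x)).Finite :=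
    hs.subset fun w hw h0 => hw (by simp only at h0 ⊢; rw [h0, mul_zero])
  have h2 := ht_single_le h (y := X.row X.y₁)
    (τ := fun w => 2 * log (vmax w.1 X.x) + (X.δ w : ℤ))
    ((hs2.union X.δ_support_c).subset (Function.support_add _ _)) (fun w k => by
      have hne : vmax w.1 X.x ≠ 0 := by
        rw [Ne, vmax_eq_zero_iff]
        exact X.x_ne_zero
      calc w.1 (X.row X.y₁ k) ≤ (max 1 (w.1 X.y₁)) ^ 2 * exp (X.δ w : ℤ) := X.DK_le k w _
        _ = (vmax w.1 X.x) ^ 2 * exp (X.δ w : ℤ) := by rw [X.vmax_x]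
        _ = exp (2 * log (vmax w.1 X.x) + (X.δ w : ℤ)) := by
          rw [exp_add, two_mul, exp_add, exp_log hne, pow_two])
  rcases h2 with h2 | h2
  · rw [h2, Submodule.span_zero_singleton, ht_bot h]
    have := h.height_nonneg X.x_ne_zero
    have := X.Δ_nonneg
    linarith
  · refine h2.trans (le_of_eq ?_)
    rw [finsum_add_distrib hs2 X.δ_support_c]
    exact (congrArg (· + X.Δ) (mul_finsum (fun w : Place κ L => log (vmax w.1 X.x)) 2)).symm

include hA in
/-- **The height of the space spanned by the rows of the coefficients.** -/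
theorem ht_V (h : IsFF κ L) : ht κ (X.V b A) ≤
    (n + 2) * (b + 1) ^ 2 * (4 * gh κ A + 3 * X.Δ) + 2 * height κ X.x + X.Δ := by
  -- `ht_sup_le`, `ht_finset_sup_le`; for a coefficient `c` of `A` or `B A i`:
  -- `w c ≤ gg w A ^ 2 * exp δ` and `1 ≤ gg w A`, so by `DK_le` the entries of `row c` are at most
  -- `gg w A ^ 4 * exp (3 δ)`: `ht (span {row c}) ≤ 4 gh A + 3 Δ` (`ht_single_le`; the right hand
  -- side is not negative, if `row c = 0` use `ht_bot`); `row y₁` has entries at most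
  -- `vmax w x ^ 2 * exp δ` (`vmax_x`)
  have h1 := ht_sup_le h (Finset.univ.sup fun t : Option (Fin (n + 1)) × Fin (b + 1) × Fin (b + 1) =>
    Submodule.span L {X.row (((t.1.elim A (X.B A)).coeff t.2.1).coeff t.2.2)})
    (Submodule.span L {X.row X.y₁})
  have h2 := ht_finset_sup_le h (Finset.univ : Finset (Option (Fin (n + 1)) × Fin (b + 1) × Fin (b + 1)))
    (fun t => Submodule.span L {X.row (((t.1.elim A (X.B A)).coeff t.2.1).coeff t.2.2)})
  have h3 := Finset.sum_le_sum fun (t : Option (Fin (n + 1)) × Fin (b + 1) × Fin (b + 1))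
    (_ : t ∈ Finset.univ) => X.ht_coeff_c hA h t.1 t.2.1 t.2.2
  rw [Finset.sum_const, Finset.card_univ, Fintype.card_prod, Fintype.card_prod,
    Fintype.card_option, Fintype.card_fin, Fintype.card_fin, nsmul_eq_mul] at h3
  have h4 := X.ht_y₁_c h
  have h5 : (((n + 1 + 1) * ((b + 1) * (b + 1)) : ℕ) : ℤ) = (n + 2) * (b + 1) ^ 2 := by
    push_cast
    ring
  rw [h5] at h3
  unfold V
  linarith

end

end Dat

end Pool.Agent.Lib.MP_44a246_ntS
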