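import Mathlib
import Pool.Agent.Lib.MP_44a246_ntS.SB2c
import Pool.Agent.Lib.MP_44a246_ntS.SC1

/-!
Slopes: the piece of slope `μ` of the Harder-Narasimhan filtration over a given vector.
-/

namespace Pool.Agent.Lib.MP_44a246_ntS

open Pool.Agent.Lib.MP_44a246_nt
open Pool.Agent.Lib.MP_44a246_ntL
open WithZero Module

variable {κ L : Type*} [Field κ] [IsAlgClosed κ] [CharZero κ] [Field L] [Algebra κ L]
  {ι ι' : Type*} [Fintype ι] [Fintype ι']

/-- subspaces with larger slopes are contained in `Q` -/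
theorem HasSl.le_isSl (h : IsFF κ L) {μ μ' : ℝ} (hμ : μ < μ') {ξ : ι → L}
    {U Q : Submodule L (ι → L)} (hU : HasSl κ μ' ξ U) (hQ : IsSl κ μ ξ Q) : U ≤ Q := by
  have hξ : ξ ∈ U ⊓ Q := ⟨hU.mem, hQ.mem⟩
  have h1 := hU.le (U ⊓ Q) inf_le_left hξ
  have h2 := ht_sup_inf h U Q
  have h3 := hQ.le (U ⊔ Q) le_sup_right
  have h4 := Submodule.finrank_sup_add_finrank_inf_eq U Q
  have h2' : (ht κ (U ⊔ Q) : ℝ) + ht κ (U ⊓ Q) ≤ ht κ U + ht κ Q := by
    exact_mod_cast h2
  have h4' : (finrank L (U ⊔ Q : Submodule L (ι → L)) : ℝ) +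
      finrank L (U ⊓ Q : Submodule L (ι → L)) = finrank L U + finrank L Q := by
    exact_mod_cast h4
  have h5 : (finrank L (U ⊔ Q : Submodule L (ι → L)) : ℝ) - finrank L Q =
      finrank L U - finrank L (U ⊓ Q : Submodule L (ι → L)) := by linarith
  rw [h5] at h3
  have h6 : (μ' - μ) * ((finrank L U : ℝ) - finrank L (U ⊓ Q : Submodule L (ι → L))) ≤ 0 := by
    linarith
  have h7 : (finrank L U : ℝ) - finrank L (U ⊓ Q : Submodule L (ι → L)) ≤ 0 := by
    by_contra h8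
    have := mul_pos (sub_pos.2 hμ) (not_le.1 h8)
    linarith
  have h8 : finrank L U ≤ finrank L (U ⊓ Q : Submodule L (ι → L)) := by
    have : (finrank L U : ℝ) ≤ finrank L (U ⊓ Q : Submodule L (ι → L)) := by linarith
    exact_mod_cast this
  have h9 : U ⊓ Q = U := Submodule.eq_of_le_of_finrank_le inf_le_left h8
  rw [← h9]
  exact inf_le_right

end Pool.Agent.Lib.MP_44a246_ntS
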