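import Mathlib

/-!
Factors of forms are forms; the greatest common divisor of a space of forms.
-/

namespace Pool.Agent.Lib.MP_44a246_ntS

open MvPolynomial

/-- auxiliary: the substitution `X i ↦ T X i` -/
private noncomputable def homT (σ L : Type*) [Field L] :
    MvPolynomial σ L →ₐ[L] Polynomial (MvPolynomial σ L) :=
  aeval (fun i => Polynomial.C (X i) * Polynomial.X)

private lemma homT_monomial {σ L : Type*} [Field L] (d : σ →₀ ℕ) (c : L) :
    homT σ L (monomial d c) = Polynomial.monomial d.degree (monomial d c) := by
  classical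
  rw [homT, aeval_monomial]
  have h1 : (d.prod fun i k => (Polynomial.C (X i : MvPolynomial σ L) * Polynomial.X) ^ k)
      = Polynomial.C (d.prod fun i k => (X i : MvPolynomial σ L) ^ k)
        * Polynomial.X ^ d.degree := by
    rw [Finsupp.prod, Finsupp.prod, Finsupp.degree]
    simp only [mul_pow, Finset.prod_mul_distrib, Finset.prod_pow_eq_pow_sum, map_prod, map_pow]
    rfl
  rw [h1, ← Polynomial.C_mul_X_pow_eq_monomial, ← mul_assoc]
  congr 1
  rw [monomial_eq, map_mul]
  congr 1

private lemma homT_coeff {σ L : Type*} [Field L] (P : MvPolynomial σ L) (n : ℕ) :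
    (homT σ L P).coeff n = homogeneousComponent n P := by
  classical
  induction P using MvPolynomial.induction_on' with
  | monomial d c =>
    rw [homT_monomial, Polynomial.coeff_monomial]
    ext e
    rw [coeff_homogeneousComponent]
    split_ifs with h1 h2 h2
    · rfl
    · rw [coeff_monomial, if_neg]
      rintro rfl
      exact h2 h1
    · rw [coeff_zero, coeff_monomial, if_neg]
      rintro rfl
      exact h1 h2
    · rfl
  | add p q hp hq => rw [map_add, Polynomial.coeff_add, hp, hq, map_add]

private lemma homT_ne {σ L : Type*} [Field L] {P : MvPolynomial σ L} (h : P ≠ 0) :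
    homT σ L P ≠ 0 := by
  intro h0
  apply h
  rw [← sum_homogeneousComponent P]
  apply Finset.sum_eq_zero
  intro i _
  rw [← homT_coeff, h0, Polynomial.coeff_zero]

private lemma homT_hom {σ L : Type*} [Field L] {P : MvPolynomial σ L} {a : ℕ}
    (h : ∀ n, n ≠ a → (homT σ L P).coeff n = 0) : P.IsHomogeneous a := by
  intro d hd
  by_contra hne
  apply hd
  have h1 := h d.degree (by
    intro h2; apply hne; rw [← h2]
    rw [Finsupp.degree_eq_weight_one]
    rfl)
  rw [homT_coeff] at h1
  have h2 := congrArg (coeff d) h1
  rw [coeff_homogeneousComponent, if_pos rfl, coeff_zero] at h2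
  exact h2

/-- a factor of a form is a form -/
theorem hom_of_mul {σ L : Type*} [Field L] {P Q : MvPolynomial σ L} {s : ℕ}
    (h : (P * Q).IsHomogeneous s) (h0 : P * Q ≠ 0) :
    ∃ a e : ℕ, a + e = s ∧ P.IsHomogeneous a ∧ Q.IsHomogeneous e := by
  -- Let `a, a'` be the smallest and the largest degree of a nonzero homogeneous component of `P`,
  -- and `e, e'` of `Q`. The product of the components of the smallest degrees is the component of
  -- degree `a + e` of `P * Q`, so `a + e = s`; similarly `a' + e' = s`. Hence `a = a'`, `e = e'`.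
  -- (`homogeneousComponent`, `sum_homogeneousComponent`; or substitute `X i ↦ T X i` in
  -- `(MvPolynomial σ L)[T]`, where `P * Q` becomes a monomial in `T`, whose factors are monomials)
  have hP : P ≠ 0 := left_ne_zero_of_mul h0
  have hQ : Q ≠ 0 := right_ne_zero_of_mul h0
  have hP' := homT_ne hP
  have hQ' := homT_ne hQ
  have hPQ : homT σ L (P * Q) = Polynomial.monomial s (P * Q) := by
    ext n : 1
    rw [homT_coeff, Polynomial.coeff_monomial]
    split_ifs with hn
    · rw [← hn]
      exact homogeneousComponent_eq_self h
    · rw [homogeneousComponent_of_mem ((mem_homogeneousSubmodule s _).mpr h), if_neg]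
      exact fun h => hn h.symm
  have e1 := Polynomial.natDegree_mul hP' hQ'
  have e2 := Polynomial.natTrailingDegree_mul hP' hQ'
  rw [← map_mul, hPQ, Polynomial.natDegree_monomial_eq s h0] at e1
  rw [← map_mul, hPQ, Polynomial.natTrailingDegree_monomial h0] at e2
  have e3 := Polynomial.natTrailingDegree_le_natDegree (homT σ L P)
  have e4 := Polynomial.natTrailingDegree_le_natDegree (homT σ L Q)
  refine ⟨_, _, e1.symm, homT_hom ?_, homT_hom ?_⟩
  · intro n hn
    rcases lt_or_gt_of_ne hn with h1 | h1
    · exact Polynomial.coeff_eq_zero_of_lt_natTrailingDegree (by omega)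
    · exact Polynomial.coeff_eq_zero_of_natDegree_lt h1
  · intro n hn
    rcases lt_or_gt_of_ne hn with h1 | h1
    · exact Polynomial.coeff_eq_zero_of_lt_natTrailingDegree (by omega)
    · exact Polynomial.coeff_eq_zero_of_natDegree_lt h1

end Pool.Agent.Lib.MP_44a246_ntS
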