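import Mathlib
import Pool.Agent.Lib.MP_44a246_ntS.SE1

/-!
Factors of forms are forms; the greatest common divisor of a space of forms.
-/

namespace Pool.Agent.Lib.MP_44a246_ntS

open MvPolynomial

/-- **Greatest common divisor** of a nonzero space of forms of degree `s`, with two elements of the
space whose quotients by it are relatively prime. -/
theorem exists_gcd {L : Type*} [Field L] [Infinite L] {s : ℕ}
    {W : Submodule L (MvPolynomial (Fin 3) L)} (hW : ∀ P ∈ W, P.IsHomogeneous s) (hW0 : W ≠ ⊥) :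
    ∃ (a e : ℕ) (A f g : MvPolynomial (Fin 3) L), a + e = s ∧ A ≠ 0 ∧ A.IsHomogeneous a ∧
      f.IsHomogeneous e ∧ g.IsHomogeneous e ∧ A * f ∈ W ∧ A * g ∈ W ∧ IsRelPrime f g ∧
      ∀ P ∈ W, A ∣ P := by
  -- Choose a common divisor `A` of all elements of `W` of maximal total degree (the degrees are
  -- at most `s`); `A` is homogeneous by `hom_of_mul`. The space `W' = {Q | A * Q ∈ W}` is not zero
  -- and its elements are forms of degree `e = s - a` (`hom_of_mul`). Let `f ∈ W'` be nonzero and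
  -- let `π₁, ..., π_r` be its irreducible factors (`UniqueFactorizationMonoid.factors f`). No `π_i`
  -- divides all elements of `W'` (otherwise `A * π_i` would be a common divisor of larger degree;
  -- irreducible elements have positive degree). So the elements of `W'` divisible by `π_i` form a
  -- proper subspace, and `W'` is not the union of finitely many proper subspaces
  -- (`Subspace.biUnion_ne_univ_of_top_notMem` or similar, in the vector space `W'`).
  -- Take `g ∈ W'` outside of all of them; a common nonunit factor of `f, g` would have an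
  -- irreducible factor, associated to some `π_i`.
  classical
  obtain ⟨P0, hP0, hP00⟩ := (Submodule.ne_bot_iff W).1 hW0
  -- the maximal common divisor
  obtain ⟨A, hA0, hA, hmax⟩ : ∃ A : MvPolynomial (Fin 3) L, A ≠ 0 ∧ (∀ P ∈ W, A ∣ P) ∧
      ∀ B : MvPolynomial (Fin 3) L, B ≠ 0 → (∀ P ∈ W, B ∣ P) → B.totalDegree ≤ A.totalDegree := by
    let p : ℕ → Prop := fun d => ∃ A : MvPolynomial (Fin 3) L, A ≠ 0 ∧ (∀ P ∈ W, A ∣ P) ∧
      A.totalDegree = d
    have hb : ∀ d, p d → d ≤ P0.totalDegree := by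
      rintro d ⟨A, hA0, hA, rfl⟩
      exact totalDegree_le_of_dvd_of_isDomain (hA P0 hP0) hP00
    have hp0 : p (totalDegree (1 : MvPolynomial (Fin 3) L)) :=
      ⟨1, one_ne_zero, fun P _ => one_dvd P, rfl⟩
    have hfind := Nat.findGreatest_spec (P := p) (hb _ hp0) hp0
    obtain ⟨A, hA0, hA, hAd⟩ := hfind
    refine ⟨A, hA0, hA, fun B hB0 hB => ?_⟩
    rw [hAd]
    exact Nat.le_findGreatest (hb _ ⟨B, hB0, hB, rfl⟩) ⟨B, hB0, hB, rfl⟩
  obtain ⟨f, rfl⟩ := hA P0 hP0
  have hf0 : f ≠ 0 := right_ne_zero_of_mul hP00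
  obtain ⟨a, e, hae, hAa, hfe⟩ := hom_of_mul (hW _ hP0) hP00
  -- the quotient space
  have hQ : ∀ Q, A * Q ∈ W → Q.IsHomogeneous e := by
    intro Q hQ
    by_cases hQ0 : Q = 0
    · subst hQ0
      exact isHomogeneous_zero _ _ _
    · obtain ⟨a', e', hae', hAa', hQe'⟩ := hom_of_mul (hW _ hQ) (mul_ne_zero hA0 hQ0)
      have h1 : a = a' := IsHomogeneous.inj_right hAa hAa' hA0
      have h2 : e' = e := by omega
      rw [← h2]; exact hQe'
  let W' : Submodule L (MvPolynomial (Fin 3) L) := W.comap (LinearMap.mulLeft L A)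
  have hW' : ∀ Q, Q ∈ W' ↔ A * Q ∈ W := fun Q => by simp [W']
  let U : MvPolynomial (Fin 3) L → Submodule L W' := fun π =>
    ((Ideal.span {π}).restrictScalars L).comap W'.subtype
  have hU : ∀ π (Q : W'), Q ∈ U π ↔ π ∣ (Q : MvPolynomial (Fin 3) L) := by
    intro π Q
    simp only [U, Submodule.mem_comap, Submodule.subtype_apply, Submodule.restrictScalars_mem,
      Ideal.mem_span_singleton]
  have hnt : ∀ π, Irreducible π → U π ≠ ⊤ := by
    intro π hπ htop
    have hdiv : ∀ P ∈ W, A * π ∣ P := by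
      intro P hP
      obtain ⟨Q, rfl⟩ := hA P hP
      have hQW : Q ∈ W' := (hW' Q).2 hP
      have h1 : (⟨Q, hQW⟩ : W') ∈ U π := by rw [htop]; trivial
      exact mul_dvd_mul_left A ((hU π ⟨Q, hQW⟩).1 h1)
    have hle := hmax (A * π) (mul_ne_zero hA0 hπ.ne_zero) hdiv
    rw [totalDegree_mul_of_isDomain hA0 hπ.ne_zero] at hle
    have h0 : π.totalDegree = 0 := by omega
    rw [totalDegree_eq_zero_iff_eq_C] at h0
    apply hπ.not_isUnit
    rw [h0]
    refine IsUnit.map C ?_
    rw [isUnit_iff_ne_zero]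
    intro hc
    rw [hc, C_0] at h0
    exact hπ.ne_zero h0
  let F : Finset (Submodule L W') :=
    (UniqueFactorizationMonoid.factors f).toFinset.image U
  have hF : ⊤ ∉ F := by
    intro h
    obtain ⟨π, hπ, hπ'⟩ := Finset.mem_image.1 h
    exact hnt π (UniqueFactorizationMonoid.irreducible_of_factor π (Multiset.mem_toFinset.1 hπ)) hπ'
  have hcov := Subspace.biUnion_ne_univ_of_top_notMem hF
  obtain ⟨g, hg⟩ : ∃ g : W', g ∉ ⋃ p ∈ F, (p : Set W') := by
    by_contra h
    push Not at h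
    exact hcov (Set.eq_univ_of_forall h)
  refine ⟨a, e, A, f, g, hae, hA0, hAa, hfe, hQ _ ((hW' _).1 g.2), hP0, (hW' _).1 g.2, ?_, hA⟩
  intro d hdf hdg
  by_contra hd
  have hd0 : d ≠ 0 := fun h => hf0 (zero_dvd_iff.1 (h ▸ hdf))
  obtain ⟨p, hp, hpd⟩ := WfDvdMonoid.exists_irreducible_factor hd hd0
  obtain ⟨q, hq, hpq⟩ := UniqueFactorizationMonoid.exists_mem_factors_of_dvd hf0 hp
    (hpd.trans hdf)
  apply hg
  simp only [Set.mem_iUnion]
  refine ⟨U q, Finset.mem_image.2 ⟨q, Multiset.mem_toFinset.2 hq, rfl⟩, ?_⟩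
  exact (hU q g).2 (hpq.symm.dvd.trans (hpd.trans hdg))

end Pool.Agent.Lib.MP_44a246_ntS
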