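import Mathlib

/-!
Elimination of a variable for relatively prime polynomials.
-/

namespace Pool.Agent.Lib.MP_44a246_ntS

open Polynomial

/-- elimination over a factorial ring -/
theorem exists_elim_poly {R : Type*} [CommRing R] [IsDomain R] [UniqueFactorizationMonoid R]
    {f g : R[X]} (h : IsRelPrime f g) : ∃ (u v : R[X]) (r : R), r ≠ 0 ∧ u * f + v * g = C r := by
  -- Let `K` be the field of fractions. The images of `f` and `g` in `K[X]` are coprime: otherwise
  -- they have a common irreducible factor `D`, which is associated to the image of a primitive
  -- polynomial `D₀` of `R[X]` of positive degree (clear denominators,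
  -- `IsLocalization.integerNormalization`, `Polynomial.primPart`; use
  -- `Nonempty (NormalizedGCDMonoid R)`), and `D₀` divides `f` and `g`
  -- (`IsPrimitive.dvd_of_fraction_map_dvd_fraction_map`). So `u' f + v' g = 1` with `u', v'` in
  -- `K[X]`; multiply by a common denominator.
  classical
  obtain ⟨inst⟩ : Nonempty (NormalizedGCDMonoid R) := inferInstance
  have hinj : Function.Injective (algebraMap R (FractionRing R)) :=
    IsFractionRing.injective R (FractionRing R)
  have key : ∀ D : (FractionRing R)[X], D ≠ 0 →
      ∀ q : R[X], D ∣ q.map (algebraMap R (FractionRing R)) →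
      (IsLocalization.integerNormalization (nonZeroDivisors R) D).primPart ∣ q := by
    intro D hD q hq
    have hN0 : IsLocalization.integerNormalization (nonZeroDivisors R) D ≠ 0 := by
      rwa [Ne, IsFractionRing.integerNormalization_eq_zero_iff]
    have hprim := isPrimitive_primPart
      (IsLocalization.integerNormalization (nonZeroDivisors R) D)
    refine hprim.dvd_of_fraction_map_dvd_fraction_map (K := FractionRing R) ?_
    refine dvd_trans ?_ hq
    obtain ⟨b, hb, hbD⟩ := IsLocalization.integerNormalization_spec (nonZeroDivisors R) D
    have hb0 : algebraMap R (FractionRing R) b ≠ 0 := by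
      rw [Ne, map_eq_zero_iff _ hinj]
      exact nonZeroDivisors.ne_zero hb
    have h1 : (IsLocalization.integerNormalization (nonZeroDivisors R) D).map
        (algebraMap R (FractionRing R)) = C (algebraMap R (FractionRing R) b) * D := by
      rw [hbD, Algebra.smul_def]
      rfl
    have h2 : (IsLocalization.integerNormalization (nonZeroDivisors R) D).primPart.map
        (algebraMap R (FractionRing R)) ∣
        (IsLocalization.integerNormalization (nonZeroDivisors R) D).map
        (algebraMap R (FractionRing R)) := by
      conv_rhs => rw [eq_C_content_mul_primPart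
        (IsLocalization.integerNormalization (nonZeroDivisors R) D)]
      rw [Polynomial.map_mul]
      exact Dvd.intro_left _ rfl
    rw [h1] at h2
    have hu : IsUnit (C (algebraMap R (FractionRing R) b)) :=
      isUnit_C.mpr (isUnit_iff_ne_zero.mpr hb0)
    exact (hu.dvd_mul_left).mp h2
  have hcop : IsCoprime (f.map (algebraMap R (FractionRing R)))
      (g.map (algebraMap R (FractionRing R))) := by
    rw [← isRelPrime_iff_isCoprime]
    intro D hDf hDg
    by_cases hD : D = 0
    · exfalso
      rw [hD, zero_dvd_iff] at hDf hDg
      have hf0 : f = 0 := by
        apply Polynomial.map_injective _ hinj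
        rw [hDf, Polynomial.map_zero]
      have hg0 : g = 0 := by
        apply Polynomial.map_injective _ hinj
        rw [hDg, Polynomial.map_zero]
      have := h (d := 0) (by rw [hf0]) (by rw [hg0])
      exact not_isUnit_zero this
    · have hu := h (key D hD f hDf) (key D hD g hDg)
      exact isUnit_or_eq_zero_of_isUnit_integerNormalization_primPart hD hu
  obtain ⟨u, v, huv⟩ := hcop
  obtain ⟨a, ha, hau⟩ := IsLocalization.integerNormalization_spec (nonZeroDivisors R) u
  obtain ⟨b, hb, hbv⟩ := IsLocalization.integerNormalization_spec (nonZeroDivisors R) v
  refine ⟨C b * IsLocalization.integerNormalization (nonZeroDivisors R) u,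
    C a * IsLocalization.integerNormalization (nonZeroDivisors R) v, a * b,
    mul_ne_zero (nonZeroDivisors.ne_zero ha) (nonZeroDivisors.ne_zero hb), ?_⟩
  apply Polynomial.map_injective _ hinj
  have h1 : (IsLocalization.integerNormalization (nonZeroDivisors R) u).map
      (algebraMap R (FractionRing R)) = C (algebraMap R (FractionRing R) a) * u := by
    rw [hau, Algebra.smul_def]
    rfl
  have h2 : (IsLocalization.integerNormalization (nonZeroDivisors R) v).map
      (algebraMap R (FractionRing R)) = C (algebraMap R (FractionRing R) b) * v := by
    rw [hbv, Algebra.smul_def]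
    rfl
  simp only [Polynomial.map_add, Polynomial.map_mul, Polynomial.map_C, map_mul, h1, h2]
  linear_combination (C (algebraMap R (FractionRing R) a) * C (algebraMap R (FractionRing R) b)) *
    huv

end Pool.Agent.Lib.MP_44a246_ntS
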