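import Mathlib
import Pool.Agent.Lib.MP_44a246_ntS.SE2

/-!
Elimination of a variable for relatively prime polynomials.
-/

namespace Pool.Agent.Lib.MP_44a246_ntS

open Polynomial

theorem exists_elim {L : Type*} [Field L] {f g : MvPolynomial (Fin 3) L} (h : IsRelPrime f g)
    (i : Fin 3) :
    ∃ u v r : MvPolynomial (Fin 3) L, u * f + v * g = r ∧ r ≠ 0 ∧ ∀ I ∈ r.support, I i = 0 := by
  -- `exists_elim_poly` for `R = MvPolynomial (Fin 2) L`, `MvPolynomial.finSuccEquiv L 2` and a
  -- renaming which exchanges `0` and `i` (ring isomorphisms preserve `IsRelPrime`)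
  let τ : Fin 3 ≃ Fin 3 := Equiv.swap 0 i
  let φ : MvPolynomial (Fin 3) L ≃ₐ[L] Polynomial (MvPolynomial (Fin 2) L) :=
    (MvPolynomial.renameEquiv L τ).trans (MvPolynomial.finSuccEquiv L 2)
  have hrel : IsRelPrime (φ f) (φ g) := by
    intro d hd1 hd2
    have h1 : φ.symm d ∣ f := by
      have := map_dvd φ.symm hd1
      rwa [AlgEquiv.symm_apply_apply] at this
    have h2 : φ.symm d ∣ g := by
      have := map_dvd φ.symm hd2
      rwa [AlgEquiv.symm_apply_apply] at this
    have h3 := (h h1 h2).map φ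
    rwa [AlgEquiv.apply_symm_apply] at h3
  obtain ⟨u, v, r, hr, huv⟩ := exists_elim_poly hrel
  have hdeg : MvPolynomial.degreeOf i (φ.symm (C r)) = 0 := by
    set q : MvPolynomial (Fin 3) L := (MvPolynomial.finSuccEquiv L 2).symm (C r) with hq
    have e1 : φ.symm (C r) = MvPolynomial.rename τ.symm q := rfl
    have e2 : MvPolynomial.degreeOf 0 q = 0 := by
      rw [← MvPolynomial.natDegree_finSuccEquiv, hq, AlgEquiv.apply_symm_apply, natDegree_C]
    have e3 : τ.symm 0 = i := by
      simp [τ]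
    rw [e1]
    conv_lhs => rw [← e3]
    rw [MvPolynomial.degreeOf_rename_of_injective τ.symm.injective, e2]
  refine ⟨φ.symm u, φ.symm v, φ.symm (C r), ?_, ?_, ?_⟩
  · rw [← huv, map_add, map_mul, map_mul, AlgEquiv.symm_apply_apply, AlgEquiv.symm_apply_apply]
  · intro h0
    apply hr
    have h1 : C r = 0 := by
      rw [← AlgEquiv.apply_symm_apply φ (C r), h0, map_zero]
    exact C_eq_zero.mp h1
  · intro I hI
    have h1 := MvPolynomial.monomial_le_degreeOf i hI
    omega

end Pool.Agent.Lib.MP_44a246_ntS
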