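import Mathlib
import Pool.Agent.Lib.MP_44a246_ntS.SE2b

/-!
Two relatively prime forms in three variables have finitely many common zeros in the projective
plane.
-/

namespace Pool.Agent.Lib.MP_44a246_ntS

open MvPolynomial

variable {L : Type*} [Field L] [Infinite L]

omit [Infinite L] in
private lemma se3_aeval {Ω : Type*} [Field Ω] [Algebra L Ω] {F : MvPolynomial (Fin 3) L} {d : ℕ}
    (hF : F.IsHomogeneous d) (t : Ω) (v : Fin 3 → Ω) :
    aeval (fun u => t * v u) F = t ^ d * aeval v F := by
  rw [aeval_def, aeval_def, eval₂_eq', eval₂_eq', Finset.mul_sum]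
  refine Finset.sum_congr rfl fun J hJ => ?_
  have hJd : J.degree = d := by
    by_contra hne
    exact (mem_support_iff.mp hJ) (hF.coeff_eq_zero hne)
  simp only [mul_pow, Finset.prod_mul_distrib]
  rw [Finset.prod_pow_eq_pow_sum, ← Finsupp.degree_eq_sum, hJd]
  ring

/-- homogeneous elimination -/
theorem exists_elim_hom {f g : MvPolynomial (Fin 3) L} {e : ℕ} (hf : f.IsHomogeneous e)
    (hg : g.IsHomogeneous e) (h : IsRelPrime f g) (i : Fin 3) :
    ∃ (m : ℕ) (r : MvPolynomial (Fin 3) L), r.IsHomogeneous m ∧ r ≠ 0 ∧
      (∀ I ∈ r.support, I i = 0) ∧ ∀ P : Fin 3 → AlgebraicClosure L,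
        aeval P f = 0 → aeval P g = 0 → aeval P r = 0 := by
  -- take `u f + v g = r` from `exists_elim` and a nonzero homogeneous component `r_m` of `r`.
  -- If `f, g` vanish at `P`, then they vanish at `t • P` for all `t`, so
  -- `0 = r (t • P) = ∑ m, t ^ m r_m (P)` for all `t`; so all `r_m (P)` vanish.
  classical
  obtain ⟨u, v, r, huv, hr, hsup⟩ := exists_elim h i
  obtain ⟨m, hm⟩ : ∃ m, homogeneousComponent m r ≠ 0 := by
    by_contra hcon
    push Not at hcon
    apply hr
    rw [← sum_homogeneousComponent r]
    exact Finset.sum_eq_zero fun j _ => hcon j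
  refine ⟨m, homogeneousComponent m r, homogeneousComponent_isHomogeneous m r, hm, ?_, ?_⟩
  · intro I hI
    apply hsup I
    rw [mem_support_iff, coeff_homogeneousComponent] at hI
    rw [mem_support_iff]
    intro h0
    apply hI
    rw [h0, ite_self]
  · intro P hPf hPg
    set N := r.totalDegree with hN
    by_cases hmN : N < m
    · rw [homogeneousComponent_eq_zero m r hmN, map_zero]
    · let Q : Polynomial (AlgebraicClosure L) := ∑ j ∈ Finset.range (N + 1),
        Polynomial.C (aeval P (homogeneousComponent j r)) * Polynomial.X ^ j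
      have hQ : Q = 0 := by
        apply Polynomial.funext
        intro t
        have h1 : aeval (fun u => t * P u) r = 0 := by
          rw [← huv, map_add, map_mul, map_mul, se3_aeval hf, se3_aeval hg, hPf, hPg]
          simp
        rw [← sum_homogeneousComponent r, map_sum] at h1
        rw [Polynomial.eval_zero, ← h1, Polynomial.eval_finsetSum]
        apply Finset.sum_congr rfl
        intro j _
        rw [Polynomial.eval_mul, Polynomial.eval_C, Polynomial.eval_pow, Polynomial.eval_X,
          se3_aeval (homogeneousComponent_isHomogeneous j r), mul_comm]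
      have h2 := congrArg (fun q => Polynomial.coeff q m) hQ
      simp only [Q, Polynomial.finsetSum_coeff, Polynomial.coeff_C_mul_X_pow,
        Polynomial.coeff_zero] at h2
      rw [Finset.sum_ite_eq (Finset.range (N + 1)) m, if_pos (Finset.mem_range.mpr (by omega))]
        at h2
      exact h2

end Pool.Agent.Lib.MP_44a246_ntS
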