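import Mathlib

/-!
Two relatively prime forms in three variables have finitely many common zeros in the projective
plane.
-/

namespace Pool.Agent.Lib.MP_44a246_ntS

open MvPolynomial

variable {L : Type*} [Field L] [Infinite L]

/-- the zeros with `P 0 = 1` are finite in number -/
theorem finite_zeros_aux {m : ℕ} {r : MvPolynomial (Fin 3) L} (hr : r.IsHomogeneous m)
    (hr0 : r ≠ 0) {i j k : Fin 3} (hij : i ≠ j) (hik : i ≠ k) (hjk : j ≠ k)
    (hi : ∀ I ∈ r.support, I i = 0) :
    {t : AlgebraicClosure L | ∃ P : Fin 3 → AlgebraicClosure L, P j = 1 ∧ P k = t ∧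
      aeval P r = 0}.Finite := by
  -- `r = ∑ c_l X_j ^ (m - l) X_k ^ l`, so `aeval P r = q (P k)` with `q = ∑ c_l T ^ l ≠ 0`
  classical
  have huniv : (Finset.univ : Finset (Fin 3)) = {i, j, k} := by
    ext l
    simp only [Finset.mem_univ, Finset.mem_insert, Finset.mem_singleton, true_iff]
    fin_cases i <;> fin_cases j <;> fin_cases k <;> fin_cases l <;> simp_all
  have hprod : ∀ (R : Type _) [CommRing R] (f : Fin 3 → R), ∏ l, f l = f i * (f j * f k) := by
    intro R _ f
    rw [huniv, Finset.prod_insert (by simp [hij, hik]), Finset.prod_insert (by simp [hjk]),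
      Finset.prod_singleton]
  have hsum : ∀ I ∈ r.support, I j + I k = m := by
    intro I hI
    have h1 := hr (mem_support_iff.1 hI)
    rw [Finsupp.weight_apply, Finsupp.sum_fintype _ _ (by simp)] at h1
    simp only [Pi.one_apply, smul_eq_mul, mul_one] at h1
    rw [huniv, Finset.sum_insert (by simp [hij, hik]), Finset.sum_insert (by simp [hjk]),
      Finset.sum_singleton, hi I hI, zero_add] at h1
    exact h1
  have hinj : ∀ I ∈ r.support, ∀ J ∈ r.support, I k = J k → I = J := by
    intro I hI J hJ h
    ext l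
    have hl : l ∈ (Finset.univ : Finset (Fin 3)) := Finset.mem_univ l
    rw [huniv] at hl
    have h1 := hsum I hI
    have h2 := hsum J hJ
    rcases Finset.mem_insert.1 hl with rfl | hl
    · rw [hi I hI, hi J hJ]
    rcases Finset.mem_insert.1 hl with rfl | hl
    · omega
    · rw [Finset.mem_singleton.1 hl]; exact h
  obtain ⟨I0, hI0⟩ : ∃ I0, I0 ∈ r.support := by
    by_contra h
    push Not at h
    exact hr0 (MvPolynomial.support_eq_empty.1 (Finset.eq_empty_of_forall_notMem h))
  let q : Polynomial (AlgebraicClosure L) :=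
    ∑ I ∈ r.support, Polynomial.C (algebraMap L (AlgebraicClosure L) (r.coeff I)) *
      Polynomial.X ^ (I k)
  have hq : q ≠ 0 := by
    intro h0
    have h1 : q.coeff (I0 k) = 0 := by rw [h0]; simp
    simp only [q, Polynomial.finsetSum_coeff, Polynomial.coeff_C_mul_X_pow] at h1
    rw [Finset.sum_eq_single I0] at h1
    · simp only [if_true] at h1
      exact (mem_support_iff.1 hI0) (by simpa using h1)
    · intro J hJ hne
      rw [if_neg]
      intro h
      exact hne (hinj J hJ I0 hI0 h.symm)
    · intro h
      exact absurd hI0 h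
  refine Set.Finite.subset (q.roots.toFinset.finite_toSet) ?_
  rintro t ⟨P, hPj, hPk, hP⟩
  rw [Finset.mem_coe, Multiset.mem_toFinset, Polynomial.mem_roots hq, Polynomial.IsRoot.def]
  rw [← hP, aeval_def, eval₂_eq']
  simp only [q, Polynomial.eval_finsetSum, Polynomial.eval_mul, Polynomial.eval_C,
    Polynomial.eval_pow, Polynomial.eval_X]
  refine Finset.sum_congr rfl fun I hI => ?_
  rw [hprod, hi I hI, hPj, hPk]
  simp

end Pool.Agent.Lib.MP_44a246_ntS
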