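import Mathlib
import Pool.Agent.Lib.MP_44a246_ntS.SE3
import Pool.Agent.Lib.MP_44a246_ntS.SE3b

/-!
Two relatively prime forms in three variables have finitely many common zeros in the projective
plane.
-/

namespace Pool.Agent.Lib.MP_44a246_ntS

open MvPolynomial

variable {L : Type*} [Field L] [Infinite L]

private theorem aeval_scale {L : Type*} [Field L] {f : MvPolynomial (Fin 3) L} {e : ℕ}
    (hf : f.IsHomogeneous e)
    (P : Fin 3 → AlgebraicClosure L) (c : AlgebraicClosure L) :
    aeval (fun i => c * P i) f = c ^ e * aeval P f := by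
  rw [aeval_def, aeval_def, eval₂_eq', eval₂_eq', Finset.mul_sum]
  refine Finset.sum_congr rfl fun I hI => ?_
  have h1 := hf (mem_support_iff.1 hI)
  rw [Finsupp.weight_apply, Finsupp.sum_fintype _ _ (by simp)] at h1
  simp only [Pi.one_apply, smul_eq_mul, mul_one] at h1
  simp only [mul_pow, Finset.prod_mul_distrib, Finset.prod_pow_eq_pow_sum, h1]
  ring

private theorem finite_zeros_T {f g : MvPolynomial (Fin 3) L} {e : ℕ} (hf : f.IsHomogeneous e)
    (hg : g.IsHomogeneous e) (h : IsRelPrime f g) {i j k : Fin 3} (hij : i ≠ j) (hik : i ≠ k)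
    (hjk : j ≠ k) :
    {t : AlgebraicClosure L | ∃ P : Fin 3 → AlgebraicClosure L, P j = 1 ∧ P k = t ∧
      aeval P f = 0 ∧ aeval P g = 0}.Finite := by
  obtain ⟨m, r, hr, hr0, hri, hrP⟩ := exists_elim_hom hf hg h i
  refine (finite_zeros_aux hr hr0 hij hik hjk hri).subset ?_
  rintro t ⟨P, h1, h2, h3, h4⟩
  exact ⟨P, h1, h2, hrP P h3 h4⟩

/-- **Finiteness** of the common zeros in the projective plane. -/
theorem finite_zeros {f g : MvPolynomial (Fin 3) L} {e : ℕ} (hf : f.IsHomogeneous e)
    (hg : g.IsHomogeneous e) (h : IsRelPrime f g) :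
    ∃ Z : Finset (Fin 3 → AlgebraicClosure L), (∀ P ∈ Z, P ≠ 0) ∧
      ∀ P : Fin 3 → AlgebraicClosure L, P ≠ 0 → aeval P f = 0 → aeval P g = 0 →
        ∃ c : AlgebraicClosure L, c ≠ 0 ∧ (fun i => c * P i) ∈ Z := by
  classical
  -- `Z` = the union of the points `(1, t, u)` with `t` in the finite set for `(i, j, k) =
  -- (2, 0, 1)` and `u` in the finite set for `(1, 0, 2)`, the points `(0, 1, u)` with `u` in the
  -- finite set for `(0, 1, 2)`, and `(0, 0, 1)`
  have hA := finite_zeros_T hf hg h (i := 2) (j := 0) (k := 1) (by decide) (by decide) (by decide)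
  have hB := finite_zeros_T hf hg h (i := 1) (j := 0) (k := 2) (by decide) (by decide) (by decide)
  have hC := finite_zeros_T hf hg h (i := 0) (j := 1) (k := 2) (by decide) (by decide) (by decide)
  refine ⟨(hA.toFinset ×ˢ hB.toFinset).image (fun p => ![1, p.1, p.2]) ∪
    hC.toFinset.image (fun u => ![0, 1, u]) ∪ {![0, 0, 1]}, ?_, ?_⟩
  · intro P hP h0
    rw [Finset.mem_union, Finset.mem_union, Finset.mem_image, Finset.mem_image,
      Finset.mem_singleton] at hP
    rcases hP with (⟨p, _, hp⟩ | ⟨u, _, hu⟩) | hP
    · have := congrFun hp 0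
      rw [h0] at this
      simp at this
    · have := congrFun hu 1
      rw [h0] at this
      simp at this
    · have := congrFun hP 2
      rw [h0] at this
      simp at this
  · intro P hP0 hPf hPg
    have hzero : ∀ c : AlgebraicClosure L, aeval (fun i => c * P i) f = 0 ∧
        aeval (fun i => c * P i) g = 0 := by
      intro c
      rw [aeval_scale hf, aeval_scale hg, hPf, hPg]
      simp
    by_cases h0 : P 0 = 0
    · by_cases h1 : P 1 = 0
      · have h2 : P 2 ≠ 0 := by
          intro h2
          apply hP0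
          funext i
          fin_cases i
          · exact h0
          · exact h1
          · exact h2
        refine ⟨(P 2)⁻¹, inv_ne_zero h2, ?_⟩
        rw [Finset.mem_union]
        right
        rw [Finset.mem_singleton]
        funext i
        fin_cases i
        · simp [h0]
        · simp [h1]
        · simp [h2]
      · refine ⟨(P 1)⁻¹, inv_ne_zero h1, ?_⟩
        rw [Finset.mem_union, Finset.mem_union, Finset.mem_image, Finset.mem_image]
        left
        right
        refine ⟨(P 1)⁻¹ * P 2, ?_, ?_⟩
        · rw [Set.Finite.mem_toFinset]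
          exact ⟨fun i => (P 1)⁻¹ * P i, by simp [h1], rfl, (hzero _).1, (hzero _).2⟩
        · funext i
          fin_cases i
          · simp [h0]
          · simp [h1]
          · simp
    · refine ⟨(P 0)⁻¹, inv_ne_zero h0, ?_⟩
      rw [Finset.mem_union, Finset.mem_union, Finset.mem_image, Finset.mem_image]
      left
      left
      refine ⟨((P 0)⁻¹ * P 1, (P 0)⁻¹ * P 2), ?_, ?_⟩
      · rw [Finset.mem_product, Set.Finite.mem_toFinset, Set.Finite.mem_toFinset]
        exact ⟨⟨fun i => (P 0)⁻¹ * P i, by simp [h0], rfl, (hzero _).1, (hzero _).2⟩,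
          ⟨fun i => (P 0)⁻¹ * P i, by simp [h0], rfl, (hzero _).1, (hzero _).2⟩⟩
      · funext i
        fin_cases i
        · simp [h0]
        · simp
        · simp

end Pool.Agent.Lib.MP_44a246_ntS
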