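import Mathlib

/-!
A linear form with natural coefficients which avoids finitely many points; binary forms.
-/

namespace Pool.Agent.Lib.MP_44a246_ntS

open MvPolynomial

/-- the linear form `X 0 + a X 1 + b X 2` -/
noncomputable def lin (R : Type*) [CommRing R] (a b : ℕ) : MvPolynomial (Fin 3) R :=
  X 0 + C (a : R) * X 1 + C (b : R) * X 2

theorem lin_hom (R : Type*) [CommRing R] (a b : ℕ) : (lin R a b).IsHomogeneous 1 := by
  unfold lin
  exact ((isHomogeneous_X R 0).add (isHomogeneous_C_mul_X _ _)).add (isHomogeneous_C_mul_X _ _)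

theorem exists_avoid {M : Type*} [Field M] [CharZero M] (Z : Finset (Fin 3 → M))
    (hZ : ∀ P ∈ Z, P ≠ 0) : ∃ a b : ℕ, ∀ P ∈ Z, P 0 + a * P 1 + b * P 2 ≠ 0 := by
  -- choose `a` such that `P 0 + a P 1` and `P 2` are not both zero for all `P ∈ Z` (for every `P`
  -- at most one `a` is excluded: if `P 2 = 0` then `(P 0, P 1) ≠ 0`), then `b` (for every `P` at
  -- most one `b` is excluded)
  have key : ∀ f : (Fin 3 → M) → ℕ → Prop, (∀ P ∈ Z, {n | f P n}.Subsingleton) →
      ∃ n, ∀ P ∈ Z, ¬ f P n := by
    intro f hf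
    have h1 : (⋃ P ∈ Z, {n | f P n}).Finite :=
      Set.Finite.biUnion Z.finite_toSet fun P hP => (hf P hP).finite
    obtain ⟨n, hn⟩ := h1.infinite_compl.nonempty
    exact ⟨n, fun P hP h => hn (Set.mem_biUnion hP h)⟩
  have hlin : ∀ (u v : M), (v ≠ 0) → {n : ℕ | u + n * v = 0}.Subsingleton := by
    intro u v hv n hn k hk
    have hn : u + n * v = 0 := hn
    have hk : u + k * v = 0 := hk
    have h1 : ((n : M) - k) * v = 0 := by linear_combination hn - hk
    rcases mul_eq_zero.1 h1 with h2 | h2
    · have h3 : (n : M) = k := sub_eq_zero.1 h2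
      exact_mod_cast h3
    · exact absurd h2 hv
  obtain ⟨a, ha⟩ := key (fun P n => P 2 = 0 ∧ P 0 + n * P 1 = 0) (by
    intro P hP
    by_cases h2 : P 2 = 0
    · by_cases h1 : P 1 = 0
      · intro n hn
        exfalso
        apply hZ P hP
        have h0 : P 0 = 0 := by
          have := hn.2
          rwa [h1, mul_zero, add_zero] at this
        funext i
        fin_cases i
        · exact h0
        · exact h1
        · exact h2
      · exact (hlin (P 0) (P 1) h1).anti fun n hn => hn.2
    · intro n hn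
      exact absurd hn.1 h2)
  obtain ⟨b, hb⟩ := key (fun P n => P 0 + a * P 1 + n * P 2 = 0) (by
    intro P hP
    by_cases h2 : P 2 = 0
    · intro n hn
      exfalso
      apply ha P hP
      refine ⟨h2, ?_⟩
      have hn : P 0 + a * P 1 + n * P 2 = 0 := hn
      rwa [h2, mul_zero, add_zero] at hn
    · exact hlin _ _ h2)
  exact ⟨a, b, hb⟩

end Pool.Agent.Lib.MP_44a246_ntS
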