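import Mathlib

/-!
A linear form with natural coefficients which avoids finitely many points; binary forms.
-/

namespace Pool.Agent.Lib.MP_44a246_ntS

open MvPolynomial

/-- the restriction to the line `lin a b = 0` -/
noncomputable def toLine {L : Type*} [Field L] (a b : ℕ) (G : MvPolynomial (Fin 3) L) :
    Polynomial L :=
  aeval ![-((a : Polynomial L) * Polynomial.X) - (b : Polynomial L), Polynomial.X, 1] G

theorem toLine_mul {L : Type*} [Field L] (a b : ℕ) (G H : MvPolynomial (Fin 3) L) :
    toLine a b (G * H) = toLine a b G * toLine a b H := map_mul _ _ _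

private lemma toLine_monomial {L : Type*} [Field L] (a b : ℕ) (d : Fin 3 →₀ ℕ) (c : L) :
    toLine a b (monomial d c) = Polynomial.C c *
      ((-((a : Polynomial L) * Polynomial.X) - (b : Polynomial L)) ^ d 0 *
        Polynomial.X ^ d 1) := by
  unfold toLine
  rw [aeval_monomial, Finsupp.prod_fintype _ _ (fun i => pow_zero _), Fin.prod_univ_three]
  simp only [Matrix.cons_val_zero, Matrix.cons_val_one, Matrix.cons_val, one_pow, mul_one]
  rfl

private lemma toLine_mon {L : Type*} [Field L] (a b : ℕ) (d : Fin 3 →₀ ℕ) (c : L) {m : ℕ}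
    (hd : d 0 + d 1 + d 2 = m) : (toLine a b (monomial d c)).natDegree ≤ m ∧
      (toLine a b (monomial d c)).coeff m = eval ![-(a : L), 1, 0] (monomial d c) := by
  have hq : (-((a : Polynomial L) * Polynomial.X) - (b : Polynomial L)).natDegree ≤ 1 := by
    refine (Polynomial.natDegree_sub_le _ _).trans (max_le ?_ ?_)
    · rw [Polynomial.natDegree_neg]
      refine Polynomial.natDegree_mul_le.trans ?_
      rw [Polynomial.natDegree_natCast]
      simp
    · rw [Polynomial.natDegree_natCast]
      exact Nat.zero_le _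
  set q := (-((a : Polynomial L) * Polynomial.X) - (b : Polynomial L)) with hqd
  have hq1 : q.coeff 1 = -(a : L) := by
    rw [hqd, Polynomial.coeff_sub, Polynomial.coeff_neg]
    rw [Polynomial.coeff_natCast_ite]
    have : ((a : Polynomial L) * Polynomial.X).coeff 1 = (a : L) := by
      have := Polynomial.coeff_mul_X (a : Polynomial L) 0
      rw [zero_add] at this
      rw [this]
      simp
    rw [this]
    simp
  have hqn : (q ^ d 0 * Polynomial.X ^ d 1).natDegree ≤ d 0 + d 1 := by
    refine Polynomial.natDegree_mul_le.trans ?_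
    rw [Polynomial.natDegree_X_pow]
    have := Polynomial.natDegree_pow_le_of_le (d 0) hq
    omega
  rw [toLine_monomial]
  have hn : (Polynomial.C c * (q ^ d 0 * Polynomial.X ^ d 1)).natDegree ≤ d 0 + d 1 :=
    (Polynomial.natDegree_C_mul_le _ _).trans hqn
  refine ⟨hn.trans (by omega), ?_⟩
  rw [eval_monomial, Finsupp.prod_fintype _ _ (fun i => pow_zero _), Fin.prod_univ_three]
  simp only [Matrix.cons_val_zero, Matrix.cons_val_one, Matrix.cons_val, one_pow, mul_one]
  rcases Nat.eq_zero_or_pos (d 2) with h2 | h2
  · rw [h2, pow_zero, mul_one, Polynomial.coeff_C_mul]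
    have hm : m = d 0 + d 1 := by omega
    rw [hm, Polynomial.coeff_mul_X_pow]
    have h3 := Polynomial.coeff_pow_of_natDegree_le (m := d 0) hq
    rw [mul_one] at h3
    rw [h3, hq1]
  · rw [zero_pow h2.ne', mul_zero, mul_zero]
    exact Polynomial.coeff_eq_zero_of_natDegree_lt (lt_of_le_of_lt hn (by omega))

theorem natDegree_toLine {L : Type*} [Field L] (a b : ℕ) {G : MvPolynomial (Fin 3) L} {m : ℕ}
    (hG : G.IsHomogeneous m) : (toLine a b G).natDegree ≤ m ∧
      (toLine a b G).coeff m = eval ![-(a : L), 1, 0] G := by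
  -- for a monomial `X ^ I` of degree `m` the image is `(- a T - b) ^ I₀ T ^ I₁`
  have hdeg : ∀ d ∈ G.support, d 0 + d 1 + d 2 = m := by
    intro d hd
    have h1 := hG (mem_support_iff.1 hd)
    have h2 : Finsupp.degree d = m := by
      rw [← h1, Finsupp.degree_eq_weight_one]
      rfl
    rw [← h2, Finsupp.degree_eq_sum, Fin.sum_univ_three]
  have hsum : toLine a b G = ∑ d ∈ G.support, toLine a b (monomial d (coeff d G)) := by
    conv_lhs => rw [← support_sum_monomial_coeff G]
    exact map_sum _ _ _
  have heval : eval ![-(a : L), 1, 0] G =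
      ∑ d ∈ G.support, eval ![-(a : L), 1, 0] (monomial d (coeff d G)) := by
    conv_lhs => rw [← support_sum_monomial_coeff G]
    exact map_sum _ _ _
  rw [hsum, heval]
  constructor
  · exact Polynomial.natDegree_sum_le_of_forall_le _ _ fun d hd =>
      (toLine_mon a b d _ (hdeg d hd)).1
  · rw [Polynomial.finsetSum_coeff]
    exact Finset.sum_congr rfl fun d hd => (toLine_mon a b d _ (hdeg d hd)).2

end Pool.Agent.Lib.MP_44a246_ntS
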