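import Mathlib
import Pool.Agent.Lib.MP_44a246_ntS.SE4
import Pool.Agent.Lib.MP_44a246_ntS.SE4b

/-!
A linear form with natural coefficients which avoids finitely many points; binary forms.
-/

namespace Pool.Agent.Lib.MP_44a246_ntS

open MvPolynomial

private noncomputable def toBin {L : Type*} [Field L] (a b : ℕ) :
    MvPolynomial (Fin 3) L →ₐ[L] MvPolynomial (Fin 2) L :=
  aeval ![-(C (a : L) * X 0) - C (b : L) * X 1, X 0, X 1]

private noncomputable def fromBin (L : Type*) [Field L] :
    MvPolynomial (Fin 2) L →ₐ[L] MvPolynomial (Fin 3) L :=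
  aeval ![X 1, X 2]

private noncomputable def binT (L : Type*) [Field L] :
    MvPolynomial (Fin 2) L →ₐ[L] Polynomial L :=
  aeval ![Polynomial.X, 1]

private theorem binT_toBin {L : Type*} [Field L] (a b : ℕ) (G : MvPolynomial (Fin 3) L) :
    binT L (toBin a b G) = toLine a b G := by
  have : (binT L).comp (toBin a b) =
      aeval ![-((a : Polynomial L) * Polynomial.X) - (b : Polynomial L), Polynomial.X, 1] := by
    apply MvPolynomial.algHom_ext
    intro i
    fin_cases i <;> simp [binT, toBin]
  exact DFunLike.congr_fun this G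

private theorem dvd_sub_fromBin {L : Type*} [Field L] (a b : ℕ) (G : MvPolynomial (Fin 3) L) :
    lin L a b ∣ G - fromBin L (toBin a b G) := by
  induction G using MvPolynomial.induction_on with
  | C r => simp [toBin, fromBin]
  | add p q hp hq =>
    rw [map_add, map_add]
    have := dvd_add hp hq
    convert this using 1
    ring
  | mul_X p i hp =>
    rw [map_mul, map_mul]
    have h1 : lin L a b ∣ X i - fromBin L (toBin a b (X i)) := by
      fin_cases i
      · simp [toBin, fromBin, lin]
        refine dvd_of_eq ?_
        ring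
      · simp [toBin, fromBin]
      · simp [toBin, fromBin]
    have h2 : p * X i - fromBin L (toBin a b p) * fromBin L (toBin a b (X i)) =
        (p - fromBin L (toBin a b p)) * X i +
          fromBin L (toBin a b p) * (X i - fromBin L (toBin a b (X i))) := by ring
    rw [h2]
    exact dvd_add (Dvd.dvd.mul_right hp _) (Dvd.dvd.mul_left h1 _)

private theorem toBin_hom {L : Type*} [Field L] (a b : ℕ) {G : MvPolynomial (Fin 3) L} {m : ℕ}
    (hG : G.IsHomogeneous m) : (toBin a b G).IsHomogeneous m := by
  have h : (toBin a b G).IsHomogeneous (1 * m) := by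
    refine hG.aeval _ ?_
    intro i
    fin_cases i
    · have h1 : (C (a : L) * X 0 : MvPolynomial (Fin 2) L).IsHomogeneous 1 :=
        isHomogeneous_C_mul_X _ _
      have h2 : (C (b : L) * X 1 : MvPolynomial (Fin 2) L).IsHomogeneous 1 :=
        isHomogeneous_C_mul_X _ _
      exact h1.neg.sub h2
    · exact isHomogeneous_X _ _
    · exact isHomogeneous_X _ _
  rwa [one_mul] at h

private theorem eq_zero_of_binT {L : Type*} [Field L] {H : MvPolynomial (Fin 2) L} {m : ℕ}
    (hH : H.IsHomogeneous m) (h : binT L H = 0) : H = 0 := by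
  by_contra hne
  obtain ⟨I, hI⟩ := MvPolynomial.ne_zero_iff.1 hne
  have hc : (binT L H).coeff (I 0) = H.coeff I := by
    rw [binT, MvPolynomial.aeval_def, MvPolynomial.eval₂_eq', Polynomial.finsetSum_coeff]
    rw [Finset.sum_eq_single I]
    · simp [Fin.prod_univ_two]
    · intro J hJ hJI
      simp only [Fin.prod_univ_two, Matrix.cons_val_zero, Matrix.cons_val_one, one_pow, mul_one,
        Polynomial.algebraMap_eq]
      rw [Polynomial.coeff_C_mul, Polynomial.coeff_X_pow]
      split_ifs with h0
      · exfalso
        apply hJI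
        have h1 := hH (MvPolynomial.mem_support_iff.1 hJ)
        have h2 := hH hI
        rw [Finsupp.weight_apply] at h1 h2
        simp only [Finsupp.sum_fintype, Pi.one_apply, smul_eq_mul, mul_one,
          implies_true, Fin.sum_univ_two] at h1 h2
        ext i
        fin_cases i
        · exact h0.symm
        · show J 1 = I 1
          omega
      · simp
    · intro hI'
      simp [MvPolynomial.notMem_support_iff.1 hI']
  rw [h, Polynomial.coeff_zero] at hc
  exact hI hc.symm

attribute [local instance] MvPolynomial.gradedAlgebra in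
/-- `G` is divisible by `lin a b` if its restriction to the line vanishes -/
theorem dvd_of_toLine {L : Type*} [Field L] (a b : ℕ) {G : MvPolynomial (Fin 3) L} {m : ℕ}
    (hG : G.IsHomogeneous m) (h : toLine a b G = 0) :
    ∃ w : MvPolynomial (Fin 3) L, w.IsHomogeneous (m - 1) ∧ G = w * lin L a b := by
  -- Modulo `lin a b` every `G` is congruent to `G' = G (- a X₁ - b X₂, X₁, X₂)` (induction on `G`:
  -- `X₀ - (- a X₁ - b X₂) = lin a b`). If `G` is a form of degree `m`, `G'` is a form of degree `m`
  -- in `X₁, X₂` and `toLine G = G' (T, 1)` determines its coefficients, so `G' = 0` and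
  -- `G = w * lin`. If `G = 0` take `w = 0`; otherwise `w` is homogeneous: replace it by its
  -- component of degree `m - 1` (`m ≥ 1` because `lin` divides `G ≠ 0`)
  have hB : toBin a b G = 0 := by
    apply eq_zero_of_binT (toBin_hom a b hG)
    rw [binT_toBin, h]
  have hd := dvd_sub_fromBin a b G
  rw [hB, map_zero, sub_zero] at hd
  obtain ⟨w, hw⟩ := hd
  classical
  have hlin : lin L a b ∈ homogeneousSubmodule (Fin 3) L 1 := lin_hom L a b
  have hGm : homogeneousComponent m G = G := by
    rw [homogeneousComponent_of_mem hG, if_pos rfl]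
  have hdec : ∀ (φ : MvPolynomial (Fin 3) L) (i : ℕ),
      ((DirectSum.decompose (homogeneousSubmodule (Fin 3) L) φ i : _) : MvPolynomial (Fin 3) L) =
        homogeneousComponent i φ := fun φ i => decomposition.decompose'_apply φ i
  by_cases hm : 1 ≤ m
  · refine ⟨homogeneousComponent (m - 1) w, homogeneousComponent_isHomogeneous _ _, ?_⟩
    have h1 := DirectSum.coe_decompose_mul_of_left_mem_of_le
      (homogeneousSubmodule (Fin 3) L) (b := w) hlin hm
    rw [hdec, hdec, ← hw, hGm] at h1
    rw [mul_comm]
    exact h1
  · refine ⟨0, isHomogeneous_zero _ _ _, ?_⟩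
    have h1 := DirectSum.coe_decompose_mul_of_left_mem_of_not_le
      (homogeneousSubmodule (Fin 3) L) (b := w) hlin hm
    rw [hdec, ← hw, hGm] at h1
    rw [h1, zero_mul]

end Pool.Agent.Lib.MP_44a246_ntS
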