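import Mathlib

/-!
Forms of large degree are in the ideal generated by two relatively prime forms and a constant
linear form.
-/

namespace Pool.Agent.Lib.MP_44a246_ntS

open MvPolynomial

private theorem bezout_deg_aux {L : Type*} [Field L] {e m : ℕ} (he : 1 ≤ e) (hm : 2 * e ≤ m + 1)
    {f g : Polynomial L} (hf : f.natDegree ≤ e) (hg : g.natDegree ≤ e) (hfg : IsCoprime f g)
    (hfe : f.coeff e ≠ 0) {G : Polynomial L} (hG : G.natDegree ≤ m) :
    ∃ u v : Polynomial L, u.natDegree ≤ m - e ∧ v.natDegree ≤ m - e ∧ G = u * f + v * g := by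
  have hfd : f.natDegree = e := le_antisymm hf (Polynomial.le_natDegree_of_ne_zero hfe)
  have hf0 : f ≠ 0 := by
    rintro rfl
    simp at hfe
  obtain ⟨a, b, hab⟩ := hfg
  have hv : ((G * b) % f).natDegree < e := by
    have := Polynomial.natDegree_mod_lt (G * b) (q := f) (by omega)
    omega
  have hdm : f * ((G * b) / f) + (G * b) % f = G * b := EuclideanDomain.div_add_mod (G * b) f
  have hGe : G = (G * a + (G * b) / f * g) * f + (G * b) % f * g := by
    calc G = G * (a * f + b * g) := by rw [hab, mul_one]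
      _ = G * a * f + (G * b) * g := by ring
      _ = G * a * f + (f * ((G * b) / f) + (G * b) % f) * g := by rw [hdm]
      _ = _ := by ring
  refine ⟨G * a + (G * b) / f * g, (G * b) % f, ?_, by omega, hGe⟩
  set u := G * a + (G * b) / f * g with hu
  set v := (G * b) % f with hv'
  by_cases hu0 : u = 0
  · rw [hu0]; simp
  have h1 : (u * f).natDegree = u.natDegree + e := by
    rw [Polynomial.natDegree_mul hu0 hf0, hfd]
  have h2 : u * f = G - v * g := by rw [eq_sub_iff_add_eq]; exact hGe.symm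
  have h3 : (G - v * g).natDegree ≤ m := by
    refine (Polynomial.natDegree_sub_le _ _).trans (max_le hG ?_)
    refine Polynomial.natDegree_mul_le.trans ?_
    omega
  rw [← h2, h1] at h3
  omega

/-- Bezout with degrees -/
theorem bezout_deg {L : Type*} [Field L] {e m : ℕ} (he : 1 ≤ e) (hm : 2 * e ≤ m + 1)
    {f g : Polynomial L} (hf : f.natDegree ≤ e) (hg : g.natDegree ≤ e) (hfg : IsCoprime f g)
    (hfe : f.coeff e ≠ 0 ∨ g.coeff e ≠ 0) {G : Polynomial L} (hG : G.natDegree ≤ m) :
    ∃ u v : Polynomial L, u.natDegree ≤ m - e ∧ v.natDegree ≤ m - e ∧ G = u * f + v * g := by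
  -- by symmetry `f.coeff e ≠ 0`, so `f.natDegree = e`. Write `G = u₀ f + v₀ g`, `v₀ = q f + v`
  -- with `v.degree < e`, `u = u₀ + q g`. Then `(v g).natDegree ≤ 2 e - 1 ≤ m`, so
  -- `(u f).natDegree ≤ m` and `u.natDegree ≤ m - e`
  rcases hfe with h | h
  · exact bezout_deg_aux he hm hf hg hfg h hG
  · obtain ⟨u, v, hu, hv, hG'⟩ := bezout_deg_aux he hm hg hf hfg.symm h hG
    exact ⟨v, u, hv, hu, by rw [hG', add_comm]⟩

end Pool.Agent.Lib.MP_44a246_ntS
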