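import Mathlib
import Pool.Agent.Lib.MP_44a246_ntS.SE4b

/-!
Forms of large degree are in the ideal generated by two relatively prime forms and a constant
linear form.
-/

namespace Pool.Agent.Lib.MP_44a246_ntS

open MvPolynomial

/-- every polynomial of degree at most `m` is the restriction of a form of degree `m` -/
theorem exists_toLine {L : Type*} [Field L] (a b : ℕ) {m : ℕ} {q : Polynomial L}
    (hq : q.natDegree ≤ m) :
    ∃ u : MvPolynomial (Fin 3) L, u.IsHomogeneous m ∧ toLine a b u = q := by
  -- `u = ∑ i ∈ range (m + 1), C (q.coeff i) * X 1 ^ i * X 2 ^ (m - i)`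
  refine ⟨∑ i ∈ Finset.range (m + 1), C (q.coeff i) * (X 1 ^ i * X 2 ^ (m - i)), ?_, ?_⟩
  · refine IsHomogeneous.sum _ _ _ fun i hi => ?_
    rw [Finset.mem_range] at hi
    have h1 := (isHomogeneous_C (Fin 3) (q.coeff i)).mul
      ((isHomogeneous_X_pow (R := L) (1 : Fin 3) i).mul
        (isHomogeneous_X_pow (R := L) (2 : Fin 3) (m - i)))
    have h2 : 0 + (i + (m - i)) = m := by omega
    rwa [h2] at h1
  · unfold toLine
    rw [map_sum]
    conv_rhs => rw [Polynomial.as_sum_range_C_mul_X_pow' q (Nat.lt_succ_of_le hq)]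
    refine Finset.sum_congr rfl fun i _ => ?_
    simp only [map_mul, map_pow, aeval_X, aeval_C, Matrix.cons_val_one, Matrix.cons_val,
      one_pow, mul_one]
    rfl

end Pool.Agent.Lib.MP_44a246_ntS
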