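import Mathlib
import Pool.Agent.Lib.MP_44a246_ntS.SE3c
import Pool.Agent.Lib.MP_44a246_ntS.SE4c
import Pool.Agent.Lib.MP_44a246_ntS.SE5
import Pool.Agent.Lib.MP_44a246_ntS.SE5b

/-!
Forms of large degree are in the ideal generated by two relatively prime forms and a constant
linear form.
-/

namespace Pool.Agent.Lib.MP_44a246_ntS

open MvPolynomial

/-- **The linear form.** For relatively prime forms `f, g` of degree `e ≥ 1` and a point `p` there
is a linear form `l = X 0 + a X 1 + b X 2` with natural coefficients, not vanishing at `p`, such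
that every form of degree at least `2 e - 1` is in the ideal `(f, g, l)`. -/
theorem exists_lin {L : Type*} [Field L] [CharZero L] {e : ℕ} (he : 1 ≤ e)
    {f g : MvPolynomial (Fin 3) L} (hf : f.IsHomogeneous e) (hg : g.IsHomogeneous e)
    (h : IsRelPrime f g) {p : Fin 3 → L} (hp : p ≠ 0) :
    ∃ a b : ℕ, eval p (lin L a b) ≠ 0 ∧ ∀ m, 2 * e ≤ m + 1 → ∀ G : MvPolynomial (Fin 3) L,
      G.IsHomogeneous m → ∃ u v w : MvPolynomial (Fin 3) L, u.IsHomogeneous (m - e) ∧
        v.IsHomogeneous (m - e) ∧ w.IsHomogeneous (m - 1) ∧ G = u * f + v * g + w * lin L a b := by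
  classical
  have : Infinite L := CharZero.infinite L
  obtain ⟨Z, hZ0, hZ⟩ := finite_zeros hf hg h
  have hinj : Function.Injective (algebraMap L (AlgebraicClosure L)) :=
    (algebraMap L (AlgebraicClosure L)).injective
  obtain ⟨a, b, hab⟩ := exists_avoid
    (insert (fun i => algebraMap L (AlgebraicClosure L) (p i)) Z) (by
      intro P hP
      rcases Finset.mem_insert.1 hP with rfl | hP
      · intro h0
        apply hp
        funext i
        have h1 := congrFun h0 i
        simp only [Pi.zero_apply] at h1 ⊢
        exact hinj (by rw [h1, map_zero])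
      · exact hZ0 P hP)
  have hkey : ∀ P : Fin 3 → AlgebraicClosure L, P ≠ 0 → aeval P f = 0 → aeval P g = 0 →
      P 0 + a * P 1 + b * P 2 ≠ 0 := by
    intro P hP h1 h2 h3
    obtain ⟨c, _, hcZ⟩ := hZ P hP h1 h2
    apply hab _ (Finset.mem_insert_of_mem hcZ)
    calc c * P 0 + a * (c * P 1) + b * (c * P 2) = c * (P 0 + a * P 1 + b * P 2) := by ring
      _ = 0 := by rw [h3, mul_zero]
  refine ⟨a, b, ?_, ?_⟩
  · intro h0
    apply hab _ (Finset.mem_insert_self _ _)
    have h1 : p 0 + a * p 1 + b * p 2 = 0 := by
      simpa [lin] using h0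
    have h2 := congrArg (algebraMap L (AlgebraicClosure L)) h1
    simpa using h2
  · -- restriction to the line
    have hline : ∀ (t : AlgebraicClosure L) (H : MvPolynomial (Fin 3) L),
        Polynomial.aeval t (toLine a b H) =
          aeval ![-((a : AlgebraicClosure L) * t) - (b : AlgebraicClosure L), t, 1] H := by
      intro t H
      unfold toLine
      rw [← AlgHom.comp_apply, comp_aeval]
      congr 2
      funext i
      fin_cases i <;> simp
    have hcop : IsCoprime (toLine a b f) (toLine a b g) := by
      rw [Polynomial.isCoprime_iff_aeval_ne_zero_of_isAlgClosed L (AlgebraicClosure L)]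
      intro t
      by_contra hcon
      push Not at hcon
      obtain ⟨h1, h2⟩ := hcon
      rw [hline] at h1 h2
      refine hkey _ ?_ h1 h2 ?_
      · intro h3
        have := congrFun h3 2
        simp at this
      · simp only [Matrix.cons_val_zero, Matrix.cons_val_one, Matrix.cons_val]
        ring
    have hcoe : (toLine a b f).coeff e ≠ 0 ∨ (toLine a b g).coeff e ≠ 0 := by
      by_contra hcon
      push Not at hcon
      obtain ⟨h1, h2⟩ := hcon
      rw [(natDegree_toLine a b hf).2] at h1
      rw [(natDegree_toLine a b hg).2] at h2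
      have h3 : ∀ H : MvPolynomial (Fin 3) L, eval ![-(a : L), 1, 0] H = 0 →
          aeval (fun i => algebraMap L (AlgebraicClosure L) (![-(a : L), 1, 0] i)) H = 0 := by
        intro H hH
        have := MvPolynomial.aeval_algebraMap_apply (AlgebraicClosure L) ![-(a : L), 1, 0] H
        have h4 : (fun i => algebraMap L (AlgebraicClosure L) (![-(a : L), 1, 0] i)) =
          (algebraMap L (AlgebraicClosure L)) ∘ ![-(a : L), 1, 0] := rfl
        rw [h4, this, aeval_eq_eval, hH, map_zero]
      refine hkey _ ?_ (h3 f h1) (h3 g h2) ?_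
      · intro h5
        have := congrFun h5 1
        simp at this
      · simp
    intro m hm G hG
    obtain ⟨u, v, hu, hv, hGuv⟩ := bezout_deg he hm (natDegree_toLine a b hf).1
      (natDegree_toLine a b hg).1 hcop hcoe (natDegree_toLine a b hG).1
    obtain ⟨u', hu', rfl⟩ := exists_toLine a b hu
    obtain ⟨v', hv', rfl⟩ := exists_toLine a b hv
    have hme : m - e + e = m := Nat.sub_add_cancel (by omega)
    have h1 : (G - u' * f - v' * g).IsHomogeneous m := by
      have h2 := hu'.mul hf
      have h3 := hv'.mul hg
      rw [hme] at h2 h3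
      exact (hG.sub h2).sub h3
    have h2 : toLine a b (G - u' * f - v' * g) = 0 := by
      have h3 : toLine a b (G - u' * f - v' * g) =
          toLine a b G - toLine a b (u' * f) - toLine a b (v' * g) := by
        unfold toLine
        rw [map_sub, map_sub]
      rw [h3, toLine_mul, toLine_mul, hGuv]
      ring
    obtain ⟨w, hw, hw2⟩ := dvd_of_toLine a b h1 h2
    refine ⟨u', v', w, hu', hv', hw, ?_⟩
    rw [← hw2]
    ring

end Pool.Agent.Lib.MP_44a246_ntS
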