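import Mathlib
import Pool.Agent.Lib.MP_44a246_ntS.SD4
import Pool.Agent.Lib.MP_44a246_ntS.Names

/-!
Functionals killed by two relatively prime forms: contraction by a power of a linear form is
injective.
-/

namespace Pool.Agent.Lib.MP_44a246_ntS

open Pool.Agent.Lib.MP_44a246_nt
open Pool.Agent.Lib.MP_44a246_ntL
open Pool.Agent.Lib.MP_e52354_nt
open WithZero Module MvPolynomial

/-- contractions commute -/
theorem ctr_comm {R : Type*} [CommRing R] {s t t' : ℕ} {P P' : MvPolynomial (Fin 3) R}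
    (hP : P.IsHomogeneous t) (hP' : P'.IsHomogeneous t') (u : M3 (s + t + t') → R) :
    (ctr P' s (s + t')).mulVec ((ctr P (s + t') (s + t + t')).mulVec u) =
      (ctr P s (s + t)).mulVec ((ctr P' (s + t) (s + t + t')).mulVec u) := by
  -- `ctr_mul` twice and `mul_comm`
  rw [ctr_mul (show (s + t') + t = s + t + t' by omega) rfl hP hP' u,
    ctr_mul (show (s + t) + t' = s + t + t' by omega) rfl hP' hP u, mul_comm P' P]

/-- a functional of degree `m` with `2 e ≤ m + 1` killed by `f, g, l` is zero -/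
theorem eq_zero_of_kill {L : Type*} [Field L] {e m : ℕ} (hem : 2 * e ≤ m + 1) (he : 1 ≤ e)
    {f g l : MvPolynomial (Fin 3) L} (hf : f.IsHomogeneous e) (hg : g.IsHomogeneous e)
    (hl : l.IsHomogeneous 1)
    (hall : ∀ G : MvPolynomial (Fin 3) L,
      G.IsHomogeneous m → ∃ u v w : MvPolynomial (Fin 3) L, u.IsHomogeneous (m - e) ∧
        v.IsHomogeneous (m - e) ∧ w.IsHomogeneous (m - 1) ∧ G = u * f + v * g + w * l)
    {u : M3 m → L} (h1 : (ctr f (m - e) m).mulVec u = 0) (h2 : (ctr g (m - e) m).mulVec u = 0)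
    (h3 : (ctr l (m - 1) m).mulVec u = 0) : u = 0 := by
  -- `eq_zero_of_pr`: `pr (a f + b g + w l) u = pr a (ctr f u) + pr b (ctr g u) + pr w (ctr l u)`
  -- (`pr_ctr`)
  refine eq_zero_of_pr fun G hG => ?_
  obtain ⟨a, b, w, ha, hb, hw, rfl⟩ := hall G hG
  rw [pr_add, pr_add, pr_ctr (show m - e + e = m by omega) ha hf u,
    pr_ctr (show m - e + e = m by omega) hb hg u,
    pr_ctr (show m - 1 + 1 = m by omega) hw hl u, h1, h2, h3]
  simp [pr]

end Pool.Agent.Lib.MP_44a246_ntS
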