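import Mathlib
import Pool.Agent.Lib.MP_44a246_nt.PlacesGen
import Pool.Agent.Lib.MP_44a246_ntS.SG1
import Pool.Agent.Lib.MP_44a246_ntS.Names

/-!
Functionals killed by two relatively prime forms: contraction by a power of a linear form is
injective.
-/

namespace Pool.Agent.Lib.MP_44a246_ntS

open Pool.Agent.Lib.MP_44a246_nt
open Pool.Agent.Lib.MP_44a246_ntL
open Pool.Agent.Lib.MP_e52354_nt
open WithZero Module MvPolynomial

/-- **Injectivity** of the contraction by `l ^ j` on the functionals killed by `f, g` -/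
theorem eq_zero_of_pow {L : Type*} [Field L] {e : ℕ} (he : 1 ≤ e)
    {f g l : MvPolynomial (Fin 3) L} (hf : f.IsHomogeneous e) (hg : g.IsHomogeneous e)
    (hl : l.IsHomogeneous 1)
    (hall : ∀ m, 2 * e ≤ m + 1 → ∀ G : MvPolynomial (Fin 3) L,
      G.IsHomogeneous m → ∃ u v w : MvPolynomial (Fin 3) L, u.IsHomogeneous (m - e) ∧
        v.IsHomogeneous (m - e) ∧ w.IsHomogeneous (m - 1) ∧ G = u * f + v * g + w * l)
    {r : ℕ} (hr : 2 * e ≤ r + 1) (j : ℕ) {u : M3 (r + j) → L}
    (h1 : (ctr f (r + j - e) (r + j)).mulVec u = 0)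
    (h2 : (ctr g (r + j - e) (r + j)).mulVec u = 0)
    (h3 : (ctr (l ^ j) r (r + j)).mulVec u = 0) : u = 0 := by
  -- induction on `j`; the contractions commute
  induction j with
  | zero =>
    rw [pow_zero] at h3
    refine eq_zero_of_pr fun G hG => ?_
    have h4 := pr_ctr (show r + 0 = r + 0 from rfl) hG (isHomogeneous_one (Fin 3) L) u
    rw [h3, mul_one] at h4
    rw [h4]
    simp [pr]
  | succ j ih =>
    have hlj : (l ^ j).IsHomogeneous j := by
      have := hl.pow j
      rwa [one_mul] at this
    have e1 : r + j - e + 1 = r + (j + 1) - e := by omega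
    have k0 : (ctr l (r + j) (r + (j + 1))).mulVec u = 0 := by
      apply ih
      · rw [ctr_mul (show (r + j) + 1 = r + (j + 1) by omega)
          (show r + j - e + e = r + j by omega) hl hf u, mul_comm f l,
          ← ctr_mul (show r + (j + 1) - e + e = r + (j + 1) by omega)
          (show r + j - e + 1 = r + (j + 1) - e by omega) hf hl u, h1, Matrix.mulVec_zero]
      · rw [ctr_mul (show (r + j) + 1 = r + (j + 1) by omega)
          (show r + j - e + e = r + j by omega) hl hg u, mul_comm g l,
          ← ctr_mul (show r + (j + 1) - e + e = r + (j + 1) by omega)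
          (show r + j - e + 1 = r + (j + 1) - e by omega) hg hl u, h2, Matrix.mulVec_zero]
      · rw [ctr_mul (show (r + j) + 1 = r + (j + 1) by omega) rfl hl hlj u, ← pow_succ, h3]
    exact eq_zero_of_kill (e := e) (m := r + (j + 1)) (by omega) he hf hg hl
      (hall _ (by omega)) h1 h2 k0

end Pool.Agent.Lib.MP_44a246_ntS
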