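import Mathlib
import Pool.Agent.Lib.MP_44a246_ntL.LFF
import Pool.Agent.Lib.MP_44a246_ntS.SD2

/-!
Functionals on forms of a given degree in three variables: contraction by forms.
-/

namespace Pool.Agent.Lib.MP_44a246_ntS

open Pool.Agent.Lib.MP_44a246_nt
open Pool.Agent.Lib.MP_44a246_ntL
open Pool.Agent.Lib.MP_e52354_nt
open WithZero Module MvPolynomial

section

variable {κ L : Type*} [Field κ] [IsAlgClosed κ] [CharZero κ] [Field L] [Algebra κ L]

/-- the exponent of `X j ^ s` -/
noncomputable def m3single (s : ℕ) (j : Fin 3) : M3 s :=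
  ⟨Finsupp.single j s, by
    unfold expo
    rw [Finset.mem_finsuppAntidiag]
    exact ⟨by simp, by simp⟩⟩

omit [Field κ] [IsAlgClosed κ] [CharZero κ] [Algebra κ L] in
theorem xi_single (s : ℕ) (j : Fin 3) (p : Fin 3 → L) : xi s p (m3single s j) = p j ^ s := by
  exact mon_single p j s

theorem m3_sum {s : ℕ} (I : M3 s) : ∑ j, I.1 j = s := by
  have h := I.2
  unfold expo at h
  rw [Finset.mem_finsuppAntidiag] at h
  exact h.1

theorem xi_ne_zero {s : ℕ} {p : Fin 3 → L} (hp : p ≠ 0) : xi s p ≠ 0 := by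
  -- the coordinate of `p j ^ s` with `p j ≠ 0` (`mon_single`)
  obtain ⟨j, hj⟩ : ∃ j, p j ≠ 0 := by
    by_contra hcon
    push Not at hcon
    exact hp (funext hcon)
  intro h0
  have := congrFun h0 (m3single s j)
  rw [xi_single] at this
  exact pow_ne_zero s hj this

theorem vmax_xi (v : Valuation L ℤᵐ⁰) (s : ℕ) (p : Fin 3 → L) :
    vmax v (xi s p) = vmax v p ^ s := by
  -- `≤`: every factor is at most `vmax v p`; `≥`: the monomial `p j ^ s` with `v (p j)` maximal
  apply le_antisymm
  · refine vmax_le v fun I => ?_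
    unfold xi
    rw [map_prod]
    calc ∏ j, v (p j ^ I.1 j) ≤ ∏ j, vmax v p ^ I.1 j := by
          refine Finset.prod_le_prod' fun j _ => ?_
          rw [map_pow]
          exact pow_le_pow_left' (le_vmax v p j) _
      _ = vmax v p ^ s := by rw [Finset.prod_pow_eq_pow_sum, m3_sum]
  · obtain ⟨j, -, hj⟩ := Finset.exists_mem_eq_sup (Finset.univ : Finset (Fin 3))
      Finset.univ_nonempty (fun j => v (p j))
    have h1 : vmax v p = v (p j) := hj
    rw [h1, ← map_pow, ← xi_single]
    exact le_vmax v _ _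

theorem height_xi (h : IsFF κ L) (s : ℕ) {p : Fin 3 → L} (hp : p ≠ 0) :
    height κ (xi s p) = s * height κ p := by
  -- `vmax_xi`, `log_pow`, `mul_finsum` (finite support: `IsFF.vmax_support`)
  unfold height
  rw [mul_finsum]
  refine finsum_congr fun w => ?_
  rw [vmax_xi, log_pow, nsmul_eq_mul]

end

end Pool.Agent.Lib.MP_44a246_ntS
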