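import Mathlib
import Pool.Agent.Lib.MP_44a246_ntS.SA4
import Pool.Agent.Lib.MP_44a246_ntS.SB1b
import Pool.Agent.Lib.MP_44a246_ntS.SB2

/-!
Heights of subspaces and linear maps.
-/

namespace Pool.Agent.Lib.MP_44a246_ntS

open Pool.Agent.Lib.MP_44a246_nt
open Pool.Agent.Lib.MP_44a246_ntL
open WithZero Module

variable {κ L : Type*} [Field κ] [IsAlgClosed κ] [CharZero κ] [Field L] [Algebra κ L]
  {ι ι' : Type*} [Fintype ι] [Fintype ι']

/-- lower bound for the height of a space which contains the kernel of a map with good local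
right inverses -/
theorem ht_lower (h : IsFF κ L) (T : Matrix ι' ι L) {τ : Place κ L → ℤ}
    (hτ : (Function.support τ).Finite)
    (hT : ∀ w : Place κ L, ∃ S : Matrix ι ι' L, (∀ y, T.mulVec (S.mulVec y) = y) ∧
      ∀ k m, w.1 (S k m) ≤ exp (- τ w))
    {Q : Submodule L (ι → L)} (hQ : ∀ y, T.mulVec y = 0 → y ∈ Q) :
    (∑ᶠ w, τ w) * ((Fintype.card ι : ℤ) - finrank L Q) ≤ ht κ Q := by
  -- `T` is onto. `Q' = Q.map T`, `β` a basis of `Q`, `α'` a basis of `Q'`, `Sum.elim α' b` a basis
  -- of `ι' → L`; choose `b̂ i` with `T (b̂ i) = b i`; then `Sum.elim β b̂` is a basis of `ι → L`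
  -- (as `ker T ≤ Q`), so `card ι - finrank Q` is the number `r` of the `b i`.
  -- For every place `w`, `pl_local` for the matrix `S` of `w` (from `ι' → L` to `ι → L`; it maps
  -- `Q'` into `Q` because `T (S y) = y` and `ker T ≤ Q`) gives
  -- `pl (β ⊕ S b) * pl α' ≤ exp (- τ w) ^ r * (pl (α' ⊕ b) * pl β)`, and
  -- `pl (β ⊕ S b) = pl (β ⊕ b̂)` by `pl_sum_unip` (`S (b i) - b̂ i ∈ ker T ≤ Q = span β`).
  -- Take logarithms and sum over the places: `0 + ht Q' ≤ - r * ∑ τ + 0 + ht Q` (`ht_top`).
  classical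
  rcases isEmpty_or_nonempty (Place κ L) with hemp | ⟨⟨w0⟩⟩
  · have h1 : ∑ᶠ w : Place κ L, τ w = 0 := finsum_of_isEmpty _
    rw [h1, zero_mul]
    exact ht_nonneg h Q
  obtain ⟨S0, hS0, -⟩ := hT w0
  obtain ⟨β, bh, hβ, hβs, hsum, hsums⟩ := exists_compl (le_top : Q ≤ ⊤)
  -- the image of `Q`
  set Q' : Submodule L (ι' → L) := Q.map T.mulVecLin with hQ'
  set α' : Fin (finrank L Q') → ι' → L := fun i => (Module.finBasis L Q' i : ι' → L) with hα'
  have hα'i : LinearIndependent L α' :=
    (Module.finBasis L Q').linearIndependent.map' Q'.subtype (Submodule.ker_subtype _)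
  have hα's : Submodule.span L (Set.range α') = Q' := by
    have h1 : Set.range α' = Q'.subtype '' Set.range (Module.finBasis L Q') := by
      rw [← Set.range_comp]; rfl
    rw [h1, Submodule.span_image, (Module.finBasis L Q').span_eq, Submodule.map_top,
      Submodule.range_subtype]
  set b : Fin (finrank L (⊤ : Submodule L (ι → L)) - finrank L Q) → ι' → L :=
    fun i => T.mulVec (bh i) with hb
  -- `α' ⊕ b` is a basis
  have hdisj : ∀ y : Fin (finrank L (⊤ : Submodule L (ι → L)) - finrank L Q) → L,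
      (∑ i, y i • bh i) ∈ Q → ∀ i, y i = 0 := by
    intro y hy i
    have hy' : (∑ i, y i • bh i) ∈ Submodule.span L (Set.range β) := hβs.ge hy
    obtain ⟨c, hc⟩ := (Submodule.mem_span_range_iff_exists_fun L).mp hy'
    have h1 := Fintype.linearIndependent_iff.mp hsum (Sum.elim c (fun i => - y i)) (by
      rw [Fintype.sum_sum_type]
      simp only [Sum.elim_inl, Sum.elim_inr, neg_smul, Finset.sum_neg_distrib]
      rw [hc, add_neg_cancel])
    have h2 := h1 (Sum.inr i)
    simpa using h2
  have hindep : LinearIndependent L (Sum.elim α' b) := by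
    rw [Fintype.linearIndependent_iff]
    intro c hc
    rw [Fintype.sum_sum_type] at hc
    simp only [Sum.elim_inl, Sum.elim_inr] at hc
    have h1 : (∑ i, c (Sum.inl i) • α' i) ∈ Q' := by
      exact Submodule.sum_mem _ fun i _ =>
        Submodule.smul_mem _ _ (hα's.le (Submodule.subset_span ⟨i, rfl⟩))
    obtain ⟨q, hq, hqe⟩ := h1
    have h2 : T.mulVec (q + ∑ i, c (Sum.inr i) • bh i) = 0 := by
      rw [Matrix.mulVec_add]
      have h3 : T.mulVec (∑ i, c (Sum.inr i) • bh i) = ∑ i, c (Sum.inr i) • b i := by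
        have := map_sum T.mulVecLin (fun i => c (Sum.inr i) • bh i) Finset.univ
        simp only [map_smul, Matrix.mulVecLin_apply] at this
        exact this
      rw [h3]
      have h4 : T.mulVec q = ∑ i, c (Sum.inl i) • α' i := hqe
      rw [h4, hc]
    have h3 : (∑ i, c (Sum.inr i) • bh i) ∈ Q := by
      have h4 := hQ _ h2
      have h5 := Q.sub_mem h4 hq
      rwa [add_sub_cancel_left] at h5
    have h4 := hdisj (fun i => c (Sum.inr i)) h3
    have h5 : ∑ i, c (Sum.inl i) • α' i = 0 := by
      rw [← hc]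
      simp [h4]
    have h6 := Fintype.linearIndependent_iff.mp hα'i (fun i => c (Sum.inl i)) h5
    intro i
    rcases i with i | i
    · exact h6 i
    · exact h4 i
  have hspan : Submodule.span L (Set.range (Sum.elim α' b)) = ⊤ := by
    rw [eq_top_iff]
    intro y _
    have h1 : S0.mulVec y ∈ Submodule.span L (Set.range (Sum.elim β bh)) := by
      rw [hsums]; trivial
    obtain ⟨c, hc⟩ := (Submodule.mem_span_range_iff_exists_fun L).mp h1
    have h2 : y = T.mulVec (∑ i, c i • Sum.elim β bh i) := by rw [hc, hS0]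
    rw [h2]
    have h3 : T.mulVec (∑ i, c i • Sum.elim β bh i) = ∑ i, c i • T.mulVec (Sum.elim β bh i) := by
      have := map_sum T.mulVecLin (fun i => c i • Sum.elim β bh i) Finset.univ
      simp only [map_smul, Matrix.mulVecLin_apply] at this
      exact this
    rw [h3]
    refine Submodule.sum_mem _ fun i _ => Submodule.smul_mem _ _ ?_
    rcases i with i | i
    · have h4 : T.mulVec (β i) ∈ Q' := by
        refine ⟨β i, ?_, rfl⟩
        rw [← hβs]
        exact Submodule.subset_span ⟨i, rfl⟩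
      rw [← hα's] at h4
      refine Submodule.span_mono ?_ h4
      rintro _ ⟨j, rfl⟩
      exact ⟨Sum.inl j, rfl⟩
    · exact Submodule.subset_span ⟨Sum.inr i, rfl⟩
  -- local inequality
  have hloc : ∀ w : Place κ L, log (pl w.1 (Sum.elim β bh)) + log (pl w.1 α') ≤
      - ((finrank L (⊤ : Submodule L (ι → L)) - finrank L Q : ℕ) : ℤ) * τ w +
        (log (pl w.1 (Sum.elim α' b)) + log (pl w.1 β)) := by
    intro w
    obtain ⟨S, hS, hSτ⟩ := hT w
    have h1 := pl_local w.1 S hSτ (α := α') (β := β) hα'i hβ (fun i => by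
      rw [hβs]
      have h2 : α' i ∈ Q' := by
        rw [← hα's]
        exact Submodule.subset_span ⟨i, rfl⟩
      obtain ⟨q, hq, hqe⟩ := h2
      have h3 : T.mulVec (S.mulVec (α' i) - q) = 0 := by
        rw [Matrix.mulVec_sub, hS]
        have h4 : T.mulVec q = α' i := hqe
        rw [h4, sub_self]
      have h5 := Q.add_mem (hQ _ h3) hq
      rwa [sub_add_cancel] at h5) b
    have h2 : pl w.1 (Sum.elim β (fun i => S.mulVec (b i))) = pl w.1 (Sum.elim β bh) := by
      have h3 : ∀ i, ∃ c : Fin (finrank L Q) → L, ∑ j, c j • β j = S.mulVec (b i) - bh i := by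
        intro i
        have h4 : S.mulVec (b i) - bh i ∈ Q := by
          refine hQ _ ?_
          rw [Matrix.mulVec_sub, hS, sub_self]
        rw [← hβs] at h4
        exact (Submodule.mem_span_range_iff_exists_fun L).mp h4
      choose m hm using h3
      have h4 : (fun i => S.mulVec (b i)) = fun i k => bh i k + ∑ j, m i j * β j k := by
        funext i k
        have h5 := congrFun (hm i) k
        simp only [Finset.sum_apply, Pi.smul_apply, smul_eq_mul, Pi.sub_apply] at h5
        rw [h5]
        ring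
      rw [h4]
      exact pl_sum_unip w.1 m β bh
    rw [h2] at h1
    have n1 : pl w.1 (Sum.elim β bh) ≠ 0 := pl_ne_zero w.1 hsum
    have n2 : pl w.1 α' ≠ 0 := pl_ne_zero w.1 hα'i
    have n3 : pl w.1 (Sum.elim α' b) ≠ 0 := pl_ne_zero w.1 hindep
    have n4 : pl w.1 β ≠ 0 := pl_ne_zero w.1 hβ
    have n5 : (exp (- τ w) : ℤᵐ⁰) ^ Fintype.card
        (Fin (finrank L (⊤ : Submodule L (ι → L)) - finrank L Q)) ≠ 0 :=
      pow_ne_zero _ exp_ne_zero
    have h3 := (log_le_log (mul_ne_zero n1 n2)
      (mul_ne_zero n5 (mul_ne_zero n3 n4))).mpr h1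
    rw [log_mul n1 n2, log_mul n5 (mul_ne_zero n3 n4), log_mul n3 n4, log_pow, log_exp,
      Fintype.card_fin] at h3
    refine h3.trans (le_of_eq ?_)
    rw [nsmul_eq_mul]
    ring
  -- sum over the places
  have s1 := pl_support h hsum
  have s2 := pl_support h hα'i
  have s3 := pl_support h hindep
  have s4 := pl_support h hβ
  have s5 : (Function.support fun w : Place κ L =>
      - ((finrank L (⊤ : Submodule L (ι → L)) - finrank L Q : ℕ) : ℤ) * τ w).Finite := by
    refine hτ.subset fun w hw h1 => hw ?_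
    simp only
    rw [h1, mul_zero]
  have s6 : (Function.support fun w : Place κ L =>
      log (pl w.1 (Sum.elim β bh)) + log (pl w.1 α')).Finite :=
    (s1.union s2).subset (Function.support_add _ _)
  have s7 : (Function.support fun w : Place κ L =>
      log (pl w.1 (Sum.elim α' b)) + log (pl w.1 β)).Finite :=
    (s3.union s4).subset (Function.support_add _ _)
  have s8 : (Function.support fun w : Place κ L =>
      - ((finrank L (⊤ : Submodule L (ι → L)) - finrank L Q : ℕ) : ℤ) * τ w +
        (log (pl w.1 (Sum.elim α' b)) + log (pl w.1 β))).Finite :=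
    (s5.union s7).subset (Function.support_add _ _)
  have hmain := finsum_mono s6 s8 hloc
  rw [finsum_add_distrib s1 s2, finsum_add_distrib s5 s7, finsum_add_distrib s3 s4] at hmain
  have e1 : ∑ᶠ w : Place κ L, log (pl w.1 (Sum.elim β bh)) = 0 := by
    rw [← ht_span h hsum, hsums, ht_top h]
  have e2 : ∑ᶠ w : Place κ L, log (pl w.1 α') = ht κ Q' := by
    rw [← ht_span h hα'i, hα's]
  have e3 : ∑ᶠ w : Place κ L, log (pl w.1 (Sum.elim α' b)) = 0 := by
    rw [← ht_span h hindep, hspan, ht_top h]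
  have e4 : ∑ᶠ w : Place κ L, log (pl w.1 β) = ht κ Q := by
    rw [← ht_span h hβ, hβs]
  have e5 : ∑ᶠ w : Place κ L,
      - ((finrank L (⊤ : Submodule L (ι → L)) - finrank L Q : ℕ) : ℤ) * τ w =
      - ((finrank L (⊤ : Submodule L (ι → L)) - finrank L Q : ℕ) : ℤ) * ∑ᶠ w, τ w := by
    exact (mul_finsum _ _).symm
  rw [e1, e2, e3, e4, e5] at hmain
  have e6 := ht_nonneg h Q'
  have e7 : ((finrank L (⊤ : Submodule L (ι → L)) - finrank L Q : ℕ) : ℤ) =
      (Fintype.card ι : ℤ) - finrank L Q := by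
    rw [Nat.cast_sub (by rw [finrank_top]; exact Submodule.finrank_le Q), finrank_top,
      Module.finrank_fintype_fun_eq_card]
  rw [e7] at hmain
  linarith [mul_comm (∑ᶠ w, τ w) ((Fintype.card ι : ℤ) - finrank L Q)]

end Pool.Agent.Lib.MP_44a246_ntS
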