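import Mathlib
import Pool.Agent.Lib.MP_44a246_ntS.Names

/-!
Inverses of matrices which are triangular modulo the maximal ideal of a valuation.
-/

namespace Pool.Agent.Lib.MP_44a246_ntS

open Pool.Agent.Lib.MP_44a246_nt
open Pool.Agent.Lib.MP_e52354_nt
open WithZero Module MvPolynomial

private theorem v_sign_smul {L : Type*} [Field L] (v : Valuation L ℤᵐ⁰) (ε : ℤˣ) (x : L) :
    v (ε • x) = v x := by
  rcases Int.units_eq_one_or ε with h | h
  · rw [h, one_smul]
  · rw [h, Units.neg_smul, one_smul, Valuation.map_neg]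

private theorem v_det_le {L : Type*} [Field L] (v : Valuation L ℤᵐ⁰) {ι : Type*} [Fintype ι]
    [DecidableEq ι] (M : Matrix ι ι L) (h : ∀ k l, v (M k l) ≤ 1) : v M.det ≤ 1 := by
  rw [Matrix.det_apply]
  refine v.map_sum_le ?_
  intro σ _
  rw [v_sign_smul, map_prod]
  exact Finset.prod_le_one' fun i _ => h _ _

private theorem v_prod_lt {L : Type*} [Field L] (v : Valuation L ℤᵐ⁰) {ι : Type*} [Fintype ι]
    [DecidableEq ι] (f : ι → L) (h : ∀ k, v (f k) ≤ 1) (k : ι) (hk : v (f k) < 1) :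
    v (∏ i, f i) < 1 := by
  rw [map_prod, ← Finset.mul_prod_erase _ _ (Finset.mem_univ k)]
  have h1 : ∏ i ∈ Finset.univ.erase k, v (f i) ≤ 1 := Finset.prod_le_one' fun i _ => h i
  calc v (f k) * ∏ i ∈ Finset.univ.erase k, v (f i) ≤ v (f k) * 1 := by gcongr
    _ < 1 := by rwa [mul_one]

private theorem exists_lt_of_ne_one {ι : Type*} [Fintype ι] (ω : ι → ℕ)
    (hω : Function.Injective ω) (σ : Equiv.Perm ι) (hσ : σ ≠ 1) : ∃ k, ω (σ k) < ω k := by
  by_contra hcon
  push Not at hcon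
  apply hσ
  have hs : ∑ k, ω (σ k) = ∑ k, ω k := Equiv.sum_comp σ ω
  have h1 : ∀ k ∈ Finset.univ, ω k = ω (σ k) :=
    (Finset.sum_eq_sum_iff_of_le fun k _ => hcon k).1 hs.symm
  ext k
  exact (hω (h1 k (Finset.mem_univ k))).symm

private theorem v_det_eq_one {L : Type*} [Field L] (v : Valuation L ℤᵐ⁰) {ι : Type*} [Fintype ι]
    [DecidableEq ι] (T : Matrix ι ι L) (ω : ι → ℕ) (hω : Function.Injective ω)
    (h1 : ∀ k l, v (T k l) ≤ 1) (h2 : ∀ k, v (T k k) = 1)
    (h3 : ∀ k l, ω k < ω l → v (T k l) < 1) : v T.det = 1 := by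
  rw [Matrix.det_apply, ← Finset.add_sum_erase _ _ (Finset.mem_univ (1 : Equiv.Perm ι))]
  have hd : v (Equiv.Perm.sign (1 : Equiv.Perm ι) • ∏ i, T ((1 : Equiv.Perm ι) i) i) = 1 := by
    rw [v_sign_smul, map_prod]
    exact Finset.prod_eq_one fun i _ => h2 i
  rw [← hd]
  apply Valuation.map_add_eq_of_lt_left
  rw [hd]
  refine v.map_sum_lt one_ne_zero ?_
  intro σ hσ
  rw [v_sign_smul]
  obtain ⟨k, hk⟩ := exists_lt_of_ne_one ω hω σ (Finset.ne_of_mem_erase hσ)
  exact v_prod_lt v _ (fun i => h1 _ _) k (h3 _ _ hk)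

theorem exists_inv_of_tri {L : Type*} [Field L] (v : Valuation L ℤᵐ⁰) {ι : Type*} [Fintype ι]
    [DecidableEq ι] (T : Matrix ι ι L) (ω : ι → ℕ) (hω : Function.Injective ω)
    (h1 : ∀ k l, v (T k l) ≤ 1) (h2 : ∀ k, v (T k k) = 1)
    (h3 : ∀ k l, ω k < ω l → v (T k l) < 1) :
    ∃ S : Matrix ι ι L, T * S = 1 ∧ ∀ k l, v (S k l) ≤ 1 := by
  -- In the expansion of `det T` the product over the identity has value `1`, and for a permutation
  -- `σ ≠ 1` there is `k` with `ω k < ω (σ k)`, so that the product has value `< 1`. Hence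
  -- `v (det T) = 1` and `S = (det T)⁻¹ • adjugate T` works (the entries of the adjugate are
  -- determinants of matrices with integral entries: `Matrix.adjugate_apply`,
  -- `Matrix.updateRow`/`cramer`).
  have hdet := v_det_eq_one v T ω hω h1 h2 h3
  have hdet0 : T.det ≠ 0 := by
    intro h0
    rw [h0, map_zero] at hdet
    exact zero_ne_one hdet
  refine ⟨T.det⁻¹ • T.adjugate, ?_, ?_⟩
  · rw [Matrix.mul_smul, Matrix.mul_adjugate, smul_smul, inv_mul_cancel₀ hdet0, one_smul]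
  · intro k l
    rw [Matrix.smul_apply, smul_eq_mul, map_mul, map_inv₀, hdet, inv_one, one_mul,
      Matrix.adjugate_apply]
    apply v_det_le
    intro i j
    rw [Matrix.updateRow_apply]
    split_ifs
    · by_cases hjk : j = k
      · subst hjk
        simp
      · simp [Pi.single_eq_of_ne hjk]
    · exact h1 _ _

end Pool.Agent.Lib.MP_44a246_ntS
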