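import Mathlib
import Pool.Agent.Lib.MP_44a246_ntS.SC2

/-!
Right inverses of contractions.
-/

namespace Pool.Agent.Lib.MP_44a246_ntS

open Pool.Agent.Lib.MP_44a246_nt
open Pool.Agent.Lib.MP_e52354_nt
open WithZero Module MvPolynomial

/-- the weight of an exponent -/
def om (b : ℕ) (I : Fin 3 →₀ ℕ) : ℕ := I 0 + I 1 * (b + 1) + I 2 * (b + 1) ^ 2

theorem om_add (b : ℕ) (I J : Fin 3 →₀ ℕ) : om b (I + J) = om b I + om b J := by
  simp only [om, Finsupp.coe_add, Pi.add_apply]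
  ring

theorem om_inj {b : ℕ} {I J : Fin 3 →₀ ℕ} (hI : I.degree ≤ b) (hJ : J.degree ≤ b)
    (h : om b I = om b J) : I = J := by
  -- the digits in base `b + 1`
  have hI' : I 0 + I 1 + I 2 ≤ b := by
    rw [Finsupp.degree_eq_sum, Fin.sum_univ_three] at hI
    exact hI
  have hJ' : J 0 + J 1 + J 2 ≤ b := by
    rw [Finsupp.degree_eq_sum, Fin.sum_univ_three] at hJ
    exact hJ
  unfold om at h
  have key : ∀ x y x' y' : ℕ, x < b + 1 → x' < b + 1 → x + y * (b + 1) = x' + y' * (b + 1) →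
      x = x' ∧ y = y' := by
    intro x y x' y' hx hx' hxy
    have h1 := congrArg (· % (b + 1)) hxy
    simp only [Nat.add_mul_mod_self_right, Nat.mod_eq_of_lt hx, Nat.mod_eq_of_lt hx'] at h1
    refine ⟨h1, ?_⟩
    subst h1
    exact Nat.eq_of_mul_eq_mul_right (Nat.succ_pos b) (Nat.add_left_cancel hxy)
  have e1 : I 0 + (I 1 + I 2 * (b + 1)) * (b + 1) = J 0 + (J 1 + J 2 * (b + 1)) * (b + 1) := by
    rw [show I 0 + (I 1 + I 2 * (b + 1)) * (b + 1) = I 0 + I 1 * (b + 1) + I 2 * (b + 1) ^ 2 by ring,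
      show J 0 + (J 1 + J 2 * (b + 1)) * (b + 1) = J 0 + J 1 * (b + 1) + J 2 * (b + 1) ^ 2 by ring]
    exact h
  obtain ⟨h0, h12⟩ := key _ _ _ _ (by omega) (by omega) e1
  obtain ⟨h1, h2⟩ := key _ _ _ _ (by omega) (by omega) h12
  ext i
  fin_cases i
  · exact h0
  · exact h1
  · exact h2

/-- the maximal absolute value of the coefficients -/
noncomputable def nrm {L : Type*} [Field L] (v : Valuation L ℤᵐ⁰) {σ : Type*}
    (A : MvPolynomial σ L) : ℤᵐ⁰ := A.support.sup fun I => v (A.coeff I)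

theorem le_nrm {L : Type*} [Field L] (v : Valuation L ℤᵐ⁰) {σ : Type*} (A : MvPolynomial σ L)
    (I : σ →₀ ℕ) : v (A.coeff I) ≤ nrm v A := by
  by_cases hI : I ∈ A.support
  · exact Finset.le_sup (f := fun I => v (A.coeff I)) hI
  · rw [notMem_support_iff.1 hI, map_zero]
    exact zero_le

theorem nrm_ne_zero {L : Type*} [Field L] (v : Valuation L ℤᵐ⁰) {σ : Type*}
    {A : MvPolynomial σ L} (hA : A ≠ 0) : nrm v A ≠ 0 := by
  obtain ⟨I, hI⟩ := ne_zero_iff.1 hA
  intro h0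
  have h1 := le_nrm v A I
  rw [h0, le_zero_iff, v.zero_iff] at h1
  exact hI h1

end Pool.Agent.Lib.MP_44a246_ntS
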