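import Mathlib
import Pool.Agent.Lib.MP_44a246_ntS.SF2

/-!
Right inverses of contractions.
-/

namespace Pool.Agent.Lib.MP_44a246_ntS

open Pool.Agent.Lib.MP_44a246_nt
open Pool.Agent.Lib.MP_e52354_nt
open WithZero Module MvPolynomial

/-- an extremal coefficient of maximal absolute value -/
theorem exists_top {L : Type*} [Field L] (v : Valuation L ℤᵐ⁰) {A : MvPolynomial (Fin 3) L}
    {a s : ℕ} (has : a ≤ s) (hA : A.IsHomogeneous a) (hA0 : A ≠ 0) :
    ∃ J : Fin 3 →₀ ℕ, J.degree = a ∧ v (A.coeff J) = nrm v A ∧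
      ∀ I, om s J < om s I → v (A.coeff I) < nrm v A := by
  -- among the exponents in the support with `v (A.coeff I) = nrm v A` (not empty:
  -- `Finset.exists_mem_eq_sup`) choose one with maximal `om s I`
  classical
  have hne : A.support.Nonempty := by
    rw [Finset.nonempty_iff_ne_empty, Ne, MvPolynomial.support_eq_empty]
    exact hA0
  obtain ⟨I₀, hI₀, hI₀'⟩ := Finset.exists_mem_eq_sup A.support hne (fun I => v (A.coeff I))
  let F : Finset (Fin 3 →₀ ℕ) := A.support.filter fun I => v (A.coeff I) = nrm v A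
  have hF : F.Nonempty := ⟨I₀, Finset.mem_filter.mpr ⟨hI₀, hI₀'.symm⟩⟩
  obtain ⟨J, hJ, hJmax⟩ := F.exists_max_image (fun I => om s I) hF
  obtain ⟨hJs, hJn⟩ := Finset.mem_filter.mp hJ
  refine ⟨J, ?_, hJn, ?_⟩
  · have h1 := hA (MvPolynomial.mem_support_iff.1 hJs)
    simpa [Finsupp.weight_apply, Finsupp.degree_apply, Finsupp.sum] using h1
  · intro I hI
    refine lt_of_le_of_ne (le_nrm v A I) fun h1 => ?_
    have hIs : I ∈ A.support := by
      rw [MvPolynomial.mem_support_iff]
      intro h0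
      rw [h0, map_zero] at h1
      exact nrm_ne_zero v hA0 h1.symm
    exact absurd (hJmax I (Finset.mem_filter.mpr ⟨hIs, h1⟩)) (not_le.mpr hI)

end Pool.Agent.Lib.MP_44a246_ntS
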