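import Mathlib
import Pool.Agent.Lib.MP_44a246_ntS.SD2
import Pool.Agent.Lib.MP_44a246_ntS.SF1
import Pool.Agent.Lib.MP_44a246_ntS.SF2b

/-!
Right inverses of contractions.
-/

namespace Pool.Agent.Lib.MP_44a246_ntS

open Pool.Agent.Lib.MP_44a246_nt
open Pool.Agent.Lib.MP_e52354_nt
open WithZero Module MvPolynomial

/-- **Right inverse of the contraction** by a form, with entries of absolute value at most
`(nrm v A)⁻¹` -/
theorem ctr_right_inverse {L : Type*} [Field L] (v : Valuation L ℤᵐ⁰)
    {A : MvPolynomial (Fin 3) L} {a e s : ℕ} (hs : a + e = s) (hA : A.IsHomogeneous a)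
    (hA0 : A ≠ 0) :
    ∃ S : Matrix (M3 s) (M3 e) L, (∀ y, (ctr A e s).mulVec (S.mulVec y) = y) ∧
      ∀ k m, v (S k m) ≤ (nrm v A)⁻¹ := by
  classical
  obtain ⟨J, hJdeg, hJ, hJlt⟩ := exists_top v (s := s) (by omega : a ≤ s) hA hA0
  have hn0 : nrm v A ≠ 0 := nrm_ne_zero v hA0
  have hc0 : A.coeff J ≠ 0 := by
    intro h0
    rw [h0, map_zero] at hJ
    exact hn0 hJ.symm
  set c : L := A.coeff J with hc
  have hvc : v c⁻¹ = (nrm v A)⁻¹ := by rw [map_inv₀, hJ]
  let addJ : M3 e → M3 s := fun K => ⟨K.1 + J, mem_expo.2 (by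
    have h1 := mem_expo.1 K.2
    rw [map_add, h1, hJdeg]
    omega)⟩
  let T : Matrix (M3 e) (M3 e) L := Matrix.of fun K K' => c⁻¹ * ctr A e s K (addJ K')
  have hTdef : ∀ K K', T K K' = c⁻¹ * (if K.1 ≤ K'.1 + J then A.coeff (K'.1 + J - K.1) else 0) :=
    fun K K' => rfl
  have hle : ∀ I, v (c⁻¹ * A.coeff I) ≤ 1 := by
    intro I
    rw [map_mul, hvc]
    calc (nrm v A)⁻¹ * v (A.coeff I) ≤ (nrm v A)⁻¹ * nrm v A := by
          gcongr
          exact le_nrm v A I
      _ = 1 := inv_mul_cancel₀ hn0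
  obtain ⟨S₀, hS₀, hS₀v⟩ := exists_inv_of_tri v T (fun K => om s K.1) (by
      intro K K' h
      apply Subtype.ext
      have h1 := mem_expo.1 K.2
      have h2 := mem_expo.1 K'.2
      exact om_inj (b := s) (by omega) (by omega) h)
    (by
      intro K K'
      rw [hTdef]
      split_ifs
      · exact hle _
      · simp)
    (by
      intro K
      rw [hTdef, if_pos (le_self_add), add_tsub_cancel_left, inv_mul_cancel₀ hc0, map_one])
    (by
      intro K K' h
      rw [hTdef]
      split_ifs with h1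
      · have h2 : om s (K'.1 + J - K.1) + om s K.1 = om s K'.1 + om s J := by
          rw [← om_add, ← om_add, tsub_add_cancel_of_le h1]
        have h3 : om s J < om s (K'.1 + J - K.1) := by
          have : om s K.1 < om s K'.1 := h
          omega
        rw [map_mul, hvc]
        have h4 := hJlt _ h3
        calc (nrm v A)⁻¹ * v (A.coeff (K'.1 + J - K.1)) < (nrm v A)⁻¹ * nrm v A := by
              apply mul_lt_mul_of_pos_left h4
              exact zero_lt_iff.mpr (inv_ne_zero hn0)
          _ = 1 := inv_mul_cancel₀ hn0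
      · simp)
  let S : Matrix (M3 s) (M3 e) L := Matrix.of fun M m =>
    ∑ K', if addJ K' = M then c⁻¹ * S₀ K' m else 0
  refine ⟨S, ?_, ?_⟩
  · intro y
    rw [Matrix.mulVec_mulVec]
    have h1 : ctr A e s * S = 1 := by
      rw [← hS₀]
      ext K m
      rw [Matrix.mul_apply, Matrix.mul_apply]
      have h2 : ∀ M, ctr A e s K M * S M m =
          ∑ K', if addJ K' = M then ctr A e s K M * (c⁻¹ * S₀ K' m) else 0 := by
        intro M
        show ctr A e s K M * (∑ K', if addJ K' = M then c⁻¹ * S₀ K' m else 0) = _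
        rw [Finset.mul_sum]
        refine Finset.sum_congr rfl fun K' _ => ?_
        split_ifs
        · rfl
        · rw [mul_zero]
      rw [Finset.sum_congr rfl fun M _ => h2 M, Finset.sum_comm]
      refine Finset.sum_congr rfl fun K' _ => ?_
      rw [Finset.sum_ite_eq, if_pos (Finset.mem_univ _)]
      show _ = c⁻¹ * ctr A e s K (addJ K') * S₀ K' m
      ring
    rw [h1, Matrix.one_mulVec]
  · intro M m
    refine Valuation.map_sum_le v fun K' _ => ?_
    split_ifs
    · rw [map_mul, hvc]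
      calc (nrm v A)⁻¹ * v (S₀ K' m) ≤ (nrm v A)⁻¹ * 1 := by
            gcongr
            exact hS₀v _ _
        _ = (nrm v A)⁻¹ := mul_one _
    · simp

end Pool.Agent.Lib.MP_44a246_ntS
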