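import Mathlib
import Pool.Agent.Lib.MP_44a246_ntS.SD2
import Pool.Agent.Lib.MP_44a246_ntS.Names

/-!
The space of forms which annihilate a space of functionals.
-/

namespace Pool.Agent.Lib.MP_44a246_ntS

open Pool.Agent.Lib.MP_44a246_nt
open Pool.Agent.Lib.MP_44a246_ntL
open Pool.Agent.Lib.MP_e52354_nt
open WithZero Module MvPolynomial

section

variable {L : Type*} [Field L]

/-- the forms of degree `s` which annihilate `Q` -/
noncomputable def Ann {s : ℕ} (Q : Submodule L (M3 s → L)) :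
    Submodule L (MvPolynomial (Fin 3) L) where
  carrier := {G | G.IsHomogeneous s ∧ ∀ u ∈ Q, pr G u = 0}
  add_mem' := by
    rintro G H ⟨h1, h2⟩ ⟨h3, h4⟩
    refine ⟨h1.add h3, fun u hu => ?_⟩
    rw [pr_add, h2 u hu, h4 u hu, add_zero]
  zero_mem' := ⟨isHomogeneous_zero _ _ _, fun u _ => by simp [pr]⟩
  smul_mem' := by
    rintro c G ⟨h1, h2⟩
    refine ⟨?_, fun u hu => by rw [pr_smul, h2 u hu, mul_zero]⟩
    rw [smul_eq_C_mul]
    simpa using (isHomogeneous_C (Fin 3) c).mul h1

theorem mem_Ann {s : ℕ} {Q : Submodule L (M3 s → L)} {G : MvPolynomial (Fin 3) L} :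
    G ∈ Ann Q ↔ G.IsHomogeneous s ∧ ∀ u ∈ Q, pr G u = 0 := Iff.rfl

/-- double annihilator -/
theorem mem_of_Ann {s : ℕ} {Q : Submodule L (M3 s → L)} {u : M3 s → L}
    (h : ∀ G ∈ Ann Q, pr G u = 0) : u ∈ Q := by
  -- if `u ∉ Q` there is a linear functional on `M3 s → L` which vanishes on `Q` and not at `u`
  -- (`Submodule.exists_le_ker_of_notMem` or similar); it is `pr G` for
  -- `G = ∑ I, φ (Pi.single I 1) • monomial I 1`
  classical
  by_contra hu
  obtain ⟨φ, hφu, hφQ⟩ := Submodule.exists_le_ker_of_notMem hu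
  set G : MvPolynomial (Fin 3) L :=
    ∑ I : M3 s, φ (Pi.single I 1) • monomial I.1 (1 : L) with hG
  have hpr : ∀ w : M3 s → L, pr G w = φ w := by
    intro w
    have h1 : ∀ J : M3 s, G.coeff J.1 = φ (Pi.single J 1) := by
      intro J
      rw [hG, coeff_sum, Finset.sum_eq_single J]
      · rw [coeff_smul, coeff_monomial, if_pos rfl, smul_eq_mul, mul_one]
      · intro K _ hK
        rw [coeff_smul, coeff_monomial, if_neg (fun h => hK (Subtype.ext h)), smul_zero]
      · intro h
        exact absurd (Finset.mem_univ J) h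
    unfold pr
    have h2 : w = ∑ I : M3 s, w I • (Pi.single I (1 : L) : M3 s → L) := by
      funext K
      rw [Finset.sum_apply, Finset.sum_eq_single K]
      · simp
      · intro I _ hI
        rw [Pi.smul_apply, Pi.single_eq_of_ne (Ne.symm hI), smul_zero]
      · intro h
        exact absurd (Finset.mem_univ K) h
    conv_rhs => rw [h2, map_sum]
    refine Finset.sum_congr rfl fun I _ => ?_
    rw [h1 I, map_smul, smul_eq_mul, mul_comm]
  have hGA : G ∈ Ann Q := by
    refine ⟨?_, fun w hw => ?_⟩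
    · rw [hG]
      refine IsHomogeneous.sum _ _ _ fun I _ => ?_
      rw [smul_monomial]
      exact isHomogeneous_monomial _ (mem_expo.1 I.2)
    · rw [hpr w]
      exact hφQ hw
  exact hφu (by rw [← hpr u]; exact h G hGA)

theorem Ann_ne_bot {s : ℕ} {Q : Submodule L (M3 s → L)} (h : Q ≠ ⊤) : Ann Q ≠ ⊥ := by
  -- otherwise `mem_of_Ann` gives `Q = ⊤` (`pr 0 u = 0`)
  intro h0
  refine h (eq_top_iff.mpr fun u _ => mem_of_Ann fun G hG => ?_)
  rw [h0, Submodule.mem_bot] at hG
  rw [hG]
  simp [pr]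

end

end Pool.Agent.Lib.MP_44a246_ntS
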