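import Mathlib
import Pool.Agent.Lib.MP_44a246_ntS.SD3
import Pool.Agent.Lib.MP_44a246_ntS.SE1
import Pool.Agent.Lib.MP_44a246_ntS.SF3
import Pool.Agent.Lib.MP_44a246_ntS.Names

/-!
The space of forms which annihilate a space of functionals.
-/

namespace Pool.Agent.Lib.MP_44a246_ntS

open Pool.Agent.Lib.MP_44a246_nt
open Pool.Agent.Lib.MP_44a246_ntL
open Pool.Agent.Lib.MP_e52354_nt
open WithZero Module MvPolynomial

section

variable {L : Type*} [Field L]

/-- the kernel of the contraction by a common divisor of `Ann Q` is contained in `Q` -/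
theorem ker_ctr_le {s a e : ℕ} (hs : e + a = s) {Q : Submodule L (M3 s → L)}
    {A : MvPolynomial (Fin 3) L} (hA : A.IsHomogeneous a) (hA0 : A ≠ 0)
    (hdvd : ∀ G ∈ Ann Q, A ∣ G) {u : M3 s → L} (hu : (ctr A e s).mulVec u = 0) : u ∈ Q := by
  -- `mem_of_Ann`: `G = A * P` with `P` a form of degree `e` (or `G = 0`; `hom_of_mul`, or take
  -- the component of degree `e`), and `pr (P * A) u = pr P (ctr A e s u) = 0` (`pr_ctr`)
  refine mem_of_Ann fun G hG => ?_
  obtain ⟨P, rfl⟩ := hdvd G hG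
  by_cases h0 : A * P = 0
  · rw [h0]
    simp [pr]
  obtain ⟨a', e', hae, ha', he'⟩ := hom_of_mul hG.1 h0
  have h1 : a' = a := ha'.inj_right hA hA0
  subst h1
  have h2 : e' = e := by omega
  subst h2
  rw [mul_comm, pr_ctr hs he' hA, hu]
  simp [pr]

end

end Pool.Agent.Lib.MP_44a246_ntS
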