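import Mathlib
import Pool.Agent.Lib.MP_44a246_ntS.SB2d
import Pool.Agent.Lib.MP_44a246_ntS.SF2c
import Pool.Agent.Lib.MP_44a246_ntS.SF3b

/-!
The space of forms which annihilate a space of functionals.
-/

namespace Pool.Agent.Lib.MP_44a246_ntS

open Pool.Agent.Lib.MP_44a246_nt
open Pool.Agent.Lib.MP_44a246_ntL
open Pool.Agent.Lib.MP_e52354_nt
open WithZero Module MvPolynomial

section

variable {κ L : Type*} [Field κ] [IsAlgClosed κ] [CharZero κ] [Field L] [Algebra κ L]

omit [IsAlgClosed κ] [CharZero κ] [Field κ] [Algebra κ L] in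
private theorem nrm_eq_vmax (v : Valuation L ℤᵐ⁰) {σ : Type*} (A : MvPolynomial σ L) :
    nrm v A = vmax v (fun I : A.support => A.coeff I.1) := by
  unfold nrm vmax
  rw [Finset.univ_eq_attach, Finset.sup_attach A.support (fun I => v (A.coeff I))]

omit [IsAlgClosed κ] [CharZero κ] [Field κ] [Algebra κ L] in
private theorem coeffs_ne_zero {σ : Type*} {A : MvPolynomial σ L} (hA : A ≠ 0) :
    (fun I : A.support => A.coeff I.1) ≠ 0 := by
  obtain ⟨I, hI⟩ := MvPolynomial.ne_zero_iff.1 hA
  intro h0
  exact hI (congrFun h0 ⟨I, MvPolynomial.mem_support_iff.2 hI⟩)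

/-- the sum defining the height of a form has finite support -/
theorem nrm_support (h : IsFF κ L) {σ : Type*} {A : MvPolynomial σ L} (hA : A ≠ 0) :
    (Function.support fun w : Place κ L => log (nrm w.1 A)).Finite := by
  -- `nrm w A = vmax w (fun I : A.support => A.coeff I)`
  simp only [nrm_eq_vmax]
  exact h.vmax_support (coeffs_ne_zero hA)

omit [IsAlgClosed κ] [CharZero κ] in
theorem polyHeight_eq {σ : Type*} (A : MvPolynomial σ L) :
    polyHeight κ A = ∑ᶠ w : Place κ L, log (nrm w.1 A) := rfl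

theorem polyHeight_nonneg (h : IsFF κ L) {σ : Type*} {A : MvPolynomial σ L} (hA : A ≠ 0) :
    0 ≤ polyHeight κ A := by
  rw [polyHeight_eq]
  simp only [nrm_eq_vmax]
  exact h.height_nonneg (coeffs_ne_zero hA)

/-- **Height of the greatest common divisor.** -/
theorem height_gcd (h : IsFF κ L) {s a e : ℕ} (hs : e + a = s) {Q : Submodule L (M3 s → L)}
    {A : MvPolynomial (Fin 3) L} (hA : A.IsHomogeneous a) (hA0 : A ≠ 0)
    (hdvd : ∀ G ∈ Ann Q, A ∣ G) :
    polyHeight κ A * ((Fintype.card (M3 s) : ℤ) - finrank L Q) ≤ ht κ Q ∧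
      Fintype.card (M3 s) ≤ Fintype.card (M3 e) + finrank L Q := by
  -- the first part is `ht_lower` for `T = ctr A e s`, `τ w = log (nrm w A)`
  -- (`ctr_right_inverse`, `ker_ctr_le`, `nrm_support`). The second part: `ctr A e s` is onto, so
  -- its kernel has dimension `card (M3 s) - card (M3 e)`, and it is contained in `Q`
  have hs' : a + e = s := by omega
  constructor
  · rw [polyHeight_eq]
    refine ht_lower h (ctr A e s) (nrm_support h hA0) ?_ ?_
    · intro w
      obtain ⟨S, hS1, hS2⟩ := ctr_right_inverse w.1 hs' hA hA0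
      refine ⟨S, hS1, fun k m => ?_⟩
      rw [exp_neg, exp_log (nrm_ne_zero w.1 hA0)]
      exact hS2 k m
    · intro y hy
      exact ker_ctr_le hs hA hA0 hdvd hy
  · classical
    obtain ⟨S, hS1, -⟩ := ctr_right_inverse (1 : Valuation L ℤᵐ⁰) hs' hA hA0
    have hsurj : LinearMap.range (ctr A e s).mulVecLin = ⊤ := by
      rw [LinearMap.range_eq_top]
      intro y
      exact ⟨S.mulVec y, hS1 y⟩
    have h1 := LinearMap.finrank_range_add_finrank_ker (ctr A e s).mulVecLin
    rw [hsurj, finrank_top, Module.finrank_fintype_fun_eq_card,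
      Module.finrank_fintype_fun_eq_card] at h1
    have h2 : LinearMap.ker (ctr A e s).mulVecLin ≤ Q := by
      intro y hy
      exact ker_ctr_le hs hA hA0 hdvd hy
    have h3 := Submodule.finrank_mono h2
    omega

end

end Pool.Agent.Lib.MP_44a246_ntS
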