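import Mathlib
import Pool.Agent.Lib.MP_44a246_ntS.SD2
import Pool.Agent.Lib.MP_44a246_ntS.SE4
import Pool.Agent.Lib.MP_44a246_ntS.SF2

/-!
The two height inequalities of the core lemma.
-/

namespace Pool.Agent.Lib.MP_44a246_ntS

open Pool.Agent.Lib.MP_44a246_nt
open Pool.Agent.Lib.MP_44a246_ntL
open Pool.Agent.Lib.MP_e52354_nt
open WithZero Module MvPolynomial

variable {κ L : Type*} [Field κ] [IsAlgClosed κ] [CharZero κ] [Field L] [Algebra κ L]

/-- entries of contractions -/
theorem ctr_le_nrm (v : Valuation L ℤᵐ⁰) (A : MvPolynomial (Fin 3) L) (s' s : ℕ) (K : M3 s')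
    (M : M3 s) : v (ctr A s' s K M) ≤ nrm v A := by
  unfold ctr
  rw [Matrix.of_apply]
  split_ifs
  · exact le_nrm v A _
  · rw [map_zero]
    exact zero_le'

private theorem SG2_nat (v : Valuation L ℤᵐ⁰) (n : ℕ) : v (n : L) ≤ 1 := by
  induction n with
  | zero => simp
  | succ n ih =>
    push_cast
    exact v.map_add_le ih (v.map_one).le

private theorem SG2_coeff_X (v : Valuation L ℤᵐ⁰) (A : MvPolynomial (Fin 3) L) (i : Fin 3)
    (I : Fin 3 →₀ ℕ) : v ((X i * A).coeff I) ≤ nrm v A := by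
  classical
  rw [coeff_X_mul']
  split_ifs
  · exact le_nrm v A _
  · rw [map_zero]
    exact zero_le'

private theorem SG2_coeff_CX (v : Valuation L ℤᵐ⁰) (A : MvPolynomial (Fin 3) L) (n : ℕ) (i : Fin 3)
    (I : Fin 3 →₀ ℕ) : v ((C (n : L) * X i * A).coeff I) ≤ nrm v A := by
  rw [mul_assoc, coeff_C_mul, map_mul]
  calc v (n : L) * v ((X i * A).coeff I) ≤ 1 * nrm v A :=
        mul_le_mul' (SG2_nat v n) (SG2_coeff_X v A i I)
    _ = nrm v A := one_mul _

private theorem SG2_lin (v : Valuation L ℤᵐ⁰) (a b : ℕ) (A : MvPolynomial (Fin 3) L) :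
    nrm v (lin L a b * A) ≤ nrm v A := by
  unfold nrm
  apply Finset.sup_le
  intro I _
  have e : lin L a b * A = X 0 * A + C (a : L) * X 1 * A + C (b : L) * X 2 * A := by
    unfold lin; ring
  rw [e, coeff_add, coeff_add]
  exact v.map_add_le (v.map_add_le (SG2_coeff_X v A 0 I) (SG2_coeff_CX v A a 1 I))
    (SG2_coeff_CX v A b 2 I)

/-- multiplication with a polynomial with natural coefficients -/
theorem nrm_lin_pow_mul_le (v : Valuation L ℤᵐ⁰) (a b m : ℕ) (A : MvPolynomial (Fin 3) L) :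
    nrm v (lin L a b ^ m * A) ≤ nrm v A := by
  -- `nrm (P * A) ≤ nrm P * nrm A` in general and `nrm (lin ^ m) ≤ 1` (integer coefficients)
  induction m with
  | zero => rw [pow_zero, one_mul]
  | succ m ih =>
    have e : lin L a b ^ (m + 1) * A = lin L a b * (lin L a b ^ m * A) := by ring
    rw [e]
    exact (SG2_lin v a b _).trans ih

end Pool.Agent.Lib.MP_44a246_ntS
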