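import Mathlib
import Pool.Agent.Lib.MP_44a246_ntS.SD4
import Pool.Agent.Lib.MP_44a246_ntS.SD5
import Pool.Agent.Lib.MP_44a246_ntS.SF3c
import Pool.Agent.Lib.MP_44a246_ntS.SG2

/-!
The two height inequalities of the core lemma.
-/

namespace Pool.Agent.Lib.MP_44a246_ntS

open Pool.Agent.Lib.MP_44a246_nt
open Pool.Agent.Lib.MP_44a246_ntL
open Pool.Agent.Lib.MP_e52354_nt
open WithZero Module MvPolynomial

variable {κ L : Type*} [Field κ] [IsAlgClosed κ] [CharZero κ] [Field L] [Algebra κ L]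

/-- the angle between `xi` and the kernel of the contraction by `A` -/
theorem ht_xi_sup (h : IsFF κ L) {p : Fin 3 → L} (hp : p ≠ 0) {a d' d : ℕ} (hd : d' + a = d)
    {A : MvPolynomial (Fin 3) L} (hA : A.IsHomogeneous a) (hA0 : A ≠ 0) (hAp : eval p A ≠ 0)
    {K : Submodule L (M3 d → L)} (hK : ∀ u ∈ K, (ctr A d' d).mulVec u = 0) :
    (d' : ℤ) * height κ p + ht κ K ≤ ht κ (K ⊔ Submodule.span L {xi d p}) + polyHeight κ A := by
  -- `ht_map` for `T = ctr A d' d`, `τ w = log (nrm w A)`, `K ≤ K ⊔ span {xi d p}`, `A' = ⊥`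
  have hTxi : (ctr A d' d).mulVec (xi d p) = eval p A • xi d' p := ctr_xi hd hA p
  have hxi0 : xi d' p ≠ 0 := xi_ne_zero hp
  have hTxi0 : (ctr A d' d).mulVec (xi d p) ≠ 0 := by
    rw [hTxi]
    exact smul_ne_zero hAp hxi0
  have hinj : ∀ b ∈ K ⊔ Submodule.span L {xi d p},
      (ctr A d' d).mulVec b ∈ (⊥ : Submodule L (M3 d' → L)) → b ∈ K := by
    intro b hb hb0
    obtain ⟨u, hu, y, hy, rfl⟩ := Submodule.mem_sup.mp hb
    obtain ⟨c, rfl⟩ := Submodule.mem_span_singleton.mp hy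
    rw [Submodule.mem_bot, Matrix.mulVec_add, hK u hu, zero_add, Matrix.mulVec_smul] at hb0
    have hc : c = 0 := (smul_eq_zero.mp hb0).resolve_right hTxi0
    rw [hc, zero_smul, add_zero]
    exact hu
  have hmap0 : K.map (ctr A d' d).mulVecLin ≤ ⊥ := by
    rintro _ ⟨u, hu, rfl⟩
    rw [Submodule.mem_bot]
    exact hK u hu
  have h1 := ht_map h (ctr A d' d) (nrm_support h hA0) (fun w k m => by
      rw [exp_log (nrm_ne_zero w.1 hA0)]
      exact ctr_le_nrm w.1 A d' d k m) (A := K) (B := K ⊔ Submodule.span L {xi d p}) (A' := ⊥)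
    le_sup_left hmap0 hinj
  have h2 : (⊥ : Submodule L (M3 d' → L)) ⊔
      (K ⊔ Submodule.span L {xi d p}).map (ctr A d' d).mulVecLin =
        Submodule.span L {xi d' p} := by
    rw [bot_sup_eq, Submodule.map_sup, le_bot_iff.mp hmap0, bot_sup_eq, Submodule.map_span,
      Set.image_singleton, Matrix.mulVecLin_apply, hTxi]
    exact Submodule.span_singleton_smul_eq (IsUnit.mk0 _ hAp) _
  rw [h2, ht_single h hxi0, height_xi h d' hp, ht_bot h, add_zero, ← polyHeight_eq] at h1
  have h3 : (finrank L (K ⊔ Submodule.span L {xi d p} : Submodule L (M3 d → L)) : ℤ) ≤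
      finrank L K + 1 := by
    have h4 := Submodule.finrank_add_le_finrank_add_finrank K (Submodule.span L {xi d p})
    have h5 := finrank_span_singleton (K := L) (xi_ne_zero (s := d) hp)
    rw [h5] at h4
    exact_mod_cast h4
  have h6 := polyHeight_nonneg h hA0
  have h7 := mul_le_mul_of_nonneg_left (show (finrank L (K ⊔ Submodule.span L {xi d p} :
    Submodule L (M3 d → L)) : ℤ) - finrank L K ≤ 1 by linarith) h6
  rw [mul_one] at h7
  linarith

end Pool.Agent.Lib.MP_44a246_ntS
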