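import Mathlib
import Pool.Agent.Lib.MP_44a246_ntS.SD4
import Pool.Agent.Lib.MP_44a246_ntS.SD5
import Pool.Agent.Lib.MP_44a246_ntS.SG2

/-!
The two height inequalities of the core lemma.
-/

namespace Pool.Agent.Lib.MP_44a246_ntS

open Pool.Agent.Lib.MP_44a246_nt
open Pool.Agent.Lib.MP_44a246_ntL
open Pool.Agent.Lib.MP_e52354_nt
open WithZero Module MvPolynomial

variable {κ L : Type*} [Field κ] [IsAlgClosed κ] [CharZero κ] [Field L] [Algebra κ L]

/-- the main inequality for the composite contraction -/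
theorem ht_phi (h : IsFF κ L) {p : Fin 3 → L} (hp : p ≠ 0) {r t d : ℕ} (hd : r + t = d)
    {B : MvPolynomial (Fin 3) L} (hB : B.IsHomogeneous t) (hBp : eval p B ≠ 0)
    {τ : Place κ L → ℤ} (hτ : (Function.support τ).Finite) (hτ0 : 0 ≤ ∑ᶠ w, τ w)
    (hBτ : ∀ w : Place κ L, nrm w.1 B ≤ exp (τ w))
    {U K : Submodule L (M3 d → L)} (hU : xi d p ∈ U) (hKU : K ≤ U)
    (hK : ∀ u ∈ K, (ctr B r d).mulVec u = 0)
    (hker : ∀ u ∈ U, (ctr B r d).mulVec u = 0 → u ∈ K) :
    ht κ (K ⊔ Submodule.span L {xi d p}) ≤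
      ht κ U + r * height κ p + (∑ᶠ w, τ w) * ((Fintype.card (M3 r) : ℤ) - 1) := by
  -- `ht_map` for `T = ctr B r d`, `K' = K ⊔ span {xi d p} ≤ U`, `A' = span {xi r p}`
  have hTxi : (ctr B r d).mulVec (xi d p) = eval p B • xi r p := ctr_xi hd hB p
  have hxi0 : xi r p ≠ 0 := xi_ne_zero hp
  have hKU' : K ⊔ Submodule.span L {xi d p} ≤ U := by
    refine sup_le hKU ?_
    rw [Submodule.span_singleton_le_iff_mem]
    exact hU
  have hA : (K ⊔ Submodule.span L {xi d p}).map (ctr B r d).mulVecLin ≤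
      Submodule.span L {xi r p} := by
    rintro _ ⟨b, hb, rfl⟩
    obtain ⟨u, hu, y, hy, rfl⟩ := Submodule.mem_sup.mp hb
    obtain ⟨c, rfl⟩ := Submodule.mem_span_singleton.mp hy
    rw [Matrix.mulVecLin_apply, Matrix.mulVec_add, hK u hu, zero_add, Matrix.mulVec_smul, hTxi,
      smul_smul]
    exact Submodule.smul_mem _ _ (Submodule.mem_span_singleton_self _)
  have hinj : ∀ b ∈ U, (ctr B r d).mulVec b ∈ Submodule.span L {xi r p} →
      b ∈ K ⊔ Submodule.span L {xi d p} := by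
    intro u hu hu'
    obtain ⟨c, hc⟩ := Submodule.mem_span_singleton.mp hu'
    have hk : (ctr B r d).mulVec (u - (c / eval p B) • xi d p) = 0 := by
      rw [Matrix.mulVec_sub, Matrix.mulVec_smul, hTxi, smul_smul, div_mul_cancel₀ _ hBp, hc,
        sub_self]
    have hk' := hker _ (U.sub_mem hu (U.smul_mem _ hU)) hk
    refine Submodule.mem_sup.mpr ⟨_, hk', (c / eval p B) • xi d p,
      Submodule.smul_mem _ _ (Submodule.mem_span_singleton_self _), sub_add_cancel _ _⟩
  have h1 := ht_map h (ctr B r d) hτ (fun w k m => (ctr_le_nrm w.1 B r d k m).trans (hBτ w))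
    hKU' hA hinj
  have h2 := finrank_sup_map hKU' (ctr B r d).mulVecLin hA hinj
  rw [ht_single h hxi0, height_xi h r hp] at h1
  have h3 : finrank L (Submodule.span L {xi r p}) = 1 := finrank_span_singleton hxi0
  rw [h3] at h2
  have h4 := ht_nonneg h (Submodule.span L {xi r p} ⊔ U.map (ctr B r d).mulVecLin)
  have h5 : finrank L (Submodule.span L {xi r p} ⊔ U.map (ctr B r d).mulVecLin :
      Submodule L (M3 r → L)) ≤ Fintype.card (M3 r) := by
    have := Submodule.finrank_le (Submodule.span L {xi r p} ⊔ U.map (ctr B r d).mulVecLin)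
    rwa [Module.finrank_fintype_fun_eq_card] at this
  have h6 := mul_le_mul_of_nonneg_left (show ((finrank L U : ℤ) -
    finrank L (K ⊔ Submodule.span L {xi d p} : Submodule L (M3 d → L))) ≤
      (Fintype.card (M3 r) : ℤ) - 1 by omega) hτ0
  linarith

end Pool.Agent.Lib.MP_44a246_ntS
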