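import Mathlib
import Pool.Agent.Lib.MP_44a246_ntS.SE1b
import Pool.Agent.Lib.MP_44a246_ntS.SE5c
import Pool.Agent.Lib.MP_44a246_ntS.SG1b
import Pool.Agent.Lib.MP_44a246_ntS.SG2b
import Pool.Agent.Lib.MP_44a246_ntS.SG2c

/-!
The core lemma.
-/

namespace Pool.Agent.Lib.MP_44a246_ntS

open Pool.Agent.Lib.MP_44a246_nt
open Pool.Agent.Lib.MP_44a246_ntL
open Pool.Agent.Lib.MP_e52354_nt
open WithZero Module MvPolynomial

variable {κ L : Type*} [Field κ] [IsAlgClosed κ] [CharZero κ] [Field L] [Algebra κ L]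

/-- the case where the greatest common divisor does not vanish at `p` -/
theorem core_aux [CharZero L] (h : IsFF κ L) {p : Fin 3 → L} (hp : p ≠ 0) {a e s d : ℕ}
    (hs : a + e = s) (hsd : 2 * s ≤ d) {A f g : MvPolynomial (Fin 3) L}
    (hA : A.IsHomogeneous a) (hA0 : A ≠ 0)
    (hAp : eval p A ≠ 0) (hf : f.IsHomogeneous e) (hg : g.IsHomogeneous e) (hfg : IsRelPrime f g)
    (hfp : eval p f = 0) (hgp : eval p g = 0)
    {U : Submodule L (M3 d → L)} (hU : xi d p ∈ U)
    (hf' : ∀ u ∈ U, (ctr (A * f) (d - s) d).mulVec u = 0)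
    (hg' : ∀ u ∈ U, (ctr (A * g) (d - s) d).mulVec u = 0) :
    ((d : ℤ) - a - 2 * e + 1) * height κ p ≤ ht κ U + e * (2 * e + 1) * polyHeight κ A := by
  -- `e ≥ 1`
  have he : 1 ≤ e := by
    rcases Nat.eq_zero_or_pos e with h0 | h0
    · exfalso
      subst h0
      have hc : ∀ q : MvPolynomial (Fin 3) L, q.IsHomogeneous 0 → eval p q = 0 → q = 0 := by
        intro q hq hqp
        have h1 := (MvPolynomial.totalDegree_eq_zero_iff_eq_C).mp
          (Nat.le_zero.mp hq.totalDegree_le)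
        rw [h1, eval_C] at hqp
        rw [h1, hqp, C_0]
      have hf0 := hc f hf hfp
      have hg0 := hc g hg hgp
      rw [hf0, hg0] at hfg
      have h2 : IsUnit (0 : MvPolynomial (Fin 3) L) := hfg dvd_rfl dvd_rfl
      exact not_isUnit_zero h2
    · exact h0
  obtain ⟨a', b', hlp, hall⟩ := exists_lin he hf hg hfg hp
  set l := lin L a' b' with hl
  have hl1 : l.IsHomogeneous 1 := lin_hom L a' b'
  obtain ⟨r, hr⟩ : ∃ r, r + 1 = 2 * e := ⟨2 * e - 1, by omega⟩
  obtain ⟨j, rfl⟩ : ∃ j, d = r + j + a := ⟨d - r - a, by omega⟩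
  have hlj : (l ^ j).IsHomogeneous j := by
    have := hl1.pow j
    rwa [one_mul] at this
  have hds : r + j + a - s = r + j - e := by omega
  rw [hds] at hf' hg'
  have hB : (l ^ j * A).IsHomogeneous (j + a) := hlj.mul hA
  have hBp : eval p (l ^ j * A) ≠ 0 := by
    rw [map_mul, map_pow]
    exact mul_ne_zero (pow_ne_zero _ hlp) hAp
  let K : Submodule L (M3 (r + j + a) → L) :=
    U ⊓ LinearMap.ker (Matrix.mulVecLin (ctr A (r + j) (r + j + a)))
  have hKmem : ∀ u, u ∈ K ↔ u ∈ U ∧ (ctr A (r + j) (r + j + a)).mulVec u = 0 := by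
    intro u
    rw [Submodule.mem_inf, LinearMap.mem_ker, Matrix.mulVecLin_apply]
  have hcomp : ∀ u : M3 (r + j + a) → L, (ctr (l ^ j * A) r (r + j + a)).mulVec u =
      (ctr (l ^ j) r (r + j)).mulVec ((ctr A (r + j) (r + j + a)).mulVec u) := by
    intro u
    rw [ctr_mul (rfl : r + j + a = r + j + a) (rfl : r + j = r + j) hA hlj]
  have h1 := ht_xi_sup h hp (rfl : r + j + a = r + j + a) hA hA0 hAp (K := K)
    (fun u hu => ((hKmem u).mp hu).2)
  have hτ : (Function.support fun w : Place κ L => log (nrm w.1 A)).Finite := nrm_support h hA0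
  have hτ0 : 0 ≤ ∑ᶠ w : Place κ L, log (nrm w.1 A) := by
    rw [← polyHeight_eq]
    exact polyHeight_nonneg h hA0
  have h2 := ht_phi h hp (show r + (j + a) = r + j + a by omega) hB hBp hτ hτ0
    (fun w => by
      rw [exp_log (nrm_ne_zero w.1 hA0)]
      exact nrm_lin_pow_mul_le w.1 a' b' j A)
    (K := K) hU inf_le_left
    (fun u hu => by
      rw [hcomp, ((hKmem u).mp hu).2, Matrix.mulVec_zero])
    (fun u hu h0 => by
      rw [hKmem]
      refine ⟨hu, ?_⟩
      rw [hcomp] at h0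
      refine eq_zero_of_pow he hf hg hl1 hall (by omega) j ?_ ?_ h0
      · rw [ctr_mul (rfl : r + j + a = r + j + a) (show r + j - e + e = r + j by omega) hA hf,
          mul_comm f A]
        exact hf' u hu
      · rw [ctr_mul (rfl : r + j + a = r + j + a) (show r + j - e + e = r + j by omega) hA hg,
          mul_comm g A]
        exact hg' u hu)
  have h3 := ht_nonneg h K
  have hcard : (Fintype.card (M3 r) : ℤ) = e * (2 * e + 1) := by
    rw [card_M3, hr]
    have h4 : 2 * e * (r + 2) / 2 = e * (2 * e + 1) := by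
      have h5 : r + 2 = 2 * e + 1 := by omega
      rw [h5, mul_assoc, Nat.mul_div_cancel_left _ (by norm_num)]
    rw [h4]
    push_cast
    ring
  rw [polyHeight_eq] at h1 ⊢
  rw [hcard] at h2
  have h6 : ((r + j + a : ℕ) : ℤ) - a - 2 * e + 1 = j := by
    have : (r : ℤ) + 1 = 2 * e := by exact_mod_cast hr
    push_cast
    linarith
  rw [h6]
  push_cast at h1
  nlinarith [h1, h2, h3]

/-- **Core lemma.** -/
theorem core [CharZero L] (h : IsFF κ L) {p : Fin 3 → L} (hp : p ≠ 0) {s d : ℕ}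
    (hsd : 2 * s ≤ d) {Q : Submodule L (M3 s → L)} (hQ : Q ≠ ⊤) (hξ : xi s p ∈ Q)
    {U : Submodule L (M3 d → L)} (hU : xi d p ∈ U)
    (hkill : ∀ G ∈ Ann Q, ∀ u ∈ U, (ctr G (d - s) d).mulVec u = 0) :
    ∃ (a e : ℕ) (A : MvPolynomial (Fin 3) L), a + e = s ∧ A ≠ 0 ∧ A.IsHomogeneous a ∧
      polyHeight κ A * ((Fintype.card (M3 s) : ℤ) - finrank L Q) ≤ ht κ Q ∧
      Fintype.card (M3 s) ≤ Fintype.card (M3 e) + finrank L Q ∧
      (eval p A = 0 ∨
        ((d : ℤ) - a - 2 * e + 1) * height κ p ≤ ht κ U + e * (2 * e + 1) * polyHeight κ A) := by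
  have hinf : Infinite L := inferInstance
  obtain ⟨a, e, A, f, g, hs, hA0, hA, hf, hg, hfQ, hgQ, hfg, hdvd⟩ :=
    exists_gcd (W := Ann Q) (fun P hP => hP.1) (Ann_ne_bot hQ)
  obtain ⟨h1, h2⟩ := height_gcd h (e := e) (a := a) (s := s) (by omega) hA hA0 hdvd
  refine ⟨a, e, A, hs, hA0, hA, h1, h2, ?_⟩
  by_cases hAp : eval p A = 0
  · exact Or.inl hAp
  · right
    have key : ∀ f : MvPolynomial (Fin 3) L, A * f ∈ Ann Q → eval p f = 0 := by
      intro f hf
      have h3 := hf.2 _ hξ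
      rw [pr_xi hf.1, map_mul] at h3
      exact (mul_eq_zero.mp h3).resolve_left hAp
    exact core_aux h hp hs hsd hA hA0 hAp hf hg hfg (key f hfQ) (key g hgQ) hU
      (hkill _ hfQ) (hkill _ hgQ)

end Pool.Agent.Lib.MP_44a246_ntS
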