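import Mathlib
import Pool.Agent.Lib.MP_44a246_ntS.SB1b
import Pool.Agent.Lib.MP_44a246_ntS.SH2c

/-!
Heights of the point, of its projections, and of the space spanned by the rows.
-/

namespace Pool.Agent.Lib.MP_44a246_ntS

open Pool.Agent.Lib.MP_44a246_nt
open Pool.Agent.Lib.MP_44a246_ntL
open Pool.Agent.Lib.MP_e52354_nt
open WithZero Module

namespace Dat

section

variable {κ L : Type*} [Field κ] [IsAlgClosed κ] [CharZero κ] [Field L] [Algebra κ L] {n d : ℕ}
  (X : Dat κ (L := L) n d)

/-- **The height of the space spanned by the rows.** -/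
theorem ht_U (h : IsFF κ L) : ht κ X.U ≤ (n + 1) * height κ X.x + n * X.Δ := by
  -- choose `σ : Fin e → Fin (n + 1)` such that the `row (x (σ i))` form a basis of `U`
  -- (`exists_linearIndependent`); `ht_span`, `pl_rows`, `finsum_mono`; `e = finrank U ≤ n`
  -- (`finrank_U`), `height_nonneg`, `Δ_nonneg`
  classical
  obtain ⟨τ, σ', hσ', hsp, hli⟩ := exists_linearIndependent' L (fun j => X.row (X.x j))
  have : Finite τ := Finite.of_injective σ' hσ'
  have : Fintype τ := Fintype.ofFinite τ
  set e := Fintype.card τ with he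
  set σ : Fin e → Fin (n + 1) := fun i => σ' ((Fintype.equivFin τ).symm i) with hσ
  set a : Fin e → M3 d → L := fun i => X.row (X.x (σ i)) with ha
  have hai : LinearIndependent L a := hli.comp _ (Fintype.equivFin τ).symm.injective
  have has : Submodule.span L (Set.range a) = X.U := by
    have h1 : Set.range a = Set.range ((fun j => X.row (X.x j)) ∘ σ') := by
      ext y
      constructor
      · rintro ⟨i, rfl⟩
        exact ⟨_, rfl⟩
      · rintro ⟨t, rfl⟩
        refine ⟨Fintype.equivFin τ t, ?_⟩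
        simp [ha, hσ]
    rw [h1, hsp]
    rfl
  have hen : e ≤ n := by
    have h1 := finrank_span_eq_card hai
    rw [has, Fintype.card_fin] at h1
    rw [← h1]
    exact X.finrank_U
  have hloc : ∀ w : Place κ L, log (pl w.1 a) ≤
      ((e : ℤ) + 1) * log (vmax w.1 X.x) + (e : ℤ) * (X.δ w : ℤ) := by
    intro w
    have h1 := X.pl_rows w σ
    have n1 : pl w.1 a ≠ 0 := pl_ne_zero w.1 hai
    have n2 : vmax w.1 X.x ≠ 0 := by
      rw [Ne, vmax_eq_zero_iff]
      exact X.x_ne_zero
    have n3 : vmax w.1 X.x ^ (e + 1) ≠ 0 := pow_ne_zero _ n2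
    have n4 : (exp (X.δ w : ℤ) : ℤᵐ⁰) ^ e ≠ 0 := pow_ne_zero _ exp_ne_zero
    have h2 := (log_le_log n1 (mul_ne_zero n3 n4)).mpr h1
    rw [log_mul n3 n4, log_pow, log_pow, log_exp] at h2
    refine h2.trans (le_of_eq ?_)
    rw [nsmul_eq_mul, nsmul_eq_mul]
    push_cast
    ring
  have s1 := pl_support h hai
  have s2 : (Function.support fun w : Place κ L =>
      ((e : ℤ) + 1) * log (vmax w.1 X.x)).Finite := by
    refine (h.vmax_support X.x_ne_zero).subset fun w hw h1 => hw ?_
    simp only at h1 ⊢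
    rw [h1, mul_zero]
  have s3 : (Function.support fun w : Place κ L => (e : ℤ) * (X.δ w : ℤ)).Finite := by
    refine X.hδ.subset fun w hw h1 => hw ?_
    simp only at h1 ⊢
    rw [h1, Nat.cast_zero, mul_zero]
  have hmain := finsum_mono s1 ((s2.union s3).subset (Function.support_add _ _)) hloc
  rw [finsum_add_distrib s2 s3] at hmain
  have e1 : ∑ᶠ w : Place κ L, log (pl w.1 a) = ht κ X.U := by
    rw [← ht_span h hai, has]
  have e2 : ∑ᶠ w : Place κ L, ((e : ℤ) + 1) * log (vmax w.1 X.x) =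
      ((e : ℤ) + 1) * height κ X.x := (mul_finsum _ _).symm
  have e3 : ∑ᶠ w : Place κ L, (e : ℤ) * (X.δ w : ℤ) = (e : ℤ) * X.Δ := (mul_finsum _ _).symm
  rw [e1, e2, e3] at hmain
  have h1 := h.height_nonneg X.x_ne_zero
  have h2 := X.Δ_nonneg
  have h3 : (e : ℤ) ≤ n := by exact_mod_cast hen
  nlinarith [mul_le_mul_of_nonneg_right h3 h1, mul_le_mul_of_nonneg_right h3 h2]

end

end Dat

end Pool.Agent.Lib.MP_44a246_ntS
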