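import Mathlib

/-!
Numerical lemmas for the slope method.
-/

namespace Pool.Agent.Lib.MP_44a246_ntS

/-- the number of monomials of degree `s` in three variables -/
def N3 (s : ℕ) : ℕ := (s + 1) * (s + 2) / 2

theorem two_N3 (s : ℕ) : 2 * N3 s = (s + 1) * (s + 2) := by
  -- `(s + 1) * (s + 2)` is even
  unfold N3
  have h : 2 ∣ (s + 1) * (s + 2) := (Nat.even_mul_succ_self (s + 1)).two_dvd
  exact Nat.mul_div_cancel' h

private theorem two_N3_real (s : ℕ) : 2 * (N3 s : ℝ) = (s + 1) * (s + 2) := by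
  exact_mod_cast two_N3 s

/-- step A: the codimension of `Q` -/
theorem numA1 {S T q : ℕ} {h : ℝ} (hT : 1 ≤ T) (hS : 8 * T ≤ S) (hh : 0 < h)
    {hq : ℝ} (hq0 : 0 ≤ hq) (hQ : hq + h / T * ((q : ℝ) - 1) ≤ S * h) :
    (q : ℝ) ≤ 1 + S * T ∧ 3 * (S : ℝ) ^ 2 / 8 ≤ (N3 S : ℝ) - q := by
  -- `h / T * (q - 1) ≤ S h`, so `q ≤ 1 + S T ≤ 1 + S ^ 2 / 8`; `N3 S = (S ^ 2 + 3 S + 2) / 2`
  have hT' : (1 : ℝ) ≤ T := by exact_mod_cast hT
  have hS' : 8 * (T : ℝ) ≤ S := by exact_mod_cast hS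
  have h1 : h / T * ((q : ℝ) - 1) ≤ S * h := by linarith
  have h2 : (q : ℝ) - 1 ≤ S * T := by
    have h3 : h / T * ((q : ℝ) - 1) * T ≤ S * h * T :=
      mul_le_mul_of_nonneg_right h1 (by linarith)
    have h4 : h / T * ((q : ℝ) - 1) * T = h * ((q : ℝ) - 1) := by
      field_simp
    rw [h4] at h3
    have h5 : h * ((q : ℝ) - 1) ≤ h * (S * T) := by linarith
    exact le_of_mul_le_mul_left h5 hh
  have h6 := two_N3_real S
  refine ⟨by linarith, ?_⟩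
  have h7 : (S : ℝ) * T ≤ S * (S / 8) := mul_le_mul_of_nonneg_left (by linarith) (by linarith)
  nlinarith

/-- step A: the degree of the greatest common divisor -/
theorem numA2 {S T q a e : ℕ} (hT : 1 ≤ T) (hS : 8 * T ≤ S) (hs : a + e = S)
    (hq : (q : ℝ) ≤ 1 + S * T) (hN : N3 S ≤ N3 e + q) : a ≤ 2 * T := by
  -- `N3 S - N3 e = a (2 S - a + 3) / 2 ≥ a (S + 3) / 2`; if `a ≥ 2 T + 1` then
  -- `(2 T + 1) (S + 3) ≤ 2 + 2 S T`, impossible
  have hT' : (1 : ℝ) ≤ T := by exact_mod_cast hT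
  have hS' : 8 * (T : ℝ) ≤ S := by exact_mod_cast hS
  have h6 := two_N3_real S
  have h7 := two_N3_real e
  have hN' : (N3 S : ℝ) ≤ N3 e + q := by exact_mod_cast hN
  have hs' : (a : ℝ) + e = S := by exact_mod_cast hs
  by_contra hcon
  have ha : (2 : ℝ) * T + 1 ≤ a := by
    have : 2 * T + 1 ≤ a := by omega
    exact_mod_cast this
  have he : (e : ℝ) = S - a := by linarith
  rw [he] at h7
  have haS : (a : ℝ) ≤ S := by
    have : (0 : ℝ) ≤ e := Nat.cast_nonneg e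
    linarith
  have h8 : (a : ℝ) * (2 * S - a + 3) ≤ 2 * (1 + S * T) := by nlinarith
  have h9 : (a : ℝ) * (S + 3) ≤ a * (2 * S - a + 3) :=
    mul_le_mul_of_nonneg_left (by linarith) (by linarith)
  have h10 : (2 * (T : ℝ) + 1) * (S + 3) ≤ a * (S + 3) :=
    mul_le_mul_of_nonneg_right ha (by linarith)
  nlinarith

/-- step A: the height of the greatest common divisor -/
theorem numA3 {S : ℕ} (hS : 8 ≤ S) {α r h : ℝ} (hα : 0 ≤ α)
    (hr : 3 * (S : ℝ) ^ 2 / 8 ≤ r) (h1 : α * r ≤ S * h) : α * S ≤ 8 / 3 * h := by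
  have hS' : (8 : ℝ) ≤ S := by exact_mod_cast hS
  have h2 : α * (3 * (S : ℝ) ^ 2 / 8) ≤ α * r := mul_le_mul_of_nonneg_left hr hα
  have h3 : (S : ℝ) * (α * S * (3 / 8)) ≤ S * h := by nlinarith
  have h4 : α * S * (3 / 8) ≤ h := le_of_mul_le_mul_left h3 (by linarith)
  linarith

/-- step A: the contradiction -/
theorem numA4 {n d T S a e : ℕ} (hT : 1 ≤ T) (hS : 8 * T ≤ S) (hs : a + e = S)
    (hN : 2 * n + 10 * S * T + T * (n + 2) ≤ T * d) (hn : 1 ≤ n) {h α Δ hW : ℝ} (hh : 0 < h)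
    (hΔ : 0 ≤ Δ) (hα : 0 ≤ α) (hα' : α * S ≤ 8 / 3 * h)
    (hW1 : hW ≤ (n + 1) * h + n * Δ + 2 * h / T * (n - 1))
    (hW2 : ((d : ℝ) - a - 2 * e + 1) * h ≤ hW + e * (2 * e + 1) * α) : h ≤ n * Δ := by
  -- `e (2 e + 1) α ≤ (2 S + 1) S α ≤ (2 S + 1) 8 / 3 h`; `a + 2 e ≤ 2 S`;
  -- `d - (n + 1) ≥ 2 n / T + 10 S + 1`
  have hT' : (1 : ℝ) ≤ T := by exact_mod_cast hT
  have hS' : 8 * (T : ℝ) ≤ S := by exact_mod_cast hS
  have hN' : 2 * (n : ℝ) + 10 * S * T + T * (n + 2) ≤ T * d := by exact_mod_cast hN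
  have hs' : (a : ℝ) + e = S := by exact_mod_cast hs
  have ha0 : (0 : ℝ) ≤ a := Nat.cast_nonneg a
  have he0 : (0 : ℝ) ≤ e := Nat.cast_nonneg e
  have heS : (e : ℝ) ≤ S := by linarith
  -- the error term
  have h1 : (e : ℝ) * (2 * e + 1) * α ≤ (2 * S + 1) * (8 / 3 * h) := by
    have h2 : (e : ℝ) * (2 * e + 1) ≤ S * (2 * S + 1) :=
      mul_le_mul heS (by linarith) (by linarith) (by linarith)
    calc (e : ℝ) * (2 * e + 1) * α ≤ S * (2 * S + 1) * α := mul_le_mul_of_nonneg_right h2 hα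
      _ = (2 * S + 1) * (α * S) := by ring
      _ ≤ (2 * S + 1) * (8 / 3 * h) := mul_le_mul_of_nonneg_left hα' (by linarith)
  have h3 : ((d : ℝ) - 2 * S + 1) * h ≤ ((d : ℝ) - a - 2 * e + 1) * h :=
    mul_le_mul_of_nonneg_right (by linarith) hh.le
  have h4 : ((d : ℝ) - 2 * S + 1) * h ≤
      (n + 1) * h + n * Δ + 2 * h / T * (n - 1) + (2 * S + 1) * (8 / 3 * h) := by linarith
  have h5 : T * (((d : ℝ) - 2 * S + 1) * h) ≤
      T * ((n + 1) * h + n * Δ + 2 * h / T * (n - 1) + (2 * S + 1) * (8 / 3 * h)) :=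
    mul_le_mul_of_nonneg_left h4 (by linarith)
  have h6 : (T : ℝ) * ((n + 1) * h + n * Δ + 2 * h / T * (n - 1) + (2 * S + 1) * (8 / 3 * h)) =
      T * (n + 1) * h + T * (n * Δ) + 2 * h * (n - 1) + T * (2 * S + 1) * (8 / 3 * h) := by
    field_simp
  rw [h6] at h5
  have h7 : (2 * (n : ℝ) + 10 * S * T + T * (n + 2)) * h ≤ T * d * h :=
    mul_le_mul_of_nonneg_right hN' hh.le
  have h8 : 8 * h ≤ S * h := mul_le_mul_of_nonneg_right (by linarith) hh.le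
  have h9 : 8 * h * T ≤ S * h * T := mul_le_mul_of_nonneg_right h8 (by linarith)
  have h10 : h * 1 ≤ h * T := mul_le_mul_of_nonneg_left hT' hh.le
  have h11 : (T : ℝ) * h ≤ T * (n * Δ) := by nlinarith
  exact le_of_mul_le_mul_left h11 (by linarith)

end Pool.Agent.Lib.MP_44a246_ntS
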