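import Mathlib
import Pool.Agent.Lib.MP_44a246_ntS.SI1

/-!
Numerical lemmas for step B.
-/

namespace Pool.Agent.Lib.MP_44a246_ntS

private theorem two_N3_real' (s : ℕ) : 2 * (N3 s : ℝ) = (s + 1) * (s + 2) := by
  exact_mod_cast two_N3 s

/-- step B: the codimension of `Q` -/
theorem numB1 {N d s q m : ℕ} {h η : ℝ} (hh : 0 < h) (hd : 1 ≤ d) (hN : 1 ≤ N)
    (hη : 8 * η ≤ d * h) (hm : m ≤ N) (hs : 32 * N ≤ s ^ 2) {hq hm' : ℝ} (hq0 : 0 ≤ hq)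
    (hmq : m ≤ q)
    (hQ : hq + d / (8 * N) * h * ((q : ℝ) - m) ≤ hm') (hm'' : hm' ≤ η) :
    hq ≤ η ∧ q ≤ 2 * N ∧ 7 * (s : ℝ) ^ 2 / 16 ≤ (N3 s : ℝ) - q := by
  -- `d / (8 N) * h * (q - m) ≤ η ≤ d h / 8`, so `q - m ≤ N`; `N3 s ≥ s ^ 2 / 2` and
  -- `2 N ≤ s ^ 2 / 16`
  have hd' : (1 : ℝ) ≤ d := by exact_mod_cast hd
  have hN' : (1 : ℝ) ≤ N := by exact_mod_cast hN
  have hm1 : (m : ℝ) ≤ N := by exact_mod_cast hm
  have hs' : 32 * (N : ℝ) ≤ (s : ℝ) ^ 2 := by exact_mod_cast hs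
  have hmq' : (m : ℝ) ≤ q := by exact_mod_cast hmq
  have h1 : 0 ≤ (d : ℝ) / (8 * N) * h * ((q : ℝ) - m) := by
    apply mul_nonneg
    · positivity
    · linarith
  have h2 : (d : ℝ) / (8 * N) * h * ((q : ℝ) - m) ≤ d * h / 8 := by linarith
  have h3 : (q : ℝ) - m ≤ N := by
    have h4 : (d : ℝ) / (8 * N) * h * ((q : ℝ) - m) * (8 * N) ≤ d * h / 8 * (8 * N) :=
      mul_le_mul_of_nonneg_right h2 (by linarith)
    have h5 : (d : ℝ) / (8 * N) * h * ((q : ℝ) - m) * (8 * N) = d * h * ((q : ℝ) - m) := by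
      field_simp
    rw [h5] at h4
    have h6 : (d : ℝ) * h * ((q : ℝ) - m) ≤ d * h * N := by linarith
    exact le_of_mul_le_mul_left h6 (by positivity)
  have h7 : (q : ℝ) ≤ 2 * N := by linarith
  have h8 := two_N3_real' s
  refine ⟨by linarith, by exact_mod_cast h7, ?_⟩
  have hs0 : (0 : ℝ) ≤ s := Nat.cast_nonneg s
  nlinarith

/-- step B: the degree of the greatest common divisor -/
theorem numB2 {N s q a e : ℕ} (hs : a + e = s) (hq : q ≤ 2 * N) (hN : N3 s ≤ N3 e + q) :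
    a * s ≤ 4 * N := by
  -- `N3 s - N3 e = a (2 s - a + 3) / 2 ≥ a s / 2`
  have h1 := two_N3 s
  have h2 := two_N3 e
  subst hs
  nlinarith

/-- step B: the contradiction if the greatest common divisor does not vanish -/
theorem numB3 {d s a e : ℕ} (hs : a + e = s) (hsd : 8 * s ≤ d) (hs1 : 1 ≤ s) {h η α hW : ℝ}
    (hh : 0 < h) (hη0 : 0 ≤ η) (hη : 16 * η < d * h) (hα : 0 ≤ α)
    (hα' : α * (7 * (s : ℝ) ^ 2 / 16) ≤ η)
    (hW1 : hW ≤ η + d * h / 4)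
    (hW2 : ((d : ℝ) - a - 2 * e + 1) * h ≤ hW + e * (2 * e + 1) * α) : False := by
  -- `e (2 e + 1) α ≤ s (2 s + 1) * 16 η / (7 s ^ 2) ≤ (32 / 7 + 16 / 7) η ≤ 7 η`, so
  -- `(d - 2 s) h ≤ 8 η + d h / 4`, and `2 s ≤ d / 4`
  have hs' : (a : ℝ) + e = s := by exact_mod_cast hs
  have hsd' : 8 * (s : ℝ) ≤ d := by exact_mod_cast hsd
  have hs1' : (1 : ℝ) ≤ s := by exact_mod_cast hs1
  have ha0 : (0 : ℝ) ≤ a := Nat.cast_nonneg a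
  have he0 : (0 : ℝ) ≤ e := Nat.cast_nonneg e
  have h1 : (e : ℝ) * (2 * e + 1) * α ≤ 7 * η := by
    have h2 : (e : ℝ) * (2 * e + 1) ≤ s * (3 * s) :=
      mul_le_mul (by linarith) (by linarith) (by linarith) (by linarith)
    calc (e : ℝ) * (2 * e + 1) * α ≤ s * (3 * s) * α := mul_le_mul_of_nonneg_right h2 hα
      _ = 48 / 7 * (α * (7 * (s : ℝ) ^ 2 / 16)) := by ring
      _ ≤ 48 / 7 * η := by linarith
      _ ≤ 7 * η := by linarith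
  have h3 : ((d : ℝ) - 2 * s + 1) * h ≤ ((d : ℝ) - a - 2 * e + 1) * h :=
    mul_le_mul_of_nonneg_right (by linarith) hh.le
  have h4 : ((d : ℝ) - 2 * s + 1) * h ≤ 8 * η + d * h / 4 := by linarith
  have h5 : 8 * (s : ℝ) * h ≤ d * h := mul_le_mul_of_nonneg_right hsd' hh.le
  nlinarith

/-- step B: the conclusion -/
theorem numB4 {N s : ℕ} (hs : 32 * N ≤ s ^ 2) (hs1 : 1 ≤ s) {h α α' : ℝ} (hα : 0 ≤ α)
    (hh : 0 ≤ h)
    (h1 : α' * (7 * (s : ℝ) ^ 2 / 16) ≤ 3 * h + 4 * N * α) (h2 : α ≤ α') :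
    α * s ^ 2 ≤ 10 * h := by
  -- `α * (7 s ^ 2 / 16 - 4 N) ≤ 3 h` and `4 N ≤ s ^ 2 / 8`: `α * 5 s ^ 2 / 16 ≤ 3 h`
  have hs' : 32 * (N : ℝ) ≤ (s : ℝ) ^ 2 := by exact_mod_cast hs
  have h3 : α * (7 * (s : ℝ) ^ 2 / 16) ≤ α' * (7 * (s : ℝ) ^ 2 / 16) :=
    mul_le_mul_of_nonneg_right h2 (by positivity)
  have h4 : 32 * (N : ℝ) * α ≤ (s : ℝ) ^ 2 * α := mul_le_mul_of_nonneg_right hs' hα
  nlinarith

end Pool.Agent.Lib.MP_44a246_ntS
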