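import Mathlib
import Pool.Agent.Lib.MP_e52354_ntG.Weights
import Pool.Agent.Lib.MP_44a246_ntS.Names

/-!
Dehomogenisation of forms in three variables.
-/

namespace Pool.Agent.Lib.MP_44a246_ntS

open Pool.Agent.Lib.MP_44a246_nt
open Pool.Agent.Lib.MP_44a246_ntL
open WithZero Polynomial

section

variable {L : Type*} [Field L]

/-- dehomogenisation: `X 0 ↦ 1`, `X 1 ↦ ` the inner variable, `X 2 ↦ ` the outer variable -/
noncomputable def deh (A : MvPolynomial (Fin 3) L) : L[X][X] :=
  MvPolynomial.aeval ![1, C X, X] A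

/-- the exponent with given sum and given coordinates `1`, `2` -/
theorem expo3_eq {d : Fin 3 →₀ ℕ} {a i j : ℕ} (hd : d.degree = a) (h1 : d 1 = i) (h2 : d 2 = j) :
    d = Finsupp.single 0 (a - i - j) + Finsupp.single 1 i + Finsupp.single 2 j ∧ i + j ≤ a := by
  rw [Finsupp.degree_eq_sum, Fin.sum_univ_three] at hd
  refine ⟨?_, by omega⟩
  ext k
  fin_cases k
  · simp
    omega
  · simp [h1]
  · simp [h2]

theorem deh_coeff {A : MvPolynomial (Fin 3) L} {a : ℕ} (hA : A.IsHomogeneous a) (i j : ℕ) :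
    ((deh A).coeff j).coeff i =
      if i + j ≤ a then A.coeff (Finsupp.single 0 (a - i - j) + Finsupp.single 1 i +
        Finsupp.single 2 j) else 0 := by
  classical
  have hterm : ∀ d : Fin 3 →₀ ℕ, ((algebraMap L L[X][X] (A.coeff d) *
      ∏ k, (![1, C X, X] : Fin 3 → L[X][X]) k ^ d k).coeff j).coeff i =
        if d 1 = i ∧ d 2 = j then A.coeff d else 0 := by
    intro d
    rw [Fin.prod_univ_three]
    have h1 : algebraMap L L[X][X] (A.coeff d) *
        ((![1, C X, X] : Fin 3 → L[X][X]) 0 ^ d 0 * (![1, C X, X] : Fin 3 → L[X][X]) 1 ^ d 1 *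
          (![1, C X, X] : Fin 3 → L[X][X]) 2 ^ d 2) =
        C (C (A.coeff d) * X ^ d 1) * X ^ d 2 := by
      have h2 : algebraMap L L[X][X] (A.coeff d) = C (C (A.coeff d)) := rfl
      rw [h2]
      simp only [Matrix.cons_val_zero, Matrix.cons_val_one, Matrix.cons_val, one_pow, one_mul]
      rw [C_mul, C_pow]
      ring
    rw [h1, coeff_C_mul_X_pow]
    by_cases h2 : j = d 2
    · rw [if_pos h2, coeff_C_mul_X_pow]
      by_cases h3 : i = d 1
      · rw [if_pos h3, if_pos ⟨h3.symm, h2.symm⟩]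
      · rw [if_neg h3, if_neg fun h4 => h3 h4.1.symm]
    · rw [if_neg h2, coeff_zero, if_neg fun h4 => h2 h4.2.symm]
  unfold deh
  rw [MvPolynomial.aeval_def, MvPolynomial.eval₂_eq', finsetSum_coeff, finsetSum_coeff]
  simp only [hterm]
  have hdeg : ∀ d ∈ A.support, d.degree = a := by
    intro d hd
    have h1 := hA (MvPolynomial.mem_support_iff.1 hd)
    rw [← h1, Finsupp.degree_eq_weight_one]
    rfl
  split_ifs with hij
  · rw [Finset.sum_eq_single (Finsupp.single 0 (a - i - j) + Finsupp.single 1 i +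
        Finsupp.single 2 j)]
    · rw [if_pos]
      constructor <;> simp
    · intro d hd hne
      rw [if_neg]
      rintro ⟨h1, h2⟩
      exact hne (expo3_eq (hdeg d hd) h1 h2).1
    · intro hd
      rw [MvPolynomial.notMem_support_iff.1 hd, ite_self]
  · refine Finset.sum_eq_zero fun d hd => ?_
    rw [if_neg]
    rintro ⟨h1, h2⟩
    exact hij (expo3_eq (hdeg d hd) h1 h2).2

end

end Pool.Agent.Lib.MP_44a246_ntS
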