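import Mathlib
import Pool.Agent.Lib.MP_44a246_ntS.SF2
import Pool.Agent.Lib.MP_44a246_ntS.SJ2
import Pool.Agent.Lib.MP_44a246_ntS.SJ3
import Pool.Agent.Lib.MP_44a246_ntS.SR0

/-!
Dehomogenisation of forms in three variables.
-/

namespace Pool.Agent.Lib.MP_44a246_ntS

open Pool.Agent.Lib.MP_44a246_nt
open Pool.Agent.Lib.MP_44a246_ntL
open WithZero Polynomial

section

variable {L : Type*} [Field L]

theorem deh_ne_zero {A : MvPolynomial (Fin 3) L} {a : ℕ} (hA : A.IsHomogeneous a) (hA0 : A ≠ 0) :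
    deh A ≠ 0 := by
  obtain ⟨I, hI⟩ := MvPolynomial.ne_zero_iff.1 hA0
  have hdeg : I.degree = a := by
    rw [← hA hI, Finsupp.degree_eq_weight_one]
    rfl
  obtain ⟨h1, h2⟩ := expo3_eq hdeg rfl rfl
  intro h0
  have h3 := deh_coeff hA (I 1) (I 2)
  rw [h0, coeff_zero, coeff_zero, if_pos h2, ← h1] at h3
  exact hI h3.symm

theorem deh_box {A : MvPolynomial (Fin 3) L} {a : ℕ} (hA : A.IsHomogeneous a) : Box a (deh A) := by
  constructor
  · rw [natDegree_le_iff_coeff_eq_zero]
    intro j hj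
    ext i
    rw [deh_coeff hA, if_neg (by omega), coeff_zero]
  · intro j
    rw [natDegree_le_iff_coeff_eq_zero]
    intro i hi
    rw [deh_coeff hA, if_neg (by omega)]

theorem deh_eval (A : MvPolynomial (Fin 3) L) (y₁ y : L) :
    (deh A).evalEval y₁ y = MvPolynomial.eval ![1, y₁, y] A := by
  have h : (evalEvalRingHom y₁ y).comp
      (MvPolynomial.aeval (R := L) (![1, C X, X] : Fin 3 → L[X][X])).toRingHom =
      MvPolynomial.eval ![1, y₁, y] := by
    apply MvPolynomial.ringHom_ext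
    · intro c
      simp
    · intro k
      fin_cases k <;> simp
  exact congrArg (fun f : MvPolynomial (Fin 3) L →+* L => f A) h

theorem gg_deh (v : Valuation L ℤᵐ⁰) {A : MvPolynomial (Fin 3) L} {a : ℕ}
    (hA : A.IsHomogeneous a) : gg v (deh A) = nrm v A := by
  refine le_antisymm (gg_le v fun j i => ?_) (Finset.sup_le fun I hI => ?_)
  · rw [deh_coeff hA]
    split_ifs
    · exact le_nrm v A _
    · rw [map_zero]
      exact zero_le
  · have hdeg : I.degree = a := by
      rw [← hA (MvPolynomial.mem_support_iff.1 hI), Finsupp.degree_eq_weight_one]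
      rfl
    obtain ⟨h1, h2⟩ := expo3_eq hdeg rfl rfl
    have h3 := le_gg v (deh A) (I 2) (I 1)
    rw [deh_coeff hA, if_pos h2, ← h1] at h3
    exact h3

end

theorem gh_deh {κ L : Type*} [Field κ] [Field L] [Algebra κ L] {A : MvPolynomial (Fin 3) L}
    {a : ℕ} (hA : A.IsHomogeneous a) : gh κ (deh A) = polyHeight κ A := by
  unfold gh polyHeight
  refine finsum_congr fun w => ?_
  rw [gg_deh w.1 hA]
  rfl

end Pool.Agent.Lib.MP_44a246_ntS
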