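import Mathlib
import Pool.Agent.Lib.MP_44a246_ntS.SL2

/-!
Step C: the parametrised curve is contained in the hypersurface.
-/

namespace Pool.Agent.Lib.MP_44a246_ntS

open Pool.Agent.Lib.MP_44a246_nt
open Pool.Agent.Lib.MP_44a246_ntL
open Pool.Agent.Lib.MP_e52354_nt
open WithZero Module Polynomial

section

variable {κ L : Type*} [Field κ] [Field L] [Algebra κ L] {n d : ℕ} (X : Dat κ (L := L) n d)
  {b : ℕ} {A : L[X][X]} (hA : Crv X b A)

theorem FB_natDegree {a : (Fin (n + 1) →₀ ℕ) → L} {B : Fin (n + 1) → L[X][X]}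
    (hB : ∀ j, (B j).natDegree ≤ b) : (FB d a B).natDegree ≤ d * b := by
  unfold FB
  refine natDegree_sum_le_of_forall_le _ _ fun I hI => ?_
  refine (natDegree_C_mul_le _ _).trans ((natDegree_prod_le _ _).trans ?_)
  have hdeg : ∑ j, I j = d := by
    have := mem_expo.1 hI
    rwa [Finsupp.degree_eq_sum] at this
  calc ∑ j, (B j ^ I j).natDegree ≤ ∑ j, I j * b := by
        refine Finset.sum_le_sum fun j _ => ?_
        exact natDegree_pow_le.trans (Nat.mul_le_mul_left _ (hB j))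
    _ = (∑ j, I j) * b := (Finset.sum_mul _ _ _).symm
    _ = d * b := by rw [hdeg]

theorem FB_eval (a : (Fin (n + 1) →₀ ℕ) → L) (B : Fin (n + 1) → L[X][X]) (y₁ y : L) :
    (FB d a B).evalEval y₁ y = Fval d a (fun j => (B j).evalEval y₁ y) := by
  have h : ∀ P : L[X][X], P.evalEval y₁ y = evalEvalRingHom y₁ y P := fun P => rfl
  have hC : ∀ c : L, evalEvalRingHom y₁ y (C (C c)) = c := fun c => by
    rw [← h]; simp
  rw [h]
  unfold FB Fval
  rw [map_sum]
  refine Finset.sum_congr rfl fun I _ => ?_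
  rw [map_mul, map_prod, hC]
  congr 1
  refine Finset.prod_congr rfl fun j _ => ?_
  rw [map_pow]
  rfl

theorem FB_le (w : Valuation L ℤᵐ⁰) {a : (Fin (n + 1) →₀ ℕ) → L} {B : Fin (n + 1) → L[X][X]}
    {τ β : ℤᵐ⁰} (ha : ∀ I ∈ expo (Fin (n + 1)) d, w (a I) ≤ τ) (hB : ∀ j, gg w (B j) ≤ β) :
    gg w (FB d a B) ≤ τ * β ^ d := by
  unfold FB
  refine (gg w).map_sum_le fun I hI => ?_
  have hdeg : ∑ j, I j = d := by
    have := mem_expo.1 hI
    rwa [Finsupp.degree_eq_sum] at this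
  rw [map_mul, map_prod, gg_CC]
  refine mul_le_mul' (ha I hI) ?_
  calc ∏ j, gg w (B j ^ I j) ≤ ∏ j, β ^ I j := by
        refine Finset.prod_le_prod' fun j _ => ?_
        rw [map_pow]
        exact pow_le_pow_left' (hB j) _
    _ = β ^ ∑ j, I j := Finset.prod_pow_eq_pow_sum _ _ _
    _ = β ^ d := by rw [hdeg]

include hA in
/-- the equation of the hypersurface at the parametrisation -/
theorem FB_zero : (FB d X.a (X.B A)).evalEval X.y₁ X.y = 0 := by
  rw [FB_eval]
  have h1 : (fun j => (X.B A j).evalEval X.y₁ X.y) =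
      fun j => (derivative A).evalEval X.y₁ X.y * X.x j := by
    funext j
    rw [X.B_eval hA j]
  rw [h1]
  set c := (derivative A).evalEval X.y₁ X.y with hc
  have h2 : Fval d X.a (fun j => c * X.x j) = c ^ d * Fval d X.a X.x := by
    unfold Fval
    rw [Finset.mul_sum]
    refine Finset.sum_congr rfl fun I hI => ?_
    have hdeg : ∑ j, I j = d := by
      have := mem_expo.1 hI
      rwa [Finsupp.degree_eq_sum] at this
    have h3 : mon (fun j => c * X.x j) I = c ^ d * mon X.x I := by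
      unfold mon
      simp only [mul_pow]
      rw [Finset.prod_mul_distrib, Finset.prod_pow_eq_pow_sum, hdeg]
    rw [h3]
    ring
  rw [h2, X.hF, mul_zero]

include hA in
theorem lin₀_zero : (∑ j, C (C (X.ξ₀ j : L)) * X.B A j - derivative A).evalEval X.y₁ X.y = 0 := by
  have h : ∀ P : L[X][X], P.evalEval X.y₁ X.y = evalEvalRingHom X.y₁ X.y P := fun P => rfl
  have hC : ∀ c : L, evalEvalRingHom X.y₁ X.y (C (C c)) = c := fun c => by
    rw [← h]; simp
  rw [h, map_sub, map_sum]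
  simp only [map_mul, hC]
  have h1 : ∀ j, evalEvalRingHom X.y₁ X.y (X.B A j) =
      evalEvalRingHom X.y₁ X.y (derivative A) * X.x j := fun j => by
    rw [← h, ← h, X.B_eval hA j]
  simp only [h1]
  have h2 : ∑ j, (X.ξ₀ j : L) * (evalEvalRingHom X.y₁ X.y (derivative A) * X.x j) =
      evalEvalRingHom X.y₁ X.y (derivative A) * ∑ j, (X.ξ₀ j : L) * X.x j := by
    rw [Finset.mul_sum]
    exact Finset.sum_congr rfl fun j _ => by ring
  rw [h2, X.h0, mul_one, sub_self]

include hA in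
theorem lin₁_zero :
    (∑ j, C (C (X.ξ₁ j : L)) * X.B A j - C Polynomial.X * derivative A).evalEval X.y₁ X.y = 0 := by
  have h : ∀ P : L[X][X], P.evalEval X.y₁ X.y = evalEvalRingHom X.y₁ X.y P := fun P => rfl
  have hC : ∀ c : L, evalEvalRingHom X.y₁ X.y (C (C c)) = c := fun c => by
    rw [← h]; simp
  have hX : evalEvalRingHom X.y₁ X.y (C Polynomial.X) = X.y₁ := by
    rw [← h, evalEval_C, eval_X]
  rw [h, map_sub, map_sum]
  simp only [map_mul, hC, hX]
  have h1 : ∀ j, evalEvalRingHom X.y₁ X.y (X.B A j) =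
      evalEvalRingHom X.y₁ X.y (derivative A) * X.x j := fun j => by
    rw [← h, ← h, X.B_eval hA j]
  have h1' : ∑ j, (X.ξ₁ j : L) * evalEvalRingHom X.y₁ X.y (X.B A j) =
      ∑ j, (X.ξ₁ j : L) * (evalEvalRingHom X.y₁ X.y (derivative A) * X.x j) :=
    Finset.sum_congr rfl fun j _ => by rw [h1]
  rw [h1']
  have h2 : ∑ j, (X.ξ₁ j : L) * (evalEvalRingHom X.y₁ X.y (derivative A) * X.x j) =
      evalEvalRingHom X.y₁ X.y (derivative A) * ∑ j, (X.ξ₁ j : L) * X.x j := by
    rw [Finset.mul_sum]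
    exact Finset.sum_congr rfl fun j _ => by ring
  have h3 : ∑ j, (X.ξ₁ j : L) * X.x j = X.y₁ := rfl
  rw [h2, h3]
  ring

end

end Pool.Agent.Lib.MP_44a246_ntS
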