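import Mathlib
import Pool.Agent.Lib.MP_44a246_ntL.LFF

/-!
The two local estimates for a covering family of curves.
-/

namespace Pool.Agent.Lib.MP_44a246_ntS

open Pool.Agent.Lib.MP_e52354_nt
open Pool.Agent.Lib.MP_44a246_nt
open Pool.Agent.Lib.MP_44a246_ntL
open WithZero Polynomial

/-- the gradient is homogeneous -/
theorem grad_homog {M : Type*} [Field M] {s d : ℕ} (hd : 1 ≤ d) (a : (Fin s →₀ ℕ) → M) (c : M)
    (q : Fin s → M) (j : Fin s) :
    grad d a (fun k => c * q k) j = c ^ (d - 1) * grad d a q j := by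
  -- `mon_smul` (file MP_e52354_nt/Local.lean): `mon (fun k => c * q k) I = c ^ I.degree * mon q I`;
  -- the terms with `I j = 0` vanish
  unfold grad
  rw [Finset.mul_sum]
  refine Finset.sum_congr rfl fun I hI => ?_
  by_cases h0 : I j = 0
  · rw [h0, Nat.cast_zero, mul_zero, zero_mul, zero_mul, mul_zero]
  · have h1 : Finsupp.single j 1 ≤ I := by
      rw [Finsupp.single_le_iff]
      omega
    have h2 : (I - Finsupp.single j 1).degree = d - 1 := by
      have h3 : (I - Finsupp.single j 1 + Finsupp.single j 1).degree = d := by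
        rw [tsub_add_cancel_of_le h1]
        exact mem_expo.mp hI
      rw [map_add, Finsupp.degree_single] at h3
      omega
    rw [mon_smul, h2]
    ring

/-- the pairs of congruent elements -/
def congSub {κ M : Type*} [Field κ] [Field M] [Algebra κ M] (w : Place κ M) :
    Subring (M × κ) where
  carrier := {p | w.1 p.1 ≤ 1 ∧ w.1 (p.1 - algebraMap κ M p.2) < 1}
  mul_mem' := by
    rintro ⟨x, c⟩ ⟨y, e⟩ ⟨h1, h2⟩ ⟨h3, h4⟩
    have he : w.1 (algebraMap κ M e) ≤ 1 := by
      by_cases h : e = 0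
      · rw [h, map_zero, map_zero]; exact zero_le_one
      · exact (w.2.2 e h).le
    refine ⟨mul_le_one' w.1 h1 h3, ?_⟩
    show w.1 (x * y - algebraMap κ M (c * e)) < 1
    have h5 : x * y - algebraMap κ M (c * e) =
        x * (y - algebraMap κ M e) + (x - algebraMap κ M c) * algebraMap κ M e := by
      rw [map_mul]; ring
    rw [h5]
    refine lt_of_le_of_lt (w.1.map_add _ _) (max_lt ?_ ?_)
    · rw [map_mul]
      exact lt_of_le_of_lt (mul_le_of_le_one_left' h1) h4
    · rw [map_mul]
      exact lt_of_le_of_lt (mul_le_of_le_one_right' he) h2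
  one_mem' := by
    refine ⟨?_, ?_⟩
    · show w.1 (1 : M) ≤ 1
      rw [map_one]
    · show w.1 ((1 : M) - algebraMap κ M 1) < 1
      rw [map_one, sub_self, map_zero]; exact zero_lt_one
  add_mem' := by
    rintro ⟨x, c⟩ ⟨y, e⟩ ⟨h1, h2⟩ ⟨h3, h4⟩
    refine ⟨add_le_one w.1 h1 h3, ?_⟩
    show w.1 (x + y - algebraMap κ M (c + e)) < 1
    have h5 : x + y - algebraMap κ M (c + e) =
        (x - algebraMap κ M c) + (y - algebraMap κ M e) := by
      rw [map_add]; ring
    rw [h5]
    exact lt_of_le_of_lt (w.1.map_add _ _) (max_lt h2 h4)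
  zero_mem' := by
    refine ⟨?_, ?_⟩
    · show w.1 (0 : M) ≤ 1
      rw [map_zero]; exact zero_le_one
    · show w.1 ((0 : M) - algebraMap κ M 0) < 1
      rw [map_zero, sub_self, map_zero]; exact zero_lt_one
  neg_mem' := by
    rintro ⟨x, c⟩ ⟨h1, h2⟩
    refine ⟨?_, ?_⟩
    · show w.1 (-x) ≤ 1
      rw [Valuation.map_neg]; exact h1
    · show w.1 (-x - algebraMap κ M (-c)) < 1
      have h5 : -x - algebraMap κ M (-c) = -(x - algebraMap κ M c) := by
        rw [map_neg]; ring
      rw [h5, Valuation.map_neg]; exact h2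

theorem mem_congSub {κ M : Type*} [Field κ] [Field M] [Algebra κ M] (w : Place κ M)
    {x : M} {c : κ} : (x, c) ∈ congSub w ↔ w.1 x ≤ 1 ∧ w.1 (x - algebraMap κ M c) < 1 :=
  Iff.rfl

/-- the gradient of a smooth form with constant coefficients at a point -/
theorem vmax_grad {κ M : Type*} [Field κ] [Field M] [Algebra κ M] (w : Place κ M)
    (hres : ∀ y, w.1 y ≤ 1 → ∃ c : κ, w.1 (y - algebraMap κ M c) < 1) {s d : ℕ} (hd : 1 ≤ d)
    {a : (Fin s →₀ ℕ) → κ} (hsm : ∀ u : Fin s → κ, u ≠ 0 → ∃ j, grad d a u j ≠ 0)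
    {γ : Fin s → M} (hγ : γ ≠ 0) :
    vmax w.1 (grad d (fun I => algebraMap κ M (a I)) γ) = vmax w.1 γ ^ (d - 1) := by
  -- `exists_vmax`: `γ = fun k => γ l * q k` with `w (q k) ≤ 1`, `q l = 1`. By `grad_homog` it is
  -- enough that `vmax w (grad d a q) = 1`. It is `≤ 1` (coefficients in `κ`). Choose `u k : κ` with
  -- `w (q k - u k) < 1`; `u ≠ 0` as `q l = 1`; `grad d a u j ≠ 0` for some `j`; the difference
  -- `grad d a q j - algebraMap (grad d a u j)` has value `< 1` (congruences are compatible with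
  -- sums and products), so `w (grad d a q j) = 1`.
  classical
  obtain ⟨l, hl0, hlv, hle⟩ := exists_vmax w.1 hγ
  have hwl : w.1 (γ l) ≠ 0 := (Valuation.ne_zero_iff w.1).mpr hl0
  set q : Fin s → M := fun k => γ k / γ l with hq
  have hγq : γ = fun k => γ l * q k := by
    funext k
    simp only [hq]
    field_simp
  have hq1 : ∀ k, w.1 (q k) ≤ 1 := by
    intro k
    simp only [hq]
    rw [map_div₀]
    exact div_le_one_of_le₀ (hle k) zero_le
  choose u hu using fun k => hres (q k) (hq1 k)
  have hmem : ∀ k, (q k, u k) ∈ congSub w := fun k => (mem_congSub w).mpr ⟨hq1 k, hu k⟩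
  have hconst : ∀ c : κ, (algebraMap κ M c, c) ∈ congSub w := by
    intro c
    rw [mem_congSub, sub_self, map_zero]
    refine ⟨?_, zero_lt_one⟩
    by_cases h : c = 0
    · rw [h, map_zero, map_zero]; exact zero_le_one
    · exact (w.2.2 c h).le
  have hmon : ∀ I : Fin s →₀ ℕ, (mon q I, mon u I) ∈ congSub w := by
    intro I
    have h1 : (mon q I, mon u I) = ∏ j, ((q j, u j) : M × κ) ^ I j := by
      apply Prod.ext
      · rw [Prod.fst_prod]; rfl
      · rw [Prod.snd_prod]; rfl
    rw [h1]
    exact Subring.prod_mem _ fun j _ => Subring.pow_mem _ (hmem j) _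
  have hgrad : ∀ j, (grad d (fun I => algebraMap κ M (a I)) q j, grad d a u j) ∈ congSub w := by
    intro j
    have h1 : (grad d (fun I => algebraMap κ M (a I)) q j, grad d a u j) =
        ∑ I ∈ expo (Fin s) d, ((algebraMap κ M (a I), a I) : M × κ) * ((I j : ℕ) : M × κ) *
          (mon q (I - Finsupp.single j 1), mon u (I - Finsupp.single j 1)) := by
      apply Prod.ext
      · rw [Prod.fst_sum]; rfl
      · rw [Prod.snd_sum]; rfl
    rw [h1]
    exact Subring.sum_mem _ fun I _ => Subring.mul_mem _ (Subring.mul_mem _ (hconst _)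
      (natCast_mem _ _)) (hmon _)
  have hu0 : u ≠ 0 := by
    intro h
    have h1 := hu l
    rw [h, Pi.zero_apply, map_zero, sub_zero] at h1
    simp only [hq] at h1
    rw [div_self hl0, map_one] at h1
    exact lt_irrefl _ h1
  obtain ⟨j, hj⟩ := hsm u hu0
  have hj1 : w.1 (grad d (fun I => algebraMap κ M (a I)) q j) = 1 := by
    obtain ⟨h1, h2⟩ := (mem_congSub w).mp (hgrad j)
    refine le_antisymm h1 ?_
    by_contra hcon
    push Not at hcon
    have h3 : algebraMap κ M (grad d a u j) = grad d (fun I => algebraMap κ M (a I)) q j -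
        (grad d (fun I => algebraMap κ M (a I)) q j - algebraMap κ M (grad d a u j)) := by ring
    have h4 : w.1 (algebraMap κ M (grad d a u j)) < 1 := by
      rw [h3]
      exact lt_of_le_of_lt (w.1.map_sub _ _) (max_lt hcon h2)
    rw [w.2.2 _ hj] at h4
    exact lt_irrefl _ h4
  have hval : ∀ i, w.1 (grad d (fun I => algebraMap κ M (a I)) γ i) =
      w.1 (γ l) ^ (d - 1) * w.1 (grad d (fun I => algebraMap κ M (a I)) q i) := by
    intro i
    have h1 : grad d (fun I => algebraMap κ M (a I)) γ i =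
        γ l ^ (d - 1) * grad d (fun I => algebraMap κ M (a I)) q i := by
      conv_lhs => rw [hγq]
      exact grad_homog hd _ _ _ _
    rw [h1, map_mul, map_pow]
  rw [hlv]
  refine le_antisymm (vmax_le w.1 fun i => ?_) ?_
  · rw [hval]
    exact mul_le_of_le_one_right' ((mem_congSub w).mp (hgrad i)).1
  · calc w.1 (γ l) ^ (d - 1) = w.1 (grad d (fun I => algebraMap κ M (a I)) γ j) := by
          rw [hval, hj1, mul_one]
      _ ≤ _ := le_vmax w.1 _ j

end Pool.Agent.Lib.MP_44a246_ntS
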