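import Mathlib
import Pool.Agent.Lib.MP_44a246_nt.Chart
import Pool.Agent.Lib.MP_44a246_nt.Ram
import Pool.Agent.Lib.MP_e52354_nt.Machine

/-!
Derivations of a function field at one place.
-/

namespace Pool.Agent.Lib.MP_44a246_ntS

open Pool.Agent.Lib.MP_e52354_nt
open Pool.Agent.Lib.MP_44a246_nt
open WithZero Polynomial

section DerPlaceAux

variable {R K₀ M : Type*} [CommRing R] [IsDomain R] [IsPrincipalIdealRing R]
  [Field K₀] [CharZero K₀] [Algebra R K₀] [IsFractionRing R K₀]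
  [Field M] [Algebra R M] [Algebra K₀ M] [IsScalarTower R K₀ M] [FiniteDimensional K₀ M]

private theorem der_place_aux (v : Valuation M ℤᵐ⁰) (hvs : Function.Surjective v)
    (hv : ∀ ρ : R, v (algebraMap R M ρ) ≤ 1) (D : Derivation ℤ M M)
    (hst : ∀ x : K₀, ∃ y : K₀, D (algebraMap K₀ M x) = algebraMap K₀ M y)
    (hR : ∀ ρ : R, ∃ ρ' : R, D (algebraMap R M ρ) = algebraMap R M ρ')
    (C : Set M) (hC : ∀ c ∈ C, ∃ ρ : R, c = algebraMap R M ρ)
    (hres : ∀ y, v y ≤ 1 → ∃ c ∈ C, v (y - c) < 1) (hnat : ∀ k : ℕ, k ≠ 0 → v (k : M) = 1)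
    {y : M} (hy : v y ≤ 1) : v (D y) ≤ exp ((ramIdx K₀ v - 1 : ℕ) : ℤ) := by
  choose d hd using hst
  have hinj := (algebraMap K₀ M).injective
  let f : K₀ →+ K₀ :=
    { toFun := d
      map_zero' := by
        apply hinj
        rw [← hd, map_zero, map_zero]
      map_add' := by
        intro a b
        apply hinj
        rw [← hd, map_add, map_add, map_add, hd, hd] }
  let D₀ : Derivation ℤ K₀ K₀ := Derivation.mk' f.toIntLinearMap (by
    intro a b
    apply hinj
    change algebraMap K₀ M (d (a * b)) = algebraMap K₀ M (a • d b + b • d a)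
    rw [← hd, map_mul, Derivation.leibniz, hd, hd, smul_eq_mul, smul_eq_mul, smul_eq_mul,
      smul_eq_mul, map_add, map_mul, map_mul])
  have hext : ∀ y, D (algebraMap K₀ M y) = algebraMap K₀ M (D₀ y) := fun y => hd y
  obtain ⟨π, hπ⟩ := hvs (exp (-1 : ℤ))
  obtain ⟨s, hs⟩ := exists_ramIdx (K := K₀) v hvs
  have he := one_le_ramIdx (K := K₀) v hvs
  obtain ⟨h1, h2⟩ := chart_polar (K₀ := K₀) (K := K₀) v hv (fun _ : Unit => D₀) (fun _ : Unit => D)
    (fun _ => hext) (1 : R) (fun _ b hb => by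
      obtain ⟨ρ, rfl⟩ := IsIntegrallyClosed.isIntegral_iff.1 hb
      obtain ⟨ρ', hρ'⟩ := hR ρ
      have h8 : D₀ (algebraMap R K₀ ρ) = algebraMap R K₀ ρ' := by
        apply hinj
        rw [← hext, ← IsScalarTower.algebraMap_apply, ← IsScalarTower.algebraMap_apply]
        exact hρ'
      rw [h8, map_one, one_mul]
      exact isIntegral_algebraMap) C (fun c hc => by
      obtain ⟨ρ, rfl⟩ := hC c hc
      exact ⟨algebraMap R K₀ ρ, isIntegral_algebraMap, IsScalarTower.algebraMap_apply R K₀ M ρ⟩)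
    hres hnat hπ he hs
  obtain ⟨g, hg, h3⟩ := h1 y hy
  have h4 := h3 ()
  have h5 := h2 ()
  rw [map_one, one_mul, one_mul] at h4
  rw [map_one, one_mul] at h5
  have he' : ((ramIdx K₀ v - 1 : ℕ) : ℤ) = (ramIdx K₀ v : ℤ) - 1 := by
    rw [Nat.cast_sub he, Nat.cast_one]
  rw [he']
  have h6 : (1 : ℤᵐ⁰) ≤ exp ((ramIdx K₀ v : ℤ) - 1) := by
    rw [← exp_zero]
    exact exp_le_exp.mpr (by omega)
  have h7 : D y = (D y - g * D π) + g * D π := by ring
  rw [h7]
  refine (v.map_add _ _).trans (max_le (h4.trans h6) ?_)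
  rw [map_mul]
  calc v g * v (D π) ≤ 1 * exp ((ramIdx K₀ v : ℤ) - 1) := mul_le_mul' hg h5
    _ = _ := one_mul _

end DerPlaceAux

section

variable {κ M : Type*} [Field κ] [IsAlgClosed κ] [CharZero κ] [Field M] [Algebra κ M]
  [Algebra κ[X] M] [IsScalarTower κ κ[X] M]
  [Algebra (RatFunc κ) M] [IsScalarTower κ[X] (RatFunc κ) M]
  [Algebra (Rinf κ) M] [IsScalarTower (Rinf κ) (RatFunc κ) M]
  [FiniteDimensional (RatFunc κ) M]

/-- a derivation which preserves the constants and maps `X` to a constant: the pole of `D y` for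
`y` regular at the place `w` is at most the ramification index minus one -/
theorem der_place (w : Place κ M) (D : Derivation ℤ M M)
    (hκ : ∀ u : κ, ∃ u' : κ, D (algebraMap κ M u) = algebraMap κ M u')
    (hX : ∃ u : κ, D (algebraMap κ[X] M X) = algebraMap κ M u) {y : M} (hy : w.1 y ≤ 1) :
    w.1 (D y) ≤ exp ((ramIdx (RatFunc κ) w.1 - 1 : ℕ) : ℤ) := by
  -- `chart_polar` (file MP_44a246_nt/Chart.lean) with `K = K₀ = RatFunc κ`, `L = M`, `T = Unit`,
  -- `δ = 1` and `R = κ[X]` if `w X ≤ 1`, `R = Rinf κ` otherwise (`place_poly`, `place_rinf`), as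
  -- in the proof of `core` in MP_44a246_nt/Core.lean. First restrict `D` to `RatFunc κ`
  -- (`ratFunc_stable`: choose the values, linearity by injectivity of `algebraMap`).
  -- `IsIntegral R b` for `b : RatFunc κ` means `b ∈ R` (`IsIntegrallyClosed`), and `D` preserves
  -- `R` (`poly_stable`, `rinf_stable`). `C = Set.range (algebraMap κ M)`, `place_residue`,
  -- `exists_ramIdx`, `one_le_ramIdx`. Then `w (D y - g D π) ≤ 1` and `w (D π) ≤ exp (e - 1)`.
  have hcM : CharZero M := charZero_of_injective_algebraMap (algebraMap κ M).injective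
  have hc0 : CharZero (RatFunc κ) := charZero_RatFunc κ M
  -- the restriction of `D`
  have hst : ∀ x : RatFunc κ, ∃ y : RatFunc κ,
      D (algebraMap (RatFunc κ) M x) = algebraMap (RatFunc κ) M y := by
    intro x
    obtain ⟨y, hy, -⟩ := ratFunc_stable D hκ hX x
    exact ⟨y, hy⟩
  have hnat : ∀ k : ℕ, k ≠ 0 → w.1 (k : M) = 1 := by
    intro k hk
    have := w.2.2 (k : κ) (Nat.cast_ne_zero.mpr hk)
    rwa [map_natCast] at this
  have hres : ∀ y, w.1 y ≤ 1 → ∃ c ∈ Set.range (algebraMap κ M), w.1 (y - c) < 1 := by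
    intro y hy
    obtain ⟨c, hc⟩ := place_residue w hy
    exact ⟨_, ⟨c, rfl⟩, hc⟩
  by_cases hwX : w.1 (algebraMap κ[X] M X) ≤ 1
  · refine der_place_aux (R := κ[X]) (K₀ := RatFunc κ) w.1 w.2.1 (place_poly w hwX) D hst ?_
      (Set.range (algebraMap κ M)) ?_ hres hnat hy
    · intro ρ
      obtain ⟨ρ', hρ', -⟩ := poly_stable D hκ hX ρ
      exact ⟨ρ', hρ'⟩
    · rintro _ ⟨c, rfl⟩
      exact ⟨C c, by rw [IsScalarTower.algebraMap_apply κ κ[X] M]; rfl⟩
  · refine der_place_aux (R := Rinf κ) (K₀ := RatFunc κ) w.1 w.2.1 (place_rinf w hwX) D hst ?_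
      (Set.range (algebraMap κ M)) ?_ hres hnat hy
    · intro ρ
      exact rinf_stable D hκ hX ρ
    · rintro _ ⟨c, rfl⟩
      have hmem : algebraMap κ[X] (RatFunc κ) (C c) ∈ Rinf κ := by
        rw [mem_Rinf, RatFunc.intDegree_polynomial, natDegree_C]
        exact le_rfl
      refine ⟨⟨_, hmem⟩, ?_⟩
      rw [IsScalarTower.algebraMap_apply (Rinf κ) (RatFunc κ) M]
      change _ = algebraMap (RatFunc κ) M (algebraMap κ[X] (RatFunc κ) (C c))
      rw [← IsScalarTower.algebraMap_apply κ[X] (RatFunc κ) M,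
        IsScalarTower.algebraMap_apply κ κ[X] M]
      rfl

end

end Pool.Agent.Lib.MP_44a246_ntS
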