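import Mathlib
import Pool.Agent.Lib.MP_44a246_ntS.SP2

/-!
Derivations of a function field at one place.
-/

namespace Pool.Agent.Lib.MP_44a246_ntS

open Pool.Agent.Lib.MP_e52354_nt
open Pool.Agent.Lib.MP_44a246_nt
open WithZero Polynomial

section

variable {κ M : Type*} [Field κ] [IsAlgClosed κ] [CharZero κ] [Field M] [Algebra κ M]
  [Algebra κ[X] M] [IsScalarTower κ κ[X] M]
  [Algebra (RatFunc κ) M] [IsScalarTower κ[X] (RatFunc κ) M]
  [Algebra (Rinf κ) M] [IsScalarTower (Rinf κ) (RatFunc κ) M]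
  [FiniteDimensional (RatFunc κ) M]

/-- a derivation which preserves the constants, has bounded poles and kills a uniformiser of `w`
is regular at `w` -/
theorem der_int (w : Place κ M) (D : Derivation ℤ M M)
    (hκ : ∀ u : κ, ∃ u' : κ, D (algebraMap κ M u) = algebraMap κ M u')
    {N : ℕ} (hN : ∀ y, w.1 y ≤ 1 → w.1 (D y) ≤ exp (N : ℤ))
    {π : M} (hπ : w.1 π = exp (-1 : ℤ)) (h0 : D π = 0) {y : M} (hy : w.1 y ≤ 1) :
    w.1 (D y) ≤ 1 := by
  -- `polar_part` (file MP_44a246_nt/Polar.lean) with `T = Unit`, `C = Set.range (algebraMap κ M)`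
  obtain ⟨g, -, hg⟩ := polar_part w.1 (T := Unit) (Set.range (algebraMap κ M)) (by
      intro z hz
      obtain ⟨c, hc⟩ := place_residue w hz
      exact ⟨_, ⟨c, rfl⟩, hc⟩) (fun _ => D) (by
      rintro - _ ⟨c, rfl⟩
      obtain ⟨u', hu'⟩ := hκ c
      rw [hu']
      by_cases h : u' = 0
      · rw [h, map_zero, map_zero]; exact zero_le_one
      · exact (w.2.2 u' h).le) N (fun _ z hz => hN z hz) hπ y hy
  have h1 := hg ()
  rwa [h0, mul_zero, sub_zero] at h1

/-- a nonzero derivation over the constants does not kill a uniformiser -/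
theorem der_unif_ne (w : Place κ M) (D : Derivation ℤ M M)
    (hκ : ∀ u : κ, D (algebraMap κ M u) = 0) (hX : D (algebraMap κ[X] M X) = 1)
    {π : M} (hπ : w.1 π = exp (-1 : ℤ)) : D π ≠ 0 := by
  -- otherwise for every `c : M` the derivation `c • D` kills the constants and `π` and has bounded
  -- poles (`der_place`), so `w (c * D y) ≤ 1` for all `c` and all `y` with `w y ≤ 1` (`der_int`),
  -- so `D y = 0` (take `c = (D y)⁻¹ * z` with `w z > 1`). Apply this to `y = X` or `y = X⁻¹`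
  -- (`D X⁻¹ = - X⁻² D X`, `Derivation.leibniz_inv`).
  intro h0
  have key : ∀ c y : M, w.1 y ≤ 1 → w.1 (c * D y) ≤ 1 := by
    intro c y hy
    obtain ⟨N, hN⟩ : ∃ N : ℕ, w.1 c ≤ exp (N : ℤ) := by
      by_cases hc : w.1 c = 0
      · exact ⟨0, by rw [hc]; exact zero_le⟩
      · refine ⟨(log (w.1 c)).toNat, ?_⟩
        rw [← exp_log hc, exp_le_exp, log_exp]
        exact Int.self_le_toNat _
    have h1 := der_int w (c • D) (by
        intro u
        refine ⟨0, ?_⟩
        rw [Derivation.smul_apply, hκ, smul_zero, map_zero])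
      (N := N + (ramIdx (RatFunc κ) w.1 - 1)) (by
        intro z hz
        rw [Derivation.smul_apply, smul_eq_mul, map_mul]
        have h2 := der_place w D (fun u => ⟨0, by rw [hκ, map_zero]⟩)
          ⟨1, by rw [hX, map_one]⟩ hz
        calc w.1 c * w.1 (D z) ≤ exp (N : ℤ) * exp ((ramIdx (RatFunc κ) w.1 - 1 : ℕ) : ℤ) :=
              mul_le_mul' hN h2
          _ = _ := by rw [← exp_add]; push_cast; rfl) hπ (by
        rw [Derivation.smul_apply, h0, smul_zero]) hy
    rwa [Derivation.smul_apply, smul_eq_mul] at h1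
  have hπ0 : π ≠ 0 := by
    rintro rfl
    rw [map_zero] at hπ
    exact exp_ne_zero hπ.symm
  have hgt : ¬ w.1 π⁻¹ ≤ 1 := by
    rw [map_inv₀, hπ, ← exp_neg, ← exp_zero, exp_le_exp]
    omega
  by_cases hXv : w.1 (algebraMap κ[X] M X) ≤ 1
  · have h1 := key π⁻¹ _ hXv
    rw [hX, mul_one] at h1
    exact hgt h1
  · push Not at hXv
    have hX0 : algebraMap κ[X] M X ≠ 0 := by
      intro h
      rw [h, map_zero] at hXv
      exact absurd hXv (by simp)
    have h2 : w.1 (algebraMap κ[X] M X)⁻¹ ≤ 1 := by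
      rw [map_inv₀]
      exact inv_le_one_of_one_le₀ hXv.le
    have h3 := key (π⁻¹ * (algebraMap κ[X] M X) ^ 2) _ h2
    rw [Derivation.leibniz_inv, hX, smul_eq_mul, mul_one] at h3
    have h4 : π⁻¹ * (algebraMap κ[X] M X) ^ 2 * -(algebraMap κ[X] M X)⁻¹ ^ 2 = - π⁻¹ := by
      field_simp
    rw [h4, Valuation.map_neg] at h3
    exact hgt h3

end

end Pool.Agent.Lib.MP_44a246_ntS
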