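import Mathlib

/-!
Linear algebra for the vectors of a covering family of curves.
-/

namespace Pool.Agent.Lib.MP_44a246_ntS

open Module

/-- the square matrix with first row `r` and the other rows `a` -/
def consMat {M : Type*} {m : ℕ} (r : Fin (m + 3) → M) (a : Fin (m + 2) → Fin (m + 3) → M) :
    Matrix (Fin (m + 3)) (Fin (m + 3)) M :=
  Matrix.of (Fin.cons r a : Fin (m + 3) → Fin (m + 3) → M)

/-- if all the rows `a` are orthogonal to `g`, the determinant is a multiple of the product with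
`g` -/
theorem det_consMat {M : Type*} [Field M] {m : ℕ} (a : Fin (m + 2) → Fin (m + 3) → M)
    {g : Fin (m + 3) → M} (hg : g ≠ 0) (h : ∀ i, ∑ k, g k * a i k = 0) :
    ∃ lam : M, ∀ r, (consMat r a).det = lam * ∑ k, g k * r k := by
  -- choose `k₀` with `g k₀ ≠ 0`, `lam = (consMat (Pi.single k₀ 1) a).det / g k₀`. The matrix
  -- `N = consMat r a` satisfies `N.mulVec g = (∑ k, g k * r k) • Pi.single 0 1`; multiply with the
  -- adjugate: `N.det * g k₀ = N.adjugate k₀ 0 * ∑ k, g k * r k`, and `N.adjugate k₀ 0` is the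
  -- determinant of `N.updateRow 0 (Pi.single k₀ 1) = consMat (Pi.single k₀ 1) a`
  -- (`Matrix.adjugate_apply`).
  classical
  obtain ⟨k₀, hk₀⟩ : ∃ k, g k ≠ 0 := by
    by_contra hne
    push Not at hne
    exact hg (funext hne)
  refine ⟨(consMat (Pi.single k₀ 1) a).det / g k₀, fun r => ?_⟩
  set N := consMat r a with hN
  have h0 : ∀ k, N 0 k = r k := fun k => rfl
  have hs : ∀ i : Fin (m + 2), ∀ k, N i.succ k = a i k := fun i k => rfl
  have h1 : N.mulVec g = (∑ k, g k * r k) • (Pi.single 0 1 : Fin (m + 3) → M) := by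
    funext i
    refine Fin.cases ?_ (fun i => ?_) i
    · rw [Matrix.mulVec, dotProduct, Pi.smul_apply, Pi.single_eq_same, smul_eq_mul, mul_one]
      exact Finset.sum_congr rfl fun k _ => by rw [h0, mul_comm]
    · rw [Matrix.mulVec, dotProduct, Pi.smul_apply, Pi.single_eq_of_ne (Fin.succ_ne_zero i),
        smul_zero, ← h i]
      exact Finset.sum_congr rfl fun k _ => by rw [hs, mul_comm]
  have h2 : N.adjugate.mulVec (N.mulVec g) = N.det • g := by
    rw [Matrix.mulVec_mulVec, Matrix.adjugate_mul, Matrix.smul_mulVec, Matrix.one_mulVec]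
  have h3 : N.adjugate k₀ 0 = (consMat (Pi.single k₀ 1) a).det := by
    rw [Matrix.adjugate_apply]
    congr 1
    ext i k
    refine Fin.cases ?_ (fun i => ?_) i
    · rw [Matrix.updateRow_self]
      rfl
    · rw [Matrix.updateRow_ne (Fin.succ_ne_zero i), hs]
      rfl
  have h4 := congrFun h2 k₀
  rw [h1, Matrix.mulVec_smul, Pi.smul_apply, Matrix.mulVec_single_one, Pi.smul_apply] at h4
  have h5 : N.adjugate.col 0 k₀ = N.adjugate k₀ 0 := rfl
  rw [h5, h3, smul_eq_mul, smul_eq_mul] at h4
  rw [div_mul_eq_mul_div, eq_div_iff hk₀, ← h4, mul_comm]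

end Pool.Agent.Lib.MP_44a246_ntS
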