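import Mathlib
import Pool.Agent.Lib.MP_44a246_nt.LocalIneq
import Pool.Agent.Lib.MP_44a246_ntS.SP2b
import Pool.Agent.Lib.MP_44a246_ntS.SP3
import Pool.Agent.Lib.MP_44a246_ntS.Names

/-!
The two local estimates for a covering family of curves.
-/

namespace Pool.Agent.Lib.MP_44a246_ntS

open Pool.Agent.Lib.MP_e52354_nt
open Pool.Agent.Lib.MP_44a246_nt
open Pool.Agent.Lib.MP_44a246_ntL
open WithZero Polynomial

section

variable {κ M : Type*} [Field κ] [IsAlgClosed κ] [CharZero κ] [Field M] [Algebra κ M]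
  [Algebra κ[X] M] [IsScalarTower κ κ[X] M]
  [Algebra (RatFunc κ) M] [IsScalarTower κ[X] (RatFunc κ) M]
  [Algebra (Rinf κ) M] [IsScalarTower (Rinf κ) (RatFunc κ) M]
  [FiniteDimensional (RatFunc κ) M]

/-- the local estimate of the determinant -/
theorem wedge_place (w : Place κ M) {m : ℕ} (D : Derivation ℤ M M)
    (hκ : ∀ u : κ, D (algebraMap κ M u) = 0) (hX : D (algebraMap κ[X] M X) = 1)
    (E : Fin m → Derivation ℤ M M)
    (hEκ : ∀ i, ∀ u : κ, ∃ u' : κ, E i (algebraMap κ M u) = algebraMap κ M u')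
    (hEX : ∀ i, ∃ u : κ, E i (algebraMap κ[X] M X) = algebraMap κ M u)
    {γ : Fin (m + 3) → M} (hγ : γ ≠ 0) (j : Fin (m + 3)) :
    w.1 (consMat (Pi.single j 1)
        (Fin.cons γ (Fin.cons (fun k => D (γ k)) fun i k => E i (γ k)))).det ≤
      vmax w.1 γ ^ (m + 2) * exp ((ramIdx (RatFunc κ) w.1 - 1 : ℕ) : ℤ) := by
  -- `γ = fun k => γ l * q k`, `w (q k) ≤ 1`, `w (γ l) = vmax w γ` (`exists_vmax`). Row operations:
  -- the determinant is `γ l ^ (m + 2)` times the same determinant for `q` (rows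
  -- `D (γ k) = γ l * D (q k) + D (γ l) * q k`, subtract multiples of the row `γ`).
  -- Let `π` be a uniformiser (`w.2.1`), `E' i = E i - (E i π / D π) • D` (`der_unif_ne`); it kills
  -- `π`, preserves the constants and has bounded poles (`der_place` for `D` and `E i`), so
  -- `w (E' i (q k)) ≤ 1` (`der_int`). Replace the rows `E i (q k)` by `E' i (q k)`.
  -- The rows `Pi.single j 1`, `q`, `E' i q` have entries of value `≤ 1`, the row `D q` of value
  -- `≤ exp (e - 1)` (`der_place`): use `det_weights` (file MP_44a246_nt/Polar.lean).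
  obtain ⟨l, hl0, hlv, hlmax⟩ := exists_vmax w.1 hγ
  obtain ⟨π, hπ⟩ := w.2.1 (exp (-1 : ℤ))
  set e : ℕ := ramIdx (RatFunc κ) w.1 - 1 with he
  have hDκ : ∀ u : κ, ∃ u' : κ, D (algebraMap κ M u) = algebraMap κ M u' := fun u =>
    ⟨0, by rw [hκ u, map_zero]⟩
  have hDX : ∃ u : κ, D (algebraMap κ[X] M X) = algebraMap κ M u := ⟨1, by rw [hX, map_one]⟩
  have hDπ : D π ≠ 0 := der_unif_ne w D hκ hX hπ
  have hDp : ∀ y, w.1 y ≤ 1 → w.1 (D y) ≤ exp (e : ℤ) := fun y hy => der_place w D hDκ hDX hy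
  have hEp : ∀ i, ∀ y, w.1 y ≤ 1 → w.1 (E i y) ≤ exp (e : ℤ) := fun i y hy =>
    der_place w (E i) (hEκ i) (hEX i) hy
  -- the corrected derivations
  set c : Fin m → M := fun i => E i π / D π with hc
  set E' : Fin m → Derivation ℤ M M := fun i => E i - c i • D with hE'
  have hE'a : ∀ i y, E' i y = E i y - c i * D y := fun i y => rfl
  have hE'κ : ∀ i, ∀ u : κ, ∃ u' : κ, E' i (algebraMap κ M u) = algebraMap κ M u' := by
    intro i u
    obtain ⟨u', hu'⟩ := hEκ i u
    exact ⟨u', by rw [hE'a, hκ, mul_zero, sub_zero, hu']⟩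
  have hE'π : ∀ i, E' i π = 0 := by
    intro i
    rw [hE'a, hc]
    simp only
    rw [div_mul_cancel₀ _ hDπ, sub_self]
  have hE'p : ∀ i, ∀ y, w.1 y ≤ 1 → w.1 (E' i y) ≤ 1 := by
    intro i y hy
    have hcle : w.1 (c i) ≤ exp (((log (w.1 (c i))).toNat : ℕ) : ℤ) := by
      by_cases h0 : w.1 (c i) = 0
      · rw [h0]; exact zero_le
      · conv_lhs => rw [← exp_log h0]
        rw [exp_le_exp]
        exact Int.self_le_toNat _
    refine der_int w (E' i) (hE'κ i) (N := (log (w.1 (c i))).toNat + e) ?_ hπ (hE'π i) hy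
    intro z hz
    rw [hE'a]
    refine (w.1.map_sub _ _).trans (max_le ?_ ?_)
    · refine (hEp i z hz).trans ?_
      rw [exp_le_exp]
      push_cast
      have : (0 : ℤ) ≤ ((log (w.1 (c i))).toNat : ℤ) := Int.natCast_nonneg _
      linarith
    · rw [map_mul]
      refine (mul_le_mul' hcle (hDp z hz)).trans (le_of_eq ?_)
      rw [← exp_add]
      push_cast
      rfl
  -- the normalised vector
  set q : Fin (m + 3) → M := fun k => γ k / γ l with hq
  have hγq : ∀ k, γ k = γ l * q k := fun k => by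
    rw [hq]
    simp only
    rw [mul_div_cancel₀ _ hl0]
  have hvl : w.1 (γ l) ≠ 0 := (Valuation.ne_zero_iff w.1).mpr hl0
  have hqv : ∀ k, w.1 (q k) ≤ 1 := by
    intro k
    rw [hq]
    simp only
    rw [map_div₀]
    exact div_le_one_of_le₀ (hlmax k) zero_le
  -- the matrices
  set N : Matrix (Fin (m + 3)) (Fin (m + 3)) M := consMat (Pi.single j 1)
        (Fin.cons γ (Fin.cons (fun k => D (γ k)) fun i k => E i (γ k))) with hN
  set N₁ : Matrix (Fin (m + 3)) (Fin (m + 3)) M := consMat (Pi.single j 1)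
        (Fin.cons q (Fin.cons (fun k => (γ l)⁻¹ * D (γ k)) fun i k => (γ l)⁻¹ * E i (γ k)))
    with hN₁
  set N₂ : Matrix (Fin (m + 3)) (Fin (m + 3)) M := consMat (Pi.single j 1)
        (Fin.cons q (Fin.cons (fun k => D (q k)) fun i k => E i (q k))) with hN₂
  set N₃ : Matrix (Fin (m + 3)) (Fin (m + 3)) M := consMat (Pi.single j 1)
        (Fin.cons q (Fin.cons (fun k => D (q k)) fun i k => E' i (q k))) with hN₃
  have d1 : N.det = γ l ^ (m + 2) * N₁.det := by
    have h1 : N = Matrix.of fun i k =>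
        (Fin.cons 1 (fun _ => γ l) : Fin (m + 3) → M) i * N₁ i k := by
      ext i k
      refine Fin.cases ?_ (fun i => Fin.cases ?_ (fun i => Fin.cases ?_ (fun i => ?_) i) i) i
      · simp [hN, hN₁, consMat]
      · simp only [hN, hN₁, consMat, Matrix.of_apply, Fin.cons_succ, Fin.cons_zero]
        exact hγq k
      · simp only [hN, hN₁, consMat, Matrix.of_apply, Fin.cons_succ, Fin.cons_zero]
        rw [mul_inv_cancel_left₀ hl0]
      · simp only [hN, hN₁, consMat, Matrix.of_apply, Fin.cons_succ, Fin.cons_zero]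
        rw [mul_inv_cancel_left₀ hl0]
    rw [h1, Matrix.det_mul_column, Fin.prod_univ_succ]
    simp
  have hder : ∀ (F : Derivation ℤ M M) (k : Fin (m + 3)),
      (γ l)⁻¹ * F (γ k) = F (q k) + (γ l)⁻¹ * F (γ l) * q k := by
    intro F k
    conv_lhs => rw [hγq k]
    rw [Derivation.leibniz, smul_eq_mul, smul_eq_mul]
    field_simp
  have d2 : N₁.det = N₂.det := by
    refine Matrix.det_eq_of_forall_row_eq_smul_add_const
      (Fin.cons 0 (Fin.cons 0 (Fin.cons ((γ l)⁻¹ * D (γ l)) fun i => (γ l)⁻¹ * E i (γ l))) :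
        Fin (m + 3) → M) (Fin.succ 0) ?_ ?_
    · simp
    · intro i k
      refine Fin.cases ?_ (fun i => Fin.cases ?_ (fun i => Fin.cases ?_ (fun i => ?_) i) i) i
      · simp [hN₁, hN₂, consMat]
      · simp [hN₁, hN₂, consMat]
      · simp only [hN₁, hN₂, consMat, Matrix.of_apply, Fin.cons_succ, Fin.cons_zero]
        exact hder D k
      · simp only [hN₁, hN₂, consMat, Matrix.of_apply, Fin.cons_succ, Fin.cons_zero]
        exact hder (E i) k
  have d3 : N₂.det = N₃.det := by
    refine Matrix.det_eq_of_forall_row_eq_smul_add_const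
      (Fin.cons 0 (Fin.cons 0 (Fin.cons 0 c)) : Fin (m + 3) → M) (Fin.succ (Fin.succ 0)) ?_ ?_
    · rw [Fin.cons_succ, Fin.cons_succ, Fin.cons_zero]
    · intro i k
      refine Fin.cases ?_ (fun i => Fin.cases ?_ (fun i => Fin.cases ?_ (fun i => ?_) i) i) i
      · simp [hN₂, hN₃, consMat]
      · simp [hN₂, hN₃, consMat]
      · simp only [hN₂, hN₃, consMat, Matrix.of_apply, Fin.cons_succ, Fin.cons_zero, zero_mul,
          add_zero]
      · simp only [hN₂, hN₃, consMat, Matrix.of_apply, Fin.cons_succ, Fin.cons_zero]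
        rw [hE'a, sub_add_cancel]
  have d4 : w.1 N₃.det ≤ exp (e : ℤ) := by
    refine (det_weights w.1 N₃ (Fin.cons 1 (Fin.cons 1 (Fin.cons (exp (e : ℤ)) fun _ => 1)) :
      Fin (m + 3) → ℤᵐ⁰) (fun _ => 1) ?_).trans (le_of_eq ?_)
    · intro i k
      rw [mul_one]
      refine Fin.cases ?_ (fun i => Fin.cases ?_ (fun i => Fin.cases ?_ (fun i => ?_) i) i) i
      · simp only [hN₃, consMat, Matrix.of_apply, Fin.cons_zero]
        by_cases hk : k = j
        · subst hk
          rw [Pi.single_eq_same, map_one]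
        · rw [Pi.single_eq_of_ne hk, map_zero]
          exact zero_le
      · simp only [hN₃, consMat, Matrix.of_apply, Fin.cons_succ, Fin.cons_zero]
        exact hqv k
      · simp only [hN₃, consMat, Matrix.of_apply, Fin.cons_succ, Fin.cons_zero]
        exact hDp _ (hqv k)
      · simp only [hN₃, consMat, Matrix.of_apply, Fin.cons_succ, Fin.cons_zero]
        exact hE'p i _ (hqv k)
    · rw [Finset.prod_const_one, mul_one, Fin.prod_univ_succ, Fin.prod_univ_succ,
        Fin.prod_univ_succ]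
      simp only [Fin.cons_succ, Fin.cons_zero, one_mul, Finset.prod_const_one, mul_one]
  rw [d1, d2, d3, map_mul, map_pow, hlv]
  exact mul_le_mul' le_rfl d4

end

end Pool.Agent.Lib.MP_44a246_ntS
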