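import Mathlib
import Pool.Agent.Lib.MP_44a246_ntS.SP4
import Pool.Agent.Lib.MP_44a246_ntS.SP4b

/-!
A covering family of curves: the global inequality.
-/

namespace Pool.Agent.Lib.MP_44a246_ntS

open Pool.Agent.Lib.MP_e52354_nt
open Pool.Agent.Lib.MP_44a246_nt
open Pool.Agent.Lib.MP_44a246_ntL
open WithZero Polynomial

/-- Euler's relation -/
theorem grad_euler {σ M : Type*} [Fintype σ] [DecidableEq σ] [Field M] (d : ℕ)
    (a : (σ →₀ ℕ) → M) (p : σ → M) : ∑ j, grad d a p j * p j = d * Fval d a p := by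
  unfold grad Fval
  simp only [Finset.sum_mul]
  rw [Finset.sum_comm, Finset.mul_sum]
  refine Finset.sum_congr rfl fun I hI => ?_
  have h1 : ∀ j, a I * (I j : M) * mon p (I - Finsupp.single j 1) * p j =
      a I * ((I j : M) * mon p I) := by
    intro j
    rw [← mon_sub]
    ring
  rw [Finset.sum_congr rfl fun j _ => h1 j, ← Finset.mul_sum, ← Finset.sum_mul, ← Nat.cast_sum,
    ← Finsupp.degree_eq_sum, mem_expo.mp hI]
  ring

section

variable {κ M : Type*} [Field κ] [IsAlgClosed κ] [CharZero κ] [Field M] [Algebra κ M]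
  [Algebra κ[X] M] [IsScalarTower κ κ[X] M]
  [Algebra (RatFunc κ) M] [IsScalarTower κ[X] (RatFunc κ) M]
  [Algebra (Rinf κ) M] [IsScalarTower (Rinf κ) (RatFunc κ) M]
  [FiniteDimensional (RatFunc κ) M]

/-- **The global inequality.** -/
theorem wedge_global {m d : ℕ} (hd : 1 ≤ d) {a : (Fin (m + 3) →₀ ℕ) → κ}
    (hsm : ∀ u : Fin (m + 3) → κ, u ≠ 0 → ∃ j, grad d a u j ≠ 0) (D : Derivation ℤ M M)
    (hκ : ∀ u : κ, D (algebraMap κ M u) = 0) (hX : D (algebraMap κ[X] M X) = 1)
    (E : Fin m → Derivation ℤ M M)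
    (hEκ : ∀ i, ∀ u : κ, ∃ u' : κ, E i (algebraMap κ M u) = algebraMap κ M u')
    (hEX : ∀ i, ∃ u : κ, E i (algebraMap κ[X] M X) = algebraMap κ M u)
    (hEa : ∀ i, ∀ I ∈ expo (Fin (m + 3)) d, E i (algebraMap κ M (a I)) = 0)
    {γ : Fin (m + 3) → M} (hF : Fval d (fun I => algebraMap κ M (a I)) γ = 0)
    {r : Fin (m + 3) → M}
    (hdet : (consMat r (Fin.cons γ (Fin.cons (fun k => D (γ k)) fun i k => E i (γ k)))).det ≠ 0) :
    ((d : ℤ) - 1) * height κ γ ≤ (m + 2) * height κ γ + ramDeg κ M (RatFunc κ) := by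
  -- `g = grad d a γ` is orthogonal to `γ` (Euler) and to `D γ`, `E i γ` (`D_Fval`), and `g ≠ 0`
  -- (`vmax_grad`, `γ ≠ 0` because of `hdet`). `det_consMat`: `lam` with
  -- `(consMat r a).det = lam * ∑ g k * r k`, `lam ≠ 0`. For every place `w` and every `j`:
  -- `w lam * w (g j) = w (det (consMat (Pi.single j 1) a)) ≤ vmax w γ ^ (m + 2) * exp (e_w - 1)`
  -- (`wedge_place`), so `w lam * vmax w γ ^ (d - 1) ≤ vmax w γ ^ (m + 2) * exp (e_w - 1)`.
  -- Take logarithms and sum over all the places: `product_formula` for `lam`,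
  -- `ramIdx_finite`, `vmax_finite`, `place_finite` for the finiteness of the supports.
  classical
  set aM : (Fin (m + 3) →₀ ℕ) → M := fun I => algebraMap κ M (a I) with haM
  set g : Fin (m + 3) → M := grad d aM γ with hg
  set A : Fin (m + 2) → Fin (m + 3) → M :=
    Fin.cons γ (Fin.cons (fun k => D (γ k)) fun i k => E i (γ k)) with hA
  have hγ : γ ≠ 0 := by
    rintro rfl
    apply hdet
    refine Matrix.det_eq_zero_of_row_eq_zero (1 : Fin (m + 3)) fun k => ?_
    rfl
  rcases isEmpty_or_nonempty (Place κ M) with hemp | ⟨⟨w₀⟩⟩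
  · have h1 : height κ γ = 0 := by
      unfold height
      exact finsum_of_isEmpty _
    rw [h1, mul_zero, mul_zero, zero_add]
    exact Int.natCast_nonneg _
  have hvg : ∀ w : Place κ M, vmax w.1 g = vmax w.1 γ ^ (d - 1) := fun w =>
    vmax_grad w (fun y hy => place_residue w hy) hd hsm hγ
  have hvγ : ∀ w : Place κ M, vmax w.1 γ ≠ 0 := fun w h => hγ ((vmax_eq_zero_iff w.1).mp h)
  have hg0 : g ≠ 0 := by
    intro h
    have h1 := hvg w₀
    rw [(vmax_eq_zero_iff w₀.1).mpr h] at h1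
    exact pow_ne_zero _ (hvγ w₀) h1.symm
  -- orthogonality
  have horth : ∀ i, ∑ k, g k * A i k = 0 := by
    intro i
    refine Fin.cases ?_ (fun i => ?_) i
    · show ∑ k, g k * γ k = 0
      rw [hg, grad_euler, hF, mul_zero]
    · refine Fin.cases ?_ (fun i => ?_) i
      · show ∑ k, g k * D (γ k) = 0
        have h1 := D_Fval d aM D γ
        rw [hF, map_zero, Finset.sum_eq_zero (fun I _ => by
          rw [haM]; simp only; rw [hκ, zero_mul]), zero_add] at h1
        exact h1.symm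
      · show ∑ k, g k * E i (γ k) = 0
        have h1 := D_Fval d aM (E i) γ
        rw [hF, map_zero, Finset.sum_eq_zero (fun I hI => by
          rw [haM]; simp only; rw [hEa i I hI, zero_mul]), zero_add] at h1
        exact h1.symm
  obtain ⟨lam, hlam⟩ := det_consMat A hg0 horth
  have hlam0 : lam ≠ 0 := by
    rintro rfl
    apply hdet
    rw [hlam, zero_mul]
  -- the local estimate
  have hloc : ∀ w : Place κ M, log (w.1 lam) + ((d : ℤ) - 1) * log (vmax w.1 γ) ≤
      ((m : ℤ) + 2) * log (vmax w.1 γ) + ((ramIdx (RatFunc κ) w.1 - 1 : ℕ) : ℤ) := by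
    intro w
    obtain ⟨j, -, hj, -⟩ := exists_vmax w.1 hg0
    have h1 := wedge_place w D hκ hX E hEκ hEX hγ j
    have h2 : (consMat (Pi.single j 1) A).det = lam * g j := by
      rw [hlam]
      congr 1
      rw [Finset.sum_eq_single j]
      · rw [Pi.single_eq_same, mul_one]
      · intro k _ hk
        rw [Pi.single_eq_of_ne hk, mul_zero]
      · intro h
        exact absurd (Finset.mem_univ j) h
    rw [← hA, h2, map_mul, ← hj, hvg w] at h1
    have hl : w.1 lam ≠ 0 := (Valuation.ne_zero_iff w.1).mpr hlam0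
    have h3 := (log_le_log (mul_ne_zero hl (pow_ne_zero _ (hvγ w)))
      (mul_ne_zero (pow_ne_zero _ (hvγ w)) exp_ne_zero)).mpr h1
    rw [log_mul hl (pow_ne_zero _ (hvγ w)), log_mul (pow_ne_zero _ (hvγ w)) exp_ne_zero,
      log_pow, log_pow, log_exp, nsmul_eq_mul, nsmul_eq_mul, Nat.cast_sub hd] at h3
    push_cast at h3 ⊢
    linarith
  -- summation
  have htow : IsScalarTower κ (RatFunc κ) M := by
    refine IsScalarTower.of_algebraMap_eq fun c => ?_
    rw [IsScalarTower.algebraMap_apply κ κ[X] M, IsScalarTower.algebraMap_apply κ[X] (RatFunc κ) M,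
      ← IsScalarTower.algebraMap_apply κ κ[X] (RatFunc κ)]
  let P : Finset (Place κ M) := (vmax_finite hγ).toFinset ∪ (place_finite hlam0).toFinset ∪
    (ramIdx_finite (κ := κ) (K := RatFunc κ) (L := M)).toFinset
  have hP : ∀ v ∉ P, vmax v.1 γ = 1 ∧ v.1 lam = 1 ∧ ramIdx (RatFunc κ) v.1 = 1 := by
    intro v hv
    simp only [P, Finset.mem_union, Set.Finite.mem_toFinset, not_or, Set.mem_ofPred_eq,
      not_not] at hv
    exact ⟨hv.1.1, hv.1.2, hv.2⟩
  have hsum := Finset.sum_le_sum fun v (_ : v ∈ P) => hloc v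
  simp only [Finset.sum_add_distrib, ← Finset.mul_sum] at hsum
  have e1 : ∑ v ∈ P, log (v.1 lam) = 0 := by
    rw [← product_formula (κ := κ) hlam0]
    symm
    refine finsum_eq_sum_of_support_subset _ fun v hv => ?_
    by_contra hvP
    apply hv
    simp only
    rw [(hP v hvP).2.1, log_one]
  have e2 : ∑ v ∈ P, log (vmax v.1 γ) = height κ γ := by
    symm
    refine finsum_eq_sum_of_support_subset _ fun v hv => ?_
    by_contra hvP
    apply hv
    simp only
    rw [(hP v hvP).1, log_one]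
  have e4 : ∑ v ∈ P, ((ramIdx (RatFunc κ) v.1 - 1 : ℕ) : ℤ) = (ramDeg κ M (RatFunc κ) : ℤ) := by
    rw [← Nat.cast_sum]
    congr 1
    symm
    refine finsum_eq_sum_of_support_subset _ fun v hv => ?_
    by_contra hvP
    apply hv
    simp only
    rw [(hP v hvP).2.2, Nat.sub_self]
  rw [e1, e2, e4, zero_add] at hsum
  exact hsum

end

end Pool.Agent.Lib.MP_44a246_ntS
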