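import Mathlib
import Pool.Agent.Lib.MP_44a246_nt.DerivGen

/-!
Existence of derivations with prescribed values.
-/

namespace Pool.Agent.Lib.MP_44a246_ntS

open Pool.Agent.Lib.MP_e52354_nt
open Pool.Agent.Lib.MP_44a246_nt

/-- extension of a derivation of the constants to a function field of one variable, with a
prescribed value at a separating element -/
theorem exists_der_ext {κ M : Type*} [Field κ] [CharZero κ] [Field M] [Algebra κ M] {t : M}
    (ht : Transcendental κ t) (halg : Algebra.IsAlgebraic (IntermediateField.adjoin κ {t}) M)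
    (E₀ : Derivation ℤ κ κ) (m : M) :
    ∃ E : Derivation ℤ M M, (∀ u, E (algebraMap κ M u) = algebraMap κ M (E₀ u)) ∧ E t = m := by
  -- as in `exists_basis_ders'` (file MP_44a246_ntV/VBasis.lean), with `k₀ = ℚ`: a transcendence
  -- basis `x` of `κ` over `ℚ`, the transcendence basis `z = Sum.elim t x` of `M`; a derivation `E`
  -- with `E (z (inl ())) = m`, `E (z (inr b)) = algebraMap (E₀ (x b))` (`exists_derivation`);
  -- then `E ∘ algebraMap - algebraMap ∘ E₀` vanishes on `κ` (`der_eq_zero`).
  have hM : CharZero M := charZero_of_injective_algebraMap (algebraMap κ M).injective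
  have : IsScalarTower ℚ κ M := inferInstance
  obtain ⟨ι, x, hx⟩ := exists_isTranscendenceBasis' ℚ κ
  have hy : IsTranscendenceBasis κ (fun _ : Unit => t) := by
    have h1 : AlgebraicIndependent κ (fun _ : Unit => t) :=
      algebraicIndependent_unique_type_iff.mpr ht
    rw [h1.isTranscendenceBasis_iff_isAlgebraic, ← IntermediateField.isAlgebraic_adjoin_iff_top,
      Set.range_const]
    exact halg
  set z : Unit ⊕ ι → M := Sum.elim (fun _ => t) (algebraMap κ M ∘ x) with hz
  have hzb : IsTranscendenceBasis ℚ z := hx.sumElim_comp hy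
  have hxalg' : Algebra.IsAlgebraic (IntermediateField.adjoin ℚ (Set.range x)) κ :=
    hx.isAlgebraic_field
  have hzalg : Algebra.IsAlgebraic (Algebra.adjoin ℚ (Set.range z)) M := hzb.isAlgebraic
  obtain ⟨E, hE⟩ := exists_derivation hzb.1
    (Sum.elim (fun _ => m) fun b => algebraMap κ M (E₀ (x b)))
  let E₀' : Derivation ℚ κ κ := Derivation.mk' (E₀.toLinearMap.toAddMonoidHom.toRatLinearMap)
    (fun a b => Derivation.leibniz E₀ a b)
  have hE₀' : ∀ u, E₀' u = E₀ u := fun _ => rfl
  have key : ∀ u, E (algebraMap κ M u) = algebraMap κ M (E₀ u) := by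
    intro u
    have hu : IsAlgebraic (IntermediateField.adjoin ℚ (Set.range x)) u := hxalg'.isAlgebraic u
    have h1 := der_eq_zero (V := M) (E.compAlgebraMap κ -
      (Algebra.linearMap κ M).compDer E₀') (Set.range x) ?_ hu
    · rw [Derivation.sub_apply] at h1
      exact sub_eq_zero.mp h1
    · rintro _ ⟨i, rfl⟩
      have h2 := hE (Sum.inr i)
      rw [Derivation.sub_apply, sub_eq_zero]
      exact h2
  refine ⟨Derivation.mk' (E.toLinearMap.restrictScalars ℤ) (fun a b => Derivation.leibniz E a b),
    fun u => key u, ?_⟩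
  exact hE (Sum.inl ())

end Pool.Agent.Lib.MP_44a246_ntS
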