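import Mathlib
import Pool.Agent.Lib.MP_44a246_ntL.LFF

/-!
A covering family of curves: the global inequality.
-/

namespace Pool.Agent.Lib.MP_44a246_ntS

open Pool.Agent.Lib.MP_e52354_nt
open Pool.Agent.Lib.MP_44a246_nt
open Pool.Agent.Lib.MP_44a246_ntL
open WithZero Polynomial

private theorem sp5_const {κ M : Type*} [Field κ] [Field M] [Algebra κ M] (w : Place κ M) (c : κ) : w.1 (algebraMap κ M c) ≤ 1 := by
  by_cases h : c = 0
  · rw [h, map_zero, map_zero]; exact zero_le
  · exact (w.2.2 c h).le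

private theorem sp5_comb {κ M : Type*} [Field κ] [Field M] [Algebra κ M] {s : ℕ} (w : Place κ M) (γ : Fin s → M) (ξ : Fin s → κ) :
    w.1 (∑ k, algebraMap κ M (ξ k) * γ k) ≤ vmax w.1 γ := by
  refine Valuation.map_sum_le w.1 fun k _ => ?_
  rw [map_mul]
  calc w.1 (algebraMap κ M (ξ k)) * w.1 (γ k) ≤ 1 * vmax w.1 γ :=
        mul_le_mul' (sp5_const w _) (le_vmax w.1 γ k)
    _ = vmax w.1 γ := one_mul _

section

variable {κ M : Type*} [Field κ] [IsAlgClosed κ] [CharZero κ] [Field M] [Algebra κ M]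
  [Algebra κ[X] M] [IsScalarTower κ κ[X] M]
  [Algebra (RatFunc κ) M] [IsScalarTower κ[X] (RatFunc κ) M]
  [Algebra (Rinf κ) M] [IsScalarTower (Rinf κ) (RatFunc κ) M]
  [FiniteDimensional (RatFunc κ) M]

/-- the separating element has a pole -/
theorem exists_pole_X : ∃ w : Place κ M, 1 < w.1 (algebraMap κ[X] M X) := by
  by_contra hcon
  push Not at hcon
  have hX0 : algebraMap κ[X] (RatFunc κ) X ≠ 0 := by
    rw [ne_eq, FaithfulSMul.algebraMap_eq_zero_iff]
    exact X_ne_zero
  have hX : algebraMap κ[X] M X = algebraMap (RatFunc κ) M (algebraMap κ[X] (RatFunc κ) X) :=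
    IsScalarTower.algebraMap_apply κ[X] (RatFunc κ) M X
  have hXM : algebraMap κ[X] M X ≠ 0 := by
    rw [hX]
    exact (_root_.map_ne_zero _).mpr hX0
  have h1 := sum_infinite_places (κ := κ) hXM
  have h2 : ∑ᶠ v : Place κ M, (if v.1 (algebraMap κ[X] M X) ≤ 1 then (0 : ℤ) else
      - log (v.1 (algebraMap κ[X] M X))) = 0 := by
    exact (finsum_congr fun v => if_pos (hcon v)).trans finsum_zero
  rw [h2, hX, Algebra.norm_algebraMap, intDegree_pow' hX0, RatFunc.intDegree_polynomial,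
    natDegree_X] at h1
  have h3 : 0 < Module.finrank (RatFunc κ) M := Module.finrank_pos
  push_cast at h1
  omega

/-- a vector with a ratio equal to the separating element has positive height -/
theorem height_pos {s : ℕ} {γ : Fin s → M} (hγ : γ ≠ 0) {ξ₀ ξ₁ : Fin s → κ}
    (h0 : ∑ k, algebraMap κ M (ξ₀ k) * γ k ≠ 0)
    (h1 : ∑ k, algebraMap κ M (ξ₁ k) * γ k =
      algebraMap κ[X] M X * ∑ k, algebraMap κ M (ξ₀ k) * γ k) :
    0 < height κ γ := by
  classical
  obtain ⟨w₀, hw₀⟩ := exists_pole_X (κ := κ) (M := M)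
  set β := ∑ k, algebraMap κ M (ξ₀ k) * γ k with hβ
  have hle : ∀ w : Place κ M, w.1 β ≤ vmax w.1 γ := fun w => sp5_comb w γ ξ₀
  have hle' : ∀ w : Place κ M, w.1 (algebraMap κ[X] M X) * w.1 β ≤ vmax w.1 γ := fun w => by
    rw [← map_mul, ← h1]
    exact sp5_comb w γ ξ₁
  have hβw : ∀ w : Place κ M, w.1 β ≠ 0 := fun w => (Valuation.ne_zero_iff w.1).mpr h0
  have hγw : ∀ w : Place κ M, vmax w.1 γ ≠ 0 := fun w h =>
    hβw w (le_zero_iff.mp (h ▸ hle w))
  set P : Finset (Place κ M) := insert w₀ ((place_finite h0).toFinset ∪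
    (vmax_finite hγ).toFinset) with hP
  have hs1 : Function.support (fun v : Place κ M => log (v.1 β)) ⊆ (P : Set (Place κ M)) := by
    intro v hv
    rw [hP, Finset.coe_insert, Finset.coe_union, Set.Finite.coe_toFinset]
    right; left
    intro h2
    apply hv
    simp only
    rw [h2, log_one]
  have hs2 : Function.support (fun v : Place κ M => log (vmax v.1 γ)) ⊆
      (P : Set (Place κ M)) := by
    intro v hv
    rw [hP, Finset.coe_insert, Finset.coe_union, Set.Finite.coe_toFinset, Set.Finite.coe_toFinset]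
    right; right
    intro h2
    apply hv
    simp only
    rw [h2, log_one]
  have hpf : (0 : ℤ) = ∑ᶠ v : Place κ M, log (v.1 β) := (product_formula h0).symm
  rw [hpf, height, finsum_eq_sum_of_support_subset _ hs1, finsum_eq_sum_of_support_subset _ hs2]
  refine Finset.sum_lt_sum (fun v _ => (log_le_log (hβw v) (hγw v)).mpr (hle v))
    ⟨w₀, Finset.mem_insert_self _ _, ?_⟩
  refine (log_lt_log (hβw w₀) (hγw w₀)).mpr (lt_of_lt_of_le ?_ (hle' w₀))
  have hpos : 0 < w₀.1 β := zero_lt_iff.mpr (hβw w₀)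
  calc w₀.1 β = 1 * w₀.1 β := (one_mul _).symm
    _ < w₀.1 (algebraMap κ[X] M X) * w₀.1 β := mul_lt_mul_of_pos_right hw₀ hpos

end

end Pool.Agent.Lib.MP_44a246_ntS
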