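import Mathlib
import Pool.Agent.Lib.MP_44a246_ntL.LFF

/-!
A covering family of curves: the global inequality.
-/

namespace Pool.Agent.Lib.MP_44a246_ntS

open Pool.Agent.Lib.MP_e52354_nt
open Pool.Agent.Lib.MP_44a246_nt
open Pool.Agent.Lib.MP_44a246_ntL
open WithZero Polynomial

section

set_option linter.unusedSectionVars false

variable {κ M : Type*} [Field κ] [IsAlgClosed κ] [CharZero κ] [Field M] [Algebra κ M]
  [Algebra κ[X] M] [IsScalarTower κ κ[X] M]
  [Algebra (RatFunc κ) M] [IsScalarTower κ[X] (RatFunc κ) M]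
  [Algebra (Rinf κ) M] [IsScalarTower (Rinf κ) (RatFunc κ) M]
  [FiniteDimensional (RatFunc κ) M]

/-- the field of rational functions is a function field of one variable -/
theorem sp5b_isFF (κ : Type*) [Field κ] : IsFF κ (RatFunc κ) := by
  refine ⟨RatFunc.X, RatFunc.transcendental_X, ?_⟩
  rw [RatFunc.adjoin_X]
  refine Module.Finite.of_surjective (LinearMap.toSpanSingleton
    (⊤ : IntermediateField κ (RatFunc κ)) (RatFunc κ) 1) fun x => ?_
  refine ⟨⟨x, IntermediateField.mem_top⟩, ?_⟩
  rw [LinearMap.toSpanSingleton_apply]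
  change x * 1 = x
  exact mul_one x

/-- the ramification of the field generated by the ratios of `γ` -/
theorem ram_le {s : ℕ} {γ : Fin (s + 1) → M} (hγ : γ ≠ 0)
    (hgen : pointField (RatFunc κ) γ = ⊤) :
    (ramDeg κ M (RatFunc κ) : ℤ) ≤ 2 * ((Module.finrank (RatFunc κ) M : ℤ) - 1) * height κ γ := by
  have t : IsScalarTower κ (RatFunc κ) M := by
    refine IsScalarTower.of_algebraMap_eq fun u => ?_
    rw [IsScalarTower.algebraMap_apply κ κ[X] M, IsScalarTower.algebraMap_apply κ κ[X] (RatFunc κ),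
      ← IsScalarTower.algebraMap_apply κ[X] (RatFunc κ) M]
  exact (sp5b_isFF κ).ram_point γ hγ hgen

end

end Pool.Agent.Lib.MP_44a246_ntS
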