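import Mathlib
import Pool.Agent.Lib.MP_e52354_nt.RInf

/-!
The function field of a plane curve.
-/

namespace Pool.Agent.Lib.MP_44a246_ntS

open Pool.Agent.Lib.MP_e52354_nt
open Polynomial

universe u

/-- the function field of the plane curve `f = 0`, with all the algebra structures used for its
places -/
theorem with_curve {κ : Type u} [Field κ] {f : κ[X][X]} (hf : Irreducible f)
    (hdeg : 0 < f.natDegree) {P : Prop}
    (h : ∀ (M : Type u) (_ : Field M) (_ : Algebra κ M) (_ : Algebra κ[X] M)
      (_ : IsScalarTower κ κ[X] M) (_ : Algebra (RatFunc κ) M)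
      (_ : IsScalarTower κ[X] (RatFunc κ) M) (_ : Algebra (Rinf κ) M)
      (_ : IsScalarTower (Rinf κ) (RatFunc κ) M) (_ : FiniteDimensional (RatFunc κ) M) (y : M),
      (∀ G : κ[X][X], aeval y G = 0 ↔ f ∣ G) →
      IntermediateField.adjoin (RatFunc κ) {y} = ⊤ →
      Module.finrank (RatFunc κ) M = f.natDegree →
      Transcendental κ (algebraMap κ[X] M X) →
      Algebra.IsAlgebraic (IntermediateField.adjoin κ {algebraMap κ[X] M X}) M → P) : P := by
  -- `g = f.map (algebraMap κ[X] (RatFunc κ))` is irreducible (Gauss: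
  -- `IsPrimitive.irreducible_iff_irreducible_map_fraction_map`; `f` is primitive as it is
  -- irreducible of positive degree: `Irreducible.isPrimitive`). `M = AdjoinRoot g`,
  -- `y = AdjoinRoot.root g`; the algebra structures over `κ`, `κ[X]`, `Rinf κ` are the
  -- compositions with `algebraMap (RatFunc κ) M` (as in MP_44a246_nt/RamPoint.lean, `.toAlgebra`).
  -- `aeval y G = 0` iff `g ∣ G.map _` (`AdjoinRoot.mk_eq_zero`, `AdjoinRoot.aeval_eq`) iff `f ∣ G`
  -- (`IsPrimitive.dvd_iff_fraction_map_dvd_fraction_map`).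
  -- Dimension: `AdjoinRoot.powerBasis`. Generation: `AdjoinRoot.adjoinRoot_eq_top` or the power
  -- basis. `X` is transcendental over `κ` in `RatFunc κ` and `algebraMap (RatFunc κ) M` is
  -- injective; `M` is finite over `RatFunc κ = κ(X)`, every element of which is a quotient of
  -- polynomials in `X`.
  classical
  have hprim : f.IsPrimitive := hf.isPrimitive hdeg.ne'
  set g : (RatFunc κ)[X] := f.map (algebraMap κ[X] (RatFunc κ)) with hg
  have hgirr : Irreducible g :=
    (hprim.irreducible_iff_irreducible_map_fraction_map (K := RatFunc κ)).mp hf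
  have : Fact (Irreducible g) := ⟨hgirr⟩
  have hg0 : g ≠ 0 := hgirr.ne_zero
  have hnd : g.natDegree = f.natDegree :=
    natDegree_map_eq_of_injective (IsFractionRing.injective κ[X] (RatFunc κ)) f
  have hinj : Function.Injective (algebraMap (RatFunc κ) (AdjoinRoot g)) :=
    (algebraMap (RatFunc κ) (AdjoinRoot g)).injective
  have hmap : algebraMap κ[X] (AdjoinRoot g) =
      (algebraMap (RatFunc κ) (AdjoinRoot g)).comp (algebraMap κ[X] (RatFunc κ)) :=
    IsScalarTower.algebraMap_eq _ _ _
  have hinj2 : Function.Injective (algebraMap κ[X] (AdjoinRoot g)) := by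
    rw [hmap]
    exact hinj.comp (IsFractionRing.injective κ[X] (RatFunc κ))
  have hfin : FiniteDimensional (RatFunc κ) (AdjoinRoot g) := (AdjoinRoot.powerBasis hg0).finite
  refine h (AdjoinRoot g) inferInstance inferInstance inferInstance inferInstance inferInstance
    inferInstance inferInstance inferInstance hfin (AdjoinRoot.root g) ?_ ?_ ?_ ?_ ?_
  · intro G
    rw [← aeval_map_algebraMap (RatFunc κ), AdjoinRoot.aeval_eq, AdjoinRoot.mk_eq_zero]
    exact (hprim.dvd_iff_fraction_map_dvd_fraction_map (RatFunc κ)).symm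
  · exact IntermediateField.adjoin_eq_top_of_algebra _ _ AdjoinRoot.adjoinRoot_eq_top
  · rw [(AdjoinRoot.powerBasis hg0).finrank, AdjoinRoot.powerBasis_dim, hnd]
  · exact (transcendental_algebraMap_iff hinj2).mpr (transcendental_X κ)
  · set x : AdjoinRoot g := algebraMap κ[X] (AdjoinRoot g) X with hx
    refine ⟨fun z => ?_⟩
    have h1 : IsAlgebraic (RatFunc κ) z := Algebra.IsAlgebraic.isAlgebraic z
    have h2 : IsAlgebraic κ[X] z := (IsFractionRing.isAlgebraic_iff κ[X] (RatFunc κ) _).mpr h1
    obtain ⟨Q, hQ0, hQ⟩ := h2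
    let F := IntermediateField.adjoin κ {x}
    let ξ : F := IntermediateField.AdjoinSimple.gen κ x
    let φ : κ[X] →+* F := (aeval ξ : κ[X] →ₐ[κ] F).toRingHom
    have hφ : (algebraMap F (AdjoinRoot g)).comp φ = algebraMap κ[X] (AdjoinRoot g) := by
      refine RingHom.ext fun p => ?_
      have e1 : algebraMap F (AdjoinRoot g) (aeval ξ p) = aeval (algebraMap F (AdjoinRoot g) ξ) p :=
        (aeval_algebraMap_apply (AdjoinRoot g) ξ p).symm
      have e2 : algebraMap F (AdjoinRoot g) ξ = x := rfl
      have e3 : aeval x p = algebraMap κ[X] (AdjoinRoot g) p := by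
        rw [hx, aeval_algebraMap_apply, aeval_X_left_apply]
      rw [e2, e3] at e1
      exact e1
    have hφinj : Function.Injective φ := by
      have : Function.Injective ((algebraMap F (AdjoinRoot g)).comp φ) := by
        rw [hφ]; exact hinj2
      exact Function.Injective.of_comp (f := algebraMap F (AdjoinRoot g)) this
    refine ⟨Q.map φ, (Polynomial.map_ne_zero_iff hφinj).mpr hQ0, ?_⟩
    rw [aeval_def, eval₂_map, hφ]
    exact hQ

end Pool.Agent.Lib.MP_44a246_ntS
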