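import Mathlib
import Pool.Agent.Lib.MP_44a246_ntS.SP3

/-!
Linear algebra for the vectors of a covering family of curves.
-/

namespace Pool.Agent.Lib.MP_44a246_ntS

open Module

/-- one of the vectors `w` can be removed -/
theorem exists_remove {κ : Type*} [Field κ] {m : ℕ} {v₀ v₁ : Fin (m + 3) → κ}
    {w : Fin (m + 1) → Fin (m + 3) → κ} (h01 : LinearIndependent κ ![v₀, v₁])
    (hr : m + 2 ≤ finrank κ (Submodule.span κ (insert v₀ (insert v₁ (Set.range w))))) :
    ∃ (i₀ : Fin (m + 1)) (r : Fin (m + 3) → κ),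
      (consMat r (Fin.cons v₀ (Fin.cons v₁ fun i => w (i₀.succAbove i)))).det ≠ 0 := by
  -- the images of the `w i` in the quotient by `span {v₀, v₁}` (dimension `m + 1`) span a space of
  -- dimension at least `m`, so a subfamily of `m` of them is independent there: the `w i` with
  -- `i ≠ i₀`. Then `v₀, v₁, w i (i ≠ i₀)` are independent (`m + 2` vectors), and there is a vector
  -- `r` outside of their span. (`Matrix.linearIndependent_rows_iff_isUnit`,
  -- `linearIndependent_fin_cons`)
  classical
  set f : Fin (m + 3) → (Fin (m + 3) → κ) := Fin.cons v₀ (Fin.cons v₁ w) with hf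
  have hf0 : f 0 = v₀ := rfl
  have hf1 : f 1 = v₁ := rfl
  have hf2 : ∀ i : Fin (m + 1), f i.succ.succ = w i := fun i => rfl
  have hf01 : LinearIndepOn κ f {0, 1} := by
    rw [LinearIndepOn.pair_iff (i := 0) (j := 1) f (by simp), hf0, hf1]
    exact LinearIndependent.pair_iff.1 h01
  obtain ⟨b, -, hb1, hb2, hb3⟩ := exists_linearIndepOn_extension hf01 (Set.subset_univ _)
  have hcard : m + 2 ≤ Fintype.card b := by
    have h1 : finrank κ (Submodule.span κ (f '' b)) = Fintype.card b := by
      rw [Set.image_eq_range]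
      exact finrank_span_eq_card hb3
    rw [← h1]
    refine hr.trans (Submodule.finrank_mono (Submodule.span_le.2 ?_))
    intro x hx
    apply hb2
    rw [Set.image_univ]
    rcases hx with rfl | rfl | ⟨i, rfl⟩
    · exact ⟨0, hf0⟩
    · exact ⟨1, hf1⟩
    · exact ⟨i.succ.succ, hf2 i⟩
  obtain ⟨i₀, hi₀⟩ : ∃ i₀ : Fin (m + 1), ∀ j, j ≠ i₀.succ.succ → j ∈ b := by
    by_cases hall : ∀ j, j ∈ b
    · exact ⟨0, fun j _ => hall j⟩
    · push Not at hall
      obtain ⟨j₀, hj₀⟩ := hall
      have h0 : j₀ ≠ 0 := fun h => hj₀ (h ▸ hb1 (by simp))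
      have h1 : j₀ ≠ 1 := fun h => hj₀ (h ▸ hb1 (by simp))
      obtain ⟨j₁, rfl⟩ := Fin.exists_succ_eq.2 h0
      have h2 : j₁ ≠ 0 := by
        rintro rfl
        exact h1 rfl
      obtain ⟨i₀, rfl⟩ := Fin.exists_succ_eq.2 h2
      refine ⟨i₀, fun j hj => ?_⟩
      by_contra hjb
      have h3 : Fintype.card b + 2 ≤ m + 3 := by
        have h4 : b.toFinset ∪ {i₀.succ.succ, j} ⊆ (Finset.univ : Finset (Fin (m + 3))) :=
          Finset.subset_univ _
        have h5 := Finset.card_le_card h4
        rw [Finset.card_univ, Fintype.card_fin, Finset.card_union_of_disjoint,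
          Finset.card_pair hj.symm, Set.toFinset_card] at h5
        · exact h5
        · rw [Finset.disjoint_right]
          intro x hx hxb
          rw [Set.mem_toFinset] at hxb
          rw [Finset.mem_insert, Finset.mem_singleton] at hx
          rcases hx with rfl | rfl
          · exact hj₀ hxb
          · exact hjb hxb
      omega
  set g : Fin (m + 2) → (Fin (m + 3) → κ) := Fin.cons v₀ (Fin.cons v₁ fun i => w (i₀.succAbove i))
    with hg
  have hgf : g = f ∘ (i₀.succ.succ).succAbove := by
    funext j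
    refine Fin.cases ?_ (fun j => Fin.cases ?_ (fun j => ?_) j) j
    · rfl
    · rw [Function.comp_apply, Fin.succ_succAbove_succ, Fin.succ_succAbove_zero]
      rfl
    · rw [Function.comp_apply, Fin.succ_succAbove_succ, Fin.succ_succAbove_succ]
      rfl
  have hgli : LinearIndependent κ g := by
    rw [hgf]
    have h1 : LinearIndependent κ (fun i : b => f i) := hb3
    exact h1.comp (fun j => (⟨(i₀.succ.succ).succAbove j, hi₀ _ (Fin.succAbove_ne _ _)⟩ : b))
      (fun a a' haa => Fin.succAbove_right_injective (congrArg Subtype.val haa))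
  obtain ⟨r, hrr⟩ : ∃ r, r ∉ Submodule.span κ (Set.range g) := by
    by_contra hall
    push Not at hall
    have h1 : Submodule.span κ (Set.range g) = ⊤ := Submodule.eq_top_iff'.2 hall
    have h2 := finrank_span_eq_card hgli
    rw [h1, finrank_top, Module.finrank_fintype_fun_eq_card, Fintype.card_fin, Fintype.card_fin] at h2
    omega
  refine ⟨i₀, r, ?_⟩
  have h1 : LinearIndependent κ (Fin.cons r g : Fin (m + 3) → (Fin (m + 3) → κ)) :=
    linearIndependent_finCons.2 ⟨hgli, hrr⟩
  have h2 : IsUnit (consMat r g) := Matrix.linearIndependent_rows_iff_isUnit.1 h1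
  have h3 := (Matrix.isUnit_iff_isUnit_det _).1 h2
  exact h3.ne_zero

end Pool.Agent.Lib.MP_44a246_ntS
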