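import Mathlib

/-!
Polynomials in two variables: derivations of the coefficients and the chain rule.
-/

namespace Pool.Agent.Lib.MP_44a246_ntS

open Polynomial

section

variable {A B : Type*} [CommRing A] [CommRing B]

/-- the derivation of the coefficients -/
noncomputable def mc (δ : Derivation ℤ A A) : Derivation ℤ A[X] A[X] :=
  PolynomialModule.equivPolynomialSelf.compDer δ.mapCoeffs

theorem mc_coeff (δ : Derivation ℤ A A) (p : A[X]) (i : ℕ) : (mc δ p).coeff i = δ (p.coeff i) := rfl

theorem mc_monomial (δ : Derivation ℤ A A) (n : ℕ) (x : A) :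
    mc δ (monomial n x) = monomial n (δ x) := by
  ext i
  rw [mc_coeff, coeff_monomial, coeff_monomial]
  split_ifs
  · rfl
  · exact map_zero δ

theorem mc_C (δ : Derivation ℤ A A) (x : A) : mc δ (C x) = C (δ x) := by
  rw [← monomial_zero_left, mc_monomial, monomial_zero_left]

theorem mc_X (δ : Derivation ℤ A A) : mc δ (X : A[X]) = 0 := by
  rw [← monomial_one_one_eq_X, mc_monomial, Derivation.map_one_eq_zero, monomial_zero_right]

/-- the chain rule -/
theorem der_eval₂ (ψ : A →+* B) (δ₁ δ₂ : Derivation ℤ A A) (E : Derivation ℤ B B) (e : B)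
    (h : ∀ a, E (ψ a) = ψ (δ₁ a) + ψ (δ₂ a) * e) (x : B) (p : A[X]) :
    E (eval₂ ψ x p) = eval₂ ψ x (mc δ₁ p) + eval₂ ψ x (mc δ₂ p) * e +
      eval₂ ψ x (derivative p) * E x := by
  induction p using Polynomial.induction_on' with
  | add p q hp hq =>
    simp only [map_add, eval₂_add, hp, hq]
    ring
  | monomial n a =>
    rw [mc_monomial, mc_monomial, eval₂_monomial, eval₂_monomial, eval₂_monomial,
      derivative_monomial, eval₂_monomial, Derivation.leibniz, Derivation.leibniz_pow, h]
    simp only [smul_eq_mul, nsmul_eq_mul, map_mul, map_natCast]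
    ring

end

section

variable {κ B : Type*} [CommRing κ] [CommRing B]

/-- evaluation of a polynomial in two variables: the inner variable is `s`, the outer one `t` -/
noncomputable def ev (φ : κ →+* B) (s t : B) : κ[X][X] →+* B :=
  eval₂RingHom (eval₂RingHom φ s) t

theorem ev_apply (φ : κ →+* B) (s t : B) (G : κ[X][X]) :
    ev φ s t G = eval₂ (eval₂RingHom φ s) t G := rfl

theorem ev_C_C (φ : κ →+* B) (s t : B) (c : κ) : ev φ s t (C (C c)) = φ c := by
  rw [ev_apply, eval₂_C]
  exact eval₂_C _ _

theorem ev_C_X (φ : κ →+* B) (s t : B) : ev φ s t (C X) = s := by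
  rw [ev_apply, eval₂_C]
  exact eval₂_X _ _

theorem ev_X (φ : κ →+* B) (s t : B) : ev φ s t X = t := by
  rw [ev_apply, eval₂_X]

/-- evaluation in the ring itself -/
theorem ev_id (s t : κ) (G : κ[X][X]) : ev (RingHom.id κ) s t G = G.evalEval s t := by
  induction G using Polynomial.induction_on' with
  | add p q hp hq => rw [map_add, hp, hq, evalEval_add]
  | monomial n a =>
    rw [ev_apply, eval₂_monomial, ← C_mul_X_pow_eq_monomial, evalEval_mul, evalEval_pow, evalEval_X,
      evalEval_C]
    rfl

/-- evaluation in an algebra over the ring of polynomials in the inner variable -/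
theorem ev_aeval {M : Type*} [CommRing M] [Algebra κ M] [Algebra κ[X] M] [IsScalarTower κ κ[X] M]
    (y : M) (G : κ[X][X]) :
    ev (algebraMap κ M) (algebraMap κ[X] M X) y G = aeval y G := by
  have h : eval₂RingHom (algebraMap κ M) (algebraMap κ[X] M X) = algebraMap κ[X] M := by
    apply Polynomial.ringHom_ext
    · intro c
      rw [coe_eval₂RingHom, eval₂_C, IsScalarTower.algebraMap_apply κ κ[X] M]
      rfl
    · rw [coe_eval₂RingHom, eval₂_X]
  rw [ev_apply, h, aeval_def]

/-- the derivation with respect to the inner variable -/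
noncomputable def cX (κ : Type*) [CommRing κ] : Derivation ℤ κ[X][X] κ[X][X] :=
  mc (derivative'.restrictScalars ℤ)

/-- the derivation of the coefficients -/
noncomputable def cE (E₀ : Derivation ℤ κ κ) : Derivation ℤ κ[X][X] κ[X][X] := mc (mc E₀)

/-- the derivation with respect to the outer variable -/
noncomputable def cY (κ : Type*) [CommRing κ] : Derivation ℤ κ[X][X] κ[X][X] :=
  derivative'.restrictScalars ℤ

theorem cY_apply (G : κ[X][X]) : cY κ G = derivative G := rfl

theorem cX_C_X : cX κ (C X) = 1 := by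
  show mc _ (C X) = 1
  rw [mc_C]
  show C (derivative X) = (1 : κ[X][X])
  rw [derivative_X, C_1]

theorem cY_C (q : κ[X]) : cY κ (C q) = 0 := by
  rw [cY_apply, derivative_C]

theorem cX_C_C (c : κ) : cX κ (C (C c)) = 0 := by
  show mc _ (C (C c)) = 0
  rw [mc_C]
  show C (derivative (C c)) = (0 : κ[X][X])
  rw [derivative_C, C_0]

theorem cX_X : cX κ X = 0 := mc_X _

theorem cE_X (E₀ : Derivation ℤ κ κ) : cE E₀ X = 0 := mc_X _

theorem cE_C_X (E₀ : Derivation ℤ κ κ) : cE E₀ (C X) = 0 := by
  show mc _ (C X) = 0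
  rw [mc_C]
  exact (congrArg C (mc_X E₀)).trans C_0

theorem cE_C_C (E₀ : Derivation ℤ κ κ) (c : κ) : cE E₀ (C (C c)) = C (C (E₀ c)) := by
  show mc _ (C (C c)) = _
  rw [mc_C]
  exact congrArg C (mc_C E₀ c)

/-- the chain rule for polynomials in two variables -/
theorem ev_chain (φ : κ →+* B) (E₀ : Derivation ℤ κ κ) (E : Derivation ℤ B B)
    (h : ∀ c, E (φ c) = φ (E₀ c)) (s t : B) (G : κ[X][X]) :
    E (ev φ s t G) = ev φ s t (cE E₀ G) + ev φ s t (cX κ G) * E s + ev φ s t (cY κ G) * E t := by
  refine der_eval₂ _ (mc E₀) (derivative'.restrictScalars ℤ) E (E s) (fun q => ?_) t G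
  have h1 := der_eval₂ φ E₀ 0 E 0 (fun c => by simp [h]) s q
  rw [mul_zero, add_zero] at h1
  exact h1

end

end Pool.Agent.Lib.MP_44a246_ntS
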