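import Mathlib
import Pool.Agent.Lib.MP_44a246_ntS.SP3b
import Pool.Agent.Lib.MP_44a246_ntS.SP7

/-!
The vector fields tangent to a plane curve, and the independence of the derivatives at a point.
-/

namespace Pool.Agent.Lib.MP_44a246_ntS

open Polynomial Module

section

variable {κ B : Type*} [CommRing κ] [CommRing B]

/-- the vector field tangent to the curve `A = 0` attached to a derivation -/
noncomputable def vf (A : κ[X][X]) (δ : Derivation ℤ κ[X][X] κ[X][X]) :
    Derivation ℤ κ[X][X] κ[X][X] :=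
  (derivative A) • δ - (δ A) • cY κ

theorem vf_apply (A : κ[X][X]) (δ : Derivation ℤ κ[X][X] κ[X][X]) (G : κ[X][X]) :
    vf A δ G = derivative A * δ G - δ A * derivative G := rfl

theorem vf_mul (A : κ[X][X]) (δ : Derivation ℤ κ[X][X] κ[X][X]) (G : κ[X][X]) :
    vf A δ (A * G) = A * vf A δ G := by
  have h : vf A δ A = 0 := by
    rw [vf_apply]
    ring
  rw [Derivation.leibniz, h, smul_zero, add_zero, smul_eq_mul]

/-- the derivative of the value of a polynomial at a point of the curve -/
theorem ev_vf (φ : κ →+* B) (E₀ : Derivation ℤ κ κ) (E : Derivation ℤ B B)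
    (h : ∀ c, E (φ c) = φ (E₀ c)) {s t : B} {A : κ[X][X]} (hA : ev φ s t A = 0) (G : κ[X][X]) :
    ev φ s t (derivative A) * E (ev φ s t G) =
      ev φ s t (vf A (cE E₀) G) + E s * ev φ s t (vf A (cX κ) G) := by
  have h1 := ev_chain φ E₀ E h s t A
  rw [hA, map_zero, cY_apply] at h1
  rw [ev_chain φ E₀ E h s t G, vf_apply, vf_apply, map_sub, map_sub, map_mul, map_mul, map_mul,
    map_mul, cY_apply]
  linear_combination (-(ev φ s t (derivative G))) * h1

theorem cE_zero (G : κ[X][X]) : cE (0 : Derivation ℤ κ κ) G = 0 := by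
  ext i j
  show (0 : Derivation ℤ κ κ) ((G.coeff i).coeff j) = _
  simp

end

section

variable {κ : Type*} [Field κ]

theorem sum_vf {ι : Type*} (S : Finset ι) (V : Derivation ℤ κ[X][X] κ[X][X]) (f : ι → κ[X][X]) :
    V (∑ i ∈ S, f i) = ∑ i ∈ S, V (f i) := map_sum V f S

/-- The derivatives at a point of the curve are independent. -/
theorem indep_at {m : ℕ} {A : κ[X][X]} {Bv : Fin (m + 3) → κ[X][X]} {ξ₀ ξ₁ x : Fin (m + 3) → κ}
    {y₁ y β : κ} (hA : A.evalEval y₁ y = 0) (hAY : (derivative A).evalEval y₁ y ≠ 0)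
    (hβ : β ≠ 0) (hB : ∀ j, β * x j = (Bv j).evalEval y₁ y)
    (h0 : A ∣ ∑ j, C (C (ξ₀ j)) * Bv j - derivative A)
    (h1 : A ∣ ∑ j, C (C (ξ₁ j)) * Bv j - C X * derivative A)
    (e : Fin (m + 1) → Derivation ℤ κ κ)
    (hx : LinearIndependent κ (Fin.cons x (fun i k => e i (x k)) : Fin (m + 2) → Fin (m + 3) → κ)) :
    ∃ (i₀ : Fin (m + 1)) (r : Fin (m + 3) → κ),
      (consMat r (Fin.cons (fun j => (Bv j).evalEval y₁ y)
        (Fin.cons (fun j => (vf A (cX κ) (Bv j)).evalEval y₁ y)
          fun i j => (vf A (cE (e (i₀.succAbove i))) (Bv j)).evalEval y₁ y))).det ≠ 0 := by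
  classical
  set α := (derivative A).evalEval y₁ y with hα
  set v₀ : Fin (m + 3) → κ := fun j => (Bv j).evalEval y₁ y with hv₀
  set v₁ : Fin (m + 3) → κ := fun j => (vf A (cX κ) (Bv j)).evalEval y₁ y with hv₁
  set w : Fin (m + 1) → Fin (m + 3) → κ := fun i j => (vf A (cE (e i)) (Bv j)).evalEval y₁ y
    with hw
  have hv₀x : ∀ j, v₀ j = β * x j := fun j => (hB j).symm
  have hA' : ev (RingHom.id κ) y₁ y A = 0 := by rw [ev_id]; exact hA
  -- the derivatives of `v₀`
  have hder : ∀ i j, α * e i (v₀ j) = w i j + e i y₁ * v₁ j := by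
    intro i j
    have h2 := ev_vf (RingHom.id κ) (e i) (e i) (fun c => rfl) hA' (Bv j)
    simp only [ev_id] at h2
    exact h2
  refine exists_remove (v₀ := v₀) (v₁ := v₁) (w := w) ?_ ?_
  · -- independence of the two first vectors
    have key : ∀ ξ : Fin (m + 3) → κ, ∀ V : Derivation ℤ κ[X][X] κ[X][X],
        V (∑ j, C (C (ξ j)) * Bv j) = ∑ j, (C (C (ξ j)) * V (Bv j) + Bv j * V (C (C (ξ j)))) := by
      intro ξ V
      rw [map_sum]
      refine Finset.sum_congr rfl fun j _ => ?_
      rw [Derivation.leibniz, smul_eq_mul, smul_eq_mul]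
    have hVC : ∀ c : κ, vf A (cX κ) (C (C c)) = 0 := by
      intro c
      rw [vf_apply, cX_C_C, derivative_C]
      ring
    have hev : ∀ ξ : Fin (m + 3) → κ,
        (vf A (cX κ) (∑ j, C (C (ξ j)) * Bv j)).evalEval y₁ y = ∑ j, ξ j * v₁ j := by
      intro ξ
      rw [key, evalEval_finsetSum]
      refine Finset.sum_congr rfl fun j _ => ?_
      rw [hVC, mul_zero, add_zero, evalEval_mul, evalEval_C, eval_C]
    have hev0 : ∀ ξ : Fin (m + 3) → κ,
        (∑ j, C (C (ξ j)) * Bv j).evalEval y₁ y = ∑ j, ξ j * v₀ j := by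
      intro ξ
      rw [evalEval_finsetSum]
      refine Finset.sum_congr rfl fun j _ => ?_
      rw [evalEval_mul, evalEval_C, eval_C]
    obtain ⟨q₀, hq₀⟩ := h0
    obtain ⟨q₁, hq₁⟩ := h1
    have hq₀' : ∑ j, C (C (ξ₀ j)) * Bv j = derivative A + A * q₀ := by rw [← hq₀]; ring
    have hq₁' : ∑ j, C (C (ξ₁ j)) * Bv j = C X * derivative A + A * q₁ := by rw [← hq₁]; ring
    set c₀ := (vf A (cX κ) (derivative A)).evalEval y₁ y with hc₀
    have e00 : ∑ j, ξ₀ j * v₀ j = α := by
      rw [← hev0, hq₀', evalEval_add, evalEval_mul, hA, zero_mul, add_zero]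
    have e10 : ∑ j, ξ₁ j * v₀ j = y₁ * α := by
      rw [← hev0, hq₁', evalEval_add, evalEval_mul, evalEval_mul, hA, zero_mul, add_zero,
        evalEval_C, eval_X]
    have e01 : ∑ j, ξ₀ j * v₁ j = c₀ := by
      rw [← hev, hq₀', map_add, vf_mul, evalEval_add, evalEval_mul, hA, zero_mul, add_zero]
    have e11 : ∑ j, ξ₁ j * v₁ j = y₁ * c₀ + α * α := by
      rw [← hev, hq₁', map_add, vf_mul, evalEval_add, evalEval_mul, hA, zero_mul, add_zero,
        Derivation.leibniz, smul_eq_mul, smul_eq_mul, evalEval_add, evalEval_mul, evalEval_mul,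
        evalEval_C, eval_X]
      have h3 : vf A (cX κ) (C X) = derivative A := by
        rw [vf_apply, cX_C_X, derivative_C]
        ring
      rw [h3]
    rw [LinearIndependent.pair_iff]
    intro s t hst
    have f0 : s * α + t * c₀ = 0 := by
      have := congrArg (fun u : Fin (m + 3) → κ => ∑ j, ξ₀ j * u j) hst
      simp only [Pi.add_apply, Pi.smul_apply, smul_eq_mul, Pi.zero_apply, mul_zero,
        Finset.sum_const_zero, mul_add, Finset.sum_add_distrib] at this
      rw [← e00, ← e01, Finset.mul_sum, Finset.mul_sum, ← this]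
      congr 1 <;> exact Finset.sum_congr rfl fun j _ => by ring
    have f1 : s * (y₁ * α) + t * (y₁ * c₀ + α * α) = 0 := by
      have := congrArg (fun u : Fin (m + 3) → κ => ∑ j, ξ₁ j * u j) hst
      simp only [Pi.add_apply, Pi.smul_apply, smul_eq_mul, Pi.zero_apply, mul_zero,
        Finset.sum_const_zero, mul_add, Finset.sum_add_distrib] at this
      rw [← e10, ← e11, Finset.mul_sum, Finset.mul_sum, ← this]
      congr 1 <;> exact Finset.sum_congr rfl fun j _ => by ring
    have ht : t * (α * α) = 0 := by linear_combination f1 - y₁ * f0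
    have ht0 : t = 0 := (mul_eq_zero.mp ht).resolve_right (mul_ne_zero hAY hAY)
    refine ⟨?_, ht0⟩
    rw [ht0, zero_mul, add_zero] at f0
    exact (mul_eq_zero.mp f0).resolve_right hAY
  · -- the rank
    set W := Submodule.span κ (insert v₀ (insert v₁ (Set.range w))) with hW
    have m0 : v₀ ∈ W := Submodule.subset_span (Set.mem_insert _ _)
    have m1 : v₁ ∈ W := Submodule.subset_span (Set.mem_insert_of_mem _ (Set.mem_insert _ _))
    have m2 : ∀ i, w i ∈ W := fun i => Submodule.subset_span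
      (Set.mem_insert_of_mem _ (Set.mem_insert_of_mem _ ⟨i, rfl⟩))
    have n0 : x ∈ W := by
      have : x = β⁻¹ • v₀ := by
        funext j
        rw [Pi.smul_apply, smul_eq_mul, hv₀x, ← mul_assoc, inv_mul_cancel₀ hβ, one_mul]
      rw [this]
      exact W.smul_mem _ m0
    have n1 : ∀ i, (fun k => e i (x k)) ∈ W := by
      intro i
      have h5 : (fun k => e i (x k)) =
          (α * β)⁻¹ • (w i + e i y₁ • v₁) - (β⁻¹ * e i β) • x := by
        funext j
        have h6 := hder i j
        rw [hv₀x, Derivation.leibniz, smul_eq_mul, smul_eq_mul] at h6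
        simp only [Pi.sub_apply, Pi.smul_apply, Pi.add_apply, smul_eq_mul]
        rw [← h6]
        field_simp
        ring
      rw [h5]
      exact W.sub_mem (W.smul_mem _ (W.add_mem (m2 i) (W.smul_mem _ m1))) (W.smul_mem _ n0)
    have hle : Submodule.span κ (Set.range
        (Fin.cons x (fun i k => e i (x k)) : Fin (m + 2) → Fin (m + 3) → κ)) ≤ W := by
      rw [Submodule.span_le]
      rintro _ ⟨i, rfl⟩
      refine Fin.cases ?_ (fun i => ?_) i
      · exact n0
      · exact n1 i
    have h7 := finrank_span_eq_card hx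
    rw [Fintype.card_fin] at h7
    rw [← h7]
    exact Submodule.finrank_mono hle

end

end Pool.Agent.Lib.MP_44a246_ntS
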