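import Mathlib
import Pool.Agent.Lib.MP_44a246_ntS.SP1b
import Pool.Agent.Lib.MP_44a246_ntS.SP5
import Pool.Agent.Lib.MP_44a246_ntS.SP5b
import Pool.Agent.Lib.MP_44a246_ntS.SP5c
import Pool.Agent.Lib.MP_44a246_ntS.SP6
import Pool.Agent.Lib.MP_44a246_ntS.SP8
import Pool.Agent.Lib.MP_44a246_ntS.SR0

/-!
Step E: a generic point of a generic hypersurface does not lie on a plane curve of small degree.
-/

namespace Pool.Agent.Lib.MP_44a246_ntS

open Pool.Agent.Lib.MP_e52354_nt
open Pool.Agent.Lib.MP_44a246_nt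
open Pool.Agent.Lib.MP_44a246_ntL
open Polynomial Module

universe u

/-- an irreducible factor vanishing at a point -/
theorem exists_factor {κ : Type*} [Field κ] {A : κ[X][X]} {y₁ y : κ} (hA : A.evalEval y₁ y = 0)
    (hAY : (derivative A).evalEval y₁ y ≠ 0) :
    ∃ f : κ[X][X], Irreducible f ∧ 0 < f.natDegree ∧ f.natDegree ≤ A.natDegree ∧ f ∣ A ∧
      f.evalEval y₁ y = 0 := by
  classical
  have hA0 : A ≠ 0 := by
    rintro rfl
    rw [derivative_zero] at hAY
    exact hAY (by simp)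
  obtain ⟨f, hf, hfz⟩ : ∃ f ∈ UniqueFactorizationMonoid.factors A, f.evalEval y₁ y = 0 := by
    have h1 := UniqueFactorizationMonoid.factors_prod hA0
    obtain ⟨u, hu⟩ := h1
    have h2 : evalEvalRingHom y₁ y ((UniqueFactorizationMonoid.factors A).prod * u) = 0 := by
      rw [hu]
      exact hA
    rw [map_mul] at h2
    have h3 : evalEvalRingHom y₁ y (u : κ[X][X]) ≠ 0 :=
      (u.isUnit.map (evalEvalRingHom y₁ y)).ne_zero
    have h4 := (mul_eq_zero.mp h2).resolve_right h3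
    rw [map_multiset_prod, Multiset.prod_eq_zero_iff, Multiset.mem_map] at h4
    obtain ⟨f, hf, hfz⟩ := h4
    exact ⟨f, hf, hfz⟩
  have hirr := UniqueFactorizationMonoid.irreducible_of_factor f hf
  have hdvd := UniqueFactorizationMonoid.dvd_of_mem_factors hf
  obtain ⟨g, hg⟩ := hdvd
  refine ⟨f, hirr, ?_, natDegree_le_of_dvd ⟨g, hg⟩ hA0, ⟨g, hg⟩, hfz⟩
  by_contra hcon
  have h5 : f.natDegree = 0 := by omega
  obtain ⟨q, hq⟩ : ∃ q, f = C q := ⟨_, eq_C_of_natDegree_eq_zero h5⟩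
  apply hAY
  rw [hg, derivative_mul, hq, derivative_C, zero_mul, zero_add, evalEval_mul, ← hq, hfz, zero_mul]

theorem no_cert_der {κ : Type u} [Field κ] [IsAlgClosed κ] [CharZero κ] {m d b : ℕ}
    (hd : m + 2 + 2 * b ≤ d) {a : (Fin (m + 3) →₀ ℕ) → κ}
    (hsm : ∀ u : Fin (m + 3) → κ, u ≠ 0 → ∃ j, grad d a u j ≠ 0)
    {x : Fin (m + 3) → κ} (e : Fin (m + 1) → Derivation ℤ κ κ)
    (hea : ∀ i, ∀ I ∈ expo (Fin (m + 3)) d, e i (a I) = 0)
    (hx : LinearIndependent κ
      (Fin.cons x (fun i k => e i (x k)) : Fin (m + 2) → Fin (m + 3) → κ)) :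
    ¬ Cert (n := m + 2) d a b x := by
  classical
  rintro ⟨A, Bv, ξ₀, ξ₁, ξ₂, c, y₁, y, hboxA, -, hc, hξ₀, hξ₁, hξ₂, hA, hAY, hB, hF, h0, h1, h2⟩
  set α := (derivative A).evalEval y₁ y with hα
  obtain ⟨i₀, r, hdet⟩ := indep_at (β := α * c) hA hAY (mul_ne_zero hAY hc)
    (fun j => by rw [mul_assoc]; exact hB j) h0 h1 e hx
  obtain ⟨f, hirr, hf0, hfdeg, hfA, hfz⟩ := exists_factor hA hAY
  refine with_curve hirr hf0 ?_
  intro M _ _ _ _ _ _ _ _ _ Y hY hgen hfin ht halg
  set φ := algebraMap κ M with hφ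
  set X' : M := algebraMap κ[X] M X with hX'
  -- specialisation
  have hspec : ∀ G : κ[X][X], G.evalEval y₁ y ≠ 0 → ev φ X' Y G ≠ 0 := by
    intro G hG h3
    rw [hX', ev_aeval, hY] at h3
    obtain ⟨g, rfl⟩ := h3
    apply hG
    rw [evalEval_mul, hfz, zero_mul]
  have hevA : ∀ G : κ[X][X], A ∣ G → ev φ X' Y G = 0 := by
    intro G hG
    rw [hX', ev_aeval, hY]
    exact hfA.trans hG
  have hAP : ev φ X' Y A = 0 := hevA A dvd_rfl
  have hAYP : ev φ X' Y (derivative A) ≠ 0 := hspec _ hAY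
  set ω := ev φ X' Y (derivative A) with hω
  set γ : Fin (m + 3) → M := fun j => ev φ X' Y (Bv j) with hγdef
  -- the derivations
  obtain ⟨D, hDκ, hDX⟩ := exists_der_ext ht halg (0 : Derivation ℤ κ κ) 1
  choose E hEκ hEX using fun i : Fin (m + 1) => exists_der_ext ht halg (e i) 0
  have hDκ' : ∀ u : κ, D (algebraMap κ M u) = 0 := fun u => by
    rw [hDκ]
    simp
  have hD : ∀ G, ω * D (ev φ X' Y G) = ev φ X' Y (vf A (cX κ) G) := by
    intro G
    rw [ev_vf φ 0 D hDκ hAP G, hX', hDX, one_mul, vf_apply, cE_zero, cE_zero]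
    simp
  have hE : ∀ i G, ω * E i (ev φ X' Y G) = ev φ X' Y (vf A (cE (e i)) G) := by
    intro i G
    rw [ev_vf φ (e i) (E i) (hEκ i) hAP G, hX', hEX, zero_mul, add_zero]
  -- the relations between `γ` and the projection
  have hsum : ∀ ξ : Fin (m + 3) → κ, ev φ X' Y (∑ j, C (C (ξ j)) * Bv j) = ∑ j, φ (ξ j) * γ j := by
    intro ξ
    rw [map_sum]
    refine Finset.sum_congr rfl fun j _ => ?_
    rw [map_mul, ev_C_C]
  have r0 : ∑ j, φ (ξ₀ j) * γ j = ω := by
    rw [← hsum, ← sub_eq_zero, hω, ← map_sub]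
    exact hevA _ h0
  have r1 : ∑ j, φ (ξ₁ j) * γ j = X' * ω := by
    rw [← hsum, ← sub_eq_zero, hω]
    have h4 : X' * ev φ X' Y (derivative A) = ev φ X' Y (C X * derivative A) := by
      rw [map_mul, ev_C_X]
    rw [h4, ← map_sub]
    exact hevA _ h1
  have r2 : ∑ j, φ (ξ₂ j) * γ j = Y * ω := by
    rw [← hsum, ← sub_eq_zero, hω]
    have h4 : Y * ev φ X' Y (derivative A) = ev φ X' Y (X * derivative A) := by
      rw [map_mul, ev_X]
    rw [h4, ← map_sub]
    exact hevA _ h2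
  have hγ : γ ≠ 0 := by
    intro h3
    apply hAYP
    rw [← r0, h3]
    simp
  -- `γ` is a point of the hypersurface
  have hFγ : Fval d (fun I => algebraMap κ M (a I)) γ = 0 := by
    have h3 := hevA _ hF
    rw [← h3]
    unfold FB Fval mon
    rw [map_sum]
    refine Finset.sum_congr rfl fun I _ => ?_
    rw [map_mul, ev_C_C, map_prod]
    congr 1
    refine Finset.prod_congr rfl fun j _ => ?_
    rw [map_pow]
  -- the determinant
  have hdetM : (consMat (fun j => φ (r j)) (Fin.cons γ (Fin.cons (fun k => D (γ k))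
      fun i k => E (i₀.succAbove i) (γ k)))).det ≠ 0 := by
    let N : Matrix (Fin (m + 3)) (Fin (m + 3)) κ[X][X] :=
      consMat (fun j => C (C (r j))) (Fin.cons Bv (Fin.cons (fun j => vf A (cX κ) (Bv j))
        fun i j => vf A (cE (e (i₀.succAbove i))) (Bv j)))
    have hN : N.det.evalEval y₁ y ≠ 0 := by
      have h3 : N.det.evalEval y₁ y = evalEvalRingHom y₁ y N.det := rfl
      rw [h3, RingHom.map_det]
      convert hdet using 2
      ext i j
      refine Fin.cases ?_ (fun i => ?_) i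
      · show (C (C (r j)) : κ[X][X]).evalEval y₁ y = r j
        rw [evalEval_C, eval_C]
      · refine Fin.cases rfl (fun i => ?_) i
        exact Fin.cases rfl (fun i => rfl) i
    have hN' := hspec _ hN
    rw [RingHom.map_det] at hN'
    intro h3
    apply hN'
    have h4 : (ev φ X' Y).mapMatrix N = Matrix.diagonal (Fin.cons 1 (Fin.cons 1 fun _ => ω)) *
        consMat (fun j => φ (r j)) (Fin.cons γ (Fin.cons (fun k => D (γ k))
          fun i k => E (i₀.succAbove i) (γ k))) := by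
      ext i j
      rw [Matrix.diagonal_mul]
      refine Fin.cases ?_ (fun i => ?_) i
      · show ev φ X' Y (C (C (r j))) = 1 * φ (r j)
        rw [ev_C_C, one_mul]
      · refine Fin.cases ?_ (fun i => ?_) i
        · show ev φ X' Y (Bv j) = 1 * γ j
          rw [one_mul]
        · refine Fin.cases ?_ (fun i => ?_) i
          · show ev φ X' Y (vf A (cX κ) (Bv j)) = ω * D (γ j)
            rw [hγdef, hD]
          · show ev φ X' Y (vf A (cE (e (i₀.succAbove i))) (Bv j)) = ω * E (i₀.succAbove i) (γ j)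
            rw [hγdef, hE]
    rw [h4, Matrix.det_mul, h3, mul_zero]
  -- the inequalities
  have hglob := wedge_global (by omega : 1 ≤ d) hsm D hDκ' hDX (fun i => E (i₀.succAbove i))
    (fun i u => ⟨_, hEκ _ u⟩) (fun i => ⟨0, by rw [hEX, map_zero]⟩)
    (fun i I hI => by rw [hEκ, hea _ I hI, map_zero]) hFγ hdetM
  have hgen' : pointField (RatFunc κ) γ = ⊤ := by
    rw [eq_top_iff, ← hgen, IntermediateField.adjoin_le_iff, Set.singleton_subset_iff]
    obtain ⟨l, hl⟩ : ∃ l, γ l ≠ 0 := by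
      by_contra hcon
      push Not at hcon
      exact hγ (funext hcon)
    have hmem : ∀ ξ : Fin (m + 3) → κ, (∑ j, φ (ξ j) * γ j) / γ l ∈ pointField (RatFunc κ) γ := by
      intro ξ
      rw [Finset.sum_div]
      refine sum_mem fun j _ => ?_
      rw [mul_div_assoc]
      refine mul_mem ?_ (IntermediateField.subset_adjoin _ _ ⟨j, l, rfl⟩)
      have h5 : φ (ξ j) = algebraMap (RatFunc κ) M (algebraMap κ[X] (RatFunc κ) (C (ξ j))) := by
        rw [← IsScalarTower.algebraMap_apply κ[X] (RatFunc κ) M, hφ,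
          IsScalarTower.algebraMap_apply κ κ[X] M]
        rfl
      rw [h5]
      exact (pointField (RatFunc κ) γ).algebraMap_mem _
    have h6 : Y = ((∑ j, φ (ξ₂ j) * γ j) / γ l) / ((∑ j, φ (ξ₀ j) * γ j) / γ l) := by
      rw [r0, r2]
      field_simp
    rw [h6]
    exact div_mem (hmem ξ₂) (hmem ξ₀)
  have hram := ram_le hγ hgen'
  have hpos : 0 < height κ γ := height_pos hγ (ξ₀ := ξ₀) (ξ₁ := ξ₁) (by rw [← hφ, r0]; exact hAYP)
    (by rw [← hφ, r0, r1])
  have hfin' : (Module.finrank (RatFunc κ) M : ℤ) ≤ b := by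
    rw [hfin]
    exact_mod_cast hfdeg.trans hboxA.1
  have h7 : ((d : ℤ) - 1) * height κ γ ≤ (m + 2 + 2 * (b - 1)) * height κ γ := by
    have h8 : 2 * ((Module.finrank (RatFunc κ) M : ℤ) - 1) * height κ γ ≤
        2 * ((b : ℤ) - 1) * height κ γ := by
      apply mul_le_mul_of_nonneg_right _ hpos.le
      linarith
    linarith
  have h9 := le_of_mul_le_mul_right h7 hpos
  have h10 : ((m + 2 + 2 * b : ℕ) : ℤ) ≤ d := by exact_mod_cast hd
  push_cast at h10
  linarith

end Pool.Agent.Lib.MP_44a246_ntS
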