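import Mathlib
import Pool.Agent.Lib.MP_e52354_nt.DerivExist
import Pool.Agent.Lib.MP_44a246_ntS.Names

/-!
Existence of derivations with prescribed values.
-/

namespace Pool.Agent.Lib.MP_44a246_ntS

open Pool.Agent.Lib.MP_e52354_nt
open Pool.Agent.Lib.MP_44a246_nt

/-- derivations with prescribed values on an algebraically independent family -/
theorem exists_der_indep {κ : Type*} [Field κ] [CharZero κ] {ι : Type*} {c : ι → κ}
    (hc : AlgebraicIndependent ℚ c) (v : ι → κ) :
    ∃ D : Derivation ℤ κ κ, ∀ i, D (c i) = v i := by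
  -- extend `Set.range c` to a transcendence basis `s` of `κ` over `ℚ`
  -- (`exists_isTranscendenceBasis_superset` or `..._between`, `hc.coe_range`), use
  -- `exists_derivation` for `((↑) : s → κ)` with the values `v i` at `c i` and `0` elsewhere
  -- (`hc.injective`), and `Derivation.restrictScalars ℤ`.
  classical
  have hc' : AlgebraicIndepOn ℚ id (Set.range c) := hc.coe_range
  obtain ⟨s, hs1, hs2⟩ := exists_isTranscendenceBasis_superset hc'
  have hsalg : Algebra.IsAlgebraic (Algebra.adjoin ℚ (Set.range ((↑) : s → κ))) κ :=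
    hs2.isAlgebraic
  obtain ⟨D, hD⟩ := exists_derivation hs2.1
    (fun y : s => if h : ∃ i, c i = (y : κ) then v h.choose else 0)
  refine ⟨D.restrictScalars ℤ, fun i => ?_⟩
  have h1 := hD ⟨c i, hs1 ⟨i, rfl⟩⟩
  have h2 : ∃ j, c j = c i := ⟨i, rfl⟩
  have h3 : D (c i) = v h2.choose := by
    simpa only [dif_pos h2] using h1
  rw [hc.injective h2.choose_spec] at h3
  exact h3

end Pool.Agent.Lib.MP_44a246_ntS
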