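import Mathlib
import Pool.Agent.Lib.MP_44a246_ntS.SP1
import Pool.Agent.Lib.MP_44a246_ntS.SP9

/-!
Step E for a generic point of a generic hypersurface over any field.
-/

namespace Pool.Agent.Lib.MP_44a246_ntS

open Pool.Agent.Lib.MP_e52354_nt
open Pool.Agent.Lib.MP_44a246_nt
open Pool.Agent.Lib.MP_44a246_ntL
open Module

universe u

/-- Euler's identity -/
theorem euler_grad {M : Type*} [Field M] {s : ℕ} (d : ℕ) (a : (Fin s →₀ ℕ) → M) (p : Fin s → M) :
    ∑ j, grad d a p j * p j = d * Fval d a p := by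
  unfold grad Fval
  simp only [Finset.sum_mul, Finset.mul_sum]
  rw [Finset.sum_comm]
  refine Finset.sum_congr rfl fun I hI => ?_
  have h1 : ∀ j, a I * (I j : M) * mon p (I - Finsupp.single j 1) * p j =
      a I * ((I j : M) * mon p I) := by
    intro j
    rw [← mon_sub]
    ring
  simp only [h1]
  rw [← Finset.mul_sum, ← Finset.sum_mul]
  have h2 : ∑ j, (I j : M) = (d : M) := by
    rw [mem_expo, Finsupp.degree_eq_sum] at hI
    rw [← hI]
    push_cast
    rfl
  rw [h2]
  ring

/-- a form with algebraically independent coefficients is smooth -/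
theorem smooth_of_indep {κ : Type*} [Field κ] [CharZero κ] {s d : ℕ} (hd : 1 ≤ d)
    {a : (Fin s →₀ ℕ) → κ}
    (ha : AlgebraicIndependent ℚ (fun I : {I // I ∈ expo (Fin s) d} => a I.1)) (u : Fin s → κ)
    (hu : u ≠ 0) : ∃ j, grad d a u j ≠ 0 := by
  classical
  by_cases hF : Fval d a u = 0
  · choose D hD using fun I : Fin s →₀ ℕ => exists_der_indep ha
      (fun J => if I = J.1 then (1 : κ) else 0)
    obtain ⟨l, hl⟩ : ∃ l, u l ≠ 0 := by
      by_contra hcon
      push Not at hcon
      exact hu (funext hcon)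
    exact grad_ne_zero (D := D) (fun I _ J hJ => hD I ⟨J, hJ⟩) hF hl
  · by_contra hcon
    push Not at hcon
    have h1 := euler_grad d a u
    simp only [hcon, zero_mul, Finset.sum_const_zero] at h1
    have h2 : (d : κ) ≠ 0 := by exact_mod_cast (by omega : d ≠ 0)
    exact (mul_ne_zero h2 hF) h1.symm

/-- the derivatives of a generic point are independent -/
theorem indep_point {κ : Type*} [Field κ] {m : ℕ} {x : Fin (m + 3) → κ} (hx0 : x 0 ≠ 0)
    (e : Fin (m + 1) → Derivation ℤ κ κ)
    (he : ∀ i j, e i (x j.succ.castSucc / x 0) = if i = j then 1 else 0) :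
    LinearIndependent κ
      (Fin.cons x (fun i k => e i (x k)) : Fin (m + 2) → Fin (m + 3) → κ) := by
  classical
  set z : Fin (m + 3) → κ := fun k => x k / x 0 with hz
  have hxz : ∀ k, x k = x 0 * z k := by
    intro k
    show x k = x 0 * (x k / x 0)
    field_simp
  have hex : ∀ i k, e i (x k) = x 0 * e i (z k) + z k * e i (x 0) := by
    intro i k
    rw [hxz k, Derivation.leibniz, smul_eq_mul, smul_eq_mul]
  have hz0 : z 0 = 1 := div_self hx0
  have hez0 : ∀ i, e i (z 0) = 0 := by
    intro i
    rw [hz0, Derivation.map_one_eq_zero]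
  rw [Fintype.linearIndependent_iff]
  intro g hg
  rw [Fin.sum_univ_succ] at hg
  have hk : ∀ k, g 0 * x k + ∑ i : Fin (m + 1), g i.succ * e i (x k) = 0 := by
    intro k
    have := congrFun hg k
    simp only [Fin.cons_zero, Fin.cons_succ, Pi.add_apply, Pi.smul_apply, smul_eq_mul,
      Finset.sum_apply, Pi.zero_apply] at this
    exact this
  have hk' : ∀ k, (g 0 * x 0 + ∑ i : Fin (m + 1), g i.succ * e i (x 0)) * z k +
      x 0 * ∑ i : Fin (m + 1), g i.succ * e i (z k) = 0 := by
    intro k
    have h1 := hk k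
    simp only [hex _ k] at h1
    rw [hxz k] at h1
    rw [add_mul, Finset.sum_mul, Finset.mul_sum, ← h1, add_assoc, ← Finset.sum_add_distrib]
    congr 1
    · ring
    · exact Finset.sum_congr rfl fun i _ => by ring
  have h0 : g 0 * x 0 + ∑ i : Fin (m + 1), g i.succ * e i (x 0) = 0 := by
    have h5 := hk' 0
    have h6 : ∑ i : Fin (m + 1), g i.succ * e i (z 0) = 0 :=
      Finset.sum_eq_zero fun i _ => by rw [hez0, mul_zero]
    rw [h6, mul_zero, add_zero, hz0, mul_one] at h5
    exact h5
  have h1 : ∀ j : Fin (m + 1), g j.succ = 0 := by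
    intro j
    have := hk' j.succ.castSucc
    rw [h0, zero_mul, zero_add] at this
    have h2 := (mul_eq_zero.mp this).resolve_left hx0
    have h3 : ∀ i, e i (z j.succ.castSucc) = if i = j then 1 else 0 := fun i => he i j
    simp only [h3, mul_ite, mul_one, mul_zero, Finset.sum_ite_eq', Finset.mem_univ, if_true] at h2
    exact h2
  intro i
  refine Fin.cases ?_ h1 i
  simp only [h1, zero_mul, Finset.sum_const_zero, add_zero] at h0
  exact (mul_eq_zero.mp h0).resolve_right hx0

/-- **Step E** over an algebraically closed field -/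
theorem no_cert_closed {κ : Type u} [Field κ] [IsAlgClosed κ] [CharZero κ] {m d b : ℕ}
    (hd : m + 2 + 2 * b ≤ d) {a : (Fin (m + 3) →₀ ℕ) → κ} {x : Fin (m + 3) → κ} (hx0 : x 0 ≠ 0)
    (hind : AlgebraicIndependent ℚ (Sum.elim (fun I : {I // I ∈ expo (Fin (m + 3)) d} => a I.1)
      (fun j : Fin (m + 1) => x j.succ.castSucc / x 0))) :
    ¬ Cert (n := m + 2) d a b x := by
  classical
  choose e he using fun i : Fin (m + 1) => exists_der_indep hind
    (Sum.elim (fun _ => (0 : κ)) fun j => if i = j then 1 else 0)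
  refine no_cert_der hd (smooth_of_indep (by omega) ?_) e (fun i I hI => ?_)
    (indep_point hx0 e fun i j => he i (Sum.inr j))
  · exact hind.comp Sum.inl Sum.inl_injective
  · exact he i (Sum.inl ⟨I, hI⟩)

end Pool.Agent.Lib.MP_44a246_ntS
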