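import Mathlib
import Pool.Agent.Lib.MP_44a246_ntS.SR0

/-!
Polynomials in two variables of bounded degrees: factors, images under ring homomorphisms.
-/

namespace Pool.Agent.Lib.MP_44a246_ntS

open Pool.Agent.Lib.MP_e52354_nt
open Polynomial

/-- the coefficients after the exchange of the variables -/
theorem coeff_swap {R : Type*} [CommRing R] (p : R[X][X]) (i j : ℕ) :
    ((Bivariate.swap p).coeff i).coeff j = (p.coeff j).coeff i := by
  induction p using Polynomial.induction_on' with
  | add p q hp hq => rw [map_add, coeff_add, coeff_add, hp, hq, coeff_add, coeff_add]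
  | monomial n f =>
    induction f using Polynomial.induction_on' with
    | add f g hf hg =>
      rw [map_add, map_add, coeff_add, coeff_add, hf, hg, coeff_add, coeff_add]
    | monomial m r =>
      rw [Bivariate.swap_monomial_monomial]
      simp only [coeff_monomial]
      by_cases h1 : m = i <;> by_cases h2 : n = j <;> simp [h1, h2, coeff_monomial]

/-- the inner degrees are bounded if and only if the outer degree after the exchange is -/
theorem swap_natDegree_le_iff {R : Type*} [CommRing R] (p : R[X][X]) (c : ℕ) :
    (Bivariate.swap p).natDegree ≤ c ↔ ∀ i, (p.coeff i).natDegree ≤ c := by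
  constructor
  · intro h i
    rw [natDegree_le_iff_coeff_eq_zero]
    intro N hN
    rw [← coeff_swap, coeff_eq_zero_of_natDegree_lt (h.trans_lt hN), coeff_zero]
  · intro h
    rw [natDegree_le_iff_coeff_eq_zero]
    intro N hN
    ext j
    rw [coeff_swap, coeff_eq_zero_of_natDegree_lt ((h j).trans_lt hN), coeff_zero]

/-- the quotient by a nonzero factor has bounded degrees -/
theorem box_of_mul {L : Type*} [Field L] {c : ℕ} {A Q : L[X][X]} (hA : A ≠ 0)
    (h : Box c (A * Q)) : Box c Q := by
  -- `Q = 0` is trivial. Outer degree: `natDegree_mul`. Inner degrees: the same after the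
  -- exchange of the variables.
  rcases eq_or_ne Q 0 with rfl | hQ
  · exact ⟨by simp, fun i => by simp⟩
  · refine ⟨?_, ?_⟩
    · have h1 := h.1
      rw [natDegree_mul hA hQ] at h1
      omega
    · rw [← swap_natDegree_le_iff]
      have h1 := (swap_natDegree_le_iff _ _).2 h.2
      have hA' : Bivariate.swap A ≠ 0 := by
        rwa [Ne, EmbeddingLike.map_eq_zero_iff]
      have hQ' : Bivariate.swap Q ≠ 0 := by
        rwa [Ne, EmbeddingLike.map_eq_zero_iff]
      rw [map_mul, natDegree_mul hA' hQ'] at h1
      omega

end Pool.Agent.Lib.MP_44a246_ntS
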