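import Mathlib
import Pool.Agent.Lib.MP_44a246_ntS.SR0

/-!
Polynomials in two variables of bounded degrees: factors, images under ring homomorphisms.
-/

namespace Pool.Agent.Lib.MP_44a246_ntS

open Pool.Agent.Lib.MP_e52354_nt
open Polynomial

private theorem box_mono {L : Type*} [Field L] {b c : ℕ} (h : b ≤ c) {A : L[X][X]} (hA : Box b A) :
    Box c A := ⟨hA.1.trans h, fun i => (hA.2 i).trans h⟩

private theorem box_add {L : Type*} [Field L] {b : ℕ} {A B : L[X][X]} (hA : Box b A)
    (hB : Box b B) : Box b (A + B) := by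
  refine ⟨natDegree_add_le_of_degree_le hA.1 hB.1, fun i => ?_⟩
  rw [coeff_add]
  exact natDegree_add_le_of_degree_le (hA.2 i) (hB.2 i)

private theorem box_neg {L : Type*} [Field L] {b : ℕ} {A : L[X][X]} (hA : Box b A) :
    Box b (-A) := by
  refine ⟨by rw [natDegree_neg]; exact hA.1, fun i => ?_⟩
  rw [coeff_neg, natDegree_neg]
  exact hA.2 i

private theorem box_zero {L : Type*} [Field L] (b : ℕ) : Box b (0 : L[X][X]) :=
  ⟨by simp, fun i => by simp⟩

private theorem box_CC {L : Type*} [Field L] (a : L) : Box 0 (C (C a) : L[X][X]) := by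
  refine ⟨by simp, fun i => ?_⟩
  rw [coeff_C]
  split_ifs <;> simp

private theorem box_one {L : Type*} [Field L] : Box 0 (1 : L[X][X]) := by
  have := box_CC (1 : L)
  simpa using this

private theorem box_mul {L : Type*} [Field L] {b c : ℕ} {A B : L[X][X]} (hA : Box b A)
    (hB : Box c B) : Box (b + c) (A * B) := by
  refine ⟨natDegree_mul_le.trans (add_le_add hA.1 hB.1), fun i => ?_⟩
  rw [coeff_mul]
  refine natDegree_sum_le_of_forall_le _ _ fun x _ => ?_
  exact natDegree_mul_le.trans (add_le_add (hA.2 _) (hB.2 _))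

private theorem box_pow {L : Type*} [Field L] {b : ℕ} {A : L[X][X]} (hA : Box b A) (k : ℕ) :
    Box (k * b) (A ^ k) := by
  induction k with
  | zero => rw [pow_zero, zero_mul]; exact box_one
  | succ k ih => rw [pow_succ, add_mul, one_mul]; exact box_mul ih hA

private theorem box_prod {L ι : Type*} [Field L] (s : Finset ι) {b : ι → ℕ} {A : ι → L[X][X]}
    (hA : ∀ i, Box (b i) (A i)) : Box (∑ i ∈ s, b i) (∏ i ∈ s, A i) := by
  classical
  induction s using Finset.induction_on with
  | empty => rw [Finset.sum_empty, Finset.prod_empty]; exact box_one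
  | insert i s hi ih =>
    rw [Finset.sum_insert hi, Finset.prod_insert hi]
    exact box_mul (hA i) ih

private theorem box_sum {L ι : Type*} [Field L] (s : Finset ι) {b : ℕ} {A : ι → L[X][X]}
    (hA : ∀ i ∈ s, Box b (A i)) : Box b (∑ i ∈ s, A i) := by
  classical
  induction s using Finset.induction_on with
  | empty => rw [Finset.sum_empty]; exact box_zero b
  | insert i s hi ih =>
    rw [Finset.sum_insert hi]
    exact box_add (hA i (Finset.mem_insert_self _ _))
      (ih fun j hj => hA j (Finset.mem_insert_of_mem hj))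

/-- products and sums of polynomials of bounded degrees -/
theorem box_FB {L : Type*} [Field L] {n : ℕ} (d : ℕ) (a : (Fin (n + 1) →₀ ℕ) → L) {b : ℕ}
    {B : Fin (n + 1) → L[X][X]} (hB : ∀ j, Box b (B j)) : Box (d * b) (FB d a B) := by
  -- closure of `Box` under sums, products (`Box b P → Box c Q → Box (b + c) (P * Q)`) and powers;
  -- for `I ∈ expo _ d` the sum of the `I j` is `d`.
  unfold FB
  refine box_sum _ fun I hI => ?_
  have h1 : Box (∑ j, I j * b) (∏ j, B j ^ I j) := box_prod _ fun j => box_pow (hB j) (I j)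
  have h2 : ∑ j, I j * b = d * b := by
    rw [← Finset.sum_mul]
    congr 1
    rw [← Finsupp.degree_eq_sum]; exact (mem_expo).1 hI
  rw [h2] at h1
  have h3 := box_mul (box_CC (a I)) h1
  rwa [zero_add] at h3

theorem box_derivative {L : Type*} [Field L] {b : ℕ} {A : L[X][X]} (hA : Box b A) :
    Box b (derivative A) := by
  refine ⟨(natDegree_derivative_le A).trans ((Nat.sub_le _ _).trans hA.1), fun i => ?_⟩
  rw [coeff_derivative]
  refine natDegree_mul_le.trans ?_
  have : ((i : L[X]) + 1).natDegree = 0 := by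
    have : ((i : L[X]) + 1) = ((i + 1 : ℕ) : L[X]) := by push_cast; rfl
    rw [this, natDegree_natCast]
  rw [this, add_zero]
  exact hA.2 _

/-- the second and third sort of dividends -/
theorem box_lin {L : Type*} [Field L] {n b : ℕ} {B : Fin (n + 1) → L[X][X]}
    (hB : ∀ j, Box b (B j)) {A P : L[X][X]} (hA : Box b A) (hP : Box 1 P) (ξ : Fin (n + 1) → L) :
    Box (b + 1) (∑ j, C (C (ξ j)) * B j - P * derivative A) := by
  rw [sub_eq_add_neg]
  refine box_add (box_mono (Nat.le_succ b) (box_sum _ fun j _ => ?_)) (box_neg ?_)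
  · have := box_mul (box_CC (ξ j)) (hB j)
    rwa [zero_add] at this
  · have := box_mul hP (box_derivative hA)
    rwa [add_comm] at this

end Pool.Agent.Lib.MP_44a246_ntS
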