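import Mathlib
import Pool.Agent.Lib.MP_44a246_ntS.SR0

/-!
Polynomials in two variables of bounded degrees: factors, images under ring homomorphisms.
-/

namespace Pool.Agent.Lib.MP_44a246_ntS

open Pool.Agent.Lib.MP_e52354_nt
open Polynomial

/-- a ring homomorphism applied to the coefficients -/
noncomputable abbrev m2 {R S : Type*} [CommRing R] [CommRing S] (φ : R →+* S) :
    R[X][X] →+* S[X][X] :=
  mapRingHom (mapRingHom φ)

theorem m2_CC {R S : Type*} [CommRing R] [CommRing S] (φ : R →+* S) (r : R) :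
    m2 φ (C (C r)) = C (C (φ r)) := by
  simp [m2]

theorem m2_derivative {R S : Type*} [CommRing R] [CommRing S] (φ : R →+* S) (A : R[X][X]) :
    m2 φ (derivative A) = derivative (m2 φ A) := by
  simp only [m2, coe_mapRingHom]
  exact (derivative_map A (mapRingHom φ)).symm

theorem m2_evalEval {R S : Type*} [CommRing R] [CommRing S] (φ : R →+* S) (A : R[X][X])
    (x y : R) : (m2 φ A).evalEval (φ x) (φ y) = φ (A.evalEval x y) := by
  exact map_mapRingHom_evalEval φ A x y

theorem Box.m2 {L L' : Type*} [Field L] [Field L'] (φ : L →+* L') {b : ℕ} {A : L[X][X]}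
    (h : Box b A) : Box b (m2 φ A) := by
  refine ⟨natDegree_map_le.trans h.1, fun i => ?_⟩
  simp only [MP_44a246_ntS.m2, coe_mapRingHom, coeff_map]
  exact natDegree_map_le.trans (h.2 i)

theorem m2_FB {L L' : Type*} [Field L] [Field L'] (φ : L →+* L') {n : ℕ} (d : ℕ)
    (a : (Fin (n + 1) →₀ ℕ) → L) (B : Fin (n + 1) → L[X][X]) :
    m2 φ (FB d a B) = FB d (fun I => φ (a I)) (fun j => m2 φ (B j)) := by
  unfold FB
  rw [map_sum]
  refine Finset.sum_congr rfl fun I _ => ?_
  rw [map_mul, m2_CC, map_prod]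
  simp only [map_pow]

/-- certificates are mapped to certificates by homomorphisms of fields -/
theorem Cert.map {L L' : Type*} [Field L] [Field L'] (φ : L →+* L') {n d b : ℕ}
    {a : (Fin (n + 1) →₀ ℕ) → L} {x : Fin (n + 1) → L} (h : Cert d a b x) :
    Cert d (fun I => φ (a I)) b (fun j => φ (x j)) := by
  -- apply `m2 φ` to `A` and `B`, and `φ` to the vectors and numbers; `derivative_map`,
  -- `map_mapRingHom_evalEval`, `map_dvd`, degrees do not grow (`natDegree_map_le`).
  obtain ⟨A, B, ξ₀, ξ₁, ξ₂, c, y₁, y, hA, hB, hc, h0, h1, h2, he, hd, hj, d1, d2, d3, d4⟩ := h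
  refine ⟨m2 φ A, fun j => m2 φ (B j), fun j => φ (ξ₀ j), fun j => φ (ξ₁ j), fun j => φ (ξ₂ j),
    φ c, φ y₁, φ y, hA.m2 φ, fun j => (hB j).m2 φ, ?_, ?_, ?_, ?_, ?_, ?_, ?_, ?_, ?_, ?_, ?_⟩
  · exact (map_ne_zero φ).2 hc
  · rw [← map_one φ, ← h0, map_sum]
    simp only [map_mul]
  · rw [← h1, map_sum]
    simp only [map_mul]
  · rw [← h2, map_sum]
    simp only [map_mul]
  · rw [m2_evalEval, he, map_zero]
  · rw [← m2_derivative, m2_evalEval]
    exact (map_ne_zero φ).2 hd
  · intro j
    rw [← m2_derivative, m2_evalEval, m2_evalEval, ← map_mul, ← map_mul, hj j]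
  · rw [← m2_FB]
    exact map_dvd (m2 φ) d1
  · have := map_dvd (m2 φ) d2
    rw [map_sub, map_sum, m2_derivative] at this
    simpa only [map_mul, m2_CC] using this
  · have := map_dvd (m2 φ) d3
    rw [map_sub, map_sum, map_mul, m2_derivative] at this
    have hCX : m2 φ (C X) = C X := by simp [m2]
    rw [hCX] at this
    simpa only [map_mul, m2_CC] using this
  · have := map_dvd (m2 φ) d4
    rw [map_sub, map_sum, map_mul, m2_derivative] at this
    have hX : m2 φ X = X := by simp [m2]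
    rw [hX] at this
    simpa only [map_mul, m2_CC] using this

/-- certificates do not depend on the scaling of the point -/
theorem Cert.smul_of {L : Type*} [Field L] {n d b : ℕ} {a : (Fin (n + 1) →₀ ℕ) → L}
    {x : Fin (n + 1) → L} (h : Cert d a b x) {r : L} (hr : r ≠ 0) :
    Cert d a b (fun j => r * x j) := by
  obtain ⟨A, B, ξ₀, ξ₁, ξ₂, c, y₁, y, h1, h2, h3, h4⟩ := h
  have hx : ∀ j, c * x j = (c * r⁻¹) * (r * x j) := by
    intro j
    field_simp
  simp only [hx] at h4
  exact ⟨A, B, ξ₀, ξ₁, ξ₂, c * r⁻¹, y₁, y, h1, h2, mul_ne_zero h3 (inv_ne_zero hr), h4⟩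

end Pool.Agent.Lib.MP_44a246_ntS
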