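import Mathlib
import Pool.Agent.Lib.MP_44a246_ntS.SQ1c

/-!
Sequences of polynomials of bounded degrees, ultraproducts of certificates.
-/

namespace Pool.Agent.Lib.MP_44a246_ntS

open Pool.Agent.Lib.MP_e52354_nt
open Polynomial

variable {L : Type*} [Field L]

/-- coefficients of the image -/
theorem m2_coeff {R S : Type*} [CommRing R] [CommRing S] (φ : R →+* S) (P : R[X][X]) (i j : ℕ) :
    ((m2 φ P).coeff i).coeff j = φ ((P.coeff i).coeff j) := by
  simp only [m2, coe_mapRingHom, coeff_map]

/-- the polynomial over the ring of sequences with the given coefficients -/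
theorem exists_coeffs {R : Type*} [CommRing R] (c : ℕ) (f : ℕ → ℕ → R)
    (hf : ∀ i j, c < i ∨ c < j → f i j = 0) :
    ∃ P : R[X][X], (∀ i j, (P.coeff i).coeff j = f i j) ∧ P.natDegree ≤ c ∧
      ∀ i, (P.coeff i).natDegree ≤ c := by
  set P : R[X][X] := ∑ i ∈ Finset.range (c + 1),
    monomial i (∑ j ∈ Finset.range (c + 1), monomial j (f i j)) with hP
  have hco : ∀ i j, (P.coeff i).coeff j = f i j := by
    intro i j
    rw [hP, finsetSum_coeff]
    simp only [coeff_monomial]
    rw [Finset.sum_ite_eq']
    split_ifs with h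
    · rw [finsetSum_coeff]
      simp only [coeff_monomial]
      rw [Finset.sum_ite_eq']
      split_ifs with h'
      · rfl
      · rw [hf i j (Or.inr (by simpa using h'))]
    · rw [hf i j (Or.inl (by simpa using h))]
      simp
  refine ⟨P, hco, ?_, ?_⟩
  · rw [natDegree_le_iff_coeff_eq_zero]
    intro N hN
    ext j
    rw [hco, hf N j (Or.inl hN), coeff_zero]
  · intro i
    rw [natDegree_le_iff_coeff_eq_zero]
    intro N hN
    rw [hco, hf i N (Or.inr hN)]

/-- a sequence of polynomials of bounded degrees is a polynomial over the ring of sequences -/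
theorem exists_seqPoly {c : ℕ} (P : ℕ → L[X][X]) (hP : ∀ N, Box c (P N)) :
    ∃ P' : (ℕ → L)[X][X], (∀ N, m2 (Pi.evalRingHom (fun _ => L) N) P' = P N) ∧
      P'.natDegree ≤ c ∧ ∀ i, (P'.coeff i).natDegree ≤ c := by
  -- `P' = ∑ i ∈ range (c + 1), C (∑ j ∈ range (c + 1), C (fun N => ((P N).coeff i).coeff j) *
  --   X ^ j) * X ^ i` (or with `monomial`); compare coefficients
  obtain ⟨P', h1, h2, h3⟩ := exists_coeffs (R := ℕ → L) c
    (fun i j N => ((P N).coeff i).coeff j) (by
      rintro i j (h | h)
      · funext N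
        simp only [Pi.zero_apply]
        rw [coeff_eq_zero_of_natDegree_lt ((hP N).1.trans_lt h), coeff_zero]
      · funext N
        simp only [Pi.zero_apply]
        rw [coeff_eq_zero_of_natDegree_lt (((hP N).2 i).trans_lt h)])
  refine ⟨P', fun N => ?_, h2, h3⟩
  ext i j
  rw [m2_coeff, h1]
  rfl

/-- equality of polynomials over the ring of sequences can be checked termwise -/
theorem seqPoly_ext {P Q : (ℕ → L)[X][X]}
    (h : ∀ N, m2 (Pi.evalRingHom (fun _ => L) N) P = m2 (Pi.evalRingHom (fun _ => L) N) Q) :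
    P = Q := by
  ext i j N
  have h1 := congrArg (fun p : L[X][X] => (p.coeff i).coeff j) (h N)
  simp only [m2_coeff] at h1
  exact h1

end Pool.Agent.Lib.MP_44a246_ntS
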