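import Mathlib
import Pool.Agent.Lib.MP_44a246_ntS.SQ1
import Pool.Agent.Lib.MP_44a246_ntS.SQ1b
import Pool.Agent.Lib.MP_44a246_ntS.SQ2
import Pool.Agent.Lib.MP_e52354_nt.Ultra

/-!
Sequences of polynomials of bounded degrees, ultraproducts of certificates.
-/

namespace Pool.Agent.Lib.MP_44a246_ntS

open Pool.Agent.Lib.MP_e52354_nt
open Polynomial

variable {L : Type*} [Field L]

/-- the quotient of a divisibility of bounded polynomials is bounded -/
theorem dvd_box {A P : L[X][X]} {c : ℕ} (hA : A ≠ 0) (h : A ∣ P) (hP : Box c P) :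
    ∃ Q : L[X][X], P = A * Q ∧ Box c Q := by
  obtain ⟨Q, hQ⟩ := h
  refine ⟨Q, hQ, box_of_mul hA ?_⟩
  rw [← hQ]
  exact hP

theorem m2_CX {R S : Type*} [CommRing R] [CommRing S] (φ : R →+* S) :
    m2 φ (C X) = C X := by
  simp [m2]

theorem m2_X {R S : Type*} [CommRing R] [CommRing S] (φ : R →+* S) :
    m2 φ X = X := by
  simp [m2]

/-- a linear identity over the ring of sequences -/
theorem seq_lin {n : ℕ} {A' Q' T' : (ℕ → L)[X][X]} {B' : Fin (n + 1) → (ℕ → L)[X][X]}
    {A Q T : ℕ → L[X][X]} {B : ℕ → Fin (n + 1) → L[X][X]} {ξ : ℕ → Fin (n + 1) → L}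
    (hA : ∀ N, m2 (Pi.evalRingHom (fun _ => L) N) A' = A N)
    (hQ : ∀ N, m2 (Pi.evalRingHom (fun _ => L) N) Q' = Q N)
    (hT : ∀ N, m2 (Pi.evalRingHom (fun _ => L) N) T' = T N)
    (hB : ∀ j N, m2 (Pi.evalRingHom (fun _ => L) N) (B' j) = B N j)
    (h : ∀ N, ∑ j, C (C (ξ N j)) * B N j - T N * derivative (A N) = A N * Q N) :
    ∑ j, C (C (germHom (fun N => ξ N j))) * m2 germHom (B' j)
      - m2 germHom T' * derivative (m2 germHom A') = m2 germHom A' * m2 germHom Q' := by
  have h1 : ∑ j, C (C (fun N => ξ N j)) * B' j - T' * derivative A' = A' * Q' := by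
    apply seqPoly_ext
    intro N
    rw [map_sub, map_sum, map_mul, map_mul, hA, hQ, hT, m2_derivative, hA, ← h N]
    congr 1
    refine Finset.sum_congr rfl fun j _ => ?_
    rw [map_mul, m2_CC, hB]
    rfl
  have h2 := congrArg (m2 germHom) h1
  rw [map_sub, map_sum, map_mul, map_mul, m2_derivative] at h2
  rw [← h2]
  congr 1
  refine Finset.sum_congr rfl fun j _ => ?_
  rw [map_mul, m2_CC]

/-- a scalar identity over the ring of sequences -/
theorem seq_scal {n : ℕ} {ξ x : ℕ → Fin (n + 1) → L} {c y : ℕ → L}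
    (h : ∀ N, ∑ j, ξ N j * (c N * x N j) = y N) :
    ∑ j, germHom (fun N => ξ N j) * (germHom c * germHom (fun N => x N j)) = germHom y := by
  have h1 : ∑ j, (fun N => ξ N j) * (c * fun N => x N j) = y := by
    funext N
    rw [← h N, Finset.sum_apply]
    rfl
  rw [← h1, map_sum]
  refine Finset.sum_congr rfl fun j _ => ?_
  rw [map_mul, map_mul]

theorem germ_ne_zero {f : ℕ → L} (h : ∀ N, f N ≠ 0) : germHom f ≠ 0 := by
  intro h0
  rw [germHom_eq_zero_iff] at h0
  obtain ⟨N, hN⟩ := h0.exists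
  exact h N hN

theorem box_germ {b : ℕ} {P : (ℕ → L)[X][X]} (h1 : P.natDegree ≤ b)
    (h2 : ∀ i, (P.coeff i).natDegree ≤ b) : Box b (m2 germHom P) := by
  refine ⟨?_, fun i => ?_⟩
  · simp only [m2, coe_mapRingHom]
    exact (natDegree_map_le).trans h1
  · simp only [m2, coe_mapRingHom, coeff_map]
    exact (natDegree_map_le).trans (h2 i)

/-- **Ultraproducts of certificates are certificates.** -/
theorem cert_germ {n d b : ℕ} {a : (Fin (n + 1) →₀ ℕ) → L} {x : ℕ → Fin (n + 1) → L}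
    (h : ∀ N, Cert d a b (x N)) :
    Cert d (fun I => constHom (a I)) b (fun j => germHom (fun N => x N j)) := by
  -- choose the data for every `N`; the quotients `Q N` of the divisibilities have bounded degrees
  -- by `box_of_mul`, `box_FB`, `box_lin` (`A N ≠ 0` as its derivative does not vanish at the
  -- point). `exists_seqPoly` for `A`, `B j` and the quotients; the identities hold over the ring of
  -- sequences by `seqPoly_ext` (the map `m2` commutes with `derivative`, sums, products). Apply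
  -- `m2 germHom`. Values: `map_mapRingHom_evalEval`. A germ of a sequence of nonzero elements is
  -- not zero (`germHom_eq_zero_iff`, `Filter.Eventually.exists`).
  classical
  choose A B ξ₀ ξ₁ ξ₂ c y₁ y hA hB hc hξ₀ hξ₁ hξ₂ hAy hdA hval hF hl₀ hl₁ hl₂ using h
  have hAne : ∀ N, A N ≠ 0 := by
    intro N h0
    apply hdA N
    rw [h0]
    simp
  have hbox1 : Box 1 (1 : L[X][X]) := by
    refine ⟨by simp, fun i => ?_⟩
    rw [coeff_one]
    split_ifs <;> simp
  have hboxCX : Box 1 (C X : L[X][X]) := by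
    refine ⟨by simp, fun i => ?_⟩
    rw [coeff_C]
    split_ifs <;> simp
  have hboxX : Box 1 (X : L[X][X]) := by
    refine ⟨by simp, fun i => ?_⟩
    rw [coeff_X]
    split_ifs <;> simp
  have e0 : ∀ N, ∃ Q, FB d a (B N) = A N * Q ∧ Box (d * b) Q := fun N =>
    dvd_box (hAne N) (hF N) (box_FB d a (hB N))
  have e1 : ∀ N, ∃ Q, ∑ j, C (C (ξ₀ N j)) * B N j - 1 * derivative (A N) = A N * Q ∧
      Box (b + 1) Q := fun N =>
    dvd_box (hAne N) (by rw [one_mul]; exact hl₀ N) (box_lin (hB N) (hA N) hbox1 (ξ₀ N))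
  have e2 : ∀ N, ∃ Q, ∑ j, C (C (ξ₁ N j)) * B N j - C X * derivative (A N) = A N * Q ∧
      Box (b + 1) Q := fun N =>
    dvd_box (hAne N) (hl₁ N) (box_lin (hB N) (hA N) hboxCX (ξ₁ N))
  have e3 : ∀ N, ∃ Q, ∑ j, C (C (ξ₂ N j)) * B N j - X * derivative (A N) = A N * Q ∧
      Box (b + 1) Q := fun N =>
    dvd_box (hAne N) (hl₂ N) (box_lin (hB N) (hA N) hboxX (ξ₂ N))
  choose Q0 hQ0 bQ0 using e0
  choose Q1 hQ1 bQ1 using e1
  choose Q2 hQ2 bQ2 using e2
  choose Q3 hQ3 bQ3 using e3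
  obtain ⟨A', hA', hA'1, hA'2⟩ := exists_seqPoly A hA
  have eB : ∀ j, ∃ P' : (ℕ → L)[X][X], (∀ N, m2 (Pi.evalRingHom (fun _ => L) N) P' = B N j) ∧
      P'.natDegree ≤ b ∧ ∀ i, (P'.coeff i).natDegree ≤ b := fun j =>
    exists_seqPoly (fun N => B N j) (fun N => hB N j)
  choose B' hB' hB'1 hB'2 using eB
  obtain ⟨Q0', hQ0', -, -⟩ := exists_seqPoly Q0 bQ0
  obtain ⟨Q1', hQ1', -, -⟩ := exists_seqPoly Q1 bQ1
  obtain ⟨Q2', hQ2', -, -⟩ := exists_seqPoly Q2 bQ2
  obtain ⟨Q3', hQ3', -, -⟩ := exists_seqPoly Q3 bQ3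
  have hev : ∀ (P' : (ℕ → L)[X][X]) (P : ℕ → L[X][X]),
      (∀ N, m2 (Pi.evalRingHom (fun _ => L) N) P' = P N) →
      P'.evalEval y₁ y = fun N => (P N).evalEval (y₁ N) (y N) := by
    intro P' P hP
    funext N
    have := m2_evalEval (Pi.evalRingHom (fun _ => L) N) P' y₁ y
    rw [hP] at this
    exact this.symm
  have hdA' : ∀ N, m2 (Pi.evalRingHom (fun _ => L) N) (derivative A') = derivative (A N) := by
    intro N
    rw [m2_derivative, hA']
  refine ⟨m2 germHom A', fun j => m2 germHom (B' j), fun j => germHom (fun N => ξ₀ N j),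
    fun j => germHom (fun N => ξ₁ N j), fun j => germHom (fun N => ξ₂ N j), germHom c,
    germHom y₁, germHom y, box_germ hA'1 hA'2, fun j => box_germ (hB'1 j) (hB'2 j),
    germ_ne_zero hc, ?_, seq_scal hξ₁, seq_scal hξ₂, ?_, ?_, ?_, ?_, ?_, ?_, ?_⟩
  · have := seq_scal (y := fun _ => (1 : L)) hξ₀
    rw [this]
    exact map_one germHom
  · rw [m2_evalEval, hev A' A hA']
    have : (fun N => (A N).evalEval (y₁ N) (y N)) = 0 := funext hAy
    rw [this, map_zero]
  · rw [← m2_derivative, m2_evalEval, hev (derivative A') (fun N => derivative (A N)) hdA']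
    exact germ_ne_zero hdA
  · intro j
    rw [← m2_derivative, m2_evalEval, m2_evalEval,
      hev (derivative A') (fun N => derivative (A N)) hdA', hev (B' j) (fun N => B N j) (hB' j),
      ← map_mul, ← map_mul]
    congr 1
    funext N
    exact hval N j
  · refine ⟨m2 germHom Q0', ?_⟩
    have h1 : ∑ I ∈ expo (Fin (n + 1)) d, C (C (fun _ : ℕ => a I)) * ∏ j, B' j ^ I j
        = A' * Q0' := by
      apply seqPoly_ext
      intro N
      rw [map_mul, hA', hQ0', ← hQ0 N, map_sum]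
      unfold FB
      refine Finset.sum_congr rfl fun I _ => ?_
      rw [map_mul, m2_CC, map_prod]
      congr 1
      refine Finset.prod_congr rfl fun j _ => ?_
      rw [map_pow, hB']
    have h2 := congrArg (m2 germHom) h1
    rw [map_sum, map_mul] at h2
    rw [← h2]
    unfold FB
    refine Finset.sum_congr rfl fun I _ => ?_
    rw [map_mul, m2_CC, map_prod]
    congr 1
    refine Finset.prod_congr rfl fun j _ => ?_
    rw [map_pow]
  · refine ⟨m2 germHom Q1', ?_⟩
    have := seq_lin (T := fun _ => 1) (T' := 1) hA' hQ1' (fun N => map_one _) hB' hQ1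
    rwa [map_one, one_mul] at this
  · refine ⟨m2 germHom Q2', ?_⟩
    have := seq_lin (T := fun _ => C X) (T' := C X) hA' hQ2' (fun N => m2_CX _) hB' hQ2
    rwa [m2_CX] at this
  · refine ⟨m2 germHom Q3', ?_⟩
    have := seq_lin (T := fun _ => X) (T' := X) hA' hQ3' (fun N => m2_X _) hB' hQ3
    rwa [m2_X] at this

end Pool.Agent.Lib.MP_44a246_ntS
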