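import Mathlib
import Pool.Agent.Lib.MP_44a246_ntL.LPol
import Pool.Agent.Lib.MP_44a246_ntS.Names

/-!
The derivations of the base field.
-/

namespace Pool.Agent.Lib.MP_44a246_ntS

open Pool.Agent.Lib.MP_44a246_nt
open Pool.Agent.Lib.MP_44a246_ntL
open Pool.Agent.Lib.MP_44a246_ntV
open Pool.Agent.Lib.MP_e52354_nt
open WithZero

universe u v

/-- the data over the base field: derivations `D I` dual to the coefficients, and an infinite family
of constants `z` with dual derivations `E`, all with poles bounded by `B` -/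
structure BaseD (κ : Type u) (K : Type v) [Field κ] [Field K] [Algebra κ K] (n d : ℕ) where
  a : (Fin (n + 1) →₀ ℕ) → K
  D : (Fin (n + 1) →₀ ℕ) → Derivation ℤ K K
  B : Place κ K → ℕ
  A : Place κ K → ℕ
  β : Type u
  z : β → κ
  E : β → Derivation ℤ K K
  hDa : ∀ I ∈ expo (Fin (n + 1)) d, ∀ J ∈ expo (Fin (n + 1)) d,
    D I (a J) = if I = J then 1 else 0
  hB : (Function.support B).Finite
  hA : (Function.support A).Finite
  hD : ∀ I ∈ expo (Fin (n + 1)) d, PoleBound κ (D I) B
  ha : ∀ I ∈ expo (Fin (n + 1)) d, ∀ v : Place κ K, v.1 (a I) ≤ exp (A v : ℤ)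
  hE : ∀ b, PoleBound κ (E b) B
  hEz : ∀ b b', (b = b' → E b (algebraMap κ K (z b')) = 1) ∧
    (b ≠ b' → E b (algebraMap κ K (z b')) = 0)
  hfin : ∀ y : K, {b | E b y ≠ 0}.Finite
  hinf : Infinite β

/-- the transcendence basis is infinite -/
theorem infinite_basis {κ : Type u} {K : Type v} [Field κ] [CharZero κ] [Field K] [CharZero K]
    [Algebra κ K] (htr : Cardinal.aleph0 ≤ Algebra.trdeg ℚ κ) {β : Type u} {z : β → K}
    (hz : Algebra.IsAlgebraic (IntermediateField.adjoin ℚ (Set.range z)) K) : Infinite β := by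
  by_contra hfin
  rw [not_infinite_iff_finite] at hfin
  have h1 : Algebra.IsAlgebraic (Algebra.adjoin ℚ (Set.range z)) K :=
    IntermediateField.isAlgebraic_adjoin_iff_top.1 hz
  have h2 : Algebra.trdeg ℚ K ≤ Cardinal.mk (Set.range z) := Algebra.IsAlgebraic.trdeg_le_cardinalMk ℚ _
  have h3 : Cardinal.mk (Set.range z) < Cardinal.aleph0 := by
    rw [Cardinal.lt_aleph0_iff_finite]
    exact Set.finite_range z
  have h4 : Cardinal.lift.{v} (Algebra.trdeg ℚ κ) ≤ Cardinal.lift.{u} (Algebra.trdeg ℚ K) :=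
    lift_trdeg_le_of_injective ((algebraMap κ K).toRatAlgHom) (algebraMap κ K).injective
  have h5 : Cardinal.aleph0 ≤ Cardinal.lift.{v} (Algebra.trdeg ℚ κ) := by
    rwa [Cardinal.aleph0_le_lift]
  have h6 : Cardinal.lift.{u} (Algebra.trdeg ℚ K) < Cardinal.aleph0 := by
    rw [Cardinal.lift_lt_aleph0]
    exact h2.trans_lt h3
  exact absurd (h5.trans h4) (not_le.2 h6)

end Pool.Agent.Lib.MP_44a246_ntS
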