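import Mathlib
import Pool.Agent.Lib.MP_44a246_ntL.LFF
import Pool.Agent.Lib.MP_e52354_ntG.Weights

/-!
Two linear forms with natural coefficients which do not vanish simultaneously at a point, at any
place.
-/

namespace Pool.Agent.Lib.MP_44a246_ntS

open Pool.Agent.Lib.MP_44a246_nt
open Pool.Agent.Lib.MP_44a246_ntL
open WithZero

variable {κ L : Type*} [Field κ] [IsAlgClosed κ] [CharZero κ] [Field L] [Algebra κ L]

/-- at one place all but finitely many of the linear forms `∑ t ^ j X_j` have maximal value -/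
theorem finite_bad (h : IsFF κ L) {n : ℕ} {x : Fin (n + 1) → L} (hx : x ≠ 0) (w : Place κ L) :
    {t : ℕ | w.1 (∑ j : Fin (n + 1), ((t ^ (j : ℕ) : ℕ) : L) * x j) ≠ vmax w.1 x}.Finite := by
  -- choose `l` with `w (x l) = vmax w x` (`exists_vmax`), and residues `r j : κ` of `x j / x l`
  -- (`IsFF.place_residue`), `r l = 1` (or `r l ≠ 0`). If `∑ t ^ j r j ≠ 0` then
  -- `w (∑ t ^ j x j / x l) = 1` (a nonzero constant plus an element of value `< 1`).
  -- The polynomial `∑ r j T ^ j` is not zero and has finitely many roots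
  classical
  obtain ⟨l, hl0, hlmax, hle⟩ := exists_vmax w.1 hx
  have hvl : w.1 (x l) ≠ 0 := (Valuation.ne_zero_iff _).2 hl0
  have hres : ∀ j, ∃ c : κ, w.1 (x j / x l - algebraMap κ L c) < 1 := by
    intro j
    refine h.place_residue w ?_
    rw [map_div₀]
    exact div_le_one_of_le₀ (hle j) zero_le
  choose r hr using hres
  have hrl : r l ≠ 0 := by
    intro h0
    have := hr l
    rw [h0, map_zero, sub_zero, div_self hl0, map_one] at this
    exact lt_irrefl _ this
  set p : Polynomial κ := ∑ j : Fin (n + 1), Polynomial.C (r j) * Polynomial.X ^ (j : ℕ) with hp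
  have hp0 : p ≠ 0 := by
    intro h0
    have h1 : p.coeff (l : ℕ) = r l := by
      rw [hp, Polynomial.finsetSum_coeff, Finset.sum_eq_single l]
      · rw [Polynomial.coeff_C_mul, Polynomial.coeff_X_pow, if_pos rfl, mul_one]
      · intro j _ hj
        rw [Polynomial.coeff_C_mul, Polynomial.coeff_X_pow, if_neg, mul_zero]
        intro he
        exact hj (Fin.ext he.symm)
      · intro hl; exact absurd (Finset.mem_univ l) hl
    rw [h0, Polynomial.coeff_zero] at h1
    exact hrl h1.symm
  have hfin : {c : κ | p.IsRoot c}.Finite := by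
    have := p.roots.toFinset.finite_toSet
    refine this.subset fun c hc => ?_
    simp only [Finset.mem_coe, Multiset.mem_toFinset, Polynomial.mem_roots hp0]
    exact hc
  have hinj : Set.InjOn (fun t : ℕ => (t : κ)) ((fun t : ℕ => (t : κ)) ⁻¹' {c : κ | p.IsRoot c}) :=
    fun a _ b _ hab => Nat.cast_injective hab
  refine (hfin.preimage hinj).subset fun t ht => ?_
  by_contra hroot
  apply ht
  have hc : p.eval (t : κ) ≠ 0 := hroot
  have e1 : ∑ j : Fin (n + 1), ((t ^ (j : ℕ) : ℕ) : L) * x j =
      x l * (algebraMap κ L (p.eval (t : κ)) +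
        ∑ j : Fin (n + 1), ((t ^ (j : ℕ) : ℕ) : L) * (x j / x l - algebraMap κ L (r j))) := by
    have e2 : algebraMap κ L (p.eval (t : κ)) =
        ∑ j : Fin (n + 1), ((t ^ (j : ℕ) : ℕ) : L) * algebraMap κ L (r j) := by
      rw [hp, Polynomial.eval_finsetSum, map_sum]
      refine Finset.sum_congr rfl fun j _ => ?_
      rw [Polynomial.eval_mul, Polynomial.eval_C, Polynomial.eval_pow, Polynomial.eval_X, map_mul,
        map_pow, map_natCast, Nat.cast_pow, mul_comm]
    rw [e2, ← Finset.sum_add_distrib, Finset.mul_sum]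
    refine Finset.sum_congr rfl fun j _ => ?_
    field_simp
    ring
  have hnat : ∀ j : Fin (n + 1), w.1 ((t ^ (j : ℕ) : ℕ) : L) ≤ 1 := by
    intro j
    rcases eq_or_ne ((t ^ (j : ℕ) : ℕ) : κ) 0 with h0 | h0
    · have : ((t ^ (j : ℕ) : ℕ) : L) = 0 := by
        rw [← map_natCast (algebraMap κ L), h0, map_zero]
      rw [this, map_zero]; exact zero_le
    · have := w.2.2 _ h0
      rw [map_natCast] at this
      exact this.le
  have h2 : w.1 (∑ j : Fin (n + 1),
      ((t ^ (j : ℕ) : ℕ) : L) * (x j / x l - algebraMap κ L (r j))) < 1 := by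
    refine Valuation.map_sum_lt _ one_ne_zero fun j _ => ?_
    rw [map_mul]
    calc w.1 ((t ^ (j : ℕ) : ℕ) : L) * w.1 (x j / x l - algebraMap κ L (r j))
        ≤ 1 * w.1 (x j / x l - algebraMap κ L (r j)) := mul_le_mul_left (hnat j) _
      _ < 1 := by rw [one_mul]; exact hr j
  rw [e1, map_mul, Valuation.map_add_eq_of_lt_left, w.2.2 _ hc, mul_one, hlmax]
  rw [w.2.2 _ hc]
  exact h2

end Pool.Agent.Lib.MP_44a246_ntS
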