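import Mathlib
import Pool.Agent.Lib.MP_44a246_ntS.SR1

/-!
Two linear forms with natural coefficients which do not vanish simultaneously at a point, at any
place.
-/

namespace Pool.Agent.Lib.MP_44a246_ntS

open Pool.Agent.Lib.MP_44a246_nt
open Pool.Agent.Lib.MP_44a246_ntL
open WithZero

variable {κ L : Type*} [Field κ] [IsAlgClosed κ] [CharZero κ] [Field L] [Algebra κ L]

/-- **The projection to the line.** -/
theorem exists_forms (h : IsFF κ L) {n : ℕ} {x : Fin (n + 1) → L} (hx : x ≠ 0) :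
    ∃ ξ₀ ξ₁ : Fin (n + 1) → ℕ, ∑ j, (ξ₀ j : L) * x j ≠ 0 ∧
      ∀ w : Place κ L, vmax w.1 x ≤ max (w.1 (∑ j, (ξ₀ j : L) * x j))
        (w.1 (∑ j, (ξ₁ j : L) * x j)) := by
  -- `ξ₀ j = s ^ j` with `∑ s ^ j x j ≠ 0` (a nonzero polynomial has finitely many roots). The set
  -- of the places `w` with `w (∑ ξ₀ j x j) ≠ vmax w x` is finite (`IsFF.place_finite`,
  -- `IsFF.vmax_finite`). `ξ₁ j = t ^ j` with `t` outside of the finitely many finite sets
  -- `finite_bad` for these places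
  have hL : CharZero L := charZero_of_injective_algebraMap (algebraMap κ L).injective
  -- the polynomial
  let P : Polynomial L := ∑ j : Fin (n + 1), Polynomial.C (x j) * Polynomial.X ^ (j : ℕ)
  have hP : P ≠ 0 := by
    obtain ⟨i, hi⟩ := Function.ne_iff.mp hx
    intro h0
    have h1 : P.coeff (i : ℕ) = x i := by
      simp only [P, Polynomial.finsetSum_coeff, Polynomial.coeff_C_mul, Polynomial.coeff_X_pow]
      rw [Finset.sum_eq_single i]
      · simp
      · intro b _ hb
        have : (i : ℕ) ≠ (b : ℕ) := fun hh => hb (Fin.ext hh.symm)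
        simp [this]
      · intro hh
        exact absurd (Finset.mem_univ i) hh
    rw [h0, Polynomial.coeff_zero] at h1
    exact hi h1.symm
  have hfin : {s : ℕ | P.eval (s : L) = 0}.Finite := by
    have h1 : {s : ℕ | P.eval (s : L) = 0} = (fun s : ℕ => (s : L)) ⁻¹' {a : L | P.IsRoot a} := by
      ext s; rfl
    rw [h1]
    exact (Polynomial.finite_setOfPred_isRoot hP).preimage (Nat.cast_injective.injOn)
  obtain ⟨s, hs⟩ := hfin.exists_notMem
  have hs' : ∑ j : Fin (n + 1), ((s ^ (j : ℕ) : ℕ) : L) * x j ≠ 0 := by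
    intro h0
    apply hs
    simp only [Set.mem_ofPred_eq, P, Polynomial.eval_finsetSum, Polynomial.eval_mul,
      Polynomial.eval_C, Polynomial.eval_pow, Polynomial.eval_X]
    rw [← h0]
    exact Finset.sum_congr rfl fun j _ => by push_cast; ring
  set y : L := ∑ j : Fin (n + 1), ((s ^ (j : ℕ) : ℕ) : L) * x j with hy
  have hbad : {w : Place κ L | w.1 y ≠ 1} ∪ {w : Place κ L | vmax w.1 x ≠ 1} |>.Finite :=
    (h.place_finite hs').union (h.vmax_finite hx)
  have hfin2 : (⋃ w ∈ {w : Place κ L | w.1 y ≠ 1} ∪ {w : Place κ L | vmax w.1 x ≠ 1},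
      {t : ℕ | w.1 (∑ j : Fin (n + 1), ((t ^ (j : ℕ) : ℕ) : L) * x j) ≠ vmax w.1 x}).Finite :=
    hbad.biUnion fun w _ => finite_bad h hx w
  obtain ⟨t, ht⟩ := hfin2.exists_notMem
  refine ⟨fun j => s ^ (j : ℕ), fun j => t ^ (j : ℕ), hs', ?_⟩
  intro w
  by_cases hw : w ∈ {w : Place κ L | w.1 y ≠ 1} ∪ {w : Place κ L | vmax w.1 x ≠ 1}
  · have h1 : w.1 (∑ j : Fin (n + 1), ((t ^ (j : ℕ) : ℕ) : L) * x j) = vmax w.1 x := by
      by_contra hne
      exact ht (Set.mem_biUnion hw hne)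
    rw [← h1]
    exact le_max_right _ _
  · simp only [Set.mem_union, Set.mem_ofPred_eq, not_or, not_not] at hw
    have h2 : vmax w.1 x ≤ w.1 y := by rw [hw.2]; exact hw.1.ge
    exact h2.trans (le_max_left _ _)

end Pool.Agent.Lib.MP_44a246_ntS
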