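import Mathlib
import Pool.Agent.Lib.MP_44a246_ntS.SH1
import Pool.Agent.Lib.MP_44a246_ntS.SR2
import Pool.Agent.Lib.MP_e52354_ntG.Weights
import Pool.Agent.Lib.MP_44a246_ntS.Names

/-!
Passage to a finite extension, and the height theorem over the base field.
-/

namespace Pool.Agent.Lib.MP_44a246_ntS

open Pool.Agent.Lib.MP_44a246_nt
open Pool.Agent.Lib.MP_44a246_ntL
open Pool.Agent.Lib.MP_44a246_ntV
open Pool.Agent.Lib.MP_e52354_nt
open WithZero

universe u v w

section

variable {κ : Type u} {K : Type v} [Field κ] [IsAlgClosed κ] [CharZero κ] [Field K] [CharZero K]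
  [Algebra κ K] {n d : ℕ} (X : BaseD κ K n d)
  {L : Type w} [Field L] [Algebra K L] [FiniteDimensional K L] [Algebra κ L]
  [IsScalarTower κ K L]

/-- only finitely many of the derivations `E` act nontrivially on a given element -/
theorem finite_moving (E' : X.β → Derivation ℤ L L)
    (hE' : ∀ b y, E' b (algebraMap K L y) = algebraMap K L (X.E b y)) (y : L) :
    {b | E' b y ≠ 0}.Finite := by
  have hint : IsIntegral K y := Algebra.IsIntegral.isIntegral y
  have hsep : (minpoly K y).Separable := (minpoly.irreducible hint).separable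
  refine ((Finset.range ((minpoly K y).natDegree + 1)).finite_toSet.biUnion
    fun i _ => X.hfin ((minpoly K y).coeff i)).subset ?_
  intro b hb
  by_contra hnb
  apply hb
  have h0 : ∀ i, X.E b ((minpoly K y).coeff i) = 0 := by
    intro i
    by_contra hne
    refine hnb (Set.mem_biUnion (x := i) ?_ hne)
    by_contra hi
    have hi' : (minpoly K y).natDegree < i := by
      simp only [Finset.coe_range, Set.mem_Iio, not_lt] at hi
      omega
    exact hne (by rw [Polynomial.coeff_eq_zero_of_natDegree_lt hi', map_zero])
  have h1 : (X.E b).mapCoeffs (minpoly K y) = 0 := by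
    ext i
    exact h0 i
  have h2 := Derivation.apply_aeval_eq' (X.E b) (E' b) (Algebra.linearMap K L)
    (fun a => (hE' b a).symm) y (minpoly K y)
  rw [h1, minpoly.aeval, map_zero, map_zero, map_zero, zero_add] at h2
  rcases smul_eq_zero.1 h2.symm with h3 | h3
  · exact absurd h3 (hsep.aeval_derivative_ne_zero (minpoly.aeval K y))
  · exact h3

end

end Pool.Agent.Lib.MP_44a246_ntS
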