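import Mathlib
import Pool.Agent.Lib.MP_44a246_ntL.LMason
import Pool.Agent.Lib.MP_44a246_ntS.SL2
import Pool.Agent.Lib.MP_44a246_ntS.SR1b
import Pool.Agent.Lib.MP_44a246_ntS.SR3
import Pool.Agent.Lib.MP_e52354_ntG.LinAlg
import Pool.Agent.Lib.MP_44a246_ntS.Names

/-!
Passage to a finite extension, and the height theorem over the base field.
-/

namespace Pool.Agent.Lib.MP_44a246_ntS

open Pool.Agent.Lib.MP_44a246_nt
open Pool.Agent.Lib.MP_44a246_ntL
open Pool.Agent.Lib.MP_44a246_ntV
open Pool.Agent.Lib.MP_e52354_nt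
open WithZero

universe u v w

section

variable {κ : Type u} {K : Type v} [Field κ] [IsAlgClosed κ] [CharZero κ] [Field K] [CharZero K]
  [Algebra κ K] {n d : ℕ} (X : BaseD κ K n d)
  {L : Type w} [Field L] [Algebra K L] [FiniteDimensional K L] [Algebra κ L]
  [IsScalarTower κ K L]

private theorem sr3b_vmax {L : Type*} [Field L] (v : Valuation L ℤᵐ⁰) {σ : Type*} [Fintype σ] (c : L)
    (x : σ → L) : vmax v (fun j => c * x j) ≤ v c * vmax v x := by
  refine vmax_le v fun j => ?_
  rw [map_mul]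
  exact mul_le_mul' le_rfl (le_vmax v x j)

/-- **The data over a finite extension.** -/
theorem exists_dat (hK : IsFF κ K) {x : Fin (n + 1) → L} (hx : x ≠ 0)
    (hF : Fval d (fun I => algebraMap K L (X.a I)) x = 0) :
    ∃ (Y : Dat κ (L := L) n d) (c : L), c ≠ 0 ∧ Y.a = (fun I => algebraMap K L (X.a I)) ∧
      Y.x = (fun j => c * x j) ∧
      Y.δ = fun w => ramIdx K w.1 * X.B (below K w) + (ramIdx K w.1 - 1) := by
  -- `D`, `E`: `exists_extension`, `polar_over`. `ξ₀, ξ₁` from `exists_forms`, `c` the inverse of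
  -- `∑ ξ₀ j x j`. The derivations `E b` outside of a finite set kill all `c * x j`
  -- (`finite_moving`); take `n + 1` different such `b` (`Infinite β`), with their `z b`.
  -- `hδ`: `mason_sum_over`, `mason_sum_ram`
  classical
  have hL : IsFF κ L := hK.of_finite
  obtain ⟨ξ₀, ξ₁, h0, h1⟩ := exists_forms hL hx
  choose D' hD' using fun I => exists_extension (L := L) (X.D I)
  choose E' hE' using fun b => exists_extension (L := L) (X.E b)
  set s : L := ∑ j, (ξ₀ j : L) * x j with hs
  have hfin : (⋃ j : Fin (n + 1), {b | E' b (s⁻¹ * x j) ≠ 0}).Finite :=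
    Set.finite_iUnion fun j => finite_moving X E' hE' (s⁻¹ * x j)
  have := X.hinf
  let e : ℕ ↪ ↥(⋃ j : Fin (n + 1), {b | E' b (s⁻¹ * x j) ≠ 0})ᶜ := hfin.infinite_compl.natEmbedding
  have hker : ∀ (m : ℕ) (j : Fin (n + 1)), E' (e m).1 (s⁻¹ * x j) = 0 := by
    intro m j
    have h2 := (e m).2
    rw [Set.mem_compl_iff, Set.mem_iUnion, not_exists] at h2
    have h3 := h2 j
    exact not_not.mp h3
  have hext : ∀ i j : ℕ, (e i).1 = (e j).1 → i = j := fun i j h2 => e.injective (Subtype.ext h2)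
  have hsum : ∀ ξ : Fin (n + 1) → ℕ, ∑ j, (ξ j : L) * (s⁻¹ * x j) = s⁻¹ * ∑ j, (ξ j : L) * x j := by
    intro ξ
    rw [Finset.mul_sum]
    exact Finset.sum_congr rfl fun j _ => by ring
  have hpole : ∀ {D₀ : Derivation ℤ K K} {D₁ : Derivation ℤ L L}
      (_ : ∀ y, D₁ (algebraMap K L y) = algebraMap K L (D₀ y)) (_ : PoleBound κ D₀ X.B),
      PoleBound κ D₁ (fun w : Place κ L => ramIdx K w.1 * X.B (below K w) + (ramIdx K w.1 - 1)) :=
    fun h2 h3 w y hy => polar_over hL h2 h3 w hy
  have hfs : (Function.support fun w : Place κ L =>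
      ramIdx K w.1 * X.B (below K w) + (ramIdx K w.1 - 1)).Finite := by
    refine ((mason_sum_over (L := L) hL X.hB).1.union (mason_sum_ram (K := K) hL).1).subset ?_
    intro w hw
    rw [Function.mem_support] at hw
    rw [Set.mem_union, Function.mem_support, Function.mem_support]
    by_contra hcon
    rw [not_or, not_not, not_not] at hcon
    apply hw
    have h2 : ramIdx K w.1 * X.B (below K w) = 0 := by exact_mod_cast hcon.1
    have h3 : ramIdx K w.1 - 1 = 0 := by exact_mod_cast hcon.2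
    simp only [h2, h3, add_zero]
  refine ⟨{ a := fun I => algebraMap K L (X.a I)
            D := D'
            δ := fun w => ramIdx K w.1 * X.B (below K w) + (ramIdx K w.1 - 1)
            x := fun j => s⁻¹ * x j
            z := fun j => X.z (e j).1
            E := fun j => E' (e j).1
            ξ₀ := ξ₀
            ξ₁ := ξ₁
            hDa := ?_
            hδ := hfs
            hD := fun I hI => hpole (hD' I) (X.hD I hI)
            hE := fun j => hpole (hE' _) (X.hE _)
            hEz := ?_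
            hEx := fun i j => hker i j
            h0 := ?_
            hF := ?_
            hmax := ?_ }, s⁻¹, inv_ne_zero h0, rfl, rfl, rfl⟩
  · intro I hI J hJ
    rw [hD', X.hDa I hI J hJ]
    split_ifs <;> simp
  · intro i j
    rw [IsScalarTower.algebraMap_apply κ K L, hE']
    by_cases hij : i = j
    · rw [if_pos hij, hij, (X.hEz _ _).1 rfl, map_one]
    · rw [if_neg hij, (X.hEz _ _).2 (fun h2 => hij (Fin.ext (hext _ _ h2))), map_zero]
  · rw [hsum, ← hs, inv_mul_cancel₀ h0]
  · rw [Fval_smul, hF, mul_zero]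
  · intro w
    rw [hsum]
    have h2 : w.1 s ≠ 0 := (Valuation.ne_zero_iff _).mpr h0
    refine (sr3b_vmax w.1 s⁻¹ x).trans ?_
    rw [map_mul, map_inv₀]
    calc (w.1 s)⁻¹ * vmax w.1 x ≤ (w.1 s)⁻¹ * max (w.1 s) (w.1 (∑ j, (ξ₁ j : L) * x j)) :=
          mul_le_mul' le_rfl (h1 w)
      _ = max 1 ((w.1 s)⁻¹ * w.1 (∑ j, (ξ₁ j : L) * x j)) := by
          rw [mul_max, inv_mul_cancel₀ h2]

end

end Pool.Agent.Lib.MP_44a246_ntS
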