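import Mathlib
import Pool.Agent.Lib.MP_44a246_ntL.LMason
import Pool.Agent.Lib.MP_44a246_ntS.SL2
import Pool.Agent.Lib.MP_44a246_ntS.SR2
import Pool.Agent.Lib.MP_44a246_ntT.TW
import Pool.Agent.Lib.MP_44a246_ntS.Names

/-!
Passage to a finite extension, and the height theorem over the base field.
-/

namespace Pool.Agent.Lib.MP_44a246_ntS

open Pool.Agent.Lib.MP_44a246_nt
open Pool.Agent.Lib.MP_44a246_ntL
open Pool.Agent.Lib.MP_44a246_ntV
open Pool.Agent.Lib.MP_e52354_nt
open WithZero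

universe u v w

section

variable {κ : Type u} {K : Type v} [Field κ] [IsAlgClosed κ] [CharZero κ] [Field K] [CharZero K]
  [Algebra κ K] {n d : ℕ} (X : BaseD κ K n d)
  {L : Type w} [Field L] [Algebra K L] [FiniteDimensional K L] [Algebra κ L]
  [IsScalarTower κ K L]

/-- the sum of the poles -/
theorem sum_δ (hK : IsFF κ K) (B : Place κ K → ℕ) (hB : (Function.support B).Finite) :
    ∑ᶠ w : Place κ L, ((ramIdx K w.1 * B (below K w) + (ramIdx K w.1 - 1) : ℕ) : ℤ) =
      (∑ᶠ v, (B v : ℤ)) * Module.finrank K L + ramDeg κ L K := by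
  -- `finsum_add_distrib`, `mason_sum_over`, `mason_sum_ram`
  have hL : IsFF κ L := hK.of_finite
  obtain ⟨h1, h2⟩ := mason_sum_over hL hB
  obtain ⟨h3, h4⟩ := mason_sum_ram (K := K) hL
  simp only [Nat.cast_add]
  rw [finsum_add_distrib h1 h3, h2, h4]
  congr 2
  exact (Nat.castAddMonoidHom ℤ).map_finsum hB

/-- bounds for the coefficients in the extension -/
theorem coef_le (A : Place κ K → ℕ) {c : K} (hc : ∀ v : Place κ K, v.1 c ≤ exp (A v : ℤ))
    (w : Place κ L) :
    w.1 (algebraMap K L c) ≤ exp ((ramIdx K w.1 * A (below K w) : ℕ) : ℤ) := by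
  -- the value of `c` at `w` is the `ramIdx`-th power of its value at `below K w`
  rw [below_pow]
  have h1 : exp ((ramIdx K w.1 * A (below K w) : ℕ) : ℤ) =
      exp (A (below K w) : ℤ) ^ ramIdx K w.1 := by
    rw [← exp_nsmul]
    simp
  rw [h1]
  exact pow_le_pow_left' (hc (below K w)) _

end

theorem Cert.smul {L : Type*} [Field L] {n d b : ℕ} {a : (Fin (n + 1) →₀ ℕ) → L}
    {x : Fin (n + 1) → L} {c : L} (hc : c ≠ 0) (h : Cert d a b (fun j => c * x j)) :
    Cert d a b x := by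
  obtain ⟨A, B, ξ₀, ξ₁, ξ₂, c', y₁, y, h1, h2, h3, h4⟩ := h
  simp only [← mul_assoc c' c] at h4
  exact ⟨A, B, ξ₀, ξ₁, ξ₂, c' * c, y₁, y, h1, h2, mul_ne_zero h3 hc, h4⟩

end Pool.Agent.Lib.MP_44a246_ntS
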