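import Mathlib
import Pool.Agent.Lib.MP_44a246_ntS.Names

/-!
Generic points in ultrapowers.
-/

namespace Pool.Agent.Lib.MP_44a246_ntS

open Pool.Agent.Lib.MP_e52354_nt

/-- A family of points over `L` which satisfies no polynomial relation over `K` has an ultraproduct
which is generic. -/
theorem exists_generic_seq {K L : Type*} [Field K] [Field L] [CharZero K] [CharZero L]
    [Algebra K L] {σ τ : Type*} [Finite σ] [Finite τ] {a : σ → K}
    (ha : AlgebraicIndependent ℚ a) {S : Set (τ → L)}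
    (h : ∀ g : MvPolynomial τ K, g ≠ 0 → ∃ z ∈ S, MvPolynomial.aeval z g ≠ 0) :
    ∃ z : ℕ → τ → L, (∀ N, z N ∈ S) ∧
      ∀ H : MvPolynomial (σ ⊕ τ) ℚ, H ≠ 0 →
        ∃ N₀, ∀ N ≥ N₀, MvPolynomial.aeval (Sum.elim (fun s => algebraMap K L (a s)) (z N)) H ≠ 0 := by
  -- the polynomial with the first variables specialised
  let G : MvPolynomial (σ ⊕ τ) ℚ →ₐ[ℚ] MvPolynomial τ K :=
    MvPolynomial.aeval (Sum.elim (fun s => MvPolynomial.C (a s)) MvPolynomial.X)
  -- it is injective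
  have hG : Function.Injective G := by
    let e := (MvPolynomial.renameEquiv ℚ (Equiv.sumComm σ τ)).trans (MvPolynomial.sumAlgEquiv ℚ τ σ)
    have hfac : ∀ H, G H = MvPolynomial.map
        ((MvPolynomial.aeval a : MvPolynomial σ ℚ →ₐ[ℚ] K) : MvPolynomial σ ℚ →+* K) (e H) := by
      intro H
      have hhom : (G : MvPolynomial (σ ⊕ τ) ℚ →+* MvPolynomial τ K) =
          (MvPolynomial.map ((MvPolynomial.aeval a : MvPolynomial σ ℚ →ₐ[ℚ] K) :
            MvPolynomial σ ℚ →+* K)).comp (e : MvPolynomial (σ ⊕ τ) ℚ →+* _) := by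
        apply MvPolynomial.ringHom_ext
        · intro r
          simp [G, e]
        · rintro (s | t)
          · simp [G, e]
          · simp [G, e]
      exact congrArg (fun φ : MvPolynomial (σ ⊕ τ) ℚ →+* MvPolynomial τ K => φ H) hhom
    intro H₁ H₂ h12
    rw [hfac, hfac] at h12
    exact e.injective (MvPolynomial.map_injective _ ha h12)
  have hGne : ∀ H : MvPolynomial (σ ⊕ τ) ℚ, H ≠ 0 → G H ≠ 0 := fun H hH h0 =>
    hH (hG (by rw [h0, map_zero]))
  -- evaluation
  have hev : ∀ (z : τ → L) (H : MvPolynomial (σ ⊕ τ) ℚ), MvPolynomial.aeval z (G H) =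
      MvPolynomial.aeval (Sum.elim (fun s => algebraMap K L (a s)) z) H := by
    intro z H
    have hhom : ((MvPolynomial.aeval z : MvPolynomial τ K →ₐ[K] L) : MvPolynomial τ K →+* L).comp
        (G : MvPolynomial (σ ⊕ τ) ℚ →+* MvPolynomial τ K) =
        ((MvPolynomial.aeval (Sum.elim (fun s => algebraMap K L (a s)) z) :
          MvPolynomial (σ ⊕ τ) ℚ →ₐ[ℚ] L) : MvPolynomial (σ ⊕ τ) ℚ →+* L) := by
      apply MvPolynomial.ringHom_ext
      · intro r
        simp [G]
      · rintro (s | t)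
        · simp [G]
        · simp [G]
    exact congrArg (fun φ : MvPolynomial (σ ⊕ τ) ℚ →+* L => φ H) hhom
  -- enumerate
  have hc3 : Countable (MvPolynomial (σ ⊕ τ) ℚ) := by
    rw [← Cardinal.mk_le_aleph0_iff]
    refine MvPolynomial.cardinalMk_le_max_lift.trans (max_le (max_le ?_ ?_) le_rfl)
    · rw [Cardinal.lift_le_aleph0]
      exact Cardinal.mk_le_aleph0
    · rw [Cardinal.lift_le_aleph0]
      exact Cardinal.mk_le_aleph0
  have hne : Nonempty {H : MvPolynomial (σ ⊕ τ) ℚ // H ≠ 0} := ⟨⟨1, one_ne_zero⟩⟩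
  obtain ⟨enum, henum⟩ := exists_surjective_nat {H : MvPolynomial (σ ⊕ τ) ℚ // H ≠ 0}
  have hprod : ∀ N : ℕ, ∏ i ∈ Finset.range (N + 1), G (enum i).1 ≠ 0 := fun N =>
    Finset.prod_ne_zero_iff.mpr fun i _ => hGne _ (enum i).2
  choose z hzS hz using fun N => h _ (hprod N)
  refine ⟨z, hzS, fun H hH => ?_⟩
  obtain ⟨i, hi⟩ := henum ⟨H, hH⟩
  refine ⟨i, fun N hN => ?_⟩
  have h1 := hz N
  rw [map_prod, Finset.prod_ne_zero_iff] at h1
  have h2 := h1 i (Finset.mem_range.mpr (by omega))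
  rw [hev, hi] at h2
  exact h2

end Pool.Agent.Lib.MP_44a246_ntS
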