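import Mathlib
import Pool.Agent.Lib.MP_e52354_nt.Ultra

/-!
Generic points in ultrapowers.
-/

namespace Pool.Agent.Lib.MP_44a246_ntS

open Pool.Agent.Lib.MP_e52354_nt

/-- algebraic independence in a field extension of the ultrapower -/
theorem algIndep_germ {L Ω : Type*} [Field L] [CharZero L] [Field Ω] [CharZero Ω]
    (ψ : UP L →+* Ω) {ι : Type*} {z : ℕ → ι → L}
    (h : ∀ H : MvPolynomial ι ℚ, H ≠ 0 → ∃ N₀, ∀ N ≥ N₀, MvPolynomial.aeval (z N) H ≠ 0) :
    AlgebraicIndependent ℚ (fun i => ψ (germHom (fun N => z N i)) : ι → Ω) := by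
  rw [algebraicIndependent_iff]
  intro H hH
  by_contra hne
  obtain ⟨N₀, hN₀⟩ := h H hne
  have hhom : (MvPolynomial.aeval (R := ℚ) (fun i => ψ (germHom (fun N => z N i)))).toRingHom =
      ψ.comp (germHom.comp (RingHom.pi (f := fun _ : ℕ => L) fun N =>
        (MvPolynomial.aeval (R := ℚ) (z N)).toRingHom)) := by
    refine MvPolynomial.ringHom_ext (fun r => ?_) (fun i => ?_)
    · exact DFunLike.congr_fun (Subsingleton.elim
        ((MvPolynomial.aeval (R := ℚ) (fun i => ψ (germHom (fun N => z N i)))).toRingHom.comp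
          MvPolynomial.C)
        ((ψ.comp (germHom.comp (RingHom.pi (f := fun _ : ℕ => L) fun N =>
        (MvPolynomial.aeval (R := ℚ) (z N)).toRingHom))).comp MvPolynomial.C)) r
    · have h3 : (fun N => z N i) = fun N => MvPolynomial.aeval (R := ℚ) (z N) (MvPolynomial.X i) := by
        funext N
        rw [MvPolynomial.aeval_X]
      show MvPolynomial.aeval (R := ℚ) (fun i => ψ (germHom (fun N => z N i))) (MvPolynomial.X i) =
        ψ (germHom (fun N => MvPolynomial.aeval (R := ℚ) (z N) (MvPolynomial.X i)))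
      rw [MvPolynomial.aeval_X, h3]
  have h1 : MvPolynomial.aeval (R := ℚ) (fun i => ψ (germHom (fun N => z N i))) H =
      ψ (germHom (fun N => MvPolynomial.aeval (z N) H)) := DFunLike.congr_fun hhom H
  rw [h1, map_eq_zero, germHom_eq_zero_iff] at hH
  have h2 : ∀ᶠ n in (Filter.hyperfilter ℕ : Filter ℕ), N₀ ≤ n :=
    (Filter.hyperfilter_le_cofinite (Nat.cofinite_eq_atTop ▸ Filter.eventually_ge_atTop N₀))
  obtain ⟨n, hn1, hn2⟩ := (hH.and h2).exists
  exact hN₀ n hn2 hn1

end Pool.Agent.Lib.MP_44a246_ntS
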