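import Mathlib
import Pool.Agent.Lib.MP_44a246_ntS.Names

/-!
Homogenisation.
-/

namespace Pool.Agent.Lib.MP_44a246_ntS

open Pool.Agent.Lib.MP_e52354_nt
open MvPolynomial

/-- A polynomial in the coordinates `1, ..., m + 1` becomes a form which does not involve the last
coordinate and vanishes where the coordinate `0` vanishes. -/
theorem exists_homog {K : Type*} [Field K] {m : ℕ} {g : MvPolynomial (Fin (m + 1)) K}
    (hg : g ≠ 0) :
    ∃ (e : ℕ) (G : MvPolynomial (Fin (m + 3)) K), G.IsHomogeneous e ∧ G ≠ 0 ∧
      G.degreeOf (Fin.last (m + 2)) = 0 ∧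
      ∀ {L : Type*} [Field L] [Algebra K L] (x : Fin (m + 3) → L),
        (x 0 ≠ 0 → aeval (fun j : Fin (m + 1) => x j.succ.castSucc / x 0) g = 0) →
          aeval x G = 0 := by
  classical
  set N := g.totalDegree with hN
  let φ : Fin (m + 1) → Fin (m + 3) := fun j => j.succ.castSucc
  have hφ : Function.Injective φ := fun i j h => by
    simpa [φ, Fin.ext_iff] using h
  have hφ0 : ∀ j, φ j ≠ 0 := fun j h => by
    have h1 : (j : ℕ) + 1 = 0 := congrArg Fin.val h
    omega
  have hφl : ∀ j, φ j ≠ Fin.last (m + 2) := fun j => Fin.castSucc_ne_last _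
  let E : (Fin (m + 1) →₀ ℕ) → (Fin (m + 3) →₀ ℕ) := fun u =>
    Finsupp.mapDomain φ u + Finsupp.single 0 (N + 1 - u.degree)
  have hE1 : ∀ u j, E u (φ j) = u j := by
    intro u j
    simp only [E, Finsupp.add_apply, Finsupp.mapDomain_apply hφ]
    rw [Finsupp.single_eq_of_ne (hφ0 j), add_zero]
  have hEinj : Function.Injective E := by
    intro u u' h
    ext j
    rw [← hE1, ← hE1 u', h]
  have hdeg : ∀ u ∈ g.support, u.degree ≤ N := fun u hu => le_totalDegree hu
  have hEd : ∀ u ∈ g.support, (E u).degree = N + 1 := by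
    intro u hu
    have h1 := hdeg u hu
    have h2 : (Finsupp.mapDomain φ u).degree = u.degree := by
      rw [Finsupp.degree_mapDomain]
    simp only [E, map_add, h2, Finsupp.degree_single]
    omega
  have hEl : ∀ u, E u (Fin.last (m + 2)) = 0 := by
    intro u
    have hr : Fin.last (m + 2) ∉ Set.range φ := by
      rintro ⟨j, hj⟩
      exact hφl j hj
    have hl0 : Fin.last (m + 2) ≠ 0 := by
      intro h
      have h1 : m + 2 = 0 := congrArg Fin.val h
      omega
    simp only [E, Finsupp.add_apply]
    rw [Finsupp.mapDomain_of_notMem_range _ _ hr, Finsupp.single_eq_of_ne hl0, add_zero]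
  refine ⟨N + 1, ∑ u ∈ g.support, monomial (E u) (g.coeff u), ?_, ?_, ?_, ?_⟩
  · refine IsHomogeneous.sum _ _ _ fun u hu => ?_
    exact isHomogeneous_monomial _ (hEd u hu)
  · obtain ⟨u₀, hu₀⟩ := (support_nonempty (p := g)).2 hg
    intro h0
    have h1 := congrArg (coeff (E u₀)) h0
    rw [coeff_sum, Finset.sum_eq_single u₀] at h1
    · rw [coeff_monomial, if_pos rfl, coeff_zero] at h1
      exact mem_support_iff.1 hu₀ h1
    · intro u _ hu
      rw [coeff_monomial, if_neg fun h => hu (hEinj h)]
    · intro h
      exact absurd hu₀ h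
  · rw [← Nat.le_zero, degreeOf_le_iff]
    intro s hs
    have h1 := support_sum hs
    rw [Finset.mem_biUnion] at h1
    obtain ⟨u, _, hu⟩ := h1
    have h2 : s = E u := by
      have := support_monomial_subset hu
      simpa using this
    rw [h2, hEl]
  · intro L _ _ x hx
    rw [map_sum]
    have hterm : ∀ u, aeval x (monomial (E u) (g.coeff u)) =
        algebraMap K L (g.coeff u) * ((u.prod fun j k => x (φ j) ^ k) * x 0 ^ (N + 1 - u.degree)) := by
      intro u
      rw [aeval_monomial, Finsupp.prod_add_index', Finsupp.prod_mapDomain_index,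
        Finsupp.prod_single_index]
      · exact pow_zero _
      · exact fun _ => pow_zero _
      · exact fun _ _ _ => pow_add _ _ _
      · exact fun _ => pow_zero _
      · exact fun _ _ _ => pow_add _ _ _
    rcases eq_or_ne (x 0) 0 with h0 | h0
    · refine Finset.sum_eq_zero fun u hu => ?_
      have h1 := hdeg u hu
      rw [hterm, h0, zero_pow (by omega), mul_zero, mul_zero]
    · have h1 := hx h0
      rw [aeval_def, eval₂_eq] at h1
      have h2 : ∀ u ∈ g.support, aeval x (monomial (E u) (g.coeff u)) =
          x 0 ^ (N + 1) * (algebraMap K L (g.coeff u) *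
            ∏ j ∈ u.support, (x (φ j) / x 0) ^ u j) := by
        intro u hu
        have h3 := hdeg u hu
        have h4 : x 0 ^ (N + 1) = x 0 ^ (N + 1 - u.degree) * ∏ j ∈ u.support, x 0 ^ u j := by
          rw [Finset.prod_pow_eq_pow_sum, ← pow_add]
          congr 1
          have : ∑ j ∈ u.support, u j = u.degree := rfl
          rw [this]
          omega
        rw [hterm, h4, Finsupp.prod]
        have h5 : ∏ j ∈ u.support, x (φ j) ^ u j =
            (∏ j ∈ u.support, x 0 ^ u j) * ∏ j ∈ u.support, (x (φ j) / x 0) ^ u j := by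
          rw [← Finset.prod_mul_distrib]
          refine Finset.prod_congr rfl fun j _ => ?_
          rw [← mul_pow, mul_div_cancel₀ _ h0]
        rw [h5]
        ring
      rw [Finset.sum_congr rfl h2, ← Finset.mul_sum]
      have h6 : ∑ u ∈ g.support, (algebraMap K L (g.coeff u) *
            ∏ j ∈ u.support, (x (φ j) / x 0) ^ u j) = 0 := h1
      rw [h6, mul_zero]

end Pool.Agent.Lib.MP_44a246_ntS
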