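import Mathlib
import Pool.Agent.Lib.MP_44a246_ntS.SP10
import Pool.Agent.Lib.MP_44a246_ntS.SQ2b
import Pool.Agent.Lib.MP_44a246_ntS.SQ3
import Pool.Agent.Lib.MP_44a246_ntS.SQ3b
import Pool.Agent.Lib.MP_44a246_ntS.SQ4

/-!
Compactness: the points on plane curves of small degree lie on a proper closed subset.
-/

namespace Pool.Agent.Lib.MP_44a246_ntS

open Pool.Agent.Lib.MP_e52354_nt
open Pool.Agent.Lib.MP_44a246_nt
open Pool.Agent.Lib.MP_44a246_ntL

universe u v

/-- **Compactness.** The points of a generic hypersurface over a field extension which lie on a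
plane curve of small degree inside of the hypersurface lie on a fixed proper closed subset. -/
theorem exists_exceptional {K : Type u} {L : Type v} [Field K] [Field L] [CharZero K] [CharZero L]
    [Algebra K L] {m d b : ℕ} (hd : m + 2 + 2 * b ≤ d) {a : (Fin (m + 3) →₀ ℕ) → K}
    (ha : AlgebraicIndependent ℚ (fun I : {I // I ∈ expo (Fin (m + 3)) d} => a I.1)) :
    ∃ (e : ℕ) (G : MvPolynomial (Fin (m + 3)) K), G.IsHomogeneous e ∧ G ≠ 0 ∧
      G.degreeOf (Fin.last (m + 2)) = 0 ∧
      ∀ x : Fin (m + 3) → L, Cert (n := m + 2) d (fun I => algebraMap K L (a I)) b x →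
        MvPolynomial.aeval x G = 0 := by
  classical
  set S : Set (Fin (m + 1) → L) := {z | ∃ x : Fin (m + 3) → L,
    Cert (n := m + 2) d (fun I => algebraMap K L (a I)) b x ∧ x 0 = 1 ∧
      ∀ j : Fin (m + 1), z j = x j.succ.castSucc} with hS
  have key : ∃ g : MvPolynomial (Fin (m + 1)) K, g ≠ 0 ∧ ∀ z ∈ S, MvPolynomial.aeval z g = 0 := by
    by_contra hcon
    push Not at hcon
    have hfin : Finite {I // I ∈ expo (Fin (m + 3)) d} := inferInstance
    obtain ⟨z, hzS, hz⟩ := exists_generic_seq (L := L) ha (S := S) fun g hg => by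
      obtain ⟨z, hz1, hz2⟩ := hcon g hg
      exact ⟨z, hz1, hz2⟩
    choose x hx1 hx2 hx3 using hzS
    have hcg := cert_germ hx1
    let Ω := AlgebraicClosure (UP L)
    have hcU : CharZero (UP L) := charZero_of_injective_ringHom (constHom (L := L)).injective
    have hcg' := hcg.map (algebraMap (UP L) Ω)
    have hx0 : germHom (fun N => x N 0) = 1 := by
      have : (fun N => x N 0) = 1 := funext fun N => hx2 N
      rw [this, map_one]
    refine no_cert_closed hd ?_ ?_ hcg'
    · show algebraMap (UP L) Ω (germHom (fun N => x N 0)) ≠ 0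
      rw [hx0, map_one]
      exact one_ne_zero
    · have h1 := algIndep_germ (algebraMap (UP L) Ω)
        (z := fun N => Sum.elim (fun I : {I // I ∈ expo (Fin (m + 3)) d} => algebraMap K L (a I.1))
          (z N)) hz
      convert h1 using 1
      funext i
      rcases i with i | i
      · rfl
      · show algebraMap (UP L) Ω (germHom (fun N => x N i.succ.castSucc)) /
          algebraMap (UP L) Ω (germHom (fun N => x N 0)) =
          algebraMap (UP L) Ω (germHom (fun N => z N i))
        rw [hx0, map_one, div_one]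
        congr 2
        funext N
        exact (hx3 N i).symm
  obtain ⟨g, hg0, hg⟩ := key
  obtain ⟨e, G, hG1, hG2, hG3, hG4⟩ := exists_homog hg0
  refine ⟨e, G, hG1, hG2, hG3, fun x hx => hG4 x fun hx0 => ?_⟩
  refine hg _ ⟨fun k => (x 0)⁻¹ * x k, hx.smul_of (inv_ne_zero hx0), inv_mul_cancel₀ hx0, fun j => ?_⟩
  exact div_eq_inv_mul _ _

end Pool.Agent.Lib.MP_44a246_ntS
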