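import Mathlib
import Pool.Agent.Lib.MP_44a246_ntS.SJ3b
import Pool.Agent.Lib.MP_44a246_ntS.SJ4c
import Pool.Agent.Lib.MP_44a246_ntS.SK2

/-!
Step B: the height of the plane curve is small.
-/

namespace Pool.Agent.Lib.MP_44a246_ntS

open Pool.Agent.Lib.MP_44a246_nt
open Pool.Agent.Lib.MP_44a246_ntL
open Pool.Agent.Lib.MP_e52354_nt
open WithZero Module Polynomial

variable {κ L : Type*} [Field κ] [IsAlgClosed κ] [CharZero κ] [Field L] [CharZero L]
  [Algebra κ L]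

/-- **Step B.** -/
theorem stepB (h : IsFF κ L) {n d : ℕ} (X : Dat κ (L := L) n d) {b s N : ℕ} {A : L[X][X]}
    (hA : Crv X b A) (hN : (n + 2) * (b + 1) ^ 2 + 1 ≤ N) (hs : 32 * N ≤ s ^ 2)
    (hsd : 8 * s ≤ d) (hs1 : 1 ≤ s) (hΔ : 3 * N * X.Δ ≤ height κ X.x) (hpos : 0 < height κ X.x)
    (hη : 16 * (3 * height κ X.x + 4 * N * gh κ A) < d * height κ X.x)
    (hbez : 28 * N * s * gh κ A + 16 * b * (3 * height κ X.x + 4 * N * gh κ A) <
      7 * s ^ 2 * height κ X.x) :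
    gh κ A * s ^ 2 ≤ 10 * height κ X.x := by
  obtain ⟨a, A', ha, hA'0, hA'h, hA'e, hA'b⟩ := stepB_aux h X hA hN hs hsd hs1 hΔ hpos hη
  have hα : 0 ≤ gh κ A := gh_nonneg h hA.irr.ne_zero
  have hα' : 0 ≤ gh κ (deh A') := gh_nonneg h (deh_ne_zero hA'h hA'0)
  have hBe : (deh A').evalEval X.y₁ X.y = 0 := by
    rw [deh_eval]
    exact hA'e
  rw [← gh_deh hA'h] at hA'b
  have hBd : ((deh A').natDegree : ℤ) ≤ a := by exact_mod_cast (deh_box hA'h).1
  have hAd : (A.natDegree : ℤ) ≤ b := by exact_mod_cast hA.box.1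
  have haZ : (a : ℤ) * s ≤ 4 * N := by exact_mod_cast ha
  have hs0 : (0 : ℤ) < s := by exact_mod_cast hs1
  have hlt : ((deh A').natDegree : ℤ) * gh κ A + A.natDegree * gh κ (deh A') <
      height κ X.x := by
    have h1 : ((deh A').natDegree : ℤ) * gh κ A + A.natDegree * gh κ (deh A') ≤
        a * gh κ A + b * gh κ (deh A') :=
      add_le_add (mul_le_mul_of_nonneg_right hBd hα) (mul_le_mul_of_nonneg_right hAd hα')
    have h2 : 7 * (s : ℤ) ^ 2 * (a * gh κ A) ≤ 28 * N * s * gh κ A := by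
      have h3 : (a : ℤ) * s * (7 * s * gh κ A) ≤ 4 * N * (7 * s * gh κ A) :=
        mul_le_mul_of_nonneg_right haZ (by positivity)
      calc 7 * (s : ℤ) ^ 2 * (a * gh κ A) = (a : ℤ) * s * (7 * s * gh κ A) := by ring
        _ ≤ 4 * N * (7 * s * gh κ A) := h3
        _ = 28 * N * s * gh κ A := by ring
    have h4 : 7 * (s : ℤ) ^ 2 * (b * gh κ (deh A')) ≤
        16 * b * (3 * height κ X.x + 4 * N * gh κ A) := by
      have h5 : (b : ℤ) * (7 * (gh κ (deh A') * s ^ 2)) ≤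
          b * (16 * (3 * height κ X.x + 4 * N * gh κ A)) :=
        mul_le_mul_of_nonneg_left hA'b (by positivity)
      calc 7 * (s : ℤ) ^ 2 * (b * gh κ (deh A')) = b * (7 * (gh κ (deh A') * s ^ 2)) := by ring
        _ ≤ b * (16 * (3 * height κ X.x + 4 * N * gh κ A)) := h5
        _ = 16 * b * (3 * height κ X.x + 4 * N * gh κ A) := by ring
    have h6 : 7 * (s : ℤ) ^ 2 * (a * gh κ A + b * gh κ (deh A')) <
        7 * (s : ℤ) ^ 2 * height κ X.x := by
      rw [mul_add]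
      exact lt_of_le_of_lt (add_le_add h2 h4) hbez
    have h7 : a * gh κ A + b * gh κ (deh A') < height κ X.x :=
      lt_of_mul_lt_mul_left h6 (by positivity)
    exact lt_of_le_of_lt h1 h7
  have hdvd : A ∣ deh A' := by
    refine bez h hA.irr hA.deg hA.zero hBe ?_
    rw [X.height_y₁]
    exact hlt
  have hle : gh κ A ≤ gh κ (deh A') := gh_le_of_dvd h hdvd (deh_ne_zero hA'h hA'0)
  have h8 : ((gh κ (deh A') : ℤ) : ℝ) * (7 * (s : ℝ) ^ 2 / 16) ≤
      3 * ((height κ X.x : ℤ) : ℝ) + 4 * N * ((gh κ A : ℤ) : ℝ) := by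
    have h9 : (7 * (((gh κ (deh A') : ℤ) : ℝ) * (s : ℝ) ^ 2)) ≤
        16 * (3 * ((height κ X.x : ℤ) : ℝ) + 4 * N * ((gh κ A : ℤ) : ℝ)) := by
      exact_mod_cast hA'b
    linarith
  have h10 := numB4 (N := N) (s := s) (h := ((height κ X.x : ℤ) : ℝ)) (α := ((gh κ A : ℤ) : ℝ))
    (α' := ((gh κ (deh A') : ℤ) : ℝ)) hs hs1 (by exact_mod_cast hα) (by exact_mod_cast hpos.le)
    h8 (by exact_mod_cast hle)
  exact_mod_cast h10

end Pool.Agent.Lib.MP_44a246_ntS
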