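import Mathlib
import Pool.Agent.Lib.MP_44a246_ntS.SH2b

/-!
The main height theorem.
-/

namespace Pool.Agent.Lib.MP_44a246_ntS

open Pool.Agent.Lib.MP_44a246_nt
open Pool.Agent.Lib.MP_44a246_ntL
open Pool.Agent.Lib.MP_e52354_nt
open WithZero Module Polynomial

/-- the numerical facts which follow from the hypothesis on the degree -/
theorem numM1 {n d T : ℕ} (hT : 1 ≤ T) (hN : 2 * n + 18501 * T ^ 3 + T * (n + 1) ≤ T * d) :
    18501 * T ^ 2 + n + 1 ≤ d ∧ (n + 2) * (2 * T + 1) ^ 2 + 1 ≤ 9 * d * T ^ 2 ∧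
      32 * (9 * d * T ^ 2) ≤ (d / 8) ^ 2 := by
  -- `(2 T + 1) ^ 2 ≤ 9 T ^ 2`; `d / 8 ≥ (d - 7) / 8` and
  -- `(d - 7) ^ 2 ≥ d (d - 14) ≥ 64 * 288 * d * T ^ 2 = 18432 d T ^ 2`
  have h1 : 18501 * T ^ 2 + n + 1 ≤ d := by
    have h : T * (18501 * T ^ 2 + n + 1) ≤ T * d := by
      calc T * (18501 * T ^ 2 + n + 1) = 18501 * T ^ 3 + T * (n + 1) := by ring
        _ ≤ T * d := by omega
    exact Nat.le_of_mul_le_mul_left h (by omega)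
  have hT2 : 1 ≤ T ^ 2 := Nat.one_le_pow _ _ hT
  refine ⟨h1, ?_, ?_⟩
  · have h2 : (2 * T + 1) ^ 2 ≤ 9 * T ^ 2 := by nlinarith
    have h3 : (n + 2) * (2 * T + 1) ^ 2 ≤ (n + 2) * (9 * T ^ 2) := Nat.mul_le_mul_left _ h2
    have h4 : (n + 3) * (9 * T ^ 2) ≤ d * (9 * T ^ 2) := Nat.mul_le_mul_right _ (by omega)
    nlinarith
  · have h2 : d ≤ 8 * (d / 8) + 7 := by omega
    have h4 : 2312 * T ^ 2 ≤ d / 8 := by omega
    generalize d / 8 = t at h2 h4 ⊢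
    have h5 : 2312 ≤ t := by omega
    have h6 : 2312 * (d * (288 * T ^ 2)) ≤ 2312 * t ^ 2 := by
      calc 2312 * (d * (288 * T ^ 2)) = 288 * (d * (2312 * T ^ 2)) := by ring
        _ ≤ 288 * ((8 * t + 7) * t) := Nat.mul_le_mul_left _ (Nat.mul_le_mul h2 h4)
        _ ≤ 2312 * t ^ 2 := by nlinarith
    calc 32 * (9 * d * T ^ 2) = d * (288 * T ^ 2) := by ring
      _ ≤ t ^ 2 := Nat.le_of_mul_le_mul_left h6 (by norm_num)

private theorem numM_basic {n d T : ℕ} (hT : 1 ≤ T)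
    (hN : 2 * n + 18501 * T ^ 3 + T * (n + 1) ≤ T * d) :
    18501 * T ^ 2 + 1 ≤ d ∧ d ≤ 8 * (d / 8) + 7 ∧ 2312 * T ^ 2 ≤ d / 8 := by
  obtain ⟨h1, -, -⟩ := numM1 hT hN
  omega

/-- the hypotheses `hη` and `hbez` of step B; `H` is the height of the point and `α` the height of
the curve -/
theorem numM2 {n d T : ℕ} (hT : 1 ≤ T) (hN : 2 * n + 18501 * T ^ 3 + T * (n + 1) ≤ T * d)
    {H α : ℤ} (hH : 0 < H) (hα0 : 0 ≤ α) (hα : 3 * (α * (1850 * T ^ 2 : ℕ)) ≤ 8 * H) :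
    16 * (3 * H + 4 * ((9 * d * T ^ 2 : ℕ) : ℤ) * α) < d * H ∧
      28 * ((9 * d * T ^ 2 : ℕ) : ℤ) * ((d / 8 : ℕ) : ℤ) * α +
        16 * ((2 * T : ℕ) : ℤ) * (3 * H + 4 * ((9 * d * T ^ 2 : ℕ) : ℤ) * α) <
          7 * ((d / 8 : ℕ) : ℤ) ^ 2 * H := by
  -- `5550 T ^ 2 α ≤ 8 H`: `64 * 9 d T ^ 2 α ≤ 0.8303 d H`, and `48 < 0.169 d`. With `s = d / 8`:
  -- `252 d T ^ 2 s α ≤ 0.3633 d s H`, `8 s ≥ d - 7`; `32 T (3 H + 4 N α) ≤ 2 T d H`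
  obtain ⟨h1, h2, h4⟩ := numM_basic hT hN
  have hT1 : (1 : ℤ) ≤ T := by exact_mod_cast hT
  have h1' : 18501 * (T : ℤ) ^ 2 + 1 ≤ d := by exact_mod_cast h1
  generalize hs : ((d / 8 : ℕ) : ℤ) = s
  have h2' : (d : ℤ) ≤ 8 * s + 7 := by rw [← hs]; exact_mod_cast h2
  have h4' : 2312 * (T : ℤ) ^ 2 ≤ s := by rw [← hs]; exact_mod_cast h4
  push_cast at hα ⊢
  generalize (d : ℤ) = D at h1' h2' ⊢
  generalize (T : ℤ) = U at hT1 h1' h4' hα ⊢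
  have hU2 : 1 ≤ U ^ 2 := one_le_pow₀ hT1
  have hUU : U ≤ U ^ 2 := by nlinarith
  have hD0 : 18502 ≤ D := by linarith
  have hs0 : 2312 ≤ s := by linarith
  obtain ⟨K, hK⟩ : ∃ K, K = U ^ 2 * α := ⟨_, rfl⟩
  have hK0 : 0 ≤ K := by rw [hK]; positivity
  have hK1 : 5550 * K ≤ 8 * H := by rw [hK]; linarith
  constructor
  · have h5 : D * (5550 * K) ≤ D * (8 * H) := mul_le_mul_of_nonneg_left hK1 (by linarith)
    have h6 : 18502 * H ≤ D * H := mul_le_mul_of_nonneg_right hD0 hH.le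
    have h7 : 16 * (3 * H + 4 * (9 * D * U ^ 2) * α) = 48 * H + 576 * (D * K) := by
      rw [hK]; ring
    rw [h7]
    linarith
  · have h7 : 28 * (9 * D * U ^ 2) * s * α + 16 * (2 * U) * (3 * H + 4 * (9 * D * U ^ 2) * α) =
        252 * (D * s * K) + 96 * (U * H) + 1152 * (U * D * K) := by
      rw [hK]; ring
    rw [h7]
    have hDs : 0 ≤ D * s := mul_nonneg (by linarith) (by linarith)
    have hUD : 0 ≤ U * D := mul_nonneg (by linarith) (by linarith)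
    have h5 : D * s * (5550 * K) ≤ D * s * (8 * H) := mul_le_mul_of_nonneg_left hK1 hDs
    have h6 : U * D * (5550 * K) ≤ U * D * (8 * H) := mul_le_mul_of_nonneg_left hK1 hUD
    have hUs : 2312 * U ≤ s := by linarith
    -- polynomial inequality in `s`
    have h8 : 2016 * (D * s) + 532800 * U + 9216 * (U * D) < 38850 * s ^ 2 := by
      have h9 : D * s ≤ (8 * s + 7) * s := mul_le_mul_of_nonneg_right h2' (by linarith)
      have h10 : 2312 * (U * D) ≤ s * (8 * s + 7) := by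
        calc 2312 * (U * D) = (2312 * U) * D := by ring
          _ ≤ s * (8 * s + 7) := mul_le_mul hUs h2' (by linarith) (by linarith)
      nlinarith
    have h11 : (2016 * (D * s) + 532800 * U + 9216 * (U * D)) * H < 38850 * s ^ 2 * H :=
      mul_lt_mul_of_pos_right h8 hH
    nlinarith

/-- the hypothesis of step C -/
theorem numM3 {n d T : ℕ} (hT : 1 ≤ T) (hN : 2 * n + 18501 * T ^ 3 + T * (n + 1) ≤ T * d)
    {H α Δ Θ : ℤ} (hH : 0 < H) (hΔ : 0 ≤ Δ) (hΘ : 0 ≤ Θ) (hα0 : 0 ≤ α)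
    (hα : α * ((d / 8 : ℕ) : ℤ) ^ 2 ≤ 10 * H) (hbig : 4 * (d : ℤ) ^ 2 * (Δ + Θ) < H) :
    (d * ((2 * T : ℕ) : ℤ)) * α + ((2 * T : ℕ) : ℤ) * (Θ + d * (2 * α + Δ)) < H := by
  -- `6 T d α ≤ 60 T d H / s ^ 2 ≤ 60 * 65 T H / d < H / 2`, `2 T (Θ + d Δ) ≤ d ^ 2 (Δ + Θ) < H / 2`
  obtain ⟨h1, h2, h4⟩ := numM_basic hT hN
  obtain ⟨-, -, h3⟩ := numM1 hT hN
  have hT1 : (1 : ℤ) ≤ T := by exact_mod_cast hT
  have h1' : 18501 * (T : ℤ) ^ 2 + 1 ≤ d := by exact_mod_cast h1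
  have h3' : 32 * (9 * (d : ℤ) * T ^ 2) ≤ ((d / 8 : ℕ) : ℤ) ^ 2 := by exact_mod_cast h3
  have h4' : 2312 * (T : ℤ) ^ 2 ≤ ((d / 8 : ℕ) : ℤ) := by exact_mod_cast h4
  generalize ((d / 8 : ℕ) : ℤ) = s at hα h3' h4'
  push_cast
  generalize (d : ℤ) = D at h1' h3' hbig ⊢
  generalize (T : ℤ) = U at hT1 h1' h3' h4' ⊢
  have hU2 : 1 ≤ U ^ 2 := one_le_pow₀ hT1
  have hUU : U ≤ U ^ 2 := by nlinarith
  have hD0 : 18502 ≤ D := by linarith
  have hs0 : 2312 ≤ s := by linarith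
  have hs2 : 0 < s ^ 2 := by positivity
  -- `12 T d α ≤ H`
  have h5 : 12 * U * D * α ≤ H := by
    have h6 : 12 * U * D * (α * s ^ 2) ≤ 12 * U * D * (10 * H) :=
      mul_le_mul_of_nonneg_left hα (by positivity)
    have h7 : 120 * (U * D) ≤ s ^ 2 := by
      have h8 : U * D ≤ U ^ 2 * D := mul_le_mul_of_nonneg_right hUU (by linarith)
      nlinarith
    have h8 : 120 * (U * D) * H ≤ s ^ 2 * H := mul_le_mul_of_nonneg_right h7 hH.le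
    have h9 : s ^ 2 * (12 * U * D * α) ≤ s ^ 2 * H := by nlinarith
    exact le_of_mul_le_mul_left h9 hs2
  -- `4 T (Θ + d Δ) ≤ 4 d ^ 2 (Δ + Θ) < H`
  have hUD : U ≤ D := by linarith
  have h10 : U * Θ ≤ D ^ 2 * Θ := mul_le_mul_of_nonneg_right (by nlinarith) hΘ
  have h11 : U * D * Δ ≤ D ^ 2 * Δ := mul_le_mul_of_nonneg_right (by nlinarith) hΔ
  have h12 : D * (2 * U) * α + 2 * U * (Θ + D * (2 * α + Δ)) =
      6 * U * D * α + 2 * (U * Θ) + 2 * (U * D * Δ) := by ring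
  rw [h12]
  nlinarith

end Pool.Agent.Lib.MP_44a246_ntS
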