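import Mathlib
import Pool.Agent.Lib.MP_44a246_ntS.SI2
import Pool.Agent.Lib.MP_44a246_ntS.SJ5d
import Pool.Agent.Lib.MP_44a246_ntS.SK2b
import Pool.Agent.Lib.MP_44a246_ntS.SM1c
import Pool.Agent.Lib.MP_44a246_ntS.SM2

/-!
The main height theorem.
-/

namespace Pool.Agent.Lib.MP_44a246_ntS

open Pool.Agent.Lib.MP_44a246_nt
open Pool.Agent.Lib.MP_44a246_ntL
open Pool.Agent.Lib.MP_e52354_nt
open WithZero Module Polynomial

/-- **Main height theorem.** -/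
theorem height_main {κ L : Type*} [Field κ] [IsAlgClosed κ] [CharZero κ] [Field L] [CharZero L]
    [Algebra κ L] (h : IsFF κ L) {n d T : ℕ} (hT : 1 ≤ T)
    (hN : 2 * n + 18501 * T ^ 3 + T * (n + 1) ≤ T * d) (X : Dat κ (L := L) n d)
    {τ : Place κ L → ℕ} (hτ : (Function.support τ).Finite)
    (ha : ∀ I ∈ expo (Fin (n + 1)) d, ∀ w : Place κ L, w.1 (X.a I) ≤ exp (τ w : ℤ)) :
    height κ X.x ≤ 27 * d ^ 2 * (X.Δ + ∑ᶠ w, (τ w : ℤ)) ∨ Cert d X.a (2 * T) X.x := by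
  -- Suppose the first alternative does not hold. `stepA` with `S = 1850 T ^ 2`; the curve `A` from
  -- `exists_curve` for `deh` of the form (`deh_ne_zero`, `deh_box`, `Box` with `a ≤ 2 T`,
  -- `deh_eval`, `gh_deh`, `height_y₁`; `2 * (2 T) * gh < H` because `S` is large); this is a
  -- `Crv X (2 T) A`. `stepB` with `N = 9 d T ^ 2`, `s = d / 8` (`numM1`, `numM2`; `3 N Δ ≤ H`
  -- because `27 d T ^ 2 ≤ 27 d ^ 2`). `stepC` with `numM3`.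
  rcases le_or_gt (height κ X.x) (27 * d ^ 2 * (X.Δ + ∑ᶠ w, (τ w : ℤ))) with hH | hH
  · exact Or.inl hH
  right
  obtain ⟨h1, h2, h3⟩ := numM1 hT hN
  have hΔ := X.Δ_nonneg
  have hΘ : 0 ≤ ∑ᶠ w, (τ w : ℤ) := finsum_nonneg fun w => Int.natCast_nonneg _
  have hT1 : (1 : ℤ) ≤ T := by exact_mod_cast hT
  have hd1 : 1 ≤ d := by omega
  have hT2 : T ≤ T ^ 2 := by nlinarith
  have hTd : T ^ 2 ≤ d := by omega
  have hdZ : (1 : ℤ) ≤ d := by exact_mod_cast hd1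
  have hTdZ : (T : ℤ) ^ 2 ≤ d := by exact_mod_cast hTd
  have hnd : (n : ℤ) ≤ d := by
    have : n ≤ d := by omega
    exact_mod_cast this
  have hd2 : (d : ℤ) ≤ (d : ℤ) ^ 2 := by nlinarith
  have hHpos : 0 < height κ X.x := by
    refine lt_of_le_of_lt ?_ hH
    positivity
  -- step A
  have hA1 : 8 * T ≤ 1850 * T ^ 2 := by nlinarith
  have hA2 : 2 * (1850 * T ^ 2) ≤ d := by omega
  have hA3 : 2 * n + 10 * (1850 * T ^ 2) * T + T * (n + 2) ≤ T * d := by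
    have e1 : 10 * (1850 * T ^ 2) * T = 18500 * T ^ 3 := by ring
    have e2 : T ≤ T ^ 3 := by nlinarith
    have e3 : T * (n + 2) = T * (n + 1) + T := by ring
    omega
  rcases stepA h X hT hA1 hA2 hA3 with hs | ⟨a, A₀, haT, hA0, hAh, hAe, hAb⟩
  · exfalso
    have e1 : (n : ℤ) * X.Δ ≤ 27 * d ^ 2 * (X.Δ + ∑ᶠ w, (τ w : ℤ)) := by
      have e2 : (n : ℤ) * X.Δ ≤ (d : ℤ) ^ 2 * X.Δ :=
        mul_le_mul_of_nonneg_right (hnd.trans hd2) hΔ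
      have e3 : (0 : ℤ) ≤ (d : ℤ) ^ 2 * X.Δ := by positivity
      have e4 : (0 : ℤ) ≤ (d : ℤ) ^ 2 * ∑ᶠ w, (τ w : ℤ) := by positivity
      nlinarith
    omega
  -- the curve
  have hα0' : 0 ≤ polyHeight κ A₀ := polyHeight_nonneg h hA0
  have hbox : Box (2 * T) (deh A₀) := by
    have h4 := deh_box hAh
    exact ⟨h4.1.trans haT, fun i => (h4.2 i).trans haT⟩
  have hev : (deh A₀).evalEval X.y₁ X.y = 0 := by
    rw [deh_eval]
    exact hAe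
  have hsm : 2 * ((2 * T : ℕ) : ℤ) * gh κ (deh A₀) < height κ ![1, X.y₁] := by
    rw [X.height_y₁, gh_deh hAh]
    push_cast at hAb ⊢
    have e1 : (T : ℤ) * polyHeight κ A₀ ≤ (T : ℤ) ^ 2 * polyHeight κ A₀ :=
      mul_le_mul_of_nonneg_right (by exact_mod_cast hT2) hα0'
    nlinarith
  obtain ⟨A, hirr, hdvd, hbA, hdeg, hzero, hder, hle, hone⟩ :=
    exists_curve h (deh_ne_zero hAh hA0) hbox hev (by omega) hsm
  have hCrv : Crv X (2 * T) A := ⟨hirr, hbA, hdeg, hzero, hder, hone⟩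
  have hg0 : 0 ≤ gh κ A := gh_nonneg h hirr.ne_zero
  have hgA : 3 * (gh κ A * (1850 * T ^ 2 : ℕ)) ≤ 8 * height κ X.x := by
    refine le_trans ?_ hAb
    rw [gh_deh hAh] at hle
    have := mul_le_mul_of_nonneg_right hle (Int.natCast_nonneg (1850 * T ^ 2))
    linarith
  -- step B
  obtain ⟨h5, h6⟩ := numM2 hT hN hHpos hg0 hgA
  have h7 : 3 * ((9 * d * T ^ 2 : ℕ) : ℤ) * X.Δ ≤ height κ X.x := by
    refine le_trans ?_ hH.le
    push_cast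
    have e1 : (d : ℤ) * T ^ 2 ≤ (d : ℤ) ^ 2 := by
      rw [sq (d : ℤ)]
      exact mul_le_mul_of_nonneg_left hTdZ (by linarith)
    have e2 : (d : ℤ) * T ^ 2 * X.Δ ≤ (d : ℤ) ^ 2 * X.Δ := mul_le_mul_of_nonneg_right e1 hΔ
    have e4 : (0 : ℤ) ≤ (d : ℤ) ^ 2 * ∑ᶠ w, (τ w : ℤ) := by positivity
    linarith
  have h8 := stepB h X hCrv (s := d / 8) (N := 9 * d * T ^ 2) h2 h3 (Nat.mul_div_le d 8) (by omega)
    h7 hHpos h5 h6
  -- step C
  have h9 : 4 * (d : ℤ) ^ 2 * (X.Δ + ∑ᶠ w, (τ w : ℤ)) < height κ X.x := by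
    refine lt_of_le_of_lt ?_ hH
    have e4 : (0 : ℤ) ≤ (d : ℤ) ^ 2 * (X.Δ + ∑ᶠ w, (τ w : ℤ)) := by positivity
    linarith
  exact stepC X hCrv h hτ ha hd1 (numM3 hT hN hHpos hΔ hΘ hg0 h8 h9)

end Pool.Agent.Lib.MP_44a246_ntS
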