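import Mathlib

/-!
A form without the last variable does not vanish identically on a hypersurface whose equation
contains the pure power of the last variable.
-/

namespace Pool.Agent.Lib.MP_44a246_ntS

open Polynomial

/-- a point of a hypersurface outside of a cone with the last coordinate point as its vertex -/
theorem exists_on_not {K : Type*} [Field K] [CharZero K] {n d : ℕ} (hn : 1 ≤ n) (hd : 1 ≤ d)
    {F G : MvPolynomial (Fin (n + 1)) K} (hF : F.IsHomogeneous d)
    (hFn : F.coeff (Finsupp.single (Fin.last n) d) ≠ 0) (hG : G ≠ 0)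
    (hG0 : G.degreeOf (Fin.last n) = 0) :
    ∃ z : Fin (n + 1) → AlgebraicClosure K, z ≠ 0 ∧ MvPolynomial.aeval z F = 0 ∧
      MvPolynomial.aeval z G ≠ 0 := by
  classical
  set M := AlgebraicClosure K
  have h0l : (0 : Fin (n + 1)) ≠ Fin.last n := by
    intro h
    have h1 : 0 = n := congrArg Fin.val h
    omega
  obtain ⟨u, hu⟩ : ∃ u : Fin (n + 1) → K, MvPolynomial.eval u (G * MvPolynomial.X 0) ≠ 0 := by
    by_contra hcon
    push Not at hcon
    have h1 : G * MvPolynomial.X 0 = 0 := MvPolynomial.funext fun u => by
      rw [hcon u, map_zero]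
    rcases mul_eq_zero.1 h1 with h | h
    · exact hG h
    · exact MvPolynomial.X_ne_zero _ h
  rw [map_mul, MvPolynomial.eval_X] at hu
  have hu1 := left_ne_zero_of_mul hu
  have hu2 := right_ne_zero_of_mul hu
  -- the polynomial in the last variable
  set v : Fin (n + 1) → M[X] :=
    Function.update (fun j => C (algebraMap K M (u j))) (Fin.last n) X with hv
  set P : M[X] := MvPolynomial.aeval v F with hP
  have hvl : v (Fin.last n) = X := Function.update_self _ _ _
  have hvj : ∀ j, j ≠ Fin.last n → v j = C (algebraMap K M (u j)) := fun j hj =>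
    Function.update_of_ne hj _ _
  have hprod : ∀ I : Fin (n + 1) →₀ ℕ, ∏ j, v j ^ I j =
      C (∏ j ∈ Finset.univ.erase (Fin.last n), algebraMap K M (u j) ^ I j) *
        X ^ I (Fin.last n) := by
    intro I
    rw [← Finset.mul_prod_erase Finset.univ _ (Finset.mem_univ (Fin.last n)), hvl, mul_comm,
      map_prod]
    congr 1
    refine Finset.prod_congr rfl fun j hj => ?_
    rw [hvj j (Finset.ne_of_mem_erase hj), map_pow]
  have hcoef : P.coeff d = algebraMap K M (F.coeff (Finsupp.single (Fin.last n) d)) := by
    rw [hP, MvPolynomial.aeval_def, MvPolynomial.eval₂_eq', finsetSum_coeff,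
      Finset.sum_eq_single (Finsupp.single (Fin.last n) d)]
    · rw [hprod]
      have h1 : (algebraMap K M[X]) (F.coeff (Finsupp.single (Fin.last n) d)) =
          C (algebraMap K M (F.coeff (Finsupp.single (Fin.last n) d))) := rfl
      rw [h1, coeff_C_mul, coeff_C_mul, coeff_X_pow, Finsupp.single_eq_same, if_pos rfl, mul_one,
        Finset.prod_eq_one, mul_one]
      intro j hj
      rw [Finsupp.single_eq_of_ne (Finset.ne_of_mem_erase hj), pow_zero]
    · intro I hI hne
      rw [hprod]
      have h1 : (algebraMap K M[X]) (F.coeff I) = C (algebraMap K M (F.coeff I)) := rfl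
      rw [h1, coeff_C_mul, coeff_C_mul, coeff_X_pow, if_neg, mul_zero, mul_zero]
      intro hd'
      apply hne
      have h2 : I.degree = d := by
        have := hF (MvPolynomial.mem_support_iff.mp hI)
        rw [← this, Finsupp.degree_eq_weight_one]
        rfl
      have h3 : I.degree = ∑ j, I j := Finsupp.degree_eq_sum I
      rw [← Finset.add_sum_erase Finset.univ _ (Finset.mem_univ (Fin.last n))] at h3
      have h4 : ∑ j ∈ Finset.univ.erase (Fin.last n), I j = 0 := by omega
      rw [Finset.sum_eq_zero_iff] at h4
      ext j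
      by_cases hj : j = Fin.last n
      · subst hj
        rw [Finsupp.single_eq_same, hd']
      · rw [Finsupp.single_eq_of_ne hj, h4 j (Finset.mem_erase.2 ⟨hj, Finset.mem_univ j⟩)]
    · intro h
      exact absurd (MvPolynomial.mem_support_iff.2 hFn) h
  have hPd : P.degree ≠ 0 := by
    intro h
    have h1 : P.natDegree = 0 := natDegree_eq_of_degree_eq_some h
    have h2 : P.coeff d = 0 := coeff_eq_zero_of_natDegree_lt (by omega)
    rw [hcoef] at h2
    exact hFn ((map_eq_zero (algebraMap K M)).1 h2)
  obtain ⟨r, hr⟩ := IsAlgClosed.exists_root P hPd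
  refine ⟨Function.update (fun j => algebraMap K M (u j)) (Fin.last n) r, ?_, ?_, ?_⟩
  · intro h
    have h1 := congrFun h 0
    rw [Function.update_of_ne h0l] at h1
    exact hu2 ((map_eq_zero (algebraMap K M)).1 h1)
  · have h1 : eval r P = 0 := hr
    rw [hP, ← coe_aeval_eq_eval] at h1
    have h2 : (aeval r) (MvPolynomial.aeval v F) =
        MvPolynomial.aeval (fun j => (aeval r) (v j)) F := by
      have := MvPolynomial.comp_aeval (R := K) (f := v) ((aeval r : M[X] →ₐ[M] M).restrictScalars K)
      have h3 := congrArg (fun g => g F) this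
      simpa using h3
    have h3 : (aeval r) (MvPolynomial.aeval v F) = 0 := h1
    rw [h2] at h3
    rw [← h3]
    congr 2
    funext j
    by_cases hj : j = Fin.last n
    · subst hj
      rw [hvl, Function.update_self, aeval_X]
    · rw [hvj j hj, Function.update_of_ne hj, aeval_C]
      rfl
  · have h1 : MvPolynomial.aeval (Function.update (fun j => algebraMap K M (u j)) (Fin.last n) r) G
        = MvPolynomial.aeval (fun j => algebraMap K M (u j)) G := by
      rw [MvPolynomial.aeval_def, MvPolynomial.aeval_def]
      apply MvPolynomial.eval₂Hom_congr' rfl ?_ rfl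
      intro i hi _
      have hil : i ≠ Fin.last n := by
        rintro rfl
        rw [MvPolynomial.mem_vars_iff_mem_support] at hi
        obtain ⟨I, hI, hIi⟩ := hi
        have h2 := MvPolynomial.monomial_le_degreeOf (Fin.last n) hI
        rw [hG0] at h2
        rw [Finsupp.mem_support_iff] at hIi
        omega
      exact Function.update_of_ne hil _ _
    rw [h1]
    have h2 : MvPolynomial.aeval (fun j => algebraMap K M (u j)) G =
        algebraMap K M (MvPolynomial.eval u G) := by
      exact MvPolynomial.aeval_algebraMap_apply (B := M) u G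
    rw [h2]
    exact (_root_.map_ne_zero _).2 hu1

end Pool.Agent.Lib.MP_44a246_ntS
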