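import Mathlib
import Pool.Agent.Lib.MP_44a246_nt.PolyMain
import Pool.Agent.Lib.MP_44a246_ntS.SQ5
import Pool.Agent.Lib.MP_44a246_ntS.SR3d
import Pool.Agent.Lib.MP_44a246_ntS.SV1

/-!
The theorem for forms over a function field.
-/

namespace Pool.Agent.Lib.MP_44a246_ntS

open Pool.Agent.Lib.MP_44a246_nt
open Pool.Agent.Lib.MP_44a246_ntL
open Pool.Agent.Lib.MP_e52354_nt
open MvPolynomial

universe u v w

/-- the exceptional form, for the points over finite extensions -/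
theorem exists_excForm {K : Type v} [Field K] [CharZero K] {n d b : ℕ} (hn : 2 ≤ n)
    (hd : n + 2 * b ≤ d) (hd1 : 1 ≤ d) {F : MvPolynomial (Fin (n + 1)) K}
    (hF : F.IsHomogeneous d)
    (ha : AlgebraicIndependent ℚ (fun I : ↥(expo (Fin (n + 1)) d) => F.coeff I.1)) :
    ∃ G : MvPolynomial (Fin (n + 1)) K, (∃ e, G.IsHomogeneous e) ∧
      (∃ z : Fin (n + 1) → AlgebraicClosure K, z ≠ 0 ∧ aeval z F = 0 ∧ aeval z G ≠ 0) ∧
      ∀ (L : Type w) [Field L] [Algebra K L] [FiniteDimensional K L] (x : Fin (n + 1) → L),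
        Cert d (fun I => algebraMap K L (F.coeff I)) b x → aeval x G = 0 := by
  obtain ⟨m, rfl⟩ : ∃ m, n = m + 2 := ⟨n - 2, by omega⟩
  obtain ⟨e, G, hG1, hG2, hG3, hG4⟩ := exists_exceptional (K := K) (L := AlgebraicClosure K)
    (m := m) (d := d) (b := b) hd (a := fun I => F.coeff I) ha
  have hcoef : F.coeff (Finsupp.single (Fin.last (m + 2)) d) ≠ 0 := by
    have h1 : Finsupp.single (Fin.last (m + 2)) d ∈ expo (Fin (m + 2 + 1)) d := by
      rw [mem_expo, Finsupp.degree_single]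
    exact AlgebraicIndependent.ne_zero ha ⟨_, h1⟩
  refine ⟨G, ⟨e, hG1⟩, exists_on_not (by omega) hd1 hF hcoef hG2 hG3, ?_⟩
  intro L _ _ _ x hx
  let φ : L →ₐ[K] AlgebraicClosure K := IsAlgClosed.lift
  have h1 := hx.map φ.toRingHom
  have h2 : (fun I => φ.toRingHom (algebraMap K L (F.coeff I))) =
      fun I => algebraMap K (AlgebraicClosure K) (F.coeff I) :=
    funext fun I => φ.commutes _
  rw [h2] at h1
  have h3 := hG4 _ h1
  have h4 : aeval (fun j => φ.toRingHom (x j)) G = φ (aeval x G) := by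
    have h5 := congrArg (fun g => g G) (MvPolynomial.comp_aeval (R := K) (f := x) φ)
    exact h5.symm
  rw [h4] at h3
  exact (map_eq_zero φ).1 h3

/-- **The slope theorem.** -/
theorem slope_main {κ : Type u} {K : Type v} [Field κ] [IsAlgClosed κ] [CharZero κ] [Field K]
    [CharZero K] [Algebra κ K] (htr : Cardinal.aleph0 ≤ Algebra.trdeg ℚ κ)
    {t : K} (ht : Transcendental κ t) [FiniteDimensional (IntermediateField.adjoin κ {t}) K]
    {n d T : ℕ} (hn : 2 ≤ n) (hT : 1 ≤ T) (hd : 2 * n + 18501 * T ^ 3 + T * (n + 1) ≤ T * d)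
    (F : MvPolynomial (Fin (n + 1)) K) (hF : F.IsHomogeneous d)
    (hgen : AlgebraicIndependent ℚ
      (fun I : {I : Fin (n + 1) →₀ ℕ // I.degree = d} => F.coeff I.1)) :
    ∃ G : MvPolynomial (Fin (n + 1)) K, (∃ e, G.IsHomogeneous e) ∧
      (∃ z : Fin (n + 1) → AlgebraicClosure K, z ≠ 0 ∧ aeval z F = 0 ∧ aeval z G ≠ 0) ∧
      ∃ C : ℕ, ∀ (L : Type w) [Field L] [Algebra K L] [FiniteDimensional K L] [Algebra κ L]
        [IsScalarTower κ K L] (x : Fin (n + 1) → L), x ≠ 0 → aeval x F = 0 →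
        height κ x ≤ 27 * d ^ 2 * ramDeg κ L K + C * Module.finrank K L ∨
          aeval x G = 0 ∧ Cert d (fun I => algebraMap K L (F.coeff I)) (2 * T) x := by
  have hd2 : n + 2 * (2 * T) ≤ d ∧ 1 ≤ d := by
    have h1 : T * (n + 1 + 18501 * T ^ 2) ≤ T * d := by nlinarith
    have h2 := Nat.le_of_mul_le_mul_left h1 (by omega)
    constructor <;> nlinarith
  have ha : AlgebraicIndependent ℚ (fun I : ↥(expo (Fin (n + 1)) d) => F.coeff I.1) := by
    have h1 : (fun I : ↥(expo (Fin (n + 1)) d) => F.coeff I.1) =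
        (fun I : {I : Fin (n + 1) →₀ ℕ // I.degree = d} => F.coeff I.1) ∘
        (fun I : ↥(expo (Fin (n + 1)) d) => ⟨I.1, mem_expo.mp I.2⟩) := rfl
    rw [h1]
    apply hgen.comp
    rintro ⟨I, h⟩ ⟨I', h'⟩ heq
    simp only [Subtype.mk.injEq] at heq
    subst heq
    rfl
  obtain ⟨G, hG1, hG2, hG3⟩ := exists_excForm.{v, w} hn hd2.1 hd2.2 hF ha
  obtain ⟨C, hC⟩ := slope_height.{u, v, w} (κ := κ) (K := K) ⟨t, ht, inferInstance⟩ htr hT hd
    (a := fun I => F.coeff I) ha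
  refine ⟨G, hG1, hG2, C, ?_⟩
  intro L _ _ _ _ _ x hx hFx
  rw [aeval_eq_Fval F hF] at hFx
  rcases hC L x hx hFx with h | h
  · exact Or.inl h
  · exact Or.inr ⟨hG3 L x h, h⟩

end Pool.Agent.Lib.MP_44a246_ntS
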