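import Mathlib
import Pool.Agent.Lib.MP_44a246_ntS.SM1b

/-!
Step C: the third linear form.
-/

namespace Pool.Agent.Lib.MP_44a246_ntS

open Pool.Agent.Lib.MP_44a246_nt
open Pool.Agent.Lib.MP_44a246_ntL
open Pool.Agent.Lib.MP_e52354_nt
open WithZero Module Polynomial

theorem lin₂_zero {κ L : Type*} [Field κ] [Field L] [Algebra κ L] {n d : ℕ}
    (X : Dat κ (L := L) n d) {b : ℕ} {A : L[X][X]} (hA : Crv X b A) :
    (∑ j, C (C (algebraMap κ L (X.z j))) * X.B A j -
      Polynomial.X * derivative A).evalEval X.y₁ X.y = 0 := by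
  -- `B_eval`, the definition of `y`
  have h1 : (∑ j, C (C (algebraMap κ L (X.z j))) * X.B A j -
      Polynomial.X * derivative A).evalEval X.y₁ X.y =
      ∑ j, algebraMap κ L (X.z j) * (X.B A j).evalEval X.y₁ X.y -
        X.y * (derivative A).evalEval X.y₁ X.y := by
    rw [← coe_evalEvalRingHom, map_sub, map_sum, map_mul]
    simp only [map_mul, coe_evalEvalRingHom, evalEval_X, evalEval_CC]
  rw [h1]
  have h2 : ∀ j, algebraMap κ L (X.z j) * (X.B A j).evalEval X.y₁ X.y =
      (derivative A).evalEval X.y₁ X.y * (algebraMap κ L (X.z j) * X.x j) := fun j => by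
    rw [← X.B_eval hA j]
    ring
  simp only [h2]
  rw [← Finset.mul_sum]
  have h3 : ∑ j, algebraMap κ L (X.z j) * X.x j = X.y := rfl
  rw [h3]
  ring

theorem gh_lin₂ {κ L : Type*} [Field κ] [IsAlgClosed κ] [CharZero κ] [Field L] [CharZero L]
    [Algebra κ L] {n d : ℕ} (X : Dat κ (L := L) n d) {b : ℕ} {A : L[X][X]} (hA : Crv X b A)
    (h : IsFF κ L)
    (hP0 : ∑ j, C (C (algebraMap κ L (X.z j))) * X.B A j - Polynomial.X * derivative A ≠ 0) :
    gh κ (∑ j, C (C (algebraMap κ L (X.z j))) * X.B A j - Polynomial.X * derivative A) ≤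
      2 * gh κ A + X.Δ := by
  -- as `gh_lin`: constants and the outer variable have absolute value at most `1`
  set P := ∑ j, C (C (algebraMap κ L (X.z j))) * X.B A j - Polynomial.X * derivative A with hP
  have hA0 : A ≠ 0 := hA.irr.ne_zero
  have key : ∀ w : Place κ L, gg w.1 P ≤ gg w.1 A ^ 2 * exp (X.δ w : ℤ) := by
    intro w
    have h1 : 1 ≤ gg w.1 A := one_le_gg hA.one w
    have hc : ∀ j, w.1 (algebraMap κ L (X.z j)) ≤ 1 := by
      intro j
      by_cases hz : X.z j = 0
      · rw [hz, map_zero, map_zero]; exact zero_le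
      · exact (w.2.2 _ hz).le
    have he : (1 : ℤᵐ⁰) ≤ exp (X.δ w : ℤ) := by
      rw [← exp_zero, exp_le_exp]
      exact Int.natCast_nonneg _
    refine (Valuation.map_sub _ _ _).trans (max_le ?_ ?_)
    · refine Valuation.map_sum_le _ fun j _ => ?_
      rw [map_mul, gg_CC]
      calc w.1 (algebraMap κ L (X.z j)) * gg w.1 (X.B A j) ≤ 1 * gg w.1 (X.B A j) :=
            mul_le_mul_left (hc j) _
        _ = gg w.1 (X.B A j) := one_mul _
        _ ≤ _ := X.B_le hA j w
    · rw [map_mul]
      have hX : gg w.1 (Polynomial.X : L[X][X]) = 1 := gn_X _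
      rw [hX, one_mul]
      refine (gg_derivative_le w.1 A).trans ?_
      calc gg w.1 A = gg w.1 A * 1 * 1 := by rw [mul_one, mul_one]
        _ ≤ gg w.1 A * gg w.1 A * exp (X.δ w : ℤ) := by gcongr
        _ = _ := by rw [sq]
  have hs1 := gg_support h hP0
  have hs2 := gg_support h hA0
  have hδ : (Function.support fun w : Place κ L => (X.δ w : ℤ)).Finite := by
    refine X.hδ.subset fun w hw => ?_
    intro h0
    exact hw (by simp only [h0, Nat.cast_zero])
  have hs3 : (Function.support fun w : Place κ L => 2 * log (gg w.1 A)).Finite :=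
    hs2.subset fun w hw h0 => hw (by simp only at h0 ⊢; rw [h0, mul_zero])
  have h4 : gh κ P ≤ ∑ᶠ w : Place κ L, (2 * log (gg w.1 A) + (X.δ w : ℤ)) := by
    refine finsum_mono hs1 ?_ fun w => ?_
    · exact (hs3.union hδ).subset (Function.support_add _ _)
    · have h5 : gg w.1 P ≠ 0 := (gg_eq_zero w.1).not.mpr hP0
      have h6 : gg w.1 A ≠ 0 := (gg_eq_zero w.1).not.mpr hA0
      have h7 := (log_le_log h5 (mul_ne_zero (pow_ne_zero 2 h6) exp_ne_zero)).mpr (key w)
      rw [log_mul (pow_ne_zero 2 h6) exp_ne_zero, log_pow, log_exp] at h7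
      simpa using h7
  refine h4.trans (le_of_eq ?_)
  rw [finsum_add_distrib hs3 hδ, ← mul_finsum]
  rfl

end Pool.Agent.Lib.MP_44a246_ntS
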