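import Mathlib
import Pool.Agent.Lib.MP_44a246_ntS.Names

/-!
Homogenisation.
-/

namespace Pool.Agent.Lib.MP_44a246_ntS

open Pool.Agent.Lib.MP_e52354_nt
open MvPolynomial

/-- a form which does not involve the last coordinate is not a multiple of a form which contains
the pure power of the last coordinate -/
theorem not_dvd_of_degreeOf {K : Type*} [Field K] {s d : ℕ} (hd : 1 ≤ d)
    {F G : MvPolynomial (Fin (s + 1)) K}
    (hF : F.coeff (Finsupp.single (Fin.last s) d) ≠ 0) (hG : G ≠ 0)
    (hG0 : G.degreeOf (Fin.last s) = 0) : ¬ F ∣ G := by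
  classical
  rintro ⟨Q, rfl⟩
  have hF0 : F ≠ 0 := fun h => hF (by rw [h, coeff_zero])
  have hQ0 : Q ≠ 0 := fun h => hG (by rw [h, mul_zero])
  rw [degreeOf_mul_eq hF0 hQ0] at hG0
  have h1 : d ≤ F.degreeOf (Fin.last s) := by
    have h2 := monomial_le_degreeOf (Fin.last s) (mem_support_iff.2 hF)
    simpa using h2
  omega

end Pool.Agent.Lib.MP_44a246_ntS
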